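import Mathlib

set_option autoImplicit false

/-!
# Project EX (MP_7ecdd4_nt, slot 3): statements to be proved

`S_FIB`  k-th powers congruent mod w in a short interval
`S_HOLD` near-coincidences of products (moments of Dirichlet polynomials and Hoelder)
`S_COMB` the combinatorial lemma (elementary real inequalities)
-/

namespace Pool.Agent.H42.EX

open Finset

/-- Numbers coprime to `w` in an interval of length `L` whose `k`-th powers are congruent mod `w`. -/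
def S_FIB : Prop := ∀ k : ℕ, 1 ≤ k → ∀ δ : ℝ, 0 < δ → ∃ C : ℝ, 1 ≤ C ∧ ∀ w : ℕ, 1 ≤ w → ∀ L : ℝ, 0 ≤ L →
  ∀ G : Finset ℕ, (∀ z ∈ G, Nat.Coprime z w) →
  (∀ z ∈ G, ∀ z' ∈ G, (w : ℤ) ∣ (z : ℤ) ^ k - (z' : ℤ) ^ k) →
  (∀ z ∈ G, ∀ z' ∈ G, |(z : ℝ) - (z' : ℝ)| ≤ L) → (G.card : ℝ) ≤ C * (w : ℝ) ^ δ * (1 + L / w)

/-- Points of a box of integers which nearly satisfy one multiplicative relation. -/
def S_HOLD : Prop := ∀ (ι : Type) [Fintype ι] (Q : ℕ) (ε D : ℝ), 0 < ε → 1 ≤ D → ∃ C : ℝ, 1 ≤ C ∧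
  ∀ (H T τ : ℝ) (Z κ : ι → ℝ) (q : ι → ℕ), 1 ≤ T → (∀ i, 1 ≤ Z i ∧ Z i ≤ H) → (∀ i, 1 ≤ |κ i|) →
  (∀ i, 1 ≤ q i ∧ q i ≤ Q ∧ T ≤ Z i ^ q i) → 1 ≤ ∑ i, 1 / (2 * (q i : ℝ)) →
  ∀ G : Finset (ι → ℕ), (∀ z ∈ G, ∀ i, Z i ≤ (z i : ℝ) ∧ (z i : ℝ) ≤ 2 * Z i) →
  (∀ z ∈ G, |τ + ∑ i, κ i * Real.log (z i)| ≤ D / T) →
  (G.card : ℝ) ≤ C * H ^ ε * (∏ i, Z i) / T

/-- The second moment part of `S_HOLD`: the number of near-coincidences of two products of `q` factors. -/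
def S_MOM : Prop := ∀ (q : ℕ) (ε : ℝ), 1 ≤ q → 0 < ε → ∃ C : ℝ, 1 ≤ C ∧
  ∀ (H T Z : ℝ), 1 ≤ T → 1 ≤ Z → Z ≤ H → T ≤ Z ^ q →
  ∀ B : Finset ℕ, (∀ z ∈ B, Z ≤ (z : ℝ) ∧ (z : ℝ) ≤ 2 * Z) →
  ∑ u ∈ Fintype.piFinset (fun _ : Fin q => B), ∑ v ∈ Fintype.piFinset (fun _ : Fin q => B),
    Real.exp (-(T ^ 2 * (∑ i, Real.log (u i) - ∑ i, Real.log (v i)) ^ 2 / 2)) ≤ C * H ^ ε * Z ^ (2 * q) / T

/-- The combinatorial lemma. -/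
def S_COMB : Prop := ∀ (n K : ℕ) (r s : Fin n → ℝ) (z : Fin n → ℕ → ℝ) (j₁ j₂ : Fin n) (l β e : ℝ),
  5 ≤ n → 3 ≤ K → j₁ ≠ j₂ → 0 ≤ e → e ≤ l / 4 →
  (∀ i, 0 ≤ r i ∧ r i ≤ s i ∧ s i ≤ l) → (∀ i k, 0 ≤ z i k) → (∀ i, z i 1 ≤ r i) →
  (∀ i, 2 * r i ≤ s i + z i 1) → (∀ i, 4 * r i ≤ s i + 3 * z i 1 + 2 * z i 2 + z i 3) →
  (3 * (n : ℝ) / 4 - 1) * l ≤ β → ((n : ℝ) - 3) * l + e ≤ β → ∑ i, r i - l ≤ β →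
  -- no saving from one small variable and a large coordinate
  (∀ i j, (j = j₁ ∨ j = j₂) → i ≠ j → ∀ k, 1 ≤ k → k ≤ K → z i 1 + z j k < ∑ i, r i - β) →
  -- no saving from two small coordinates and a large one
  (∀ i m j, i ≠ m → i ≠ j₁ → i ≠ j₂ → m ≠ j₁ → m ≠ j₂ → (j = j₁ ∨ j = j₂) → ∀ k, 1 ≤ k → k ≤ K →
    min (z i 1 + z m 1) (max (s i) (s m)) + min (z j k) (l - max (s i) (s m)) < ∑ i, r i - β) →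
  -- no saving from two small coordinates and all of the two large ones
  (∀ i m, i ≠ m → i ≠ j₁ → i ≠ j₂ → m ≠ j₁ → m ≠ j₂ → (∀ t, t ≠ j₁ → t ≠ j₂ → s t ≤ max (s i) (s m)) →
    ∀ y, 0 ≤ y → y ≤ l - max (s i) (s m) → (∀ j, (j = j₁ ∨ j = j₂) → ∀ k, 1 ≤ k → k ≤ K → z j k ≤ y) →
    4 * y + e ≤ r j₁ + r j₂ → min (z i 1 + z m 1) (max (s i) (s m)) + y < ∑ i, r i - β) →
  False

end Pool.Agent.H42.EX
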