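import Pool.Agent.H42.EX.Defs
import Pool.Agent.H42.EX.Lib.Exact
import Pool.Agent.H42.EX.Stm
import Pool.Agent.H42.SN.Count2

set_option autoImplicit false

/-!
# Project EX (MP_7ecdd4_nt, slot 3): more statements to be proved

`S_LOW`, `S_BAR`: lower bounds (use `SN.fullCount`, see `SN/Count3.lean` for the pattern)
`S_PAIR`, `S_F1`, `S_F2`, `S_F3`: the fibres of the codes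
`S_EXA`: from the bound for blocks to the exact exponents (copy of `Lib/Cnt.lean`, `Lib/Exact.lean`)
-/

namespace Pool.Agent.H42.EX

open Finset Filter Topology
open Pool.Agent.Q38.NC

/-- Many tuples with small radical, exponents between `n - 2` and `n - 1`. -/
def S_LOW : Prop := ∀ n : ℕ, 5 ≤ n → ∀ lam ε : ℝ, (n : ℝ) - 2 < lam → lam < (n : ℝ) - 1 → 0 < ε →
  ∀ᶠ X : ℝ in atTop, ∃ F : Finset (Fin n → ℤ), X ^ (lam - 1 - ε) ≤ (F.card : ℝ) ∧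
    ∀ x ∈ F, SN.Adm x ∧ SN.NVS x ∧ (SN.size x : ℝ) ≤ X ∧
      (SN.radN (∏ i, x i) : ℝ) < (SN.size x : ℝ) ^ lam

/-- Many tuples containing `a + h` and `-a`. -/
def S_BAR : Prop := ∀ n : ℕ, 5 ≤ n → ∀ y ε : ℝ, 0 < y → y < 1 → 0 < ε → ∃ a₀ : ℕ, ∀ a : ℕ, a₀ ≤ a →
  ∀ h : ℕ, ((Odd n ∧ h = 1) ∨ (Even n ∧ h = 2 ∧ Odd a)) →
  ∃ F : Finset (Fin n → ℤ), (a : ℝ) ^ (((n : ℝ) - 3) * y - ε) ≤ (F.card : ℝ) ∧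
    ∀ x ∈ F, SN.Adm x ∧ SN.NVS x ∧ a ≤ SN.size x ∧ SN.size x ≤ a + h ∧
      (SN.radN (∏ i, x i) : ℝ) ≤ (SN.radN ((a : ℤ) * ((a : ℤ) + (h : ℤ))) : ℝ) * (a : ℝ) ^ (((n : ℝ) - 2) * y + ε)

/-- Tuples which agree outside two coordinates. -/
def S_PAIR : Prop := ∀ (n : ℕ) (i m : Fin n) (u u' : ℤ) (A A' X : ℝ), i ≠ m → 1 ≤ A → 1 ≤ A' → 1 ≤ X →
  ∀ G : Finset (Fin n → ℤ), (∀ x ∈ G, Adm x ∧ X ≤ ((x m).natAbs : ℝ) ∧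
    ∃ a a' : ℕ, x i = u * a ∧ x m = u' * a' ∧ (a : ℝ) ≤ 2 * A ∧ (a' : ℝ) ≤ 2 * A') →
  (∀ x ∈ G, ∀ y ∈ G, ∀ t, t ≠ i → t ≠ m → x t = y t) → (G.card : ℝ) ≤ 1 + 8 * A * A' / X

/-- The fibres of the first code. -/
def S_F1 : Prop := ∀ (n k : ℕ), 1 ≤ k → ∀ δ : ℝ, 0 < δ → ∃ C : ℝ, 1 ≤ C ∧
  ∀ (H : ℕ) (i j : Fin n) (u v : ℤ) (A Z : ℝ), 1 ≤ H → i ≠ j → 1 ≤ A → 1 ≤ Z →
  ∀ G : Finset (Fin n → ℤ), (∀ x ∈ G, Adm x ∧ (x i).natAbs ≤ H ∧ H ≤ 2 * n * (x j).natAbs ∧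
    ∃ a b : ℕ, x i = u * a ∧ x j = v * (b : ℤ) ^ k ∧ (a : ℝ) ≤ 2 * A ∧ Z ≤ (b : ℝ) ∧ (b : ℝ) ≤ 2 * Z) →
  (∀ x ∈ G, ∀ y ∈ G, ∀ t, t ≠ i → t ≠ j → x t = y t) →
  (G.card : ℝ) ≤ C * (H : ℝ) ^ δ * (1 + A * Z / H)

/-- The fibres of the second code. -/
def S_F2 : Prop := ∀ (n k : ℕ), 1 ≤ k → ∃ C : ℝ, 1 ≤ C ∧
  ∀ (H : ℕ) (i m j : Fin n) (u u' v : ℤ) (A A' Z X : ℝ), 1 ≤ H → i ≠ m → i ≠ j → m ≠ j →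
  1 ≤ A → 1 ≤ A' → 1 ≤ Z → 1 ≤ X →
  ∀ G : Finset (Fin n → ℤ), (∀ x ∈ G, Adm x ∧ ((x i).natAbs : ℝ) ≤ 2 * X ∧ X ≤ ((x m).natAbs : ℝ) ∧
    ((x m).natAbs : ℝ) ≤ 2 * X ∧ H ≤ 2 * n * (x j).natAbs ∧
    ∃ a a' b : ℕ, x i = u * a ∧ x m = u' * a' ∧ x j = v * (b : ℤ) ^ k ∧ (a : ℝ) ≤ 2 * A ∧
      (a' : ℝ) ≤ 2 * A' ∧ Z ≤ (b : ℝ) ∧ (b : ℝ) ≤ 2 * Z) →
  (∀ x ∈ G, ∀ y ∈ G, ∀ t, t ≠ i → t ≠ m → t ≠ j → x t = y t) →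
  (G.card : ℝ) ≤ C * (1 + Z * X / H) * (1 + A * A' / X)

/-- The fibres of the third code. -/
def S_F3 : Prop := ∀ (n K Q : ℕ) (δ : ℝ), 0 < δ → ∃ C : ℝ, 1 ≤ C ∧
  ∀ (H : ℕ) (i m : Fin n) (j : Fin 2 → Fin n) (u u' : ℤ) (v : Fin 2 → ℤ) (A A' X T : ℝ)
    (Z : Fin 2 × Fin K → ℝ) (q : Fin 2 × Fin K → ℕ) (I : Finset (Fin 2 × Fin K)),
  1 ≤ H → i ≠ m → j 0 ≠ j 1 → (∀ c, i ≠ j c ∧ m ≠ j c) →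
  1 ≤ A → 1 ≤ A' → 1 ≤ X → 1 ≤ T → T * X ≤ 2 * H → (∀ p, 1 ≤ Z p ∧ Z p ≤ H) →
  (∀ p ∈ I, 1 ≤ q p ∧ q p ≤ Q ∧ T ≤ Z p ^ q p) → 1 ≤ ∑ p ∈ I, 1 / (2 * (q p : ℝ)) →
  ∀ G : Finset (Fin n → ℤ), (∀ x ∈ G, Adm x ∧ (∀ c, H ≤ 2 * n * (x (j c)).natAbs) ∧
    (∀ t, (∀ c, t ≠ j c) → ((x t).natAbs : ℝ) ≤ 2 * X) ∧ X ≤ ((x m).natAbs : ℝ) ∧
    ∃ (a a' : ℕ) (b : Fin 2 × Fin K → ℕ), x i = u * a ∧ x m = u' * a' ∧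
      (∀ c, x (j c) = v c * ∏ k : Fin K, (b (c, k) : ℤ) ^ ((k : ℕ) + 1)) ∧ (a : ℝ) ≤ 2 * A ∧
      (a' : ℝ) ≤ 2 * A' ∧ ∀ p, Z p ≤ (b p : ℝ) ∧ (b p : ℝ) ≤ 2 * Z p) →
  (∀ x ∈ G, ∀ y ∈ G, ∀ t, t ≠ i → t ≠ m → (∀ c, t ≠ j c) → x t = y t) →
  (G.card : ℝ) ≤ C * (H : ℝ) ^ δ * ((∏ p, Z p) / T) * (1 + A * A' / X)

/-- The bound for a block of heights with exponent `g`. -/
def BLK (n : ℕ) (g : ℝ) : Prop := ∀ δ : ℝ, 0 < δ → ∃ C : ℝ, 1 ≤ C ∧ ∀ H : ℕ, 1 ≤ H →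
    ∀ R : ℝ, 0 ≤ R → ∀ G : Finset (Fin n → ℤ), (∀ x ∈ G, Adm x ∧ (∀ i, (x i).natAbs ≤ H) ∧
      (∃ i, H ≤ 2 * (x i).natAbs) ∧ PR x ≤ R) →
    (G.card : ℝ) ≤ C * (H : ℝ) ^ δ * ((H : ℝ) ^ g + R / H)

open Pool.Agent.Q38.AE.Cov in
/-- From the bound for blocks to the exact exponents. -/
def S_EXA : Prop := ∀ (n : ℕ) (g : ℝ), 5 ≤ n → (n : ℝ) - 3 ≤ g → g < (n : ℝ) - 1 → BLK n g →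
  -- the hypothesis on lower bounds: for all exponents `1/M` above `g + 1`
  (∀ M : ℝ, 1 / (n : ℝ) < M → M < 1 / (g + 1) → ∀ ε : ℝ, 0 < ε → ∀ᶠ B : ℝ in atTop,
    ∃ G : Finset (Fin n → ℤ), (∀ x ∈ G, Adm x ∧ NV x ∧ (ht x : ℝ) ≤ B ∧ (RX x : ℝ) < (ht x : ℝ) ^ (1 / M)) ∧
      B ^ (1 / M - 1 - ε) ≤ (G.card : ℝ)) →
  ∀ P : (Fin n → ℤ) → Prop, (∀ x, P x → Adm x) → (∀ x, Adm x → NV x → P x) →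
  -- the upper bound for all exponents
  (∀ s : ℝ, 0 < s → s ≤ 1 → ∀ δ : ℝ, 0 < δ → ∃ C : ℝ, ∀ B : ℝ, 1 ≤ B → (A P lh lr s B).Finite ∧
      ((A P lh lr s B).ncard : ℝ) ≤ C * B ^ (max g (1 / s - 1) + δ)) ∧
  -- the exact exponents
  ∀ M : ℝ, 1 / (n : ℝ) < M → M < 1 / (g + 1) →
    Tendsto (fun X : ℝ => Real.log ((Z P M X).ncard : ℝ) / Real.log X) atTop (𝓝 (1 / M - 1)) ∧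
    ∀ L : ℝ, M < L → L ≤ (1 - M) / g →
      (∀ X : ℝ, 1 ≤ X → (F P lh lr M L X).Finite) ∧
      Tendsto (fun X : ℝ => Real.log ((F P lh lr M L X).ncard : ℝ) / Real.log X) atTop (𝓝 (1 - M))

end Pool.Agent.H42.EX
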