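import Pool.Agent.H42.EX.Par
import Pool.Agent.H42.EX.Stm2

set_option autoImplicit false

/-!
# Project EX: many tuples containing `a + h` and `-a`
-/

namespace Pool.Agent.H42.EX.Bar

open Finset Filter Topology
open Pool.Agent.H42.SN

/-- The core `(a + h, -a)`. -/
theorem core_bar {a h : ℕ} (ha : 0 < a) (hh : (h = 1) ∨ (h = 2 ∧ Odd a)) :
    Core (![(a : ℤ) + h, -(a : ℤ)] : Fin 2 → ℤ) := by
  have hh0 : 0 < h := by rcases hh with h1 | ⟨h1, -⟩ <;> omega
  have hcop : IsCoprime ((a : ℤ) + h) (-(a : ℤ)) := by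
    have h1 : IsCoprime (h : ℤ) (a : ℤ) := by
      rcases hh with h1 | ⟨h1, h2⟩
      · rw [h1, Nat.cast_one]; exact isCoprime_one_left
      · rw [h1]
        exact Nat.isCoprime_iff_coprime.mpr (Nat.coprime_two_left.mpr h2)
    have h2 : IsCoprime ((a : ℤ) + h) (a : ℤ) := by
      have := h1.add_mul_left_left 1
      rwa [mul_one, add_comm] at this
    exact h2.neg_right
  refine ⟨?_, ?_, ?_⟩
  · intro i
    fin_cases i
    · show (a : ℤ) + h ≠ 0
      omega
    · show -(a : ℤ) ≠ 0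
      omega
  · intro i i' hi
    fin_cases i <;> fin_cases i'
    · exact absurd rfl hi
    · exact hcop
    · exact hcop.symm
    · exact absurd rfl hi
  · intro S hS
    have e : ∑ i ∈ S, (![(a : ℤ) + h, -(a : ℤ)] : Fin 2 → ℤ) i =
        (if (0 : Fin 2) ∈ S then (a : ℤ) + h else 0) + (if (1 : Fin 2) ∈ S then -(a : ℤ) else 0) := by
      have h1 : ∑ i ∈ S, (![(a : ℤ) + h, -(a : ℤ)] : Fin 2 → ℤ) i =
          ∑ i, if i ∈ S then (![(a : ℤ) + h, -(a : ℤ)] : Fin 2 → ℤ) i else 0 := by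
        rw [Finset.sum_ite_mem, Finset.univ_inter]
      rw [h1, Fin.sum_univ_two]
      simp
    rw [e]
    by_cases h0 : (0 : Fin 2) ∈ S <;> by_cases h1 : (1 : Fin 2) ∈ S
    · rw [if_pos h0, if_pos h1]; omega
    · rw [if_pos h0, if_neg h1]; omega
    · rw [if_neg h0, if_pos h1]; omega
    · exfalso
      obtain ⟨i, hi⟩ := hS
      fin_cases i
      · exact h0 hi
      · exact h1 hi

theorem main : S_BAR := by
  classical
  intro n hn y ε hy hy1 hε
  obtain ⟨t, rfl⟩ : ∃ t, n = 2 + t + 2 := ⟨n - 4, by omega⟩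
  have hnR : ((2 + t + 2 : ℕ) : ℝ) = t + 4 := by push_cast; ring
  have htR : (0 : ℝ) ≤ (t : ℝ) := by positivity
  set θ : ℝ := min (ε / (3 * (t + 1))) (1 / 8) with hθ
  have hθ0 : 0 < θ := lt_min (by positivity) (by norm_num)
  have hθ1 : 3 * (t + 1) * θ ≤ ε := by
    have h1 : θ ≤ ε / (3 * (t + 1)) := min_le_left _ _
    rw [le_div_iff₀ (by positivity)] at h1
    linarith
  have hθ3 : θ ≤ 1 / 8 := min_le_right _ _
  set cst : ℝ := (t + 2) * (2 * t + 3) with hcst
  have hcst0 : 0 < cst := by rw [hcst]; positivity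
  have ev1 : ∀ᶠ T : ℝ in atTop, (2 ≤ T ∧ (t : ℝ) + 1 ≤ T) ∧
      ∃ Y N : ℕ, Par (2 + t) t T ((3 / y + t + 2) * Real.log T) Y N ∧ T ^ (1 - 3 * θ) ≤ (N : ℝ) :=
    ((eventually_ge_atTop 2).and (eventually_ge_atTop _)).and
      (Par.ev_par (2 + t) t (κ := 3 / y + t + 2) (by positivity) hθ0 hθ3)
  have ev2 : ∀ᶠ a : ℝ in atTop, 2 ≤ a ∧ (2 * (t : ℝ) + 3 ≤ 1 * a ^ (1 - y)) ∧ (cst ≤ 1 * a ^ ε) ∧
      ((2 ≤ a ^ y ∧ (t : ℝ) + 1 ≤ a ^ y) ∧
      ∃ Y N : ℕ, Par (2 + t) t (a ^ y) ((3 / y + t + 2) * Real.log (a ^ y)) Y N ∧ (a ^ y) ^ (1 - 3 * θ) ≤ (N : ℝ)) :=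
    (eventually_ge_atTop 2).and ((ev_const_le (by linarith) one_pos).and
      ((ev_const_le hε one_pos).and ((tendsto_rpow_atTop hy).eventually ev1)))
  obtain ⟨a₀, ha₀⟩ := eventually_atTop.mp (tendsto_natCast_atTop_atTop.eventually ev2)
  refine ⟨a₀, ?_⟩
  intro a ha h hh
  obtain ⟨g1, g2, g3, ⟨g4, g5⟩, Y, N, hpar, hN⟩ := ha₀ a ha
  rw [one_mul] at g2 g3
  set T : ℝ := (a : ℝ) ^ y with hT
  have hA0 : (0 : ℝ) < a := by linarith
  have hA1 : (1 : ℝ) ≤ a := by linarith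
  have ha2 : 2 ≤ a := by exact_mod_cast g1
  have hT0 : 0 < T := by linarith
  have hT1 : 1 ≤ T := by linarith
  have hlogT : 0 ≤ Real.log T := Real.log_nonneg hT1
  have hh' : (h = 1) ∨ (h = 2 ∧ Odd a) := by
    rcases hh with ⟨-, h1⟩ | ⟨-, h1, h2⟩
    · exact Or.inl h1
    · exact Or.inr ⟨h1, h2⟩
  have hh2 : h ≤ 2 := by rcases hh' with h1 | ⟨h1, -⟩ <;> omega
  have hh0 : 0 < h := by rcases hh' with h1 | ⟨h1, -⟩ <;> omega
  have hh2R : (h : ℝ) ≤ 2 := by exact_mod_cast hh2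
  have hsum : ∑ i, (![(a : ℤ) + h, -(a : ℤ)] : Fin 2 → ℤ) i = h := by simp
  have hprod : ∏ i, (![(a : ℤ) + h, -(a : ℤ)] : Fin 2 → ℤ) i = ((a : ℤ) + h) * (-(a : ℤ)) := by simp
  obtain ⟨F, hF1, hF2⟩ := fullCount hpar (le_refl (2 + t)) (core_bar (by omega) hh')
    (by
      rw [hsum]
      rcases hh with ⟨h1, h2⟩ | ⟨h1, h2, -⟩
      · have h3 : Even (h + t) := by
          rw [h2]
          obtain ⟨z, hz⟩ := h1
          exact ⟨z - 1, by omega⟩
        exact_mod_cast h3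
      · have h3 : Even (h + t) := by
          rw [h2]
          obtain ⟨z, hz⟩ := h1
          exact ⟨z - 1, by omega⟩
        exact_mod_cast h3)
    (by rw [hsum]; exact_mod_cast hh0.ne')
    (by
      rw [hsum]
      push_cast
      rw [abs_of_nonneg (by positivity)]
      linarith)
    (by
      rw [hprod]
      push_cast
      rw [mul_neg, abs_neg, abs_of_nonneg (by positivity)]
      have h1 : ((a : ℝ) + h) * a ≤ (a : ℝ) ^ 3 := by
        have : (a : ℝ) + h ≤ a ^ 2 := by nlinarith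
        nlinarith
      have h2 : Real.log (((a : ℝ) + h) * a) ≤ 3 * Real.log a := by
        have := Real.log_le_log (by positivity) h1
        rwa [Real.log_pow] at this
      have h3 : Real.log T = y * Real.log a := by rw [hT, Real.log_rpow hA0]
      have h4 : 3 / y * Real.log T = 3 * Real.log a := by
        rw [h3]; field_simp
      have h5 : Real.log ((t + 1) * T) ≤ 2 * Real.log T := by
        have h1 : ((t : ℝ) + 1) * T ≤ T * T := mul_le_mul g5 le_rfl hT0.le hT0.le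
        have h2 := Real.log_le_log (by positivity) h1
        rw [Real.log_mul hT0.ne' hT0.ne'] at h2
        linarith
      linarith)
  refine ⟨F, ?_, ?_⟩
  · have h1 : (a : ℝ) ^ ((((2 + t + 2 : ℕ) : ℝ) - 3) * y - ε) ≤ (T ^ (1 - 3 * θ)) ^ (t + 1) := by
      rw [← Real.rpow_natCast (T ^ (1 - 3 * θ)), ← Real.rpow_mul hT0.le, hT, ← Real.rpow_mul hA0.le]
      apply Real.rpow_le_rpow_of_exponent_le hA1
      rw [hnR]
      push_cast
      have h2 : 3 * ((t : ℝ) + 1) * θ * y ≤ 3 * (t + 1) * θ * 1 :=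
        mul_le_mul_of_nonneg_left hy1.le (by positivity)
      nlinarith
    calc (a : ℝ) ^ ((((2 + t + 2 : ℕ) : ℝ) - 3) * y - ε) ≤ (T ^ (1 - 3 * θ)) ^ (t + 1) := h1
      _ ≤ (N : ℝ) ^ (t + 1) := pow_le_pow_left₀ (by positivity) hN _
      _ ≤ (F.card : ℝ) := by exact_mod_cast hF1
  · intro x hx
    obtain ⟨x1, x2, x3, x4, x5⟩ := hF2 x hx
    have hs1 : (a : ℝ) ≤ size x := by
      have h1 := le_size x (Fin.castAdd t (1 : Fin 2)).castSucc.castSucc
      rw [x3 1] at h1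
      simp only [Fin.isValue, Matrix.cons_val_one, Matrix.cons_val_fin_one] at h1
      push_cast at h1
      rwa [abs_neg, abs_of_pos hA0] at h1
    have hs2 : (size x : ℝ) ≤ (a : ℝ) + h := by
      refine size_le (by positivity) ?_
      intro i
      rcases x5 i with ⟨i', hi⟩ | hi
      · rw [hi]
        fin_cases i'
        · show |(((a : ℤ) + (h : ℤ) : ℤ) : ℝ)| ≤ _
          push_cast
          rw [abs_of_nonneg (by positivity)]
        · show |((-(a : ℤ) : ℤ) : ℝ)| ≤ _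
          push_cast
          rw [abs_neg, abs_of_pos hA0]
          have : (0 : ℝ) ≤ h := by positivity
          linarith
      · refine hi.trans ?_
        have h1 : (2 * (t : ℝ) + 3) * T ≤ a ^ (1 - y) * a ^ y := by
          rw [hT]
          exact mul_le_mul_of_nonneg_right g2 (by positivity)
        have h2 : (a : ℝ) ^ (1 - y) * a ^ y = a := by rw [← Real.rpow_add hA0]; simp
        have : (0 : ℝ) ≤ h := by positivity
        linarith
    refine ⟨x1, x2, by exact_mod_cast hs1, by exact_mod_cast hs2, ?_⟩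
    have hr : radN (∏ i, (![(a : ℤ) + h, -(a : ℤ)] : Fin 2 → ℤ) i) = radN ((a : ℤ) * ((a : ℤ) + (h : ℤ))) := by
      rw [hprod]
      unfold radN
      have : (((a : ℤ) + h) * (-(a : ℤ))).natAbs = ((a : ℤ) * ((a : ℤ) + (h : ℤ))).natAbs := by
        rw [Int.natAbs_mul, Int.natAbs_mul, Int.natAbs_neg, mul_comm]
      rw [this]
    rw [hr] at x4
    refine x4.trans ?_
    rw [mul_assoc]
    apply mul_le_mul_of_nonneg_left _ (by positivity)
    have h1 : T ^ (t + 2) = (a : ℝ) ^ ((((2 + t + 2 : ℕ) : ℝ) - 2) * y) := by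
      rw [hT, ← Real.rpow_natCast, ← Real.rpow_mul hA0.le, hnR]
      congr 1
      push_cast; ring
    rw [h1, Real.rpow_add hA0, mul_comm]
    exact mul_le_mul_of_nonneg_left g3 (by positivity)

end Pool.Agent.H42.EX.Bar
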