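import Pool.Agent.H42.EX.Final

set_option autoImplicit false

/-!
# Project EX2: the barrier for all exponents
-/

namespace Pool.Agent.H42.EX

open Finset Filter Topology
open Pool.Agent.Q38.NC

/-- A bound for the number of exceptions gives a lower bound for `rad (a (a + h))`. -/
theorem barrier2 {n : ℕ} (hn : 5 ≤ n) {u g : ℝ} (hu : 0 ≤ u) (hg0 : 0 ≤ g) (hg : g < (n : ℝ) - 3)
    (N : ℝ → ℝ) (hN : ∀ X : ℝ, ∀ F : Finset (Fin n → ℤ), (∀ x ∈ F, SN.Adm x ∧ SN.NVS x ∧ (SN.size x : ℝ) ≤ X ∧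
      (SN.radN (∏ i, x i) : ℝ) < (SN.size x : ℝ) ^ u) → (F.card : ℝ) ≤ N X)
    (hup : ∀ ε : ℝ, 0 < ε → ∃ C : ℝ, ∀ X : ℝ, 1 ≤ X → N X ≤ C * X ^ (g + ε)) {ε : ℝ} (hε : 0 < ε) :
    ∃ δ : ℝ, 0 < δ ∧ ∃ a₀ : ℕ, ∀ a : ℕ, a₀ ≤ a → ∀ h : ℕ, 1 ≤ h → (h : ℝ) ≤ (a : ℝ) ^ (g / ((n : ℝ) - 3) + δ) →
      Nat.Coprime a h → Even (n + h) →
      (a : ℝ) ^ (u - ((n : ℝ) - 2) * g / ((n : ℝ) - 3) - ε) ≤ (SN.radN ((a : ℤ) * ((a : ℤ) + (h : ℤ))) : ℝ) := by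
  have hnR : (5 : ℝ) ≤ n := by exact_mod_cast hn
  have hn2 : (0 : ℝ) < (n : ℝ) - 2 := by linarith
  have hn3 : (0 : ℝ) < (n : ℝ) - 3 := by linarith
  obtain ⟨c, hc⟩ : ∃ c : ℝ, c = u - ((n : ℝ) - 2) * g / ((n : ℝ) - 3) := ⟨_, rfl⟩
  have hc' : (u - c) * ((n : ℝ) - 3) = ((n : ℝ) - 2) * g := by rw [hc]; field_simp; ring
  obtain ⟨e, he⟩ : ∃ e : ℝ, e = min ε (1 - g / ((n : ℝ) - 3)) := ⟨_, rfl⟩
  have hg1 : g / ((n : ℝ) - 3) < 1 := by rw [div_lt_one hn3]; exact hg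
  have hg2 : 0 ≤ g / ((n : ℝ) - 3) := by positivity
  have he0 : 0 < e := by rw [he]; exact lt_min hε (by linarith)
  have he1 : e ≤ ε := by rw [he]; exact min_le_left _ _
  have he2 : e ≤ 1 - g / ((n : ℝ) - 3) := by rw [he]; exact min_le_right _ _
  obtain ⟨y, hy⟩ : ∃ y : ℝ, y = g / ((n : ℝ) - 3) + e / (2 * ((n : ℝ) - 2)) := ⟨_, rfl⟩
  have hye : 0 < e / (2 * ((n : ℝ) - 2)) := by positivity
  have hye2 : e / (2 * ((n : ℝ) - 2)) < e := by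
    rw [div_lt_iff₀ (by positivity)]
    nlinarith
  have hy0 : 0 < y := by rw [hy]; linarith
  have hy1 : y < 1 := by rw [hy]; linarith
  have hy2 : ((n : ℝ) - 2) * y = u - c + e / 2 := by
    rw [hy, hc]
    field_simp
    ring
  have hy3 : ((n : ℝ) - 3) * y = g + ((n : ℝ) - 3) / ((n : ℝ) - 2) * (e / 2) := by
    rw [hy]
    field_simp
  have hfrac : 2 / 3 ≤ ((n : ℝ) - 3) / ((n : ℝ) - 2) := by
    rw [div_le_div_iff₀ (by norm_num) hn2]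
    linarith
  obtain ⟨η, hη⟩ : ∃ η : ℝ, η = e / 16 := ⟨_, rfl⟩
  have hη0 : 0 < η := by rw [hη]; positivity
  obtain ⟨a₁, ha₁⟩ := barG n hn y η hy0 hy1 hη0
  obtain ⟨C, hC⟩ := hup η hη0
  obtain ⟨γ, hγ⟩ : ∃ γ : ℝ, γ = ((n : ℝ) - 3) * y - η - (g + η) := ⟨_, rfl⟩
  have hγ0 : 0 < γ := by
    rw [hγ, hy3, hη]
    have : 2 / 3 * (e / 2) ≤ ((n : ℝ) - 3) / ((n : ℝ) - 2) * (e / 2) :=
      mul_le_mul_of_nonneg_right hfrac (by positivity)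
    linarith
  have hev : ∀ᶠ a : ℕ in atTop, |C| * 3 ^ (g + η) < (a : ℝ) ^ γ := by
    have h1 : Tendsto (fun a : ℕ => (a : ℝ) ^ γ) atTop atTop :=
      (tendsto_rpow_atTop hγ0).comp tendsto_natCast_atTop_atTop
    exact h1.eventually (eventually_gt_atTop _)
  obtain ⟨a₂, ha₂⟩ := eventually_atTop.1 hev
  refine ⟨e / (2 * ((n : ℝ) - 2)), hye, max (max a₁ a₂) 1, fun a ha h hh1 hha hcop hpar => ?_⟩
  rw [← hy] at hha
  have g1 : a₁ ≤ a := (le_max_left _ _).trans ((le_max_left _ _).trans ha)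
  have g2 : a₂ ≤ a := (le_max_right _ _).trans ((le_max_left _ _).trans ha)
  have g3 : 1 ≤ a := (le_max_right _ _).trans ha
  have haR : (1 : ℝ) ≤ a := by exact_mod_cast g3
  have ha0 : (0 : ℝ) < a := by linarith
  have hha' : (h : ℝ) ≤ a := by
    refine hha.trans ?_
    calc (a : ℝ) ^ y ≤ (a : ℝ) ^ (1 : ℝ) := Real.rpow_le_rpow_of_exponent_le haR hy1.le
      _ = a := Real.rpow_one _
  rw [← hc]
  by_contra hlt
  rw [not_le] at hlt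
  have hlt' : (SN.radN ((a : ℤ) * ((a : ℤ) + (h : ℤ))) : ℝ) < (a : ℝ) ^ (c - e) :=
    lt_of_lt_of_le hlt (Real.rpow_le_rpow_of_exponent_le haR (by linarith))
  obtain ⟨F, hF1, hF2⟩ := ha₁ a g1 h hh1 hha hcop hpar
  have hF : (F.card : ℝ) ≤ N (3 * a) := by
    refine hN _ F fun x hx => ?_
    obtain ⟨k1, k2, k3, k4, k5⟩ := hF2 x hx
    have ks : (a : ℝ) ≤ SN.size x := by exact_mod_cast k3
    refine ⟨k1, k2, ?_, ?_⟩
    · have k6 : (SN.size x : ℝ) ≤ (a : ℝ) + h := by exact_mod_cast k4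
      linarith
    · calc (SN.radN (∏ i, x i) : ℝ) ≤
            (SN.radN ((a : ℤ) * ((a : ℤ) + (h : ℤ))) : ℝ) * (a : ℝ) ^ (((n : ℝ) - 2) * y + η) := k5
        _ < (a : ℝ) ^ (c - e) * (a : ℝ) ^ (((n : ℝ) - 2) * y + η) :=
            mul_lt_mul_of_pos_right hlt' (by positivity)
        _ = (a : ℝ) ^ (c - e + (((n : ℝ) - 2) * y + η)) := by rw [← Real.rpow_add ha0]
        _ ≤ (a : ℝ) ^ u := by
            apply Real.rpow_le_rpow_of_exponent_le haR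
            rw [hy2, hη]
            linarith
        _ ≤ (SN.size x : ℝ) ^ u := Real.rpow_le_rpow ha0.le ks hu
  have h6 : (a : ℝ) ^ (((n : ℝ) - 3) * y - η) ≤ |C| * 3 ^ (g + η) * (a : ℝ) ^ (g + η) := by
    calc (a : ℝ) ^ (((n : ℝ) - 3) * y - η) ≤ F.card := hF1
      _ ≤ N (3 * a) := hF
      _ ≤ C * (3 * (a : ℝ)) ^ (g + η) := hC _ (by linarith)
      _ ≤ |C| * (3 * (a : ℝ)) ^ (g + η) := mul_le_mul_of_nonneg_right (le_abs_self C) (by positivity)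
      _ = _ := by rw [Real.mul_rpow (by norm_num) ha0.le]; ring
  have h7 := ha₂ a g2
  have h8 : (a : ℝ) ^ (((n : ℝ) - 3) * y - η) = (a : ℝ) ^ γ * (a : ℝ) ^ (g + η) := by
    rw [← Real.rpow_add ha0]
    congr 1
    rw [hγ]; ring
  rw [h8] at h6
  have h9 : (0 : ℝ) < (a : ℝ) ^ (g + η) := by positivity
  have h10 := le_of_mul_le_mul_right h6 h9
  linarith

end Pool.Agent.H42.EX
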