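import Pool.Agent.H42.EX.Par
import Mathlib

set_option autoImplicit false

/-!
# Project EX: many tuples containing `a + h` and `-a`
-/

namespace Pool.Agent.H42.EX

open Finset Filter Topology
open Pool.Agent.H42.SN

theorem core_two {a h : ℕ} (ha : 1 ≤ a) (hh : 1 ≤ h) (hc : Nat.Coprime a h) :
    Core (![((a : ℤ) + h), -(a : ℤ)] : Fin 2 → ℤ) := by
  have ha0 : (0 : ℤ) < a := by exact_mod_cast ha
  have hh0 : (0 : ℤ) < h := by exact_mod_cast hh
  have hcop : IsCoprime ((a : ℤ) + h) (-(a : ℤ)) := by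
    rw [IsCoprime.neg_right_iff]
    have h1 : IsCoprime (h : ℤ) (a : ℤ) := (Nat.isCoprime_iff_coprime.2 hc).symm
    have h2 := IsCoprime.add_mul_left_left h1 1
    rw [mul_one] at h2
    rwa [add_comm] at h2
  constructor
  · intro i
    fin_cases i
    · show (a : ℤ) + h ≠ 0
      omega
    · show -(a : ℤ) ≠ 0
      omega
  · intro i j hij
    fin_cases i <;> fin_cases j
    · exact absurd rfl hij
    · exact hcop
    · exact hcop.symm
    · exact absurd rfl hij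
  · intro S hS
    have h1 : ∑ i ∈ S, (![((a : ℤ) + h), -(a : ℤ)] : Fin 2 → ℤ) i =
        (if (0 : Fin 2) ∈ S then ((a : ℤ) + h) else 0) + (if (1 : Fin 2) ∈ S then -(a : ℤ) else 0) := by
      have h2 : ∑ i ∈ S, (![((a : ℤ) + h), -(a : ℤ)] : Fin 2 → ℤ) i =
          ∑ i, if i ∈ S then (![((a : ℤ) + h), -(a : ℤ)] : Fin 2 → ℤ) i else 0 := by
        rw [Finset.sum_ite_mem, univ_inter]
      rw [h2, Fin.sum_univ_two]
      rfl
    rw [h1]
    split_ifs with c0 c1 c1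
    · omega
    · omega
    · omega
    · exfalso
      obtain ⟨i, hi⟩ := hS
      fin_cases i
      · exact c0 hi
      · exact c1 hi

/-- Many tuples containing `a + h` and `-a`, for all small `h` coprime to `a` of the right parity. -/
theorem barG (n : ℕ) (hn : 5 ≤ n) (y ε : ℝ) (hy0 : 0 < y) (hy1 : y < 1) (hε : 0 < ε) :
    ∃ a₀ : ℕ, ∀ a : ℕ, a₀ ≤ a → ∀ h : ℕ, 1 ≤ h → (h : ℝ) ≤ (a : ℝ) ^ y → Nat.Coprime a h → Even (n + h) →
      ∃ F : Finset (Fin n → ℤ), (a : ℝ) ^ (((n : ℝ) - 3) * y - ε) ≤ (F.card : ℝ) ∧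
        ∀ x ∈ F, SN.Adm x ∧ SN.NVS x ∧ a ≤ SN.size x ∧ SN.size x ≤ a + h ∧
          (SN.radN (∏ i, x i) : ℝ) ≤
            (SN.radN ((a : ℤ) * ((a : ℤ) + (h : ℤ))) : ℝ) * (a : ℝ) ^ (((n : ℝ) - 2) * y + ε) := by
  obtain ⟨t, rfl⟩ : ∃ t, n = 2 + t + 2 := ⟨n - 4, by omega⟩
  have ht1 : 1 ≤ t := by omega
  have htR : (1 : ℝ) ≤ (t : ℝ) := by exact_mod_cast ht1
  obtain ⟨θ, hθ⟩ : ∃ θ : ℝ, θ = min (1 / 8) (ε / (3 * (t + 1))) := ⟨_, rfl⟩
  have hθ0 : 0 < θ := by rw [hθ]; exact lt_min (by norm_num) (by positivity)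
  have hθ1 : θ ≤ 1 / 8 := by rw [hθ]; exact min_le_left _ _
  have hθ2 : 3 * (t + 1) * θ ≤ ε := by
    have h1 : θ ≤ ε / (3 * (t + 1)) := by rw [hθ]; exact min_le_right _ _
    rw [le_div_iff₀ (by positivity)] at h1
    linarith
  obtain ⟨κ, hκ⟩ : ∃ κ : ℝ, κ = 4 / y + t + 2 := ⟨_, rfl⟩
  have hκ0 : 0 ≤ κ := by rw [hκ]; positivity
  have hpar := Par.ev_par (2 + t) t hκ0 hθ0 hθ1
  have hT : Tendsto (fun a : ℕ => (a : ℝ) ^ y) atTop atTop :=
    (tendsto_rpow_atTop hy0).comp tendsto_natCast_atTop_atTop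
  have hev : ∀ᶠ a : ℕ in atTop, (∃ Y N : ℕ, SN.Par (2 + t) t ((a : ℝ) ^ y) (κ * Real.log ((a : ℝ) ^ y)) Y N ∧
      ((a : ℝ) ^ y) ^ (1 - 3 * θ) ≤ (N : ℝ)) ∧ ((t : ℝ) + 1 ≤ (a : ℝ) ^ y) ∧
      (2 * (t : ℝ) + 3 ≤ (a : ℝ) ^ (1 - y)) ∧ (((t : ℝ) + 2) * (2 * t + 3) ≤ (a : ℝ) ^ ε) ∧ 2 ≤ a := by
    refine (hT.eventually hpar).and ((hT.eventually (eventually_ge_atTop _)).and ?_)
    refine ((((tendsto_rpow_atTop (by linarith : 0 < 1 - y)).comp
      tendsto_natCast_atTop_atTop).eventually (eventually_ge_atTop _))).and ?_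
    exact (((tendsto_rpow_atTop hε).comp tendsto_natCast_atTop_atTop).eventually (eventually_ge_atTop _)).and
      (eventually_ge_atTop 2)
  obtain ⟨a₀, ha₀⟩ := eventually_atTop.1 hev
  refine ⟨a₀, fun a ha h hh hhT hcop hpar2 => ?_⟩
  obtain ⟨⟨Y, N, hp, hN⟩, g1, g2, g3, g4⟩ := ha₀ a ha
  have haR : (2 : ℝ) ≤ a := by exact_mod_cast g4
  have ha0 : (0 : ℝ) < a := by linarith
  have ha1 : (1 : ℝ) ≤ a := by linarith
  obtain ⟨T, hTd⟩ : ∃ T : ℝ, T = (a : ℝ) ^ y := ⟨_, rfl⟩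
  rw [← hTd] at hp hN g1 hhT
  have hT1 : 1 ≤ T := by linarith
  have hT0 : 0 < T := by linarith
  have hlogT : Real.log T = y * Real.log a := by rw [hTd, Real.log_rpow ha0]
  have hloga : 0 < Real.log a := Real.log_pos (by linarith)
  have hTa : T ≤ a := by
    rw [hTd]
    calc (a : ℝ) ^ y ≤ (a : ℝ) ^ (1 : ℝ) := Real.rpow_le_rpow_of_exponent_le ha1 hy1.le
      _ = a := Real.rpow_one _
  have hha : (h : ℝ) ≤ a := hhT.trans hTa
  have hcore := core_two (by omega : 1 ≤ a) hh hcop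
  have hsum : ∑ i, (![((a : ℤ) + h), -(a : ℤ)] : Fin 2 → ℤ) i = h := by
    rw [Fin.sum_univ_two]
    show (a : ℤ) + h + -(a : ℤ) = h
    ring
  have hprod : ∏ i, (![((a : ℤ) + h), -(a : ℤ)] : Fin 2 → ℤ) i = -((a : ℤ) * ((a : ℤ) + h)) := by
    rw [Fin.prod_univ_two]
    show ((a : ℤ) + h) * -(a : ℤ) = _
    ring
  have hlogprod : Real.log |((∏ i, (![((a : ℤ) + h), -(a : ℤ)] : Fin 2 → ℤ) i : ℤ) : ℝ)| ≤ 4 * Real.log a := by
    rw [hprod]
    have h1 : |((-((a : ℤ) * ((a : ℤ) + h)) : ℤ) : ℝ)| = (a : ℝ) * ((a : ℝ) + h) := by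
      push_cast
      rw [abs_neg, abs_of_nonneg (by positivity)]
    rw [h1]
    have h2 : (a : ℝ) * ((a : ℝ) + h) ≤ (a : ℝ) ^ 4 := by
      have h3 : (a : ℝ) + h ≤ (a : ℝ) ^ 2 := by nlinarith
      calc (a : ℝ) * ((a : ℝ) + h) ≤ (a : ℝ) * (a : ℝ) ^ 2 := mul_le_mul_of_nonneg_left h3 ha0.le
        _ = (a : ℝ) ^ 3 := by ring
        _ ≤ (a : ℝ) ^ 4 := pow_le_pow_right₀ ha1 (by norm_num)
    calc Real.log ((a : ℝ) * ((a : ℝ) + h)) ≤ Real.log ((a : ℝ) ^ 4) := Real.log_le_log (by positivity) h2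
      _ = 4 * Real.log a := by rw [Real.log_pow]; norm_num
  obtain ⟨F, hF1, hF2⟩ := fullCount hp (le_refl (2 + t)) hcore (by
      rw [hsum]
      have h1 : ((h : ℤ) + (t : ℤ)) = (((2 + t + 2) + h : ℕ) : ℤ) - 4 := by push_cast; ring
      rw [h1]
      have h2 : Even (((2 + t + 2) + h : ℕ) : ℤ) := by exact_mod_cast hpar2
      exact h2.sub (by decide)) (by rw [hsum]; exact_mod_cast (by omega : h ≠ 0)) (by
      rw [hsum]
      push_cast
      rw [abs_of_nonneg (by positivity)]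
      exact hhT) (by
      have h1 : Real.log (((t : ℝ) + 1) * T) ≤ 2 * Real.log T := by
        have h2 : ((t : ℝ) + 1) * T ≤ T ^ 2 := by nlinarith
        calc Real.log (((t : ℝ) + 1) * T) ≤ Real.log (T ^ 2) := Real.log_le_log (by positivity) h2
          _ = 2 * Real.log T := by rw [Real.log_pow]; norm_num
      have h3 : κ * Real.log T = 4 * Real.log a + (t + 2) * Real.log T := by
        rw [hκ, hlogT]; field_simp; ring
      rw [h3]
      linarith)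
  refine ⟨F, ?_, ?_⟩
  · have h1 : ((N : ℝ)) ^ (t + 1) ≤ (F.card : ℝ) := by exact_mod_cast hF1
    refine le_trans ?_ h1
    calc (a : ℝ) ^ ((((2 + t + 2 : ℕ) : ℝ) - 3) * y - ε) ≤ (a : ℝ) ^ (y * (1 - 3 * θ) * ((t + 1 : ℕ) : ℝ)) := by
          apply Real.rpow_le_rpow_of_exponent_le ha1
          push_cast
          nlinarith
      _ = (T ^ (1 - 3 * θ)) ^ (t + 1) := by
          rw [hTd, ← Real.rpow_natCast, ← Real.rpow_mul ha0.le, ← Real.rpow_mul ha0.le]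
      _ ≤ (N : ℝ) ^ (t + 1) := pow_le_pow_left₀ (by positivity) hN _
  · intro x hx
    obtain ⟨x1, x2, x3, x4, x5⟩ := hF2 x hx
    have hx0 : x (Fin.castAdd t (0 : Fin 2)).castSucc.castSucc = (a : ℤ) + h := x3 0
    refine ⟨x1, x2, ?_, ?_, ?_⟩
    · have h1 : (x (Fin.castAdd t (0 : Fin 2)).castSucc.castSucc).natAbs ≤ SN.size x :=
        Finset.le_sup (f := fun i => (x i).natAbs) (mem_univ _)
      rw [hx0] at h1
      omega
    · refine Finset.sup_le fun i _ => ?_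
      rcases x5 i with ⟨i', h1⟩ | h1
      · rw [h1]
        fin_cases i'
        · show ((a : ℤ) + h).natAbs ≤ a + h
          omega
        · show (-(a : ℤ)).natAbs ≤ a + h
          omega
      · have h2 : |(x i : ℝ)| ≤ a := by
          refine h1.trans ?_
          calc (2 * (t : ℝ) + 3) * T ≤ (a : ℝ) ^ (1 - y) * (a : ℝ) ^ y := by
                rw [hTd]
                exact mul_le_mul_of_nonneg_right g2 (by positivity)
            _ = a := by rw [← Real.rpow_add ha0]; simp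
        have h3 : ((x i).natAbs : ℝ) ≤ (a : ℝ) := by rwa [Nat.cast_natAbs, Int.cast_abs]
        have h4 : (x i).natAbs ≤ a := by exact_mod_cast h3
        omega
    · refine x4.trans ?_
      rw [hprod]
      have h1 : radN (-((a : ℤ) * ((a : ℤ) + h))) = radN ((a : ℤ) * ((a : ℤ) + h)) := by
        unfold radN
        rw [Int.natAbs_neg]
      rw [h1, mul_assoc]
      apply mul_le_mul_of_nonneg_left _ (by positivity)
      calc ((t : ℝ) + 2) * (2 * t + 3) * T ^ (t + 2) ≤ (a : ℝ) ^ ε * (a : ℝ) ^ (y * ((t + 2 : ℕ) : ℝ)) := by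
            apply mul_le_mul g3 (le_of_eq _) (by positivity) (by positivity)
            rw [hTd, ← Real.rpow_natCast, ← Real.rpow_mul ha0.le]
        _ = (a : ℝ) ^ ((((2 + t + 2 : ℕ) : ℝ) - 2) * y + ε) := by
            rw [← Real.rpow_add ha0]
            congr 1
            push_cast
            ring

end Pool.Agent.H42.EX
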