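import Mathlib

set_option autoImplicit false

/-!
# Project EX2 (MP_7ecdd4_nt, slot 4): the second combinatorial lemma
-/

namespace Pool.Agent.H42.EX

open Finset

/-- The second combinatorial lemma: `L` is the logarithm of the bound for the radical. -/
def S_COMB2 : Prop := ∀ (n K : ℕ) (r s : Fin n → ℝ) (z : Fin n → ℕ → ℝ) (j₁ j₂ : Fin n) (l L β e : ℝ),
  5 ≤ n → n ≤ K → j₁ ≠ j₂ → 0 ≤ e → e ≤ l / 4 →
  (∀ i, 0 ≤ r i ∧ r i ≤ s i ∧ s i ≤ l) → (∀ i k, 0 ≤ z i k) → (∀ i, z i 1 ≤ r i) →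
  (∀ i (k : ℕ), ((k : ℝ) + 1) * r i ≤ s i + ∑ q ∈ Icc 1 k, ((k : ℝ) + 1 - q) * z i q) →
  L - l ≤ β → ((n : ℝ) - 3) / ((n : ℝ) - 2) * L + e ≤ β → 2 * l + ((n : ℝ) - 4) / n * L ≤ β → ∑ i, r i ≤ L →
  -- no saving from one small variable and a large coordinate
  (∀ i j, (j = j₁ ∨ j = j₂) → i ≠ j → ∀ k, 1 ≤ k → k ≤ K → z i 1 + z j k < ∑ i, r i - β) →
  -- no saving from two small coordinates and a large one
  (∀ i m j, i ≠ m → i ≠ j₁ → i ≠ j₂ → m ≠ j₁ → m ≠ j₂ → (j = j₁ ∨ j = j₂) → ∀ k, 1 ≤ k → k ≤ K →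
    min (z i 1 + z m 1) (max (s i) (s m)) + min (z j k) (l - max (s i) (s m)) < ∑ i, r i - β) →
  -- no saving from two small coordinates and all of the two large ones
  (∀ i m, i ≠ m → i ≠ j₁ → i ≠ j₂ → m ≠ j₁ → m ≠ j₂ → (∀ t, t ≠ j₁ → t ≠ j₂ → s t ≤ max (s i) (s m)) →
    ∀ y, 0 ≤ y → y ≤ l - max (s i) (s m) → (∀ j, (j = j₁ ∨ j = j₂) → ∀ k, 1 ≤ k → k ≤ K → z j k ≤ y) →
    4 * y + e ≤ r j₁ + r j₂ → min (z i 1 + z m 1) (max (s i) (s m)) + y < ∑ i, r i - β) →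
  False

end Pool.Agent.H42.EX
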