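import Pool.Agent.H42.EX.Stm4

set_option autoImplicit false

/-!
# Project EX3: the combinatorial lemma away from the barrier
-/

namespace Pool.Agent.H42.EX

open Finset

/-- The final inequality, away from the barrier. -/
def S_NUM4 : Prop := ∀ (p : ℕ) (t s σ Δ ε : ℝ), 2 ≤ p → 0 < t → 4 * t ^ 2 ≤ 3 → Δ = t ^ 3 / 16 →
  t ^ 2 - t ^ 3 / 320 ≤ σ → σ ≤ t ^ 2 + t ^ 3 / 80 → 0 ≤ ε → ε ≤ t ^ 3 / 8000 → 88 / 100 ≤ s →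
  s < p * (σ + Δ) → (p : ℝ) * (σ - 3 * Δ) < 1 →
  (∀ h : ℕ, h + 1 ≤ p → (h : ℝ) * (σ - Δ - ε - h * Δ) < 2 * p * Δ) → False

/-- The combinatorial lemma for `n`, the bound `L` for the radical and the exponent `g`: every tuple has a
saving (logarithms to base `H`). -/
def Comb (n : ℕ) (L g : ℝ) : Prop := ∀ (K : ℕ) (r s : Fin n → ℝ) (z : Fin n → ℕ → ℝ) (j₁ j₂ : Fin n) (G e E : ℝ),
  1 ≤ K → j₁ ≠ j₂ → 0 < e → 0 ≤ E → 100 * E ≤ e → 100 ≤ e * ((K : ℝ) + 1) →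
  (∀ i, 0 ≤ r i ∧ r i ≤ s i ∧ s i ≤ 1) → (∀ i, Str K (z i) (r i) (s i)) →
  (∀ i, ((K : ℝ) + 1) * (r i - mu (z i) K) ≤ 1) → 1 - E ≤ s j₁ → 1 - E ≤ s j₂ →
  ∑ i, r i ≤ L → g + e ≤ G →
  -- no saving from parts of two coordinates
  (∀ i m, i ≠ m → ∀ e₁ e₂, e₁ ≤ K → e₂ ≤ K → min (mu (z i) e₁ + mu (z m) e₂)
    (mu (z i) e₁ + mu (z m) e₂ - ka (z i) e₁ - ka (z m) e₂ + max (s i) (s m)) < ∑ t, r t - G) →
  (∀ i m, i ≠ m → ∀ e₂, e₂ ≤ K → min (r i + mu (z m) e₂)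
    (r i + mu (z m) e₂ - s i - ka (z m) e₂ + max (s i) (s m)) < ∑ t, r t - G) →
  -- no saving from a coordinate and the base of a power in a large coordinate
  (∀ i j, (j = j₁ ∨ j = j₂) → i ≠ j → ∀ k, 1 ≤ k → k ≤ K → r i + min (z j k) (1 - s i) < ∑ t, r t - G) →
  -- no saving from four coordinates with power parts
  (∀ (t : Fin 4 → Fin n) (k : Fin 4 → ℕ), Function.Injective t → (∀ a, 2 ≤ k a ∧ k a ≤ K) →
    (∑ a, (r (t a) + z (t a) (k a))) / 4 < ∑ t, r t - G) →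
  False

/-- The combinatorial lemma away from the barrier. -/
def S_COMB4 : Prop := ∀ (n : ℕ) (t : ℝ), 5 ≤ n → 0 < t → 4 * t ^ 2 ≤ 3 →
  Comb n (n * t ^ 2) (((n : ℝ) - 1) * t ^ 2 - t ^ 3 / (16 * n))

theorem comb_of_comb3 (hc : S_COMB3) {n : ℕ} (hn : 30 ≤ n) {L g : ℝ} (h1 : 32 / ((n : ℝ) - 23) ≤ L)
    (h2 : L ≤ 4 / 5 * ((n : ℝ) - 2)) (hg : ((n : ℝ) - 3) / ((n : ℝ) - 2) * L ≤ g) : Comb n L g := by
  intro K r s z j₁ j₂ G e E a1 a2 a3 a4 a5 a6 a7 a8 a9 a10 a11 a12 a13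
  exact hc n K r s z j₁ j₂ L G e E hn a1 a2 a3 a4 a5 a6 a7 a8 a9 a10 a11 a12 h1 h2 (by linarith)

end Pool.Agent.H42.EX
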