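import Pool.Agent.H42.EX.Opt
import Pool.Agent.H42.EX.Stm5

set_option autoImplicit false

/-!
# Project EX3: every tuple belongs to one of the cells, third version
-/

namespace Pool.Agent.H42.EX

open Finset
open Pool.Agent.H328R2.ABC (rad sum_inv_rad)
open Pool.Agent.Q38.NC

/-- The basic inequality between the logarithms. -/
theorem log_str (K : ℕ) {m : ℕ} (hm : m ≠ 0) {p : ℕ} (hp : p ≤ K + 1) : (p : ℝ) * Real.log (rad m) +
    ∑ q ∈ Icc 1 K, ((q : ℝ) - p) * Real.log (bk q m) ≤ Real.log m := by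
  have hc : (0 : ℝ) < cof (Icc 1 K) m := by exact_mod_cast cof_pos _ m
  have hr : (0 : ℝ) < rad (cof (Icc 1 K) m) := by exact_mod_cast rad_pos _
  have hr1 : (1 : ℝ) ≤ rad (cof (Icc 1 K) m) := by exact_mod_cast rad_pos _
  have hb : ∀ k, (0 : ℝ) < bk k m := fun k => by exact_mod_cast bk_pos k m
  have h1 : Real.log m = Real.log (cof (Icc 1 K) m) + ∑ k ∈ Icc 1 K, (k : ℝ) * Real.log (bk k m) := by
    have h2 : (m : ℝ) = (cof (Icc 1 K) m : ℝ) * ∏ k ∈ Icc 1 K, (bk k m : ℝ) ^ k := by
      exact_mod_cast (cof_mul hm (Icc 1 K)).symm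
    rw [h2, Real.log_mul hc.ne' (Finset.prod_ne_zero_iff.2 fun k _ => (pow_pos (hb k) k).ne'),
      Real.log_prod fun k _ => (pow_pos (hb k) k).ne']
    congr 1
    refine sum_congr rfl fun k _ => ?_
    rw [Real.log_pow]
  have h2 : Real.log (rad m) = Real.log (rad (cof (Icc 1 K) m)) + ∑ k ∈ Icc 1 K, Real.log (bk k m) := by
    have h3 : (rad m : ℝ) = (rad (cof (Icc 1 K) m) : ℝ) * ∏ k ∈ Icc 1 K, (bk k m : ℝ) := by
      exact_mod_cast rad_eq (Icc 1 K) m
    rw [h3, Real.log_mul hr.ne' (Finset.prod_ne_zero_iff.2 fun k _ => (hb k).ne'),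
      Real.log_prod fun k _ => (hb k).ne']
  have h3 : ((K : ℝ) + 1) * Real.log (rad (cof (Icc 1 K) m)) ≤ Real.log (cof (Icc 1 K) m) := by
    have h4 : ((rad (cof (Icc 1 K) m) : ℝ)) ^ (K + 1) ≤ (cof (Icc 1 K) m : ℝ) := by
      exact_mod_cast rad_cof_pow K m
    have h5 := Real.log_le_log (by positivity) h4
    rw [Real.log_pow] at h5
    push_cast at h5
    exact h5
  have h4 : (p : ℝ) * Real.log (rad (cof (Icc 1 K) m)) ≤ ((K : ℝ) + 1) * Real.log (rad (cof (Icc 1 K) m)) := by
    apply mul_le_mul_of_nonneg_right _ (Real.log_nonneg hr1)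
    exact_mod_cast hp
  have h5 : ∑ q ∈ Icc 1 K, ((q : ℝ) - p) * Real.log (bk q m) =
      ∑ k ∈ Icc 1 K, (k : ℝ) * Real.log (bk k m) - p * ∑ k ∈ Icc 1 K, Real.log (bk k m) := by
    rw [mul_sum, ← sum_sub_distrib]
    refine sum_congr rfl fun k _ => ?_
    ring
  rw [h5, h1, h2]
  linarith

theorem rlow_pos (D : Finset ℕ) (m : ℕ) : (0 : ℝ) < rlow D m := by
  unfold rlow
  exact_mod_cast Finset.prod_pos fun k _ => bk_pos k m

theorem low_pos (D : Finset ℕ) (m : ℕ) : (0 : ℝ) < low D m := by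
  unfold low
  exact_mod_cast Finset.prod_pos fun k _ => pow_pos (bk_pos k m) k

theorem log_rlow {H K e : ℕ} (he : e ≤ K) (m : ℕ) :
    Real.log (rlow (dset H K e) m) = ∑ q ∈ Icc 1 e, Real.log (bk q m) := by
  unfold rlow dset
  rw [if_pos he]
  push_cast
  rw [Real.log_prod fun k _ => (cast_bk_pos k m).ne']

theorem log_low {H K e : ℕ} (he : e ≤ K) (m : ℕ) :
    Real.log (low (dset H K e) m) = ∑ q ∈ Icc 1 e, (q : ℝ) * Real.log (bk q m) := by
  unfold low dset
  rw [if_pos he]
  push_cast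
  rw [Real.log_prod fun k _ => (pow_pos (cast_bk_pos k m) k).ne']
  refine sum_congr rfl fun k _ => ?_
  rw [Real.log_pow]

theorem cof_all' {m : ℕ} (hm : m ≠ 0) {H : ℕ} (h : m ≤ H) : cof (range (H + 1)) m = 1 := by
  unfold cof
  rw [Finset.prod_eq_one]
  intro p hp
  exfalso
  obtain ⟨hp1, hp2⟩ := mem_filter.1 hp
  apply hp2
  rw [mem_range, Nat.lt_succ_iff]
  have h1 := Nat.factorization_lt p hm
  omega

theorem low_all' {H K m : ℕ} (hm : m ≠ 0) (h : m ≤ H) : low (dset H K (K + 1)) m = m := by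
  unfold low dset
  rw [if_neg (by omega)]
  have := cof_mul hm (range (H + 1))
  rwa [cof_all' hm h, one_mul] at this

theorem rlow_all' {H K m : ℕ} (hm : m ≠ 0) (h : m ≤ H) : rlow (dset H K (K + 1)) m = rad m := by
  unfold rlow dset
  rw [if_neg (by omega)]
  have := rad_eq (range (H + 1)) m
  rw [cof_all' hm h] at this
  have hr1 : rad 1 = 1 := by simp [rad]
  rw [hr1, one_mul] at this
  exact this.symm

theorem exists_option3 {n : ℕ} (hn : 5 ≤ n) {lam g : ℝ} (hc : Comb n lam g)
    {e₀ : ℝ} (he₀ : 0 < e₀) {K : ℕ} (hK : 1 ≤ K) (hKe : 100 ≤ e₀ * ((K : ℝ) + 1)) {H : ℕ}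
    (hH : 1 ≤ H) (hbig : 100 * Real.log (2 * n) ≤ e₀ * Real.log H) {B₀ : ℝ} (hB : (H : ℝ) ^ (g + e₀) ≤ B₀)
    {x : Fin n → ℤ} (hx : Adm x)
    (hxH : ∀ i, (x i).natAbs ≤ H) (hl : ∃ i, H ≤ 2 * (x i).natAbs) (hR : PR x ≤ (H : ℝ) ^ lam) :
    (∃ i m e₁ e₂, e₁ ≤ K + 1 ∧ e₂ ≤ K ∧ OptP n H K B₀ i m e₁ e₂ x) ∨
    (∃ i j k, 1 ≤ k ∧ k ≤ K ∧ OptF n H B₀ i j k x) ∨
    (∃ (t : Fin 4 → Fin n) (k : Fin 4 → ℕ), (∀ a, 2 ≤ k a ∧ k a ≤ K) ∧ OptC n B₀ t k x) := by
  classical
  have hH0 : (0 : ℝ) < H := by exact_mod_cast hH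
  have hH1 : (1 : ℝ) ≤ H := by exact_mod_cast hH
  have hnR : (5 : ℝ) ≤ n := by exact_mod_cast hn
  have hB0 : 0 < B₀ := lt_of_lt_of_le (by positivity) hB
  have hlog2n : 0 < Real.log (2 * n) := Real.log_pos (by linarith)
  obtain ⟨l, hl'⟩ : ∃ l : ℝ, l = Real.log H := ⟨_, rfl⟩
  rw [← hl'] at hbig
  have hl0 : 0 < l := by
    by_contra hcon
    have : e₀ * l ≤ 0 := mul_nonpos_of_nonneg_of_nonpos he₀.le (not_lt.1 hcon)
    linarith
  have hne : ∀ t, (x t).natAbs ≠ 0 := fun t => Int.natAbs_ne_zero.2 (hx.ne t)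
  have hx0 : ∀ t, (0 : ℝ) < ((x t).natAbs : ℝ) := fun t => by exact_mod_cast Nat.pos_of_ne_zero (hne t)
  have hr0 : ∀ t, (0 : ℝ) < (rad (x t).natAbs : ℝ) := fun t => by exact_mod_cast rad_pos _
  have hPR0 := PR_pos x
  have hlogPR : Real.log (PR x) = ∑ t, Real.log (rad (x t).natAbs) := by
    unfold PR
    rw [Real.log_prod fun t _ => (hr0 t).ne']
  have hβ : (g + e₀) * l ≤ Real.log B₀ := by
    rw [hl', ← Real.log_rpow hH0]
    exact Real.log_le_log (by positivity) hB
  obtain ⟨j₁, j₂, hj, hj1, hj2⟩ := two_large hH hx hl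
  -- the normalised logarithms
  obtain ⟨r, hr⟩ : ∃ r : Fin n → ℝ, r = fun t => Real.log (rad (x t).natAbs) / l := ⟨_, rfl⟩
  obtain ⟨s, hs⟩ : ∃ s : Fin n → ℝ, s = fun t => Real.log (x t).natAbs / l := ⟨_, rfl⟩
  obtain ⟨z, hz⟩ : ∃ z : Fin n → ℕ → ℝ, z = fun t k => Real.log (bk k (x t).natAbs) / l := ⟨_, rfl⟩
  obtain ⟨G, hG⟩ : ∃ G : ℝ, G = Real.log B₀ / l := ⟨_, rfl⟩
  have er : ∀ t, r t * l = Real.log (rad (x t).natAbs) := fun t => by rw [hr]; exact div_mul_cancel₀ _ hl0.ne'
  have es : ∀ t, s t * l = Real.log (x t).natAbs := fun t => by rw [hs]; exact div_mul_cancel₀ _ hl0.ne'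
  have ez : ∀ t k, z t k * l = Real.log (bk k (x t).natAbs) := fun t k => by
    rw [hz]; exact div_mul_cancel₀ _ hl0.ne'
  have eG : G * l = Real.log B₀ := by rw [hG]; exact div_mul_cancel₀ _ hl0.ne'
  have eS : (∑ t, r t) * l = Real.log (PR x) := by
    rw [sum_mul, hlogPR]
    exact sum_congr rfl fun t _ => er t
  have emu : ∀ t e, e ≤ K → mu (z t) e * l = Real.log (rlow (dset H K e) (x t).natAbs) := by
    intro t e he
    rw [log_rlow he]
    unfold mu
    rw [sum_mul]
    exact sum_congr rfl fun q _ => ez t q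
  have eka : ∀ t e, e ≤ K → ka (z t) e * l = Real.log (low (dset H K e) (x t).natAbs) := by
    intro t e he
    rw [log_low he]
    unfold ka
    rw [sum_mul]
    exact sum_congr rfl fun q _ => by rw [mul_assoc, ez t q]
  have hz0 : ∀ t k, 0 ≤ z t k := by
    intro t k
    rw [hz]
    exact div_nonneg (Real.log_nonneg (by exact_mod_cast bk_pos _ _)) hl0.le
  by_contra hcon
  rw [not_or, not_or] at hcon
  obtain ⟨c1, c2, c3⟩ := hcon
  -- the trivial saving
  have htriv : ∀ i, PR x ≤ B₀ * (rad (x i).natAbs : ℝ) → False := by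
    intro i hi
    obtain ⟨j, hjj, hij⟩ : ∃ j, H ≤ 2 * n * (x j).natAbs ∧ i ≠ j := by
      by_cases h : i = j₁
      · exact ⟨j₂, hj2, by rw [h]; exact hj⟩
      · exact ⟨j₁, hj1, h⟩
    refine c2 ⟨i, j, 1, le_rfl, hK, hij, hjj, hi.trans ?_, ?_⟩
    · apply mul_le_mul_of_nonneg_left _ hB0.le
      have : (1 : ℝ) ≤ bk 1 (x j).natAbs := by exact_mod_cast bk_pos _ _
      have := hr0 i
      nlinarith
    · have h1 : ((x i).natAbs : ℝ) ≤ H := by exact_mod_cast hxH i
      have h2 := hr0 i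
      calc PR x * ((x i).natAbs : ℝ) ≤ (B₀ * (rad (x i).natAbs : ℝ)) * H :=
            mul_le_mul hi h1 (hx0 i).le (by positivity)
        _ = B₀ * ((rad (x i).natAbs : ℝ) * H) := by ring
  refine hc K r s z j₁ j₂ G e₀ (Real.log (2 * n) / l) hK hj he₀ (by positivity) ?_ hKe ?_ ?_ ?_ ?_ ?_ ?_
    ?_ ?_ ?_ ?_ ?_
  · rw [← mul_div_assoc, div_le_iff₀ hl0]
    exact hbig
  · intro t
    refine ⟨?_, ?_, ?_⟩
    · rw [hr]; exact div_nonneg (Real.log_nonneg (by exact_mod_cast rad_pos _)) hl0.le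
    · rw [hr, hs]
      exact div_le_div_of_nonneg_right (Real.log_le_log (hr0 t) (by exact_mod_cast rad_le (hne t))) hl0.le
    · rw [hs]
      show Real.log (x t).natAbs / l ≤ 1
      rw [div_le_one hl0, hl']
      exact Real.log_le_log (hx0 t) (by exact_mod_cast hxH t)
  · intro t
    refine ⟨hz0 t, fun p hp => ?_⟩
    have h := log_str K (hne t) (show p ≤ K + 1 by omega)
    refine le_of_mul_le_mul_right ?_ hl0
    rw [add_mul, sum_mul, mul_assoc, er, es]
    refine le_trans (le_of_eq ?_) h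
    congr 1
    refine sum_congr rfl fun q _ => ?_
    rw [mul_assoc, ez]
  · intro t
    have h := log_str K (hne t) (le_refl (K + 1))
    refine le_of_mul_le_mul_right ?_ hl0
    have h1 : Real.log (x t).natAbs ≤ l := by
      rw [hl']; exact Real.log_le_log (hx0 t) (by exact_mod_cast hxH t)
    have h2 : 0 ≤ ∑ q ∈ Icc 1 K, (q : ℝ) * Real.log (bk q (x t).natAbs) := sum_nonneg fun q _ =>
      mul_nonneg (Nat.cast_nonneg _) (Real.log_nonneg (by exact_mod_cast bk_pos _ _))
    have h3 : ∑ q ∈ Icc 1 K, ((q : ℝ) - ((K + 1 : ℕ) : ℝ)) * Real.log (bk q (x t).natAbs) =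
        ∑ q ∈ Icc 1 K, (q : ℝ) * Real.log (bk q (x t).natAbs) -
          ((K : ℝ) + 1) * ∑ q ∈ Icc 1 K, Real.log (bk q (x t).natAbs) := by
      rw [mul_sum, ← sum_sub_distrib]
      refine sum_congr rfl fun k _ => ?_
      push_cast
      ring
    rw [h3] at h
    push_cast at h
    have h4 : ((K : ℝ) + 1) * (r t - mu (z t) K) * l = ((K : ℝ) + 1) * (r t * l) -
        ((K : ℝ) + 1) * (mu (z t) K * l) := by ring
    have h5 : mu (z t) K * l = ∑ q ∈ Icc 1 K, Real.log (bk q (x t).natAbs) := by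
      unfold mu
      rw [sum_mul]
      exact sum_congr rfl fun q _ => ez t q
    rw [h4, er, h5]
    linarith
  · rw [sub_le_iff_le_add, hs]
    show 1 ≤ Real.log (x j₁).natAbs / l + Real.log (2 * n) / l
    rw [← add_div, le_div_iff₀ hl0, one_mul, add_comm, ← Real.log_mul (by positivity) (hx0 j₁).ne', hl']
    exact Real.log_le_log hH0 (by exact_mod_cast hj1)
  · rw [sub_le_iff_le_add, hs]
    show 1 ≤ Real.log (x j₂).natAbs / l + Real.log (2 * n) / l
    rw [← add_div, le_div_iff₀ hl0, one_mul, add_comm, ← Real.log_mul (by positivity) (hx0 j₂).ne', hl']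
    exact Real.log_le_log hH0 (by exact_mod_cast hj2)
  · refine le_of_mul_le_mul_right ?_ hl0
    rw [eS, hl', ← Real.log_rpow hH0]
    exact Real.log_le_log hPR0 hR
  · refine le_of_mul_le_mul_right ?_ hl0
    rw [eG]
    exact hβ
  · -- the first kind
    have key : ∀ i m : Fin n, i ≠ m → (x i).natAbs ≤ (x m).natAbs → ∀ e₁ e₂, e₁ ≤ K → e₂ ≤ K →
        min (mu (z i) e₁ + mu (z m) e₂) (mu (z i) e₁ + mu (z m) e₂ - ka (z i) e₁ - ka (z m) e₂ + s m) <
          ∑ t, r t - G := by
      intro i m him hle e₁ e₂ he1 he2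
      by_contra hlt
      rw [not_lt] at hlt
      have q1 := mul_le_mul_of_nonneg_right (hlt.trans (min_le_left _ _)) hl0.le
      have q2 := mul_le_mul_of_nonneg_right (hlt.trans (min_le_right _ _)) hl0.le
      have a1 : (∑ t, r t - G) * l = Real.log (PR x) - Real.log B₀ := by rw [sub_mul, eS, eG]
      have a2 : (mu (z i) e₁ + mu (z m) e₂) * l = Real.log (rlow (dset H K e₁) (x i).natAbs) +
          Real.log (rlow (dset H K e₂) (x m).natAbs) := by rw [add_mul, emu i e₁ he1, emu m e₂ he2]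
      have a3 : (mu (z i) e₁ + mu (z m) e₂ - ka (z i) e₁ - ka (z m) e₂ + s m) * l =
          Real.log (rlow (dset H K e₁) (x i).natAbs) + Real.log (rlow (dset H K e₂) (x m).natAbs) -
          Real.log (low (dset H K e₁) (x i).natAbs) - Real.log (low (dset H K e₂) (x m).natAbs) +
          Real.log (x m).natAbs := by
        rw [← emu i e₁ he1, ← emu m e₂ he2, ← eka i e₁ he1, ← eka m e₂ he2, ← es]; ring
      rw [a1, a2] at q1
      rw [a1, a3] at q2
      have p1 := rlow_pos (dset H K e₁) (x i).natAbs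
      have p2 := rlow_pos (dset H K e₂) (x m).natAbs
      have p3 := low_pos (dset H K e₁) (x i).natAbs
      have p4 := low_pos (dset H K e₂) (x m).natAbs
      have p5 := hx0 m
      refine c1 ⟨i, m, e₁, e₂, by omega, he2, him, ?_, ?_⟩
      · rw [← Real.log_le_log_iff hPR0 (by positivity), Real.log_mul hB0.ne' (by positivity),
          Real.log_mul p1.ne' p2.ne']
        linarith
      · rw [← Real.log_le_log_iff (by positivity) (by positivity), Real.log_mul hPR0.ne' (by positivity),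
          Real.log_mul p3.ne' p4.ne', Real.log_mul (by positivity) p5.ne', Real.log_mul hB0.ne' (by positivity),
          Real.log_mul p1.ne' p2.ne']
        linarith
    intro i m him e₁ e₂ he1 he2
    rcases le_total (x i).natAbs (x m).natAbs with h | h
    · have h' : s i ≤ s m := by
        rw [hs]
        exact div_le_div_of_nonneg_right (Real.log_le_log (hx0 i) (by exact_mod_cast h)) hl0.le
      rw [max_eq_right h']
      exact key i m him h e₁ e₂ he1 he2
    · have h' : s m ≤ s i := by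
        rw [hs]
        exact div_le_div_of_nonneg_right (Real.log_le_log (hx0 m) (by exact_mod_cast h)) hl0.le
      rw [max_eq_left h']
      have := key m i him.symm h e₂ e₁ he2 he1
      have b1 : mu (z i) e₁ + mu (z m) e₂ = mu (z m) e₂ + mu (z i) e₁ := add_comm _ _
      have b2 : mu (z m) e₂ + mu (z i) e₁ - ka (z i) e₁ - ka (z m) e₂ + s i =
          mu (z m) e₂ + mu (z i) e₁ - ka (z m) e₂ - ka (z i) e₁ + s i := by ring
      rw [b1, b2]
      exact this
  · -- the first kind, with all of a coordinate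
    intro i m him e₂ he2
    by_contra hlt
    rw [not_lt] at hlt
    have q1 := mul_le_mul_of_nonneg_right (hlt.trans (min_le_left _ _)) hl0.le
    have q2 := mul_le_mul_of_nonneg_right (hlt.trans (min_le_right _ _)) hl0.le
    have a1 : (∑ t, r t - G) * l = Real.log (PR x) - Real.log B₀ := by rw [sub_mul, eS, eG]
    have a2 : (r i + mu (z m) e₂) * l = Real.log (rad (x i).natAbs) +
        Real.log (rlow (dset H K e₂) (x m).natAbs) := by rw [add_mul, er, emu m e₂ he2]
    rw [a1, a2] at q1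
    rw [a1] at q2
    rcases le_total (x i).natAbs (x m).natAbs with h | h
    · have h' : s i ≤ s m := by
        rw [hs]
        exact div_le_div_of_nonneg_right (Real.log_le_log (hx0 i) (by exact_mod_cast h)) hl0.le
      rw [max_eq_right h'] at q2
      have a3 : (r i + mu (z m) e₂ - s i - ka (z m) e₂ + s m) * l =
          Real.log (rad (x i).natAbs) + Real.log (rlow (dset H K e₂) (x m).natAbs) -
          Real.log (x i).natAbs - Real.log (low (dset H K e₂) (x m).natAbs) +
          Real.log (x m).natAbs := by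
        rw [← emu m e₂ he2, ← eka m e₂ he2, ← es, ← es, ← er]; ring
      rw [a3] at q2
      have p1 := hr0 i
      have p2 := rlow_pos (dset H K e₂) (x m).natAbs
      have p3 := hx0 i
      have p4 := low_pos (dset H K e₂) (x m).natAbs
      have p5 := hx0 m
      refine c1 ⟨i, m, K + 1, e₂, le_rfl, he2, him, ?_, ?_⟩
      · rw [rlow_all' (hne i) (hxH i), ← Real.log_le_log_iff hPR0 (by positivity),
          Real.log_mul hB0.ne' (by positivity), Real.log_mul p1.ne' p2.ne']
        linarith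
      · rw [rlow_all' (hne i) (hxH i), low_all' (hne i) (hxH i),
          ← Real.log_le_log_iff (by positivity) (by positivity), Real.log_mul hPR0.ne' (by positivity),
          Real.log_mul p3.ne' p4.ne', Real.log_mul (by positivity) p5.ne', Real.log_mul hB0.ne' (by positivity),
          Real.log_mul p1.ne' p2.ne']
        linarith
    · have h' : s m ≤ s i := by
        rw [hs]
        exact div_le_div_of_nonneg_right (Real.log_le_log (hx0 m) (by exact_mod_cast h)) hl0.le
      rw [max_eq_left h'] at q2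
      have h2 : mu (z m) e₂ ≤ ka (z m) e₂ := by
        unfold mu ka
        refine sum_le_sum fun q hq => ?_
        have h3 : (1 : ℝ) ≤ q := by exact_mod_cast (mem_Icc.1 hq).1
        nlinarith [hz0 m q]
      have h3 : (r i + mu (z m) e₂ - s i - ka (z m) e₂ + s i) * l ≤ r i * l := by
        apply mul_le_mul_of_nonneg_right _ hl0.le
        linarith
      rw [er] at h3
      refine htriv i ?_
      rw [← Real.log_le_log_iff hPR0 (mul_pos hB0 (hr0 i)), Real.log_mul hB0.ne' (hr0 i).ne']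
      linarith
  · -- the second kind
    intro i j hjj hij k hk1 hk2
    by_contra hlt
    rw [not_lt] at hlt
    have m1 : ∑ t, r t - G ≤ r i + z j k := hlt.trans (by
      have := min_le_left (z j k) (1 - s i); linarith)
    have m2 : ∑ t, r t - G ≤ r i + (1 - s i) := hlt.trans (by
      have := min_le_right (z j k) (1 - s i); linarith)
    have q1 := mul_le_mul_of_nonneg_right m1 hl0.le
    have q2 := mul_le_mul_of_nonneg_right m2 hl0.le
    have a1 : (∑ t, r t - G) * l = Real.log (PR x) - Real.log B₀ := by rw [sub_mul, eS, eG]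
    have a2 : (r i + z j k) * l = Real.log (rad (x i).natAbs) + Real.log (bk k (x j).natAbs) := by
      rw [add_mul, er, ez]
    have a3 : (r i + (1 - s i)) * l = Real.log (rad (x i).natAbs) + Real.log H - Real.log (x i).natAbs := by
      rw [← er, ← es, ← hl']; ring
    rw [a1, a2] at q1
    rw [a1, a3] at q2
    have p1 := hr0 i
    have p2 := cast_bk_pos k (x j).natAbs
    have p3 := hx0 i
    refine c2 ⟨i, j, k, hk1, hk2, hij, ?_, ?_, ?_⟩
    · rcases hjj with rfl | rfl
      · exact hj1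
      · exact hj2
    · rw [← Real.log_le_log_iff hPR0 (by positivity), Real.log_mul hB0.ne' (by positivity),
        Real.log_mul p1.ne' p2.ne']
      linarith
    · rw [← Real.log_le_log_iff (by positivity) (by positivity), Real.log_mul hPR0.ne' p3.ne',
        Real.log_mul hB0.ne' (by positivity), Real.log_mul p1.ne' hH0.ne']
      linarith
  · -- the third kind
    intro t k ht hk
    by_contra hlt
    rw [not_lt] at hlt
    have q1 := mul_le_mul_of_nonneg_right hlt hl0.le
    have a1 : (∑ t, r t - G) * l = Real.log (PR x) - Real.log B₀ := by rw [sub_mul, eS, eG]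
    have a2 : (∑ a, (r (t a) + z (t a) (k a))) / 4 * l = 1 / 4 * ∑ a, (Real.log (rad (x (t a)).natAbs) +
        Real.log (bk (k a) (x (t a)).natAbs)) := by
      have e1 : (∑ a, (r (t a) + z (t a) (k a))) * l = ∑ a, (Real.log (rad (x (t a)).natAbs) +
          Real.log (bk (k a) (x (t a)).natAbs)) := by
        rw [sum_mul]
        exact sum_congr rfl fun a _ => by rw [add_mul, er, ez]
      rw [← e1]; ring
    rw [a1, a2] at q1
    have hp : ∀ a, 0 < ((rad (x (t a)).natAbs : ℝ) * bk (k a) (x (t a)).natAbs) := fun a =>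
      mul_pos (hr0 _) (cast_bk_pos _ _)
    have hP : 0 < ∏ a, ((rad (x (t a)).natAbs : ℝ) * bk (k a) (x (t a)).natAbs) := Finset.prod_pos fun a _ => hp a
    refine c3 ⟨t, k, hk, ht, ?_⟩
    rw [← Real.log_le_log_iff hPR0 (by positivity), Real.log_mul hB0.ne' (by positivity), Real.log_rpow hP,
      Real.log_prod fun a _ => (hp a).ne']
    have e2 : ∑ a, Real.log ((rad (x (t a)).natAbs : ℝ) * bk (k a) (x (t a)).natAbs) =
        ∑ a, (Real.log (rad (x (t a)).natAbs) + Real.log (bk (k a) (x (t a)).natAbs)) :=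
      sum_congr rfl fun a _ => Real.log_mul (hr0 _).ne' (cast_bk_pos _ _).ne'
    rw [e2]
    linarith

end Pool.Agent.H42.EX
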