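import Pool.Agent.H42.EX.Up2
import Pool.Agent.H42.EX.OptX

set_option autoImplicit false

/-!
# Project EX3: the bound for a block of heights and radical at most `H ^ lam`
-/

namespace Pool.Agent.H42.EX

open Finset
open Pool.Agent.H328R2.ABC (rad sum_inv_rad)
open Pool.Agent.Q38.NC

theorem blk3 (hpp : S_PP) (hpf : S_PF) (hpc : S_PC) {n : ℕ} (hn : 5 ≤ n) {lam g : ℝ}
    (hg0 : 0 ≤ g) (hc : Comb n lam g) : BLK2 n lam g := by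
  classical
  intro δ hδ
  have hnR : (5 : ℝ) ≤ n := by exact_mod_cast hn
  obtain ⟨e₀, he₀⟩ : ∃ e₀ : ℝ, e₀ = δ / 3 := ⟨_, rfl⟩
  have he₀0 : 0 < e₀ := by rw [he₀]; positivity
  obtain ⟨K, hK⟩ : ∃ K : ℕ, K = ⌈100 / e₀⌉₊ + 1 := ⟨_, rfl⟩
  have hK1 : 1 ≤ K := by omega
  have hKe : 100 ≤ e₀ * ((K : ℝ) + 1) := by
    have h4 : 100 / e₀ ≤ (⌈100 / e₀⌉₊ : ℝ) := Nat.le_ceil _
    rw [div_le_iff₀ he₀0] at h4
    rw [hK]
    push_cast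
    nlinarith
  obtain ⟨N, hN⟩ : ∃ N : ℕ, N = 1 + (n + 4) + n := ⟨_, rfl⟩
  have hN0 : (0 : ℝ) < N := by
    have : 0 < N := by omega
    exact_mod_cast this
  obtain ⟨η, hη⟩ : ∃ η : ℝ, η = δ / 3 / N := ⟨_, rfl⟩
  have hη0 : 0 < η := by rw [hη]; positivity
  obtain ⟨C1, hC1, p1⟩ := hpp n K
  obtain ⟨C2, hC2, p2⟩ := hpf n K
  obtain ⟨C3, hC3, p3⟩ := hpc n K η hη0
  obtain ⟨Cs, hCs, ps⟩ := SS_le η hη0
  obtain ⟨Cl, hCl, pl⟩ := log_le η hη0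
  obtain ⟨E, hE⟩ : ∃ E : ℝ, E = Real.exp (100 * Real.log (2 * n) / e₀) := ⟨_, rfl⟩
  have hE0 : 0 < E := by rw [hE]; exact Real.exp_pos _
  refine ⟨(C1 + C2 + C3) * Cl ^ (n + 4) * (1 + Cs) ^ n + (2 * E + 1) ^ n, ?_, ?_⟩
  · have k1 : 1 ≤ (2 * E + 1) ^ n := one_le_pow₀ (by linarith)
    have k2 : 0 ≤ (C1 + C2 + C3) * Cl ^ (n + 4) * (1 + Cs) ^ n := by positivity
    linarith
  intro H hH G hG
  have hH0 : (0 : ℝ) < H := by exact_mod_cast hH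
  have hH1 : (1 : ℝ) ≤ H := by exact_mod_cast hH
  have hHg : 1 ≤ (H : ℝ) ^ g := Real.one_le_rpow hH1 hg0
  have hHδ : 1 ≤ (H : ℝ) ^ δ := Real.one_le_rpow hH1 hδ.le
  have hA0 : 0 ≤ (C1 + C2 + C3) * Cl ^ (n + 4) * (1 + Cs) ^ n := by positivity
  rcases lt_or_ge (e₀ * Real.log H) (100 * Real.log (2 * n)) with hsm | hbig
  · -- small H
    have k1 : (H : ℝ) ≤ E := by
      rw [hE, ← Real.log_le_iff_le_exp hH0, le_div_iff₀ he₀0]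
      linarith
    have k2 := trivial_bound G fun x hx => (hG x hx).2.1
    have k3 : (2 * (H : ℝ) + 1) ^ n ≤ (2 * E + 1) ^ n := pow_le_pow_left₀ (by positivity) (by linarith) n
    have k4 : 1 ≤ (H : ℝ) ^ δ * (H : ℝ) ^ g := by nlinarith
    have k5 : 0 ≤ (2 * E + 1) ^ n := by positivity
    calc (G.card : ℝ) ≤ (2 * E + 1) ^ n * 1 := by linarith
      _ ≤ ((C1 + C2 + C3) * Cl ^ (n + 4) * (1 + Cs) ^ n + (2 * E + 1) ^ n) * ((H : ℝ) ^ δ * (H : ℝ) ^ g) := by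
          apply mul_le_mul _ k4 zero_le_one (by positivity)
          linarith
      _ = _ := by ring
  · obtain ⟨B₀, hB₀⟩ : ∃ B₀ : ℝ, B₀ = (H : ℝ) ^ (g + e₀) := ⟨_, rfl⟩
    have hB1 : (H : ℝ) ^ (g + e₀) ≤ B₀ := hB₀.ge
    have hB0 : 0 ≤ B₀ := le_trans (by positivity) hB1
    have hSS : 0 ≤ SS H := sum_nonneg fun _ _ => by positivity
    obtain ⟨G1, hG1⟩ : ∃ G1, G1 = G.filter fun x => ∃ i m e₁ e₂, e₁ ≤ K + 1 ∧ e₂ ≤ K ∧
      OptP n H K B₀ i m e₁ e₂ x := ⟨_, rfl⟩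
    obtain ⟨G2, hG2⟩ : ∃ G2, G2 = G.filter fun x => ∃ i j k, 1 ≤ k ∧ k ≤ K ∧ OptF n H B₀ i j k x := ⟨_, rfl⟩
    obtain ⟨G3, hG3⟩ : ∃ G3, G3 = G.filter fun x => ∃ (t : Fin 4 → Fin n) (k : Fin 4 → ℕ),
      (∀ a, 2 ≤ k a ∧ k a ≤ K) ∧ OptC n B₀ t k x := ⟨_, rfl⟩
    have hcov : G ⊆ G1 ∪ (G2 ∪ G3) := by
      intro x hx
      obtain ⟨g1, g2, g3, g4⟩ := hG x hx
      rw [mem_union, mem_union, hG1, hG2, hG3, mem_filter, mem_filter, mem_filter]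
      rcases exists_option3 hn hc he₀0 hK1 hKe hH hbig hB1 g1 g2 g3 g4 with h | h | h
      · exact Or.inl ⟨hx, h⟩
      · exact Or.inr (Or.inl ⟨hx, h⟩)
      · exact Or.inr (Or.inr ⟨hx, h⟩)
    have c0 : (G.card : ℝ) ≤ G1.card + (G2.card + G3.card) := by
      have := (card_le_card hcov).trans ((card_union_le _ _).trans (Nat.add_le_add_left (card_union_le _ _) _))
      exact_mod_cast this
    have hblk : ∀ x ∈ G, Adm x ∧ ∀ i, (x i).natAbs ≤ H := fun x hx => ⟨(hG x hx).1, (hG x hx).2.1⟩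
    have c1 := p1 H B₀ hH hB0 G1 (fun x hx => hblk x (by rw [hG1] at hx; exact (mem_filter.1 hx).1))
      (fun x hx => by rw [hG1] at hx; exact (mem_filter.1 hx).2)
    have c2 := p2 H B₀ hH hB0 G2 (fun x hx => hblk x (by rw [hG2] at hx; exact (mem_filter.1 hx).1))
      (fun x hx => by rw [hG2] at hx; exact (mem_filter.1 hx).2)
    have c3 := p3 H B₀ hH hB0 G3 (fun x hx => hblk x (by rw [hG3] at hx; exact (mem_filter.1 hx).1))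
      (fun x hx => by rw [hG3] at hx; exact (mem_filter.1 hx).2)
    obtain ⟨Λ, hΛ⟩ : ∃ Λ : ℝ, Λ = (Nat.log 2 H : ℝ) + 1 := ⟨_, rfl⟩
    have hΛ1 : 1 ≤ Λ := by
      rw [hΛ]
      have : (0 : ℝ) ≤ (Nat.log 2 H : ℝ) := Nat.cast_nonneg _
      linarith
    rw [← hΛ] at c1 c2 c3
    have hHη : 1 ≤ (H : ℝ) ^ η := Real.one_le_rpow hH1 hη0.le
    obtain ⟨T, hT⟩ : ∃ T : ℝ, T = 1 + SS H := ⟨_, rfl⟩
    have hT1 : 1 ≤ T := by rw [hT]; linarith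
    have hTS : SS H ^ n ≤ T ^ n := pow_le_pow_left₀ hSS (by rw [hT]; linarith) n
    have hTn : 1 ≤ T ^ n := one_le_pow₀ hT1
    obtain ⟨W, hW⟩ : ∃ W : ℝ, W = (H : ℝ) ^ η * Λ ^ (n + 4) * B₀ * T ^ n := ⟨_, rfl⟩
    have d1 : (G1.card : ℝ) ≤ C1 * W := by
      refine c1.trans ?_
      rw [hW]
      have h3 : Λ ^ 3 ≤ Λ ^ (n + 4) := pow_le_pow_right₀ hΛ1 (by omega)
      calc C1 * Λ ^ 3 * B₀ * SS H ^ n ≤ C1 * Λ ^ (n + 4) * B₀ * T ^ n := by gcongr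
        _ = C1 * (1 * Λ ^ (n + 4) * B₀ * T ^ n) := by ring
        _ ≤ C1 * ((H : ℝ) ^ η * Λ ^ (n + 4) * B₀ * T ^ n) := by gcongr
    have d2 : (G2.card : ℝ) ≤ C2 * W := by
      refine c2.trans ?_
      rw [hW]
      have h3 : Λ ^ 2 ≤ Λ ^ (n + 4) := pow_le_pow_right₀ hΛ1 (by omega)
      calc C2 * Λ ^ 2 * B₀ * SS H ^ n ≤ C2 * Λ ^ (n + 4) * B₀ * T ^ n := by gcongr
        _ = C2 * (1 * Λ ^ (n + 4) * B₀ * T ^ n) := by ring
        _ ≤ C2 * ((H : ℝ) ^ η * Λ ^ (n + 4) * B₀ * T ^ n) := by gcongr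
    have d3 : (G3.card : ℝ) ≤ C3 * W := by
      refine c3.trans ?_
      rw [hW]
      calc C3 * (H : ℝ) ^ η * Λ ^ (n + 4) * B₀ = C3 * ((H : ℝ) ^ η * Λ ^ (n + 4) * B₀ * 1) := by ring
        _ ≤ C3 * ((H : ℝ) ^ η * Λ ^ (n + 4) * B₀ * T ^ n) := by gcongr
    have d4 : W ≤ Cl ^ (n + 4) * (1 + Cs) ^ n * (H : ℝ) ^ (δ / 3) * B₀ := by
      have k1 : Λ ^ (n + 4) ≤ (Cl * (H : ℝ) ^ η) ^ (n + 4) := by
        apply pow_le_pow_left₀ (by linarith)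
        rw [hΛ]; exact pl H hH
      have k2 : T ^ n ≤ ((1 + Cs) * (H : ℝ) ^ η) ^ n := by
        apply pow_le_pow_left₀ (by linarith)
        rw [hT, add_mul, one_mul]
        have := ps H hH
        linarith
      have k3 : (H : ℝ) ^ η * ((H : ℝ) ^ η) ^ (n + 4) * ((H : ℝ) ^ η) ^ n = (H : ℝ) ^ (δ / 3) := by
        have e1 : (H : ℝ) ^ η * ((H : ℝ) ^ η) ^ (n + 4) * ((H : ℝ) ^ η) ^ n = ((H : ℝ) ^ η) ^ N := by
          rw [hN, pow_add _ (1 + (n + 4)) n, pow_add _ 1 (n + 4), pow_one]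
        rw [e1, ← Real.rpow_natCast, ← Real.rpow_mul hH0.le, hη]
        congr 1
        field_simp
      rw [hW]
      calc (H : ℝ) ^ η * Λ ^ (n + 4) * B₀ * T ^ n ≤
            (H : ℝ) ^ η * (Cl * (H : ℝ) ^ η) ^ (n + 4) * B₀ * ((1 + Cs) * (H : ℝ) ^ η) ^ n := by
            gcongr
        _ = Cl ^ (n + 4) * (1 + Cs) ^ n * ((H : ℝ) ^ η * ((H : ℝ) ^ η) ^ (n + 4) * ((H : ℝ) ^ η) ^ n) * B₀ := by
            rw [mul_pow, mul_pow]; ring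
        _ = _ := by rw [k3]
    have d5 : B₀ = (H : ℝ) ^ (δ / 3) * (H : ℝ) ^ g := by
      rw [hB₀, Real.rpow_add hH0, mul_comm ((H : ℝ) ^ g), he₀]
    have d6 : (H : ℝ) ^ (δ / 3) * (H : ℝ) ^ (δ / 3) ≤ (H : ℝ) ^ δ := by
      rw [← Real.rpow_add hH0]
      exact Real.rpow_le_rpow_of_exponent_le hH1 (by linarith)
    have d7 : 0 ≤ (H : ℝ) ^ g := by positivity
    calc (G.card : ℝ) ≤ (C1 + C2 + C3) * W := by linarith
      _ ≤ (C1 + C2 + C3) * (Cl ^ (n + 4) * (1 + Cs) ^ n * (H : ℝ) ^ (δ / 3) *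
            ((H : ℝ) ^ (δ / 3) * (H : ℝ) ^ g)) := by
          apply mul_le_mul_of_nonneg_left _ (by linarith)
          rw [← d5]
          exact d4
      _ = (C1 + C2 + C3) * Cl ^ (n + 4) * (1 + Cs) ^ n * ((H : ℝ) ^ (δ / 3) * (H : ℝ) ^ (δ / 3)) *
            (H : ℝ) ^ g := by ring
      _ ≤ (C1 + C2 + C3) * Cl ^ (n + 4) * (1 + Cs) ^ n * (H : ℝ) ^ δ * (H : ℝ) ^ g := by
          apply mul_le_mul_of_nonneg_right _ d7
          exact mul_le_mul_of_nonneg_left d6 hA0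
      _ ≤ _ := by
          apply mul_le_mul_of_nonneg_right _ d7
          apply mul_le_mul_of_nonneg_right _ (by positivity)
          have : 0 ≤ (2 * E + 1) ^ n := by positivity
          linarith

end Pool.Agent.H42.EX
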