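import Pool.Agent.H42.EX.Opt

set_option autoImplicit false

/-!
# Project EX: the bound for a block of heights
-/

namespace Pool.Agent.H42.EX

open Finset
open Pool.Agent.H328R2.ABC (rad sum_inv_rad)
open Pool.Agent.Q38.NC

/-- Counting by classes. -/
theorem card_classes {α β : Type*} (G : Finset α) (T : Finset β) (p : β → α → Prop)
    (hcov : ∀ x ∈ G, ∃ t ∈ T, p t x) {B : ℝ}
    (hB : ∀ t ∈ T, ∀ G' : Finset α, (∀ x ∈ G', x ∈ G ∧ p t x) → (G'.card : ℝ) ≤ B) :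
    (G.card : ℝ) ≤ T.card * B := by
  classical
  have h1 : G ⊆ T.biUnion fun t => G.filter (p t) := by
    intro x hx
    obtain ⟨t, ht, hp⟩ := hcov x hx
    exact mem_biUnion.2 ⟨t, ht, mem_filter.2 ⟨hx, hp⟩⟩
  have h2 : (G.card : ℝ) ≤ ∑ t ∈ T, ((G.filter (p t)).card : ℝ) := by
    exact_mod_cast (card_le_card h1).trans card_biUnion_le
  refine h2.trans ((sum_le_sum fun t ht => hB t ht _ fun x hx => mem_filter.1 hx).trans ?_)
  rw [sum_const, nsmul_eq_mul]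

theorem dy {m : ℕ} (hm : 0 < m) : ((2 : ℝ) ^ Nat.log 2 m ≤ m) ∧ ((m : ℝ) ≤ 2 * 2 ^ Nat.log 2 m) := by
  constructor
  · exact_mod_cast Nat.pow_log_le_self 2 hm.ne'
  · have h := (Nat.lt_pow_succ_log_self (b := 2) (by norm_num) m).le
    have h2 : (m : ℝ) ≤ (2 : ℝ) ^ (Nat.log 2 m + 1) := by exact_mod_cast h
    rw [pow_succ] at h2
    linarith

/-- The set `G` of a block. -/
def Blk (n H : ℕ) (B₀ : ℝ) (G : Finset (Fin n → ℤ)) : Prop :=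
  ∀ x ∈ G, Adm x ∧ (∀ i, (x i).natAbs ≤ H) ∧ PR x ≤ B₀ * H

theorem log_mem {H m : ℕ} (h : m ≤ H) : Nat.log 2 m ∈ range (Nat.log 2 H + 1) := by
  rw [mem_range, Nat.lt_succ_iff]
  exact Nat.log_mono_right h

theorem part1 (h1 : S_F1) (n K : ℕ) {δ : ℝ} (hδ : 0 < δ) : ∃ C : ℝ, 1 ≤ C ∧ ∀ (H : ℕ) (B₀ : ℝ), 1 ≤ H →
    0 ≤ B₀ → ∀ G : Finset (Fin n → ℤ), Blk n H B₀ G →
    (∀ x ∈ G, ∃ i j k, 1 ≤ k ∧ k ≤ K ∧ Opt1 n H B₀ i j k x) →
    (G.card : ℝ) ≤ C * (H : ℝ) ^ δ * ((Nat.log 2 H : ℝ) + 1) ^ 2 * B₀ * SS H ^ n := by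
  classical
  choose C hC hF using fun k : ℕ => cell1 h1 (n := n) (k := k + 1) (Nat.le_add_left 1 k) hδ
  have hCs : ∀ k, k < K → C k ≤ ∑ k ∈ range K, C k := fun k hk =>
    single_le_sum (f := C) (fun i _ => by linarith [hC i]) (mem_range.2 hk)
  have hCs0 : 0 ≤ ∑ k ∈ range K, C k := sum_nonneg fun i _ => by linarith [hC i]
  refine ⟨(n : ℝ) ^ 2 * K * (∑ k ∈ range K, C k) + 1, by
    have : 0 ≤ (n : ℝ) ^ 2 * K * (∑ k ∈ range K, C k) := by positivity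
    linarith, ?_⟩
  intro H B₀ hH hB₀ G hG hopt
  have hH0 : (0 : ℝ) < H := by exact_mod_cast hH
  have hSS : 0 ≤ SS H := sum_nonneg fun _ _ => by positivity
  have hcl := card_classes G ((univ : Finset (Fin n × Fin n)) ×ˢ (range K ×ˢ
    (range (Nat.log 2 H + 1) ×ˢ range (Nat.log 2 H + 1))))
    (fun t x => Opt1 n H B₀ t.1.1 t.1.2 (t.2.1 + 1) x ∧ Nat.log 2 (bk 1 (x t.1.1).natAbs) = t.2.2.1 ∧
      Nat.log 2 (bk (t.2.1 + 1) (x t.1.2).natAbs) = t.2.2.2) (by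
      intro x hx
      obtain ⟨i, j, k, hk1, hk2, ho⟩ := hopt x hx
      obtain ⟨g1, g2, -⟩ := hG x hx
      have hne : ∀ t, (x t).natAbs ≠ 0 := fun t => Int.natAbs_ne_zero.2 (g1.ne t)
      obtain ⟨k', rfl⟩ : ∃ k', k = k' + 1 := ⟨k - 1, by omega⟩
      refine ⟨((i, j), (k', (Nat.log 2 (bk 1 (x i).natAbs), Nat.log 2 (bk (k' + 1) (x j).natAbs)))), ?_,
        ho, rfl, rfl⟩
      rw [mem_product, mem_product, mem_product]
      exact ⟨mem_univ _, mem_range.2 (show k' < K by omega), log_mem ((bk_le (hne i)).trans (g2 i)),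
        log_mem ((bk_le (hne j)).trans (g2 j))⟩)
    (B := (∑ k ∈ range K, C k) * (H : ℝ) ^ δ * B₀ * SS H ^ n) (by
      rintro ⟨⟨i, j⟩, k, u, v⟩ ht G' hG'
      rw [mem_product, mem_product] at ht
      have hk := mem_range.1 ht.2.1
      rcases G'.eq_empty_or_nonempty with h0 | ⟨x₀, hx₀⟩
      · rw [h0, card_empty, Nat.cast_zero]; positivity
      refine (hF k H i j (2 ^ u) (2 ^ v) B₀ hH (hG' x₀ hx₀).2.1.1 (one_le_pow₀ (by norm_num))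
        (one_le_pow₀ (by norm_num)) hB₀ G' ?_).trans ?_
      · intro x hx
        obtain ⟨hxG, ⟨o1, o2, o3⟩, hu, hv⟩ := hG' x hx
        obtain ⟨g1, g2, g3⟩ := hG x hxG
        simp only at hu hv
        have d1 := dy (bk_pos 1 (x i).natAbs)
        have d2 := dy (bk_pos (k + 1) (x j).natAbs)
        rw [hu] at d1
        rw [hv] at d2
        exact ⟨g1, g2, o2, d1.1, d1.2, d2.1, d2.2, g3, o3⟩
      · have := hCs k hk
        gcongr)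
  refine hcl.trans ?_
  rw [card_product, card_product, card_product, card_range, card_range, card_univ, Fintype.card_prod,
    Fintype.card_fin]
  push_cast
  have e : ((n : ℝ) * n * (K * (((Nat.log 2 H : ℝ) + 1) * ((Nat.log 2 H : ℝ) + 1)))) *
      ((∑ k ∈ range K, C k) * (H : ℝ) ^ δ * B₀ * SS H ^ n) =
      ((n : ℝ) ^ 2 * K * (∑ k ∈ range K, C k)) * ((H : ℝ) ^ δ * ((Nat.log 2 H : ℝ) + 1) ^ 2 * B₀ * SS H ^ n) := by
    ring
  rw [e]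
  have h0 : 0 ≤ (H : ℝ) ^ δ * ((Nat.log 2 H : ℝ) + 1) ^ 2 * B₀ * SS H ^ n := by positivity
  calc ((n : ℝ) ^ 2 * K * (∑ k ∈ range K, C k)) * ((H : ℝ) ^ δ * ((Nat.log 2 H : ℝ) + 1) ^ 2 * B₀ * SS H ^ n) ≤
      ((n : ℝ) ^ 2 * K * (∑ k ∈ range K, C k) + 1) *
        ((H : ℝ) ^ δ * ((Nat.log 2 H : ℝ) + 1) ^ 2 * B₀ * SS H ^ n) := by nlinarith
    _ = _ := by ring

theorem part2 (h2 : S_F2) (n K : ℕ) : ∃ C : ℝ, 1 ≤ C ∧ ∀ (H : ℕ) (B₀ : ℝ), 1 ≤ H →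
    0 ≤ B₀ → ∀ G : Finset (Fin n → ℤ), Blk n H B₀ G →
    (∀ x ∈ G, ∃ i m j k, 1 ≤ k ∧ k ≤ K ∧ Opt2 n H B₀ i m j k x) →
    (G.card : ℝ) ≤ C * ((Nat.log 2 H : ℝ) + 1) ^ 4 * B₀ * SS H ^ n := by
  classical
  choose C hC hF using fun k : ℕ => cell2 h2 (n := n) (k := k + 1) (Nat.le_add_left 1 k)
  have hCs : ∀ k, k < K → C k ≤ ∑ k ∈ range K, C k := fun k hk =>
    single_le_sum (f := C) (fun i _ => by linarith [hC i]) (mem_range.2 hk)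
  have hCs0 : 0 ≤ ∑ k ∈ range K, C k := sum_nonneg fun i _ => by linarith [hC i]
  refine ⟨(n : ℝ) ^ 3 * K * (∑ k ∈ range K, C k) + 1, by
    have : 0 ≤ (n : ℝ) ^ 3 * K * (∑ k ∈ range K, C k) := by positivity
    linarith, ?_⟩
  intro H B₀ hH hB₀ G hG hopt
  have hH0 : (0 : ℝ) < H := by exact_mod_cast hH
  have hSS : 0 ≤ SS H := sum_nonneg fun _ _ => by positivity
  have hcl := card_classes G ((univ : Finset (Fin n × Fin n × Fin n)) ×ˢ (range K ×ˢ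
    (range (Nat.log 2 H + 1) ×ˢ (range (Nat.log 2 H + 1) ×ˢ (range (Nat.log 2 H + 1) ×ˢ range (Nat.log 2 H + 1))))))
    (fun t x => Opt2 n H B₀ t.1.1 t.1.2.1 t.1.2.2 (t.2.1 + 1) x ∧ Nat.log 2 (bk 1 (x t.1.1).natAbs) = t.2.2.1 ∧
      Nat.log 2 (bk 1 (x t.1.2.1).natAbs) = t.2.2.2.1 ∧
      Nat.log 2 (bk (t.2.1 + 1) (x t.1.2.2).natAbs) = t.2.2.2.2.1 ∧
      Nat.log 2 (x t.1.2.1).natAbs = t.2.2.2.2.2) (by
      intro x hx
      obtain ⟨i, m, j, k, hk1, hk2, ho⟩ := hopt x hx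
      obtain ⟨g1, g2, -⟩ := hG x hx
      have hne : ∀ t, (x t).natAbs ≠ 0 := fun t => Int.natAbs_ne_zero.2 (g1.ne t)
      obtain ⟨k', rfl⟩ : ∃ k', k = k' + 1 := ⟨k - 1, by omega⟩
      refine ⟨((i, m, j), (k', (Nat.log 2 (bk 1 (x i).natAbs), (Nat.log 2 (bk 1 (x m).natAbs),
        (Nat.log 2 (bk (k' + 1) (x j).natAbs), Nat.log 2 (x m).natAbs))))), ?_, ho, rfl, rfl, rfl, rfl⟩
      rw [mem_product, mem_product, mem_product, mem_product, mem_product]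
      exact ⟨mem_univ _, mem_range.2 (show k' < K by omega), log_mem ((bk_le (hne i)).trans (g2 i)),
        log_mem ((bk_le (hne m)).trans (g2 m)), log_mem ((bk_le (hne j)).trans (g2 j)), log_mem (g2 m)⟩)
    (B := (∑ k ∈ range K, C k) * B₀ * SS H ^ n) (by
      rintro ⟨⟨i, m, j⟩, k, u, u', v, w⟩ ht G' hG'
      rw [mem_product, mem_product] at ht
      have hk := mem_range.1 ht.2.1
      rcases G'.eq_empty_or_nonempty with h0 | ⟨x₀, hx₀⟩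
      · rw [h0, card_empty, Nat.cast_zero]; positivity
      obtain ⟨-, ⟨p1, p2, p3, -⟩, -⟩ := hG' x₀ hx₀
      refine (hF k H i m j (2 ^ u) (2 ^ u') (2 ^ v) (2 ^ w) B₀ hH p1 p2 p3 (one_le_pow₀ (by norm_num))
        (one_le_pow₀ (by norm_num)) (one_le_pow₀ (by norm_num)) (one_le_pow₀ (by norm_num)) hB₀ G' ?_).trans ?_
      · intro x hx
        obtain ⟨hxG, ⟨o1, o2, o3, o4, o5, o6, o7, o8⟩, hu, hu', hv, hw⟩ := hG' x hx
        obtain ⟨g1, g2, g3⟩ := hG x hxG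
        simp only at hu hu' hv hw
        have d1 := dy (bk_pos 1 (x i).natAbs)
        have d2 := dy (bk_pos 1 (x m).natAbs)
        have d3 := dy (bk_pos (k + 1) (x j).natAbs)
        have d4 := dy (Int.natAbs_pos.2 (g1.ne m))
        rw [hu] at d1
        rw [hu'] at d2
        rw [hv] at d3
        rw [hw] at d4
        exact ⟨g1, g2, o4, o5, d4.1, d4.2, d1.1, d1.2, d2.1, d2.2, d3.1, d3.2, g3, o6, o7, o8⟩
      · have := hCs k hk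
        gcongr)
  refine hcl.trans ?_
  rw [card_product, card_product, card_product, card_product, card_product, card_range, card_range, card_univ,
    Fintype.card_prod, Fintype.card_prod, Fintype.card_fin]
  push_cast
  have e : ((n : ℝ) * (n * n) * (K * (((Nat.log 2 H : ℝ) + 1) * (((Nat.log 2 H : ℝ) + 1) *
      (((Nat.log 2 H : ℝ) + 1) * ((Nat.log 2 H : ℝ) + 1)))))) *
      ((∑ k ∈ range K, C k) * B₀ * SS H ^ n) =
      ((n : ℝ) ^ 3 * K * (∑ k ∈ range K, C k)) * (((Nat.log 2 H : ℝ) + 1) ^ 4 * B₀ * SS H ^ n) := by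
    ring
  rw [e]
  have h0 : 0 ≤ ((Nat.log 2 H : ℝ) + 1) ^ 4 * B₀ * SS H ^ n := by positivity
  calc ((n : ℝ) ^ 3 * K * (∑ k ∈ range K, C k)) * (((Nat.log 2 H : ℝ) + 1) ^ 4 * B₀ * SS H ^ n) ≤
      ((n : ℝ) ^ 3 * K * (∑ k ∈ range K, C k) + 1) *
        (((Nat.log 2 H : ℝ) + 1) ^ 4 * B₀ * SS H ^ n) := by nlinarith
    _ = _ := by ring

theorem part3 (h3 : S_F3) (n K : ℕ) {e₀ : ℝ} (he₀ : 0 < e₀) (hK : 16 ≤ e₀ * (K + 1)) {δ : ℝ} (hδ : 0 < δ) :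
    ∃ C : ℝ, 1 ≤ C ∧ ∀ (H : ℕ) (B₀ : ℝ), 1 ≤ H → 16 * ((K : ℝ) + 1) ≤ e₀ * Real.log H →
    0 ≤ B₀ → ∀ G : Finset (Fin n → ℤ), Blk n H B₀ G →
    (∀ x ∈ G, ∃ i m j τ, τ ≤ Nat.log 2 H ∧ Opt3 n H K B₀ e₀ i m j τ x) →
    (G.card : ℝ) ≤ C * (H : ℝ) ^ δ * ((Nat.log 2 H : ℝ) + 1) ^ (4 + 2 * K) * B₀ * SS H ^ n := by
  classical
  obtain ⟨C, hC, hF⟩ := cell3 h3 (n := n) he₀ hK hδ
  refine ⟨(n : ℝ) ^ 4 * C + 1, by
    have : 0 ≤ (n : ℝ) ^ 4 * C := by positivity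
    linarith, ?_⟩
  intro H B₀ hH hHl hB₀ G hG hopt
  have hH0 : (0 : ℝ) < H := by exact_mod_cast hH
  have hSS : 0 ≤ SS H := sum_nonneg fun _ _ => by positivity
  have hcl := card_classes G ((univ : Finset (Fin n × Fin n × (Fin 2 → Fin n))) ×ˢ
    (range (Nat.log 2 H + 1) ×ˢ (range (Nat.log 2 H + 1) ×ˢ (range (Nat.log 2 H + 1) ×ˢ
      (range (Nat.log 2 H + 1) ×ˢ Fintype.piFinset (fun _ : Fin 2 × Fin K => range (Nat.log 2 H + 1)))))))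
    (fun t x => Opt3 n H K B₀ e₀ t.1.1 t.1.2.1 t.1.2.2 t.2.1 x ∧ Nat.log 2 (bk 1 (x t.1.1).natAbs) = t.2.2.1 ∧
      Nat.log 2 (bk 1 (x t.1.2.1).natAbs) = t.2.2.2.1 ∧
      Nat.log 2 (x t.1.2.1).natAbs = t.2.2.2.2.1 ∧
      ∀ p : Fin 2 × Fin K, Nat.log 2 (bk ((p.2 : ℕ) + 1) (x (t.1.2.2 p.1)).natAbs) = t.2.2.2.2.2 p) (by
      intro x hx
      obtain ⟨i, m, j, τ, hτ, ho⟩ := hopt x hx
      obtain ⟨g1, g2, -⟩ := hG x hx
      have hne : ∀ t, (x t).natAbs ≠ 0 := fun t => Int.natAbs_ne_zero.2 (g1.ne t)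
      refine ⟨((i, m, j), (τ, (Nat.log 2 (bk 1 (x i).natAbs), (Nat.log 2 (bk 1 (x m).natAbs),
        (Nat.log 2 (x m).natAbs, fun p => Nat.log 2 (bk ((p.2 : ℕ) + 1) (x (j p.1)).natAbs)))))), ?_,
        ho, rfl, rfl, rfl, fun _ => rfl⟩
      rw [mem_product, mem_product, mem_product, mem_product, mem_product, Fintype.mem_piFinset]
      exact ⟨mem_univ _, mem_range.2 (show τ < Nat.log 2 H + 1 by omega), log_mem ((bk_le (hne i)).trans (g2 i)),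
        log_mem ((bk_le (hne m)).trans (g2 m)), log_mem (g2 m), fun p => log_mem ((bk_le (hne _)).trans (g2 _))⟩)
    (B := C * (H : ℝ) ^ δ * B₀ * SS H ^ n) (by
      rintro ⟨⟨i, m, j⟩, τ, u, u', w, v⟩ ht G' hG'
      rcases G'.eq_empty_or_nonempty with h0 | ⟨x₀, hx₀⟩
      · rw [h0, card_empty, Nat.cast_zero]; positivity
      obtain ⟨-, ⟨p1, p2, p3, -⟩, -⟩ := hG' x₀ hx₀
      refine hF H i m j (2 ^ u) (2 ^ u') (2 ^ w) (2 ^ τ) B₀ (fun p => 2 ^ v p) hH hHl p1 p2 p3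
        (one_le_pow₀ (by norm_num)) (one_le_pow₀ (by norm_num)) (one_le_pow₀ (by norm_num))
        (one_le_pow₀ (by norm_num)) (fun p => one_le_pow₀ (by norm_num)) hB₀ G' ?_
      intro x hx
      obtain ⟨hxG, ⟨o1, o2, o3, o4, o5, o6, o7, o8, o9, o10⟩, hu, hu', hw, hv⟩ := hG' x hx
      obtain ⟨g1, g2, g3⟩ := hG x hxG
      simp only at hu hu' hv hw
      have d1 := dy (bk_pos 1 (x i).natAbs)
      have d2 := dy (bk_pos 1 (x m).natAbs)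
      have d4 := dy (Int.natAbs_pos.2 (g1.ne m))
      rw [hu] at d1
      rw [hu'] at d2
      rw [hw] at d4
      refine ⟨g1, g2, o4, o5, d4.1, d4.2, d1.1, d1.2, d2.1, d2.2, ?_, o6, o7, o8, o9, o10⟩
      intro p
      have d3 := dy (bk_pos ((p.2 : ℕ) + 1) (x (j p.1)).natAbs)
      rw [hv p] at d3
      exact d3)
  refine hcl.trans ?_
  have hp : (Fintype.piFinset (fun _ : Fin 2 × Fin K => range (Nat.log 2 H + 1))).card =
      (Nat.log 2 H + 1) ^ (2 * K) := by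
    rw [Fintype.card_piFinset]
    simp
  rw [card_product, card_product, card_product, card_product, card_product, card_range, card_univ, hp]
  simp only [Fintype.card_prod, Fintype.card_fin, Fintype.card_fun]
  push_cast
  have e : ((n : ℝ) * (n * n ^ 2) * (((Nat.log 2 H : ℝ) + 1) * (((Nat.log 2 H : ℝ) + 1) *
      (((Nat.log 2 H : ℝ) + 1) * (((Nat.log 2 H : ℝ) + 1) * ((Nat.log 2 H : ℝ) + 1) ^ (2 * K)))))) *
      (C * (H : ℝ) ^ δ * B₀ * SS H ^ n) =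
      ((n : ℝ) ^ 4 * C) * ((H : ℝ) ^ δ * ((Nat.log 2 H : ℝ) + 1) ^ (4 + 2 * K) * B₀ * SS H ^ n) := by
    rw [pow_add]; ring
  rw [e]
  have h0 : 0 ≤ (H : ℝ) ^ δ * ((Nat.log 2 H : ℝ) + 1) ^ (4 + 2 * K) * B₀ * SS H ^ n := by positivity
  calc ((n : ℝ) ^ 4 * C) * ((H : ℝ) ^ δ * ((Nat.log 2 H : ℝ) + 1) ^ (4 + 2 * K) * B₀ * SS H ^ n) ≤
      ((n : ℝ) ^ 4 * C + 1) * ((H : ℝ) ^ δ * ((Nat.log 2 H : ℝ) + 1) ^ (4 + 2 * K) * B₀ * SS H ^ n) := by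
        nlinarith
    _ = _ := by ring

end Pool.Agent.H42.EX
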