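import Pool.Agent.H42.EX.En

set_option autoImplicit false

/-!
# Project EX3: `S_C4`, tuples four coordinates of which have large power parts
-/

namespace Pool.Agent.H42.EX.C4

open Finset
open Pool.Agent.H328R2.ABC (rad)
open Pool.Agent.Q38.NC
open Pool.Agent.H42.EX.En

/-- The additive energy. -/
def EE (S : Finset ℤ) : ℕ := (((S ×ˢ S) ×ˢ (S ×ˢ S)).filter fun q => q.1.1 + q.1.2 = q.2.1 + q.2.2).card

theorem diff_le (S : Finset ℤ) :
    (((S ×ˢ S) ×ˢ (S ×ˢ S)).filter fun q => q.1.1 - q.1.2 = q.2.1 - q.2.2).card ≤ EE S := by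
  unfold EE
  refine Finset.card_le_card_of_injOn (fun q => ((q.1.1, q.2.2), (q.2.1, q.1.2))) ?_ ?_
  · intro q hq
    obtain ⟨h1, h2⟩ := mem_filter.1 (mem_coe.1 hq)
    obtain ⟨h3, h4⟩ := mem_product.1 h1
    obtain ⟨h5, h6⟩ := mem_product.1 h3
    obtain ⟨h7, h8⟩ := mem_product.1 h4
    refine mem_coe.2 (mem_filter.2 ⟨mem_product.2 ⟨mem_product.2 ⟨h5, h8⟩, mem_product.2 ⟨h7, h6⟩⟩, ?_⟩)
    show q.1.1 + q.2.2 = q.2.1 + q.1.2
    omega
  · intro q _ q' _ heq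
    simp only [Prod.mk.injEq] at heq
    exact Prod.ext (Prod.ext heq.1.1 heq.2.2) (Prod.ext heq.2.1 heq.1.2)

theorem diff_le' (S : Finset ℤ) :
    (((S ×ˢ S) ×ˢ (S ×ˢ S)).filter fun q => q.1.2 - q.1.1 = q.2.2 - q.2.1).card ≤ EE S := by
  refine le_trans (le_of_eq ?_) (diff_le S)
  congr 1
  refine filter_congr fun q _ => ?_
  constructor <;> intro h <;> omega

theorem two_le (S T : Finset ℤ) :
    (((S ×ˢ T) ×ˢ (S ×ˢ T)).filter fun q => q.1.1 + q.1.2 = q.2.1 + q.2.2).card ^ 2 ≤ EE S * EE T := by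
  have h1 := card_pairs_sq (S ×ˢ S) (T ×ˢ T) (fun p => p.1 - p.2) (fun p => p.2 - p.1)
  have h2 : (((S ×ˢ T) ×ˢ (S ×ˢ T)).filter fun q => q.1.1 + q.1.2 = q.2.1 + q.2.2).card ≤
      (((S ×ˢ S) ×ˢ (T ×ˢ T)).filter fun q => q.1.1 - q.1.2 = q.2.2 - q.2.1).card := by
    refine Finset.card_le_card_of_injOn (fun q => ((q.1.1, q.2.1), (q.1.2, q.2.2))) ?_ ?_
    · intro q hq
      obtain ⟨h1, h2⟩ := mem_filter.1 (mem_coe.1 hq)
      obtain ⟨h3, h4⟩ := mem_product.1 h1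
      obtain ⟨h5, h6⟩ := mem_product.1 h3
      obtain ⟨h7, h8⟩ := mem_product.1 h4
      refine mem_coe.2 (mem_filter.2 ⟨mem_product.2 ⟨mem_product.2 ⟨h5, h7⟩, mem_product.2 ⟨h6, h8⟩⟩, ?_⟩)
      show q.1.1 - q.2.1 = q.2.2 - q.1.2
      omega
    · intro q _ q' _ heq
      simp only [Prod.mk.injEq] at heq
      exact Prod.ext (Prod.ext heq.1.1 heq.2.1) (Prod.ext heq.1.2 heq.2.2)
  calc _ ≤ (((S ×ˢ S) ×ˢ (T ×ˢ T)).filter fun q => q.1.1 - q.1.2 = q.2.2 - q.2.1).card ^ 2 :=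
        Nat.pow_le_pow_left h2 2
    _ ≤ _ := h1
    _ ≤ EE S * EE T := Nat.mul_le_mul (diff_le S) (diff_le' T)

/-- Sums of four elements. -/
theorem quad_le (S : Fin 4 → Finset ℤ) (m : ℤ) :
    (((S 0 ×ˢ S 1) ×ˢ (S 2 ×ˢ S 3)).filter fun q => q.1.1 + q.1.2 = m - q.2.1 - q.2.2).card ^ 4 ≤
      ∏ a, EE (S a) := by
  have h1 := card_pairs_sq (S 0 ×ˢ S 1) (S 2 ×ˢ S 3) (fun p => p.1 + p.2) (fun p => m - p.1 - p.2)
  have h2 : (((S 2 ×ˢ S 3) ×ˢ (S 2 ×ˢ S 3)).filter fun q => m - q.1.1 - q.1.2 = m - q.2.1 - q.2.2) =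
      (((S 2 ×ˢ S 3) ×ˢ (S 2 ×ˢ S 3)).filter fun q => q.1.1 + q.1.2 = q.2.1 + q.2.2) := by
    refine filter_congr fun q _ => ?_
    constructor <;> intro h <;> omega
  rw [h2] at h1
  have h3 := two_le (S 0) (S 1)
  have h4 := two_le (S 2) (S 3)
  rw [Fin.prod_univ_four]
  calc _ = ((((S 0 ×ˢ S 1) ×ˢ (S 2 ×ˢ S 3)).filter fun q => q.1.1 + q.1.2 = m - q.2.1 - q.2.2).card ^ 2) ^ 2 := by
        rw [← pow_mul]
    _ ≤ (((((S 0 ×ˢ S 1) ×ˢ (S 0 ×ˢ S 1)).filter fun q => q.1.1 + q.1.2 = q.2.1 + q.2.2).card) *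
        ((((S 2 ×ˢ S 3) ×ˢ (S 2 ×ˢ S 3)).filter fun q => q.1.1 + q.1.2 = q.2.1 + q.2.2).card)) ^ 2 :=
        Nat.pow_le_pow_left h1 2
    _ = (((((S 0 ×ˢ S 1) ×ˢ (S 0 ×ˢ S 1)).filter fun q => q.1.1 + q.1.2 = q.2.1 + q.2.2).card) ^ 2) *
        (((((S 2 ×ˢ S 3) ×ˢ (S 2 ×ˢ S 3)).filter fun q => q.1.1 + q.1.2 = q.2.1 + q.2.2).card) ^ 2) := mul_pow _ _ _
    _ ≤ EE (S 0) * EE (S 1) * (EE (S 2) * EE (S 3)) := Nat.mul_le_mul h3 h4
    _ = EE (S 0) * EE (S 1) * EE (S 2) * EE (S 3) := by ring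

variable {n : ℕ}

/-- The tuple with the coordinates in `R` replaced by `0`. -/
def cut (R : Finset (Fin n)) (x : Fin n → ℤ) : Fin n → ℤ := fun i => if i ∈ R then 0 else x i

theorem fib (t : Fin 4 → Fin n) (ht : Function.Injective t) (G : Finset (Fin n → ℤ))
    (hG : ∀ x ∈ G, ∑ i, x i = 0) (z : Fin n → ℤ) :
    ((G.filter fun x => cut (univ.image t) x = z).card) ^ 4 ≤ ∏ a, EE (G.image fun x => x (t a)) := by
  classical
  refine le_trans (Nat.pow_le_pow_left ?_ 4) (quad_le (fun a => G.image fun x => x (t a)) (-∑ i, z i))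
  refine Finset.card_le_card_of_injOn (fun x => ((x (t 0), x (t 1)), (x (t 2), x (t 3)))) ?_ ?_
  · intro x hx
    obtain ⟨hx1, hx2⟩ := mem_filter.1 (mem_coe.1 hx)
    refine mem_coe.2 (mem_filter.2 ⟨mem_product.2 ⟨mem_product.2 ⟨?_, ?_⟩, mem_product.2 ⟨?_, ?_⟩⟩, ?_⟩)
    · exact mem_image_of_mem (fun x : Fin n → ℤ => x (t 0)) hx1
    · exact mem_image_of_mem (fun x : Fin n → ℤ => x (t 1)) hx1
    · exact mem_image_of_mem (fun x : Fin n → ℤ => x (t 2)) hx1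
    · exact mem_image_of_mem (fun x : Fin n → ℤ => x (t 3)) hx1
    · have h1 := hG x hx1
      have h2 : ∑ i, x i = ∑ i ∈ univ.image t, x i + ∑ i, z i := by
        rw [← hx2]
        have h3 : ∀ i, x i = (if i ∈ univ.image t then x i else 0) + cut (univ.image t) x i := by
          intro i
          unfold cut
          by_cases hi : i ∈ univ.image t
          · rw [if_pos hi, if_pos hi, add_zero]
          · rw [if_neg hi, if_neg hi, zero_add]
        rw [sum_congr rfl fun i _ => h3 i, sum_add_distrib, sum_ite_mem, univ_inter]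
      have h4 : ∑ i ∈ univ.image t, x i = x (t 0) + x (t 1) + x (t 2) + x (t 3) := by
        rw [sum_image fun a _ b _ h => ht h, Fin.sum_univ_four]
      show x (t 0) + x (t 1) = -∑ i, z i - x (t 2) - x (t 3)
      rw [h4, h1] at h2
      linarith
  · intro x hx y hy heq
    obtain ⟨-, hx2⟩ := mem_filter.1 (mem_coe.1 hx)
    obtain ⟨-, hy2⟩ := mem_filter.1 (mem_coe.1 hy)
    simp only [Prod.mk.injEq] at heq
    funext i
    by_cases hi : i ∈ univ.image t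
    · obtain ⟨a, -, rfl⟩ := mem_image.1 hi
      fin_cases a
      · exact heq.1.1
      · exact heq.1.2
      · exact heq.2.1
      · exact heq.2.2
    · have h3 : cut (univ.image t) x i = cut (univ.image t) y i := by rw [hx2, hy2]
      unfold cut at h3
      rwa [if_neg hi, if_neg hi] at h3

theorem main : S_C4 := by
  intro n K η hη
  classical
  obtain ⟨η', hη'⟩ : ∃ η' : ℝ, η' = η / (2 * (n + 1)) := ⟨_, rfl⟩
  have hη'0 : 0 < η' := by rw [hη']; positivity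
  obtain ⟨C1, hC1, hSS⟩ := SS_le η' hη'0
  have hEN : ∀ k : ℕ, ∃ C : ℝ, 1 ≤ C ∧ (2 ≤ k → ∀ (H : ℕ) (r Z : ℝ), 1 ≤ H → 1 ≤ r → 1 ≤ Z → ∀ S : Finset ℤ,
      (∀ x ∈ S, x ≠ 0 ∧ x.natAbs ≤ H ∧ (rad x.natAbs : ℝ) ≤ r ∧ Z ≤ (bk k x.natAbs : ℝ)) →
      (EE S : ℝ) ≤ C * (H : ℝ) ^ (η / 2) * (r ^ 3 / Z)) := by
    intro k
    by_cases hk : 2 ≤ k
    · obtain ⟨C, hC, h⟩ := En.main k hk (η / 2) (by positivity)
      exact ⟨C, hC, fun _ => h⟩
    · exact ⟨1, le_rfl, fun h => absurd h hk⟩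
  choose CE hCE hE using hEN
  obtain ⟨CC, hCC⟩ : ∃ CC : ℝ, CC = ∑ k ∈ range (K + 1), CE k := ⟨_, rfl⟩
  have hCCk : ∀ k ≤ K, CE k ≤ CC := by
    intro k hk
    rw [hCC]
    exact single_le_sum (f := CE) (fun i _ => by linarith [hCE i]) (mem_range.2 (by omega))
  have hCC1 : 1 ≤ CC := (hCE 0).trans (hCCk 0 (Nat.zero_le _))
  refine ⟨C1 ^ n * CC, one_le_mul_of_one_le_of_one_le (one_le_pow₀ hC1) hCC1, ?_⟩
  intro H t k r Z hH ht hk hr hZ G hG
  have hH0 : (0 : ℝ) < H := by exact_mod_cast hH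
  have hH1 : (1 : ℝ) ≤ H := by exact_mod_cast hH
  have hSSH := hSS H hH
  obtain ⟨M, hM⟩ : ∃ M : ℝ, M = C1 * (H : ℝ) ^ η' := ⟨_, rfl⟩
  have hHη : (1 : ℝ) ≤ (H : ℝ) ^ η' := Real.one_le_rpow hH1 hη'0.le
  have hM1 : 1 ≤ M := by rw [hM]; exact one_le_mul_of_one_le_of_one_le hC1 hHη
  have hr0 : ∀ i, 0 < r i := fun i => by linarith [hr i]
  have hZ0 : ∀ a, 0 < Z a := fun a => by linarith [hZ a]
  -- the energies
  have hEa : ∀ a, (EE (G.image fun x => x (t a)) : ℝ) ≤ CC * (H : ℝ) ^ (η / 2) * (r (t a) ^ 3 / Z a) := by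
    intro a
    have h1 := hE (k a) (hk a).1 H (r (t a)) (Z a) hH (hr _) (hZ a) (G.image fun x => x (t a)) (by
      intro z hz
      obtain ⟨x, hx, rfl⟩ := mem_image.1 hz
      obtain ⟨g1, g2, g3, g4⟩ := hG x hx
      exact ⟨g1.ne _, g2 _, g3 _, g4 a⟩)
    refine h1.trans ?_
    have h2 := hCCk (k a) (hk a).2
    have h3 : 0 ≤ (H : ℝ) ^ (η / 2) := by positivity
    have h4 : 0 ≤ r (t a) ^ 3 / Z a := div_nonneg (pow_nonneg (hr0 _).le 3) (hZ0 a).le
    exact mul_le_mul_of_nonneg_right (mul_le_mul_of_nonneg_right h2 h3) h4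
  -- the fibres
  obtain ⟨X, hX⟩ : ∃ X : Fin 4 → ℝ, X = fun a => r (t a) ^ 3 / Z a := ⟨_, rfl⟩
  have hX0 : ∀ a, 0 < X a := fun a => by
    rw [hX]; exact div_pos (pow_pos (hr0 _) 3) (hZ0 a)
  have hPX0 : 0 < ∏ a, X a := prod_pos fun a _ => hX0 a
  obtain ⟨Y, hY⟩ : ∃ Y : ℝ, Y = CC * (H : ℝ) ^ (η / 2) := ⟨_, rfl⟩
  have hY0 : 0 < Y := by rw [hY]; exact mul_pos (by linarith) (by positivity)
  have hfib : ∀ z, ((G.filter fun x => cut (univ.image t) x = z).card : ℝ) ≤ Y * (∏ a, X a) ^ (1 / 4 : ℝ) := by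
    intro z
    have h1 := fib t ht G (fun x hx => (hG x hx).1.sum) z
    have h2 : ((G.filter fun x => cut (univ.image t) x = z).card : ℝ) ^ 4 ≤ ∏ a, (Y * X a) := by
      calc ((G.filter fun x => cut (univ.image t) x = z).card : ℝ) ^ 4
          ≤ ∏ a, (EE (G.image fun x => x (t a)) : ℝ) := by exact_mod_cast h1
        _ ≤ ∏ a, (Y * X a) := by
          refine prod_le_prod (fun a _ => Nat.cast_nonneg _) fun a _ => ?_
          rw [hY, hX]
          exact hEa a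
    have h3 : (((G.filter fun x => cut (univ.image t) x = z).card : ℝ) ^ 4) ^ (1 / 4 : ℝ) =
        ((G.filter fun x => cut (univ.image t) x = z).card : ℝ) := by
      rw [← Real.rpow_natCast, ← Real.rpow_mul (Nat.cast_nonneg _)]
      norm_num
    have h4 : (∏ a, (Y * X a)) ^ (1 / 4 : ℝ) = Y * (∏ a, X a) ^ (1 / 4 : ℝ) := by
      rw [prod_mul_distrib, prod_const, card_univ, Fintype.card_fin,
        Real.mul_rpow (by positivity) hPX0.le]
      congr 1
      rw [← Real.rpow_natCast, ← Real.rpow_mul hY0.le]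
      norm_num
    rw [← h3, ← h4]
    exact Real.rpow_le_rpow (by positivity) h2 (by norm_num)
  -- the codes
  have hcode : ((G.image (cut (univ.image t))).card : ℝ) ≤ ∏ i, (if i ∈ univ.image t then 1 else M * r i) := by
    have h1 : G.image (cut (univ.image t)) ⊆ Fintype.piFinset fun i =>
        if i ∈ univ.image t then ({0} : Finset ℤ) else G.image fun x => x i := by
      intro z hz
      obtain ⟨x, hx, rfl⟩ := mem_image.1 hz
      rw [Fintype.mem_piFinset]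
      intro i
      unfold cut
      by_cases hi : i ∈ univ.image t
      · rw [if_pos hi, if_pos hi]; exact mem_singleton_self _
      · rw [if_neg hi, if_neg hi]; exact mem_image_of_mem (fun x : Fin n → ℤ => x i) hx
    have h2 := card_le_card h1
    rw [Fintype.card_piFinset] at h2
    have h3 : ((G.image (cut (univ.image t))).card : ℝ) ≤
        ∏ i, (((if i ∈ univ.image t then ({0} : Finset ℤ) else G.image fun x => x i).card : ℕ) : ℝ) := by
      exact_mod_cast h2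
    refine h3.trans (prod_le_prod (fun i _ => Nat.cast_nonneg _) fun i _ => ?_)
    by_cases hi : i ∈ univ.image t
    · rw [if_pos hi, if_pos hi, card_singleton, Nat.cast_one]
    · rw [if_neg hi, if_neg hi]
      have h4 := card_rad_le (H := H) (hr0 i).le (G.image fun x => x i) (by
        intro z hz
        obtain ⟨x, hx, rfl⟩ := mem_image.1 hz
        obtain ⟨g1, g2, g3, -⟩ := hG x hx
        exact ⟨g1.ne _, g2 _, g3 _⟩)
      refine h4.trans ?_
      rw [mul_comm]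
      refine mul_le_mul_of_nonneg_right ?_ (hr0 i).le
      rw [hM]
      exact hSSH
  obtain ⟨P, hP⟩ : ∃ P : ℝ, P = ∏ i, (if i ∈ univ.image t then 1 else r i) := ⟨_, rfl⟩
  have hcode' : ((G.image (cut (univ.image t))).card : ℝ) ≤ M ^ n * P := by
    refine hcode.trans ?_
    have h1 : M ^ n = ∏ _i : Fin n, M := by rw [prod_const, card_univ, Fintype.card_fin]
    rw [h1, hP, ← prod_mul_distrib]
    refine prod_le_prod (fun i _ => ?_) fun i _ => ?_
    · split_ifs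
      · exact zero_le_one
      · exact mul_nonneg (by linarith) (hr0 i).le
    · split_ifs
      · rw [mul_one]; exact hM1
      · exact le_rfl
  have hP0 : 0 < P := by
    rw [hP]
    refine prod_pos fun i _ => ?_
    split_ifs
    · exact zero_lt_one
    · exact hr0 i
  -- the product
  have hprod : ∏ i, r i = P * ∏ a, r (t a) := by
    have h1 : ∏ a, r (t a) = ∏ i, (if i ∈ univ.image t then r i else 1) := by
      rw [prod_ite_mem, univ_inter, prod_image fun a _ b _ h => ht h]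
    rw [hP, h1, ← prod_mul_distrib]
    refine prod_congr rfl fun i _ => ?_
    split_ifs
    · rw [one_mul]
    · rw [mul_one]
  have hfin : P * (∏ a, X a) ^ (1 / 4 : ℝ) = (∏ i, r i) / (∏ a, (r (t a) * Z a)) ^ (1 / 4 : ℝ) := by
    have hQ0 : 0 < ∏ a, (r (t a) * Z a) := prod_pos fun a _ => mul_pos (hr0 _) (hZ0 a)
    have hQ : 0 < (∏ a, (r (t a) * Z a)) ^ (1 / 4 : ℝ) := Real.rpow_pos_of_pos hQ0 _
    rw [eq_div_iff hQ.ne', mul_assoc, ← Real.mul_rpow hPX0.le hQ0.le, ← prod_mul_distrib, hprod]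
    congr 1
    have h1 : ∏ a, (X a * (r (t a) * Z a)) = (∏ a, r (t a)) ^ 4 := by
      rw [← prod_pow]
      refine prod_congr rfl fun a _ => ?_
      rw [hX]
      have := (hZ0 a).ne'
      field_simp
    rw [h1, ← Real.rpow_natCast, ← Real.rpow_mul (prod_nonneg fun a _ => (hr0 _).le)]
    norm_num
  have hcard : (G.card : ℝ) = ∑ z ∈ G.image (cut (univ.image t)),
      ((G.filter fun x => cut (univ.image t) x = z).card : ℝ) := by
    have := Finset.card_eq_sum_card_image (cut (univ.image t)) G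
    exact_mod_cast this
  have hHn : (H : ℝ) ^ (η / 2) * ((H : ℝ) ^ η') ^ n ≤ (H : ℝ) ^ η := by
    rw [← Real.rpow_natCast ((H : ℝ) ^ η') n, ← Real.rpow_mul hH0.le, ← Real.rpow_add hH0]
    refine Real.rpow_le_rpow_of_exponent_le hH1 ?_
    rw [hη']
    have h1 : η / (2 * (n + 1)) * (n : ℝ) ≤ η / 2 := by
      rw [div_mul_eq_mul_div, div_le_div_iff₀ (by positivity) (by norm_num)]
      nlinarith
    linarith
  rw [hcard]
  calc ∑ z ∈ G.image (cut (univ.image t)), ((G.filter fun x => cut (univ.image t) x = z).card : ℝ)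
      ≤ ∑ z ∈ G.image (cut (univ.image t)), Y * (∏ a, X a) ^ (1 / 4 : ℝ) := sum_le_sum fun z _ => hfib z
    _ = ((G.image (cut (univ.image t))).card : ℝ) * (Y * (∏ a, X a) ^ (1 / 4 : ℝ)) := by
        rw [sum_const, nsmul_eq_mul]
    _ ≤ M ^ n * P * (Y * (∏ a, X a) ^ (1 / 4 : ℝ)) :=
        mul_le_mul_of_nonneg_right hcode' (mul_nonneg hY0.le (Real.rpow_nonneg hPX0.le _))
    _ = C1 ^ n * CC * ((H : ℝ) ^ (η / 2) * ((H : ℝ) ^ η') ^ n) * (P * (∏ a, X a) ^ (1 / 4 : ℝ)) := by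
        rw [hM, hY, mul_pow]; ring
    _ ≤ C1 ^ n * CC * (H : ℝ) ^ η * (P * (∏ a, X a) ^ (1 / 4 : ℝ)) := by
        refine mul_le_mul_of_nonneg_right ?_ (mul_nonneg hP0.le (Real.rpow_nonneg hPX0.le _))
        refine mul_le_mul_of_nonneg_left hHn ?_
        exact mul_nonneg (pow_nonneg (by linarith) n) (by linarith)
    _ = C1 ^ n * CC * (H : ℝ) ^ η * ((∏ i, r i) / (∏ a, (r (t a) * Z a)) ^ (1 / 4 : ℝ)) := by rw [hfin]

end Pool.Agent.H42.EX.C4
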