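import Pool.Agent.H42.EX.Dec
import Pool.Agent.H42.EX.Stm2

set_option autoImplicit false

/-!
# Project EX: the bounds for the cells
-/

namespace Pool.Agent.H42.EX

open Finset
open Pool.Agent.H328R2.ABC (rad sum_inv_rad)
open Pool.Agent.Q38.NC

theorem cast_bk_pos (k m : ℕ) : (0 : ℝ) < bk k m := by exact_mod_cast bk_pos k m

/-- One small variable and a large coordinate. -/
theorem cell1 (h1 : S_F1) {n k : ℕ} (hk : 1 ≤ k) {δ : ℝ} (hδ : 0 < δ) : ∃ C : ℝ, 1 ≤ C ∧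
    ∀ (H : ℕ) (i j : Fin n) (A Z B₀ : ℝ), 1 ≤ H → i ≠ j → 1 ≤ A → 1 ≤ Z → 0 ≤ B₀ →
    ∀ G : Finset (Fin n → ℤ), (∀ x ∈ G, Adm x ∧ (∀ t, (x t).natAbs ≤ H) ∧ H ≤ 2 * n * (x j).natAbs ∧
      A ≤ (bk 1 (x i).natAbs : ℝ) ∧ (bk 1 (x i).natAbs : ℝ) ≤ 2 * A ∧
      Z ≤ (bk k (x j).natAbs : ℝ) ∧ (bk k (x j).natAbs : ℝ) ≤ 2 * Z ∧
      PR x ≤ B₀ * H ∧ PR x ≤ B₀ * ((bk 1 (x i).natAbs : ℝ) * bk k (x j).natAbs)) →
    (G.card : ℝ) ≤ C * (H : ℝ) ^ δ * B₀ * SS H ^ n := by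
  classical
  obtain ⟨C, hC, hF⟩ := h1 n k hk δ hδ
  refine ⟨2 * C, by linarith, ?_⟩
  intro H i j A Z B₀ hH hij hA hZ hB₀ G hG
  have hH0 : (0 : ℝ) < H := by exact_mod_cast hH
  obtain ⟨D, hD⟩ : ∃ D : Fin n → Finset ℕ, D = fun t => if t = i then {1} else if t = j then {k} else ∅ := ⟨_, rfl⟩
  have hDi : D i = {1} := by rw [hD]; simp
  have hDj : D j = {k} := by rw [hD]; simp [hij.symm]
  have hDt : ∀ t, t ≠ i → t ≠ j → D t = ∅ := by
    intro t h1 h2
    rw [hD]; simp [h1, h2]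
  have hDS : ∀ t, t ∉ ({i, j} : Finset (Fin n)) → D t = ∅ := by
    intro t ht
    simp only [mem_insert, mem_singleton, not_or] at ht
    exact hDt t ht.1 ht.2
  refine cellD D (by positivity) G (fun x hx => ⟨(hG x hx).1.ne, (hG x hx).2.1⟩) ?_
  intro x hx
  obtain ⟨x1, x2, x3, x4, x5, x6, x7, x8, x9⟩ := hG x hx
  have hfib := hF H i j (codeD D x i) (codeD D x j) A Z hH hij hA hZ (G.filter fun y => codeD D y = codeD D x) (by
    intro y hy
    obtain ⟨hy, hyx⟩ := mem_filter.1 hy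
    obtain ⟨y1, y2, y3, y4, y5, y6, y7, -, -⟩ := hG y hy
    refine ⟨y1, y2 i, y3, bk 1 (y i).natAbs, bk k (y j).natAbs, ?_, ?_, y5, y6, y7⟩
    · have := codeD_mul D (y1.ne i)
      rw [hDi, prod_singleton, pow_one, hyx] at this
      exact this
    · have := codeD_mul D (y1.ne j)
      rw [hDj, prod_singleton, hyx] at this
      exact this) (by
    intro y hy z hz t ht1 ht2
    obtain ⟨hy, hyx⟩ := mem_filter.1 hy
    obtain ⟨hz, hzx⟩ := mem_filter.1 hz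
    exact codeD_agree D (hG y hy).1.ne (hG z hz).1.ne (hyx.trans hzx.symm) (hDt t ht1 ht2))
  have hPR := PR_codeD' D {i, j} hDS x1.ne
  rw [prod_pair hij, hDi, hDj, prod_singleton, prod_singleton] at hPR
  obtain ⟨a, ha⟩ : ∃ a : ℝ, a = bk 1 (x i).natAbs := ⟨_, rfl⟩
  obtain ⟨b, hb⟩ : ∃ b : ℝ, b = bk k (x j).natAbs := ⟨_, rfl⟩
  have ha0 : 0 < a := by rw [ha]; exact cast_bk_pos _ _
  have hb0 : 0 < b := by rw [hb]; exact cast_bk_pos _ _
  rw [← ha] at x4 x5 x9 hPR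
  rw [← hb] at x6 x7 x9 hPR
  have hP : PR (codeD D x) = PR x / (a * b) := by
    rw [hPR]; field_simp
  have hPR0 := PR_pos x
  have hPc0 := PR_pos (codeD D x)
  have e1 : PR x / (a * b) ≤ B₀ := by
    rw [div_le_iff₀ (by positivity)]; exact x9
  have e2 : A * Z / H * (PR x / (a * b)) ≤ B₀ := by
    have h3 : A * Z ≤ a * b := mul_le_mul x4 x6 (by linarith) ha0.le
    calc A * Z / H * (PR x / (a * b)) = (A * Z) * PR x / (H * (a * b)) := by field_simp
      _ ≤ (a * b) * (B₀ * H) / (H * (a * b)) := by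
          apply div_le_div_of_nonneg_right _ (by positivity)
          exact mul_le_mul h3 x8 hPR0.le (by positivity)
      _ = B₀ := by field_simp
  calc ((G.filter fun y => codeD D y = codeD D x).card : ℝ) * PR (codeD D x) ≤
        (C * (H : ℝ) ^ δ * (1 + A * Z / H)) * PR (codeD D x) := mul_le_mul_of_nonneg_right hfib hPc0.le
    _ = C * (H : ℝ) ^ δ * (PR x / (a * b) + A * Z / H * (PR x / (a * b))) := by rw [hP]; ring
    _ ≤ C * (H : ℝ) ^ δ * (B₀ + B₀) := by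
        apply mul_le_mul_of_nonneg_left _ (by positivity)
        linarith
    _ = 2 * C * (H : ℝ) ^ δ * B₀ := by ring

/-- Two small coordinates and a large one. -/
theorem cell2 (h2 : S_F2) {n k : ℕ} (hk : 1 ≤ k) : ∃ C : ℝ, 1 ≤ C ∧
    ∀ (H : ℕ) (i m j : Fin n) (A A' Z X B₀ : ℝ), 1 ≤ H → i ≠ m → i ≠ j → m ≠ j → 1 ≤ A → 1 ≤ A' → 1 ≤ Z →
      1 ≤ X → 0 ≤ B₀ →
    ∀ G : Finset (Fin n → ℤ), (∀ x ∈ G, Adm x ∧ (∀ t, (x t).natAbs ≤ H) ∧ H ≤ 2 * n * (x j).natAbs ∧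
      (x i).natAbs ≤ (x m).natAbs ∧ X ≤ ((x m).natAbs : ℝ) ∧ ((x m).natAbs : ℝ) ≤ 2 * X ∧
      A ≤ (bk 1 (x i).natAbs : ℝ) ∧ (bk 1 (x i).natAbs : ℝ) ≤ 2 * A ∧
      A' ≤ (bk 1 (x m).natAbs : ℝ) ∧ (bk 1 (x m).natAbs : ℝ) ≤ 2 * A' ∧
      Z ≤ (bk k (x j).natAbs : ℝ) ∧ (bk k (x j).natAbs : ℝ) ≤ 2 * Z ∧
      PR x ≤ B₀ * H ∧
      PR x ≤ B₀ * ((bk 1 (x i).natAbs : ℝ) * bk 1 (x m).natAbs * bk k (x j).natAbs) ∧
      PR x * (x m).natAbs ≤ B₀ * ((bk 1 (x i).natAbs : ℝ) * bk 1 (x m).natAbs * H) ∧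
      PR x ≤ B₀ * ((x m).natAbs * bk k (x j).natAbs)) →
    (G.card : ℝ) ≤ C * B₀ * SS H ^ n := by
  classical
  obtain ⟨C, hC, hF⟩ := h2 n k hk
  refine ⟨5 * C, by linarith, ?_⟩
  intro H i m j A A' Z X B₀ hH him hij hmj hA hA' hZ hX hB₀ G hG
  have hH0 : (0 : ℝ) < H := by exact_mod_cast hH
  obtain ⟨D, hD⟩ : ∃ D : Fin n → Finset ℕ, D = fun t => if t = i then {1} else if t = m then {1} else
    if t = j then {k} else ∅ := ⟨_, rfl⟩
  have hDi : D i = {1} := by rw [hD]; simp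
  have hDm : D m = {1} := by rw [hD]; simp
  have hDj : D j = {k} := by rw [hD]; simp [hij.symm, hmj.symm]
  have hDt : ∀ t, t ≠ i → t ≠ m → t ≠ j → D t = ∅ := by
    intro t h1 h2 h3
    rw [hD]; simp [h1, h2, h3]
  have hDS : ∀ t, t ∉ ({i, m, j} : Finset (Fin n)) → D t = ∅ := by
    intro t ht
    simp only [mem_insert, mem_singleton, not_or] at ht
    exact hDt t ht.1 ht.2.1 ht.2.2
  refine cellD D (by positivity) G (fun x hx => ⟨(hG x hx).1.ne, (hG x hx).2.1⟩) ?_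
  intro x hx
  obtain ⟨x1, x2, x3, x4, x5, x6, x7, x8, x9, x10, x11, x12, x13, x14, x15, x16⟩ := hG x hx
  have hfib := hF H i m j (codeD D x i) (codeD D x m) (codeD D x j) A A' Z X hH him hij hmj hA hA' hZ hX
    (G.filter fun y => codeD D y = codeD D x) (by
    intro y hy
    obtain ⟨hy, hyx⟩ := mem_filter.1 hy
    obtain ⟨y1, y2, y3, y4, y5, y6, y7, y8, y9, y10, y11, y12, -, -, -, -⟩ := hG y hy
    refine ⟨y1, ?_, y5, y6, y3, bk 1 (y i).natAbs, bk 1 (y m).natAbs, bk k (y j).natAbs, ?_, ?_, ?_, y8, y10,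
      y11, y12⟩
    · refine le_trans ?_ y6
      exact_mod_cast y4
    · have := codeD_mul D (y1.ne i)
      rw [hDi, prod_singleton, pow_one, hyx] at this
      exact this
    · have := codeD_mul D (y1.ne m)
      rw [hDm, prod_singleton, pow_one, hyx] at this
      exact this
    · have := codeD_mul D (y1.ne j)
      rw [hDj, prod_singleton, hyx] at this
      exact this) (by
    intro y hy z hz t ht1 ht2 ht3
    obtain ⟨hy, hyx⟩ := mem_filter.1 hy
    obtain ⟨hz, hzx⟩ := mem_filter.1 hz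
    exact codeD_agree D (hG y hy).1.ne (hG z hz).1.ne (hyx.trans hzx.symm) (hDt t ht1 ht2 ht3))
  have hPR := PR_codeD' D {i, m, j} hDS x1.ne
  rw [prod_insert (by simp [him, hij]), prod_pair hmj, hDi, hDm, hDj, prod_singleton, prod_singleton,
    prod_singleton] at hPR
  obtain ⟨a, ha⟩ : ∃ a : ℝ, a = bk 1 (x i).natAbs := ⟨_, rfl⟩
  obtain ⟨a', ha'⟩ : ∃ a' : ℝ, a' = bk 1 (x m).natAbs := ⟨_, rfl⟩
  obtain ⟨b, hb⟩ : ∃ b : ℝ, b = bk k (x j).natAbs := ⟨_, rfl⟩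
  obtain ⟨X', hX'⟩ : ∃ X' : ℝ, X' = (x m).natAbs := ⟨_, rfl⟩
  have ha0 : 0 < a := by rw [ha]; exact cast_bk_pos _ _
  have ha'0 : 0 < a' := by rw [ha']; exact cast_bk_pos _ _
  have hb0 : 0 < b := by rw [hb]; exact cast_bk_pos _ _
  rw [← ha] at x7 x8 x14 x15 hPR
  rw [← ha'] at x9 x10 x14 x15 hPR
  rw [← hb] at x11 x12 x14 x16 hPR
  rw [← hX'] at x5 x6 x15 x16
  have hX'0 : 0 < X' := by linarith
  have hP : PR (codeD D x) = PR x / (a * a' * b) := by
    rw [hPR]; field_simp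
  have hPR0 := PR_pos x
  have hPc0 := PR_pos (codeD D x)
  have hA0 : 0 < A := by linarith
  have hA'0 : 0 < A' := by linarith
  have hZ0 : 0 < Z := by linarith
  have hX0 : 0 < X := by linarith
  have hAA : A * A' ≤ a * a' := mul_le_mul x7 x9 hA'0.le ha0.le
  have e1 : PR x / (a * a' * b) ≤ B₀ := by
    rw [div_le_iff₀ (by positivity)]; exact x14
  have e2 : Z * X / H * (PR x / (a * a' * b)) ≤ B₀ := by
    rw [div_mul_div_comm, div_le_iff₀ (by positivity)]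
    calc Z * X * PR x ≤ b * X' * PR x := by
          apply mul_le_mul_of_nonneg_right _ hPR0.le
          exact mul_le_mul x11 x5 hX0.le hb0.le
      _ = b * (PR x * X') := by ring
      _ ≤ b * (B₀ * (a * a' * H)) := mul_le_mul_of_nonneg_left x15 hb0.le
      _ = B₀ * (H * (a * a' * b)) := by ring
  have e3 : A * A' / X * (PR x / (a * a' * b)) ≤ 2 * B₀ := by
    rw [div_mul_div_comm, div_le_iff₀ (by positivity)]
    calc A * A' * PR x ≤ (a * a') * (B₀ * (X' * b)) := mul_le_mul hAA x16 hPR0.le (by positivity)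
      _ ≤ (a * a') * (B₀ * (2 * X * b)) := by
          apply mul_le_mul_of_nonneg_left _ (by positivity)
          apply mul_le_mul_of_nonneg_left _ hB₀
          exact mul_le_mul_of_nonneg_right x6 hb0.le
      _ = 2 * B₀ * (X * (a * a' * b)) := by ring
  have e4 : Z * X / H * (A * A' / X) * (PR x / (a * a' * b)) ≤ B₀ := by
    have h5 : Z * X / H * (A * A' / X) = Z * (A * A') / H := by field_simp
    rw [h5, div_mul_div_comm, div_le_iff₀ (by positivity)]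
    calc Z * (A * A') * PR x ≤ (b * (a * a')) * (B₀ * H) := by
          apply mul_le_mul _ x13 hPR0.le (by positivity)
          exact mul_le_mul x11 hAA (by positivity) hb0.le
      _ = B₀ * (H * (a * a' * b)) := by ring
  calc ((G.filter fun y => codeD D y = codeD D x).card : ℝ) * PR (codeD D x) ≤
        (C * (1 + Z * X / H) * (1 + A * A' / X)) * PR (codeD D x) := mul_le_mul_of_nonneg_right hfib hPc0.le
    _ = C * (PR x / (a * a' * b) + Z * X / H * (PR x / (a * a' * b)) + A * A' / X * (PR x / (a * a' * b)) +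
        Z * X / H * (A * A' / X) * (PR x / (a * a' * b))) := by rw [hP]; ring
    _ ≤ C * (B₀ + B₀ + 2 * B₀ + B₀) := by
        apply mul_le_mul_of_nonneg_left _ (by positivity)
        linarith
    _ = 5 * C * B₀ := by ring

end Pool.Agent.H42.EX
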