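import Pool.Agent.H42.EX.Cell

set_option autoImplicit false

/-!
# Project EX: the cells of the third kind
-/

namespace Pool.Agent.H42.EX

open Finset
open Pool.Agent.H328R2.ABC (rad sum_inv_rad)
open Pool.Agent.Q38.NC

theorem prod_Icc_fin {M : Type*} [CommMonoid M] (K : ℕ) (f : ℕ → M) :
    ∏ k ∈ Icc 1 K, f k = ∏ k : Fin K, f ((k : ℕ) + 1) := by
  rw [Fin.prod_univ_eq_prod_range (fun k => f (k + 1)) K, Finset.range_eq_Ico, Finset.prod_Ico_add' f 0 K 1]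
  rfl

theorem sum_Icc_fin {M : Type*} [AddCommMonoid M] (K : ℕ) (f : ℕ → M) :
    ∑ k ∈ Icc 1 K, f k = ∑ k : Fin K, f ((k : ℕ) + 1) := by
  rw [Fin.sum_univ_eq_sum_range (fun k => f (k + 1)) K, Finset.range_eq_Ico, Finset.sum_Ico_add' f 0 K 1]
  rfl

/-- The exponents for the moments. -/
theorem exists_q {K : ℕ} {e₀ e₁ l : ℝ} (he₁ : 0 < e₁) (he₁' : 16 * K * e₁ ≤ e₀)
    (hK : 16 ≤ e₀ * (K + 1)) (hl : 0 < l) (hle : 16 * (K + 1) ≤ e₀ * l) {t : ℝ} (ht : 0 ≤ t) (htl : t ≤ l)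
    {ζ : Fin 2 × Fin K → ℝ} (hζt : ∀ p, ζ p ≤ t + 1)
    (hsum : 4 * t + e₀ * l - 2 * l / (K + 1) ≤ ∑ p, (ζ p + 1)) :
    ∃ (q : Fin 2 × Fin K → ℕ) (I : Finset (Fin 2 × Fin K)), (∀ p ∈ I, 1 ≤ q p ∧ q p ≤ ⌈1 / e₁⌉₊ + 1 ∧
      t ≤ q p * ζ p) ∧ 1 ≤ ∑ p ∈ I, 1 / (2 * (q p : ℝ)) := by
  classical
  obtain ⟨I, hI⟩ : ∃ I : Finset (Fin 2 × Fin K), I = univ.filter fun p => e₁ * l ≤ ζ p := ⟨_, rfl⟩
  have hKR : (0 : ℝ) ≤ (K : ℝ) := Nat.cast_nonneg K
  have hel : 0 < e₁ * l := mul_pos he₁ hl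
  have hIζ : ∀ p ∈ I, e₁ * l ≤ ζ p := fun p hp => by rw [hI] at hp; exact (mem_filter.1 hp).2
  refine ⟨fun p => ⌈t / ζ p⌉₊ + (if t = 0 then 1 else 0), I, ?_, ?_⟩
  · intro p hp
    have h1 := hIζ p hp
    have hζ : 0 < ζ p := lt_of_lt_of_le hel h1
    beta_reduce
    refine ⟨?_, ?_, ?_⟩
    · split_ifs with h
      · omega
      · have : 0 < t / ζ p := div_pos (lt_of_le_of_ne ht (Ne.symm h)) hζ
        have := Nat.ceil_pos.2 this
        omega
    · have h2 : t / ζ p ≤ 1 / e₁ := by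
        rw [div_le_div_iff₀ hζ he₁]
        calc t * e₁ ≤ l * e₁ := mul_le_mul_of_nonneg_right htl he₁.le
          _ = e₁ * l := by ring
          _ ≤ 1 * ζ p := by linarith
      have h3 := Nat.ceil_mono h2
      split_ifs <;> omega
    · have h2 : t / ζ p ≤ (⌈t / ζ p⌉₊ : ℝ) := Nat.le_ceil _
      rw [div_le_iff₀ hζ] at h2
      push_cast
      have h3 : (0 : ℝ) ≤ (((if t = 0 then 1 else 0 : ℕ)) : ℝ) * ζ p := by positivity
      push_cast at h3
      nlinarith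
  · -- the sum of the ζ over I
    have hcard : (∑ p : Fin 2 × Fin K, (1 : ℝ)) = 2 * K := by
      simp [Finset.card_univ, Fintype.card_prod]
    have h1 : ∑ p ∈ Iᶜ, ζ p ≤ 2 * K * (e₁ * l) := by
      have h2 : ∀ p ∈ Iᶜ, ζ p ≤ e₁ * l := by
        intro p hp
        rw [mem_compl, hI, mem_filter, not_and, not_le] at hp
        exact (hp (mem_univ _)).le
      calc ∑ p ∈ Iᶜ, ζ p ≤ ∑ p ∈ Iᶜ, e₁ * l := sum_le_sum h2
        _ ≤ ∑ p : Fin 2 × Fin K, e₁ * l := sum_le_sum_of_subset_of_nonneg (subset_univ _) fun _ _ _ => hel.le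
        _ = (∑ p : Fin 2 × Fin K, (1 : ℝ)) * (e₁ * l) := by rw [sum_mul]; simp
        _ = 2 * K * (e₁ * l) := by rw [hcard]
    have h2 : ∑ p, (ζ p + 1) = ∑ p ∈ I, ζ p + ∑ p ∈ Iᶜ, ζ p + 2 * K := by
      rw [sum_add_distrib, hcard, Finset.sum_add_sum_compl]
    have h3 : 2 * l / (K + 1) ≤ e₀ / 8 * l := by
      rw [div_le_iff₀ (by positivity)]
      nlinarith
    have h4 : 2 * K * (e₁ * l) ≤ e₀ / 8 * l := by nlinarith
    have h5 : (2 : ℝ) * K ≤ e₀ / 8 * l := by nlinarith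
    have he₀l : 0 < e₀ * l := by nlinarith
    have hIsum : 4 * t + e₀ / 2 * l ≤ ∑ p ∈ I, ζ p := by
      rw [h2] at hsum
      linarith
    have h8 : 8 ≤ e₀ / 2 * l := by nlinarith
    -- each term
    have h6 : ∀ p ∈ I, ζ p / (4 * t + 4) ≤ 1 / (2 * ((⌈t / ζ p⌉₊ + (if t = 0 then 1 else 0) : ℕ) : ℝ)) := by
      intro p hp
      have h1 := hIζ p hp
      have hζ : 0 < ζ p := lt_of_lt_of_le hel h1
      have h7 : ((⌈t / ζ p⌉₊ + (if t = 0 then 1 else 0) : ℕ) : ℝ) ≤ (t + ζ p) / ζ p := by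
        split_ifs with h
        · rw [h]; simp [hζ.ne']
        · have h9 : (⌈t / ζ p⌉₊ : ℝ) < t / ζ p + 1 := Nat.ceil_lt_add_one (by positivity)
          have h10 : (t + ζ p) / ζ p = t / ζ p + 1 := by field_simp
          push_cast
          linarith
      have h7' : (0 : ℝ) < ((⌈t / ζ p⌉₊ + (if t = 0 then 1 else 0) : ℕ) : ℝ) := by
        split_ifs with h
        · positivity
        · have : 0 < t / ζ p := div_pos (lt_of_le_of_ne ht (Ne.symm h)) hζ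
          have := Nat.ceil_pos.2 this
          exact_mod_cast (by omega : 0 < ⌈t / ζ p⌉₊ + 0)
      have h11 := hζt p
      calc ζ p / (4 * t + 4) ≤ ζ p / (2 * (t + ζ p)) := by
            apply div_le_div_of_nonneg_left hζ.le (by positivity)
            linarith
        _ = 1 / (2 * ((t + ζ p) / ζ p)) := by field_simp
        _ ≤ _ := by
            apply one_div_le_one_div_of_le (by positivity)
            linarith
    calc (1 : ℝ) ≤ (∑ p ∈ I, ζ p) / (4 * t + 4) := by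
          rw [le_div_iff₀ (by positivity)]
          linarith
      _ = ∑ p ∈ I, ζ p / (4 * t + 4) := by rw [sum_div]
      _ ≤ _ := sum_le_sum h6

theorem rad_sum_le {K m : ℕ} (hm : m ≠ 0) : Real.log (rad m) ≤
    Real.log m / (K + 1) + ∑ k : Fin K, Real.log (bk ((k : ℕ) + 1) m) := by
  have h := log_rad_le K hm
  have hK : (0 : ℝ) < (K : ℝ) + 1 := by positivity
  have h1 : ∑ k ∈ Icc 1 K, ((K : ℝ) + 1 - k) * Real.log (bk k m) ≤
      ((K : ℝ) + 1) * ∑ k ∈ Icc 1 K, Real.log (bk k m) := by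
    rw [mul_sum]
    refine sum_le_sum fun k _ => ?_
    have h2 : 0 ≤ Real.log (bk k m) := Real.log_nonneg (by exact_mod_cast bk_pos k m)
    apply mul_le_mul_of_nonneg_right _ h2
    have : (0 : ℝ) ≤ k := Nat.cast_nonneg k
    linarith
  rw [← sum_Icc_fin K fun k => Real.log (bk k m)]
  rw [← sub_le_iff_le_add, le_div_iff₀ hK]
  nlinarith

/-- Two small coordinates and both large ones. -/
theorem cell3 (h3 : S_F3) {n K : ℕ} {e₀ : ℝ} (he₀ : 0 < e₀) (hK : 16 ≤ e₀ * (K + 1)) {δ : ℝ} (hδ : 0 < δ) :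
    ∃ C : ℝ, 1 ≤ C ∧ ∀ (H : ℕ) (i m : Fin n) (j : Fin 2 → Fin n) (A A' X T B₀ : ℝ) (Z : Fin 2 × Fin K → ℝ),
      1 ≤ H → 16 * ((K : ℝ) + 1) ≤ e₀ * Real.log H → i ≠ m → j 0 ≠ j 1 → (∀ c, i ≠ j c ∧ m ≠ j c) →
      1 ≤ A → 1 ≤ A' → 1 ≤ X → 1 ≤ T → (∀ p, 1 ≤ Z p) → 0 ≤ B₀ →
    ∀ G : Finset (Fin n → ℤ), (∀ x ∈ G, Adm x ∧ (∀ t, (x t).natAbs ≤ H) ∧
      (∀ c, H ≤ 2 * n * (x (j c)).natAbs) ∧
      (∀ t, (∀ c, t ≠ j c) → (x t).natAbs ≤ (x m).natAbs) ∧ X ≤ ((x m).natAbs : ℝ) ∧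
      ((x m).natAbs : ℝ) ≤ 2 * X ∧
      A ≤ (bk 1 (x i).natAbs : ℝ) ∧ (bk 1 (x i).natAbs : ℝ) ≤ 2 * A ∧
      A' ≤ (bk 1 (x m).natAbs : ℝ) ∧ (bk 1 (x m).natAbs : ℝ) ≤ 2 * A' ∧
      (∀ p, Z p ≤ (bk ((p.2 : ℕ) + 1) (x (j p.1)).natAbs : ℝ) ∧
        (bk ((p.2 : ℕ) + 1) (x (j p.1)).natAbs : ℝ) ≤ 2 * Z p) ∧
      (∀ p : Fin 2 × Fin K, (bk ((p.2 : ℕ) + 1) (x (j p.1)).natAbs : ℝ) ≤ 2 * T) ∧
      T * ((x m).natAbs : ℝ) ≤ H ∧
      4 * Real.log T + e₀ * Real.log H ≤ Real.log (rad (x (j 0)).natAbs) + Real.log (rad (x (j 1)).natAbs) ∧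
      PR x ≤ 2 * B₀ * ((bk 1 (x i).natAbs : ℝ) * bk 1 (x m).natAbs * T) ∧
      PR x ≤ 2 * B₀ * ((x m).natAbs * T)) →
    (G.card : ℝ) ≤ C * (H : ℝ) ^ δ * B₀ * SS H ^ n := by
  classical
  obtain ⟨e₁, he₁⟩ : ∃ e₁ : ℝ, e₁ = e₀ / (16 * (K + 1)) := ⟨_, rfl⟩
  have hKR : (0 : ℝ) ≤ (K : ℝ) := Nat.cast_nonneg K
  have he₁0 : 0 < e₁ := by rw [he₁]; positivity
  have he₁' : 16 * K * e₁ ≤ e₀ := by
    have : 16 * ((K : ℝ) + 1) * e₁ = e₀ := by rw [he₁]; field_simp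
    nlinarith
  obtain ⟨C, hC, hF⟩ := h3 n K (⌈1 / e₁⌉₊ + 1) δ hδ
  refine ⟨6 * C, by linarith, ?_⟩
  intro H i m j A A' X T B₀ Z hH hHl him hj hc hA hA' hX hT hZ hB₀ G hG
  have hH0 : (0 : ℝ) < H := by exact_mod_cast hH
  have hSS : 0 ≤ SS H := sum_nonneg fun _ _ => by positivity
  rcases G.eq_empty_or_nonempty with h0 | ⟨x₀, hx₀⟩
  · rw [h0, card_empty, Nat.cast_zero]
    positivity
  have hT0 : 0 < T := by linarith
  have hX0 : 0 < X := by linarith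
  have hTX : T * X ≤ H := by
    obtain ⟨-, -, -, -, y5, -, -, -, -, -, -, -, y13, -⟩ := hG x₀ hx₀
    exact (mul_le_mul_of_nonneg_left y5 hT0.le).trans y13
  have hTH : T ≤ H := by nlinarith
  have hZ0 : ∀ p, 0 < Z p := fun p => lt_of_lt_of_le one_pos (hZ p)
  have hZH : ∀ p, 1 ≤ Z p ∧ Z p ≤ H := by
    intro p
    refine ⟨hZ p, ?_⟩
    obtain ⟨y1, y2, -, -, -, -, -, -, -, -, y11, -⟩ := hG x₀ hx₀
    refine (y11 p).1.trans ?_
    exact_mod_cast (bk_le (Int.natAbs_ne_zero.2 (y1.ne _))).trans (y2 _)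
  have hl : 0 < Real.log H := by
    have : 0 < e₀ * Real.log H := lt_of_lt_of_le (by positivity) hHl
    exact (pos_iff_pos_of_mul_pos this).1 he₀
  obtain ⟨q, I, hq1, hq2⟩ := exists_q (K := K) (e₀ := e₀) (e₁ := e₁) (l := Real.log H) he₁0 he₁' hK hl hHl
    (t := Real.log T) (Real.log_nonneg hT) (Real.log_le_log hT0 hTH) (ζ := fun p => Real.log (Z p)) (by
      intro p
      obtain ⟨-, -, -, -, -, -, -, -, -, -, y11, y12, -⟩ := hG x₀ hx₀
      have h4 : Z p ≤ 2 * T := (y11 p).1.trans (y12 p)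
      have h5 := Real.log_le_log (hZ0 p) h4
      rw [Real.log_mul two_ne_zero hT0.ne'] at h5
      have := Real.log_two_lt_d9
      linarith) (by
      obtain ⟨y1, y2, -, -, -, -, -, -, -, -, y11, -, -, y14, -⟩ := hG x₀ hx₀
      have h4 : ∀ c : Fin 2, Real.log (rad (x₀ (j c)).natAbs) ≤ Real.log H / (K + 1) +
          ∑ k : Fin K, (Real.log (Z (c, k)) + 1) := by
        intro c
        refine (rad_sum_le (K := K) (Int.natAbs_ne_zero.2 (y1.ne (j c)))).trans (add_le_add ?_ ?_)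
        · apply div_le_div_of_nonneg_right _ (by positivity)
          apply Real.log_le_log
          · exact_mod_cast Int.natAbs_pos.2 (y1.ne _)
          · exact_mod_cast y2 _
        · refine sum_le_sum fun k _ => ?_
          have h5 := Real.log_le_log (cast_bk_pos _ _) (y11 (c, k)).2
          rw [Real.log_mul two_ne_zero (hZ0 _).ne'] at h5
          have := Real.log_two_lt_d9
          simp only at h5
          linarith
      rw [Fintype.sum_prod_type, Fin.sum_univ_two]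
      have h6 := h4 0
      have h7 := h4 1
      have h8 : 2 * Real.log H / ((K : ℝ) + 1) = Real.log H / (K + 1) + Real.log H / (K + 1) := by ring
      rw [h8]
      linarith)
  obtain ⟨D, hD⟩ : ∃ D : Fin n → Finset ℕ, D = fun t => if t = i then {1} else if t = m then {1} else
    if t = j 0 ∨ t = j 1 then Icc 1 K else ∅ := ⟨_, rfl⟩
  have hDi : D i = {1} := by rw [hD]; simp
  have hDm : D m = {1} := by rw [hD]; simp
  have hDj : ∀ c, D (j c) = Icc 1 K := by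
    intro c
    rw [hD]
    have h4 : j c = j 0 ∨ j c = j 1 := by
      fin_cases c
      · left; rfl
      · right; rfl
    simp [(hc c).1.symm, (hc c).2.symm, h4]
  have hDt : ∀ t, t ≠ i → t ≠ m → (∀ c, t ≠ j c) → D t = ∅ := by
    intro t h1 h2 h3
    rw [hD]; simp [h1, h2, h3]
  have hDS : ∀ t, t ∉ ({i, m, j 0, j 1} : Finset (Fin n)) → D t = ∅ := by
    intro t ht
    simp only [mem_insert, mem_singleton, not_or] at ht
    refine hDt t ht.1 ht.2.1 fun c => ?_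
    fin_cases c
    · exact ht.2.2.1
    · exact ht.2.2.2
  refine cellD D (by positivity) G (fun x hx => ⟨(hG x hx).1.ne, (hG x hx).2.1⟩) ?_
  intro x hx
  obtain ⟨x1, x2, x3, x4, x5, x6, x7, x8, x9, x10, x11, x12, x13, x14, x15, x16⟩ := hG x hx
  have hfib := hF H i m j (codeD D x i) (codeD D x m) (fun c => codeD D x (j c)) A A' X T Z q I hH him hj hc
    hA hA' hX hT (by linarith) hZH (by
      intro p hp
      obtain ⟨k1, k2, k3⟩ := hq1 p hp
      refine ⟨k1, k2, ?_⟩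
      rw [← Real.log_pow] at k3
      exact (Real.log_le_log_iff hT0 (pow_pos (hZ0 p) _)).1 k3) hq2
    (G.filter fun y => codeD D y = codeD D x) (by
    intro y hy
    obtain ⟨hy, hyx⟩ := mem_filter.1 hy
    obtain ⟨y1, y2, y3, y4, y5, y6, y7, y8, y9, y10, y11, -⟩ := hG y hy
    refine ⟨y1, y3, ?_, y5, bk 1 (y i).natAbs, bk 1 (y m).natAbs,
      fun p => bk ((p.2 : ℕ) + 1) (y (j p.1)).natAbs, ?_, ?_, ?_, y8, y10, y11⟩
    · intro t ht
      refine le_trans ?_ y6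
      exact_mod_cast y4 t ht
    · have := codeD_mul D (y1.ne i)
      rw [hDi, prod_singleton, pow_one, hyx] at this
      exact this
    · have := codeD_mul D (y1.ne m)
      rw [hDm, prod_singleton, pow_one, hyx] at this
      exact this
    · intro c
      have := codeD_mul D (y1.ne (j c))
      rw [hDj, prod_Icc_fin, hyx] at this
      exact this) (by
    intro y hy z hz t ht1 ht2 ht3
    obtain ⟨hy, hyx⟩ := mem_filter.1 hy
    obtain ⟨hz, hzx⟩ := mem_filter.1 hz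
    exact codeD_agree D (hG y hy).1.ne (hG z hz).1.ne (hyx.trans hzx.symm) (hDt t ht1 ht2 ht3))
  have hPR := PR_codeD' D {i, m, j 0, j 1} hDS x1.ne
  rw [prod_insert (by simp [him, (hc 0).1, (hc 1).1]), prod_insert (by simp [(hc 0).2, (hc 1).2]), prod_pair hj,
    hDi, hDm, hDj, hDj, prod_singleton, prod_singleton, prod_Icc_fin, prod_Icc_fin] at hPR
  obtain ⟨a, ha⟩ : ∃ a : ℝ, a = bk 1 (x i).natAbs := ⟨_, rfl⟩
  obtain ⟨a', ha'⟩ : ∃ a' : ℝ, a' = bk 1 (x m).natAbs := ⟨_, rfl⟩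
  obtain ⟨b, hb⟩ : ∃ b : ℝ, b = ∏ p : Fin 2 × Fin K, (bk ((p.2 : ℕ) + 1) (x (j p.1)).natAbs : ℝ) := ⟨_, rfl⟩
  obtain ⟨X', hX'⟩ : ∃ X' : ℝ, X' = (x m).natAbs := ⟨_, rfl⟩
  have hbb : b = (∏ k : Fin K, (bk ((k : ℕ) + 1) (x (j 0)).natAbs : ℝ)) *
      ∏ k : Fin K, (bk ((k : ℕ) + 1) (x (j 1)).natAbs : ℝ) := by
    rw [hb, Fintype.prod_prod_type, Fin.prod_univ_two]
  have ha0 : 0 < a := by rw [ha]; exact cast_bk_pos _ _
  have ha'0 : 0 < a' := by rw [ha']; exact cast_bk_pos _ _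
  have hb0 : 0 < b := by rw [hb]; exact prod_pos fun p _ => cast_bk_pos _ _
  have hZb : ∏ p, Z p ≤ b := by
    rw [hb]
    exact prod_le_prod (fun p _ => (hZ0 p).le) fun p _ => (x11 p).1
  rw [← hbb] at hPR
  rw [← ha] at x7 x8 x15 hPR
  rw [← ha'] at x9 x10 x15 hPR
  rw [← hX'] at x5 x6 x13 x16
  have hX'0 : 0 < X' := by linarith
  have hP : PR (codeD D x) = PR x / (a * a' * b) := by
    rw [hPR]; field_simp
  have hPR0 := PR_pos x
  have hPc0 := PR_pos (codeD D x)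
  have hA0 : 0 < A := by linarith
  have hA'0 : 0 < A' := by linarith
  have hAA : A * A' ≤ a * a' := mul_le_mul x7 x9 hA'0.le ha0.le
  have hZZ : 0 < ∏ p, Z p := prod_pos fun p _ => hZ0 p
  have e1 : (∏ p, Z p) / T * (PR x / (a * a' * b)) ≤ 2 * B₀ := by
    rw [div_mul_div_comm, div_le_iff₀ (by positivity)]
    calc (∏ p, Z p) * PR x ≤ b * (2 * B₀ * (a * a' * T)) := mul_le_mul hZb x15 hPR0.le hb0.le
      _ = 2 * B₀ * (T * (a * a' * b)) := by ring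
  have e2 : (∏ p, Z p) / T * (A * A' / X) * (PR x / (a * a' * b)) ≤ 4 * B₀ := by
    rw [div_mul_div_comm, div_mul_div_comm, div_le_iff₀ (by positivity)]
    calc (∏ p, Z p) * (A * A') * PR x ≤ (b * (a * a')) * (2 * B₀ * (X' * T)) := by
          apply mul_le_mul _ x16 hPR0.le (by positivity)
          exact mul_le_mul hZb hAA (by positivity) hb0.le
      _ ≤ (b * (a * a')) * (2 * B₀ * ((2 * X) * T)) := by
          apply mul_le_mul_of_nonneg_left _ (by positivity)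
          apply mul_le_mul_of_nonneg_left _ (by positivity)
          exact mul_le_mul_of_nonneg_right x6 hT0.le
      _ = 4 * B₀ * (T * X * (a * a' * b)) := by ring
  calc ((G.filter fun y => codeD D y = codeD D x).card : ℝ) * PR (codeD D x) ≤
        (C * (H : ℝ) ^ δ * ((∏ p, Z p) / T) * (1 + A * A' / X)) * PR (codeD D x) :=
          mul_le_mul_of_nonneg_right hfib hPc0.le
    _ = C * (H : ℝ) ^ δ * ((∏ p, Z p) / T * (PR x / (a * a' * b)) +
        (∏ p, Z p) / T * (A * A' / X) * (PR x / (a * a' * b))) := by rw [hP]; ring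
    _ ≤ C * (H : ℝ) ^ δ * (2 * B₀ + 4 * B₀) := by
        apply mul_le_mul_of_nonneg_left _ (by positivity)
        linarith
    _ = 6 * C * (H : ℝ) ^ δ * B₀ := by ring

end Pool.Agent.H42.EX
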