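import Mathlib
import Pool.Agent.H42.EX.Stm

/-!
# The combinatorial lemma `S_COMB`
-/

set_option autoImplicit false

namespace Pool.Agent.H42.EX.Comb

open Finset

/-- if all sums of two different elements are `< S`, then the mean is `< S / 2` -/
lemma pair_sum {ι : Type*} [DecidableEq ι] (V : Finset ι) (f : ι → ℝ) (S : ℝ) (hV : 2 ≤ V.card)
    (h : ∀ i ∈ V, ∀ m ∈ V, i ≠ m → f i + f m < S) : ∑ i ∈ V, f i < (V.card : ℝ) * (S / 2) := by
  by_cases hall : ∀ i ∈ V, f i < S / 2
  · have hne : V.Nonempty := card_pos.mp (by omega)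
    have := Finset.sum_lt_sum_of_nonempty hne hall
    rw [Finset.sum_const, nsmul_eq_mul] at this
    exact this
  · push Not at hall
    obtain ⟨i₀, hi₀, hf⟩ := hall
    have h1 : 1 ≤ (V.erase i₀).card := by
      rw [card_erase_of_mem hi₀]
      omega
    obtain ⟨m₀, hm₀⟩ := card_pos.mp h1
    have hm₀' := mem_erase.mp hm₀
    have h2 : ∀ m ∈ (V.erase i₀).erase m₀, f m ≤ S / 2 := by
      intro m hm
      have hm1 := mem_erase.mp (mem_erase.mp hm).2
      have := h i₀ hi₀ m hm1.2 (Ne.symm hm1.1)
      linarith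
    have h3 := Finset.sum_le_card_nsmul _ _ _ h2
    rw [nsmul_eq_mul] at h3
    have h4 := h i₀ hi₀ m₀ hm₀'.2 (Ne.symm hm₀'.1)
    have h5 : ∑ i ∈ V, f i = f i₀ + (f m₀ + ∑ i ∈ (V.erase i₀).erase m₀, f i) := by
      rw [Finset.add_sum_erase _ _ hm₀, Finset.add_sum_erase _ _ hi₀]
    have h6 : ((((V.erase i₀).erase m₀).card : ℕ) : ℝ) = (V.card : ℝ) - 2 := by
      rw [card_erase_of_mem hm₀, card_erase_of_mem hi₀, Nat.sub_sub, Nat.cast_sub hV]
      norm_num
    rw [h6] at h3
    rw [h5]
    nlinarith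

theorem main : S_COMB := by
  classical
  intro n K r s z j₁ j₂ l β e hn hK hj he he4 hrs hz hzr h2r h4r hβ1 hβ2 hβ3 h1 h2 h3
  have hN : (5 : ℝ) ≤ n := by exact_mod_cast hn
  set S := ∑ i, r i - β with hS
  have hSl : S ≤ l := by linarith
  have hl0 : 0 ≤ l := by linarith [(hrs j₁).1, (hrs j₁).2.1, (hrs j₁).2.2]
  -- the small coordinates
  set I : Finset (Fin n) := (univ.erase j₁).erase j₂ with hI
  have hmemI : ∀ i, i ∈ I ↔ i ≠ j₁ ∧ i ≠ j₂ := by
    intro i
    simp only [hI, mem_erase, mem_univ, and_true]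
    tauto
  have hsumI : ∀ f : Fin n → ℝ, ∑ i, f i = f j₁ + (f j₂ + ∑ i ∈ I, f i) := by
    intro f
    rw [hI, Finset.add_sum_erase _ _ (by rw [mem_erase]; exact ⟨Ne.symm hj, mem_univ _⟩),
      Finset.add_sum_erase _ _ (mem_univ _)]
  have hcardI : (I.card : ℝ) = n - 2 := by
    rw [hI, card_erase_of_mem (by rw [mem_erase]; exact ⟨Ne.symm hj, mem_univ _⟩),
      card_erase_of_mem (mem_univ _), card_univ, Fintype.card_fin, Nat.sub_sub,
      Nat.cast_sub (by omega)]
    norm_num
  have hsum : ∑ i, r i = β + S := by rw [hS]; ring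
  have hsum' : r j₁ + (r j₂ + ∑ i ∈ I, r i) = β + S := by rw [← hsumI, hsum]
  -- sums of two different elements
  have hp1 : ∀ i j, (j = j₁ ∨ j = j₂) → i ≠ j → z i 1 + z j 1 < S := fun i j hjj hij =>
    h1 i j hjj hij 1 le_rfl (by omega)
  have hp2 : ∀ i ∈ I, ∀ m ∈ I, i ≠ m → z i 1 + z m 1 < max (s i) (s m) → z i 1 + z m 1 < S := by
    intro i hi m hm him hfull
    rw [hmemI] at hi hm
    have h5 := h2 i m j₁ him hi.1 hi.2 hm.1 hm.2 (Or.inl rfl) 1 le_rfl (by omega)
    rw [min_eq_left hfull.le] at h5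
    have h6 : max (s i) (s m) ≤ l := max_le (hrs i).2.2 (hrs m).2.2
    have h7 : 0 ≤ min (z j₁ 1) (l - max (s i) (s m)) := le_min (hz _ _) (by linarith)
    linarith
  -- sets without full pairs
  have hV : ∀ V : Finset (Fin n), 2 ≤ V.card → (∀ i ∈ V, ∀ m ∈ V, i ≠ m → i ∈ I → m ∈ I →
      z i 1 + z m 1 < max (s i) (s m)) → ∑ i ∈ V, r i < (V.card : ℝ) * (l / 2 + S / 4) := by
    intro V hV hnf
    have h5 : ∑ i ∈ V, z i 1 < (V.card : ℝ) * (S / 2) := by
      apply pair_sum V (fun i => z i 1) S hV
      intro i hi m hm him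
      by_cases hiI : i ∈ I
      · by_cases hmI : m ∈ I
        · exact hp2 i hiI m hmI him (hnf i hi m hm him hiI hmI)
        · rw [hmemI] at hmI
          have : m = j₁ ∨ m = j₂ := by tauto
          exact hp1 i m this him
      · rw [hmemI] at hiI
        have : i = j₁ ∨ i = j₂ := by tauto
        have h6 := hp1 m i this (Ne.symm him)
        show z i 1 + z m 1 < S
        linarith
    have h6 : ∑ i ∈ V, 2 * r i ≤ ∑ i ∈ V, (l + z i 1) := by
      apply Finset.sum_le_sum
      intro i _
      linarith [h2r i, (hrs i).2.2]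
    rw [← Finset.mul_sum, Finset.sum_add_distrib, Finset.sum_const, nsmul_eq_mul] at h6
    nlinarith
  by_cases hfull : ∃ q ∈ I ×ˢ I, q.1 ≠ q.2 ∧ max (s q.1) (s q.2) ≤ z q.1 1 + z q.2 1
  swap
  · -- no full pair
    push Not at hfull
    have h5 := hV univ (by rw [card_univ, Fintype.card_fin]; omega) (by
      intro i _ m _ him hi hm
      exact hfull (i, m) (mem_product.mpr ⟨hi, hm⟩) him)
    rw [hsum, card_univ, Fintype.card_fin] at h5
    nlinarith
  · -- a full pair with maximal `max`
    have hne : ((I ×ˢ I).filter fun q => q.1 ≠ q.2 ∧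
        max (s q.1) (s q.2) ≤ z q.1 1 + z q.2 1).Nonempty := by
      obtain ⟨q, hq, hq2⟩ := hfull
      exact ⟨q, mem_filter.mpr ⟨hq, hq2⟩⟩
    obtain ⟨⟨a, b⟩, hab, hmax⟩ := Finset.exists_max_image _ (fun q => max (s q.1) (s q.2)) hne
    rw [mem_filter, mem_product] at hab
    obtain ⟨⟨haI, hbI⟩, hab1, hab2⟩ := hab
    simp only at haI hbI hab1 hab2
    set m := max (s a) (s b) with hm
    have hml : m ≤ l := max_le (hrs a).2.2 (hrs b).2.2
    have haI' := (hmemI a).mp haI
    have hbI' := (hmemI b).mp hbI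
    have hx0 : ∀ j, (j = j₁ ∨ j = j₂) → ∀ k, 1 ≤ k → k ≤ K → z j k < S - m := by
      intro j hjj k hk1 hk2
      have h5 := h2 a b j hab1 haI'.1 haI'.2 hbI'.1 hbI'.2 hjj k hk1 hk2
      rw [← hm, min_eq_right hab2] at h5
      rcases le_total (z j k) (l - m) with h6 | h6
      · rw [min_eq_left h6] at h5
        linarith
      · rw [min_eq_right h6] at h5
        linarith
    obtain ⟨x, hx⟩ : ∃ x, x = S - m := ⟨_, rfl⟩
    rw [← hx] at hx0
    have hxpos : 0 < x := lt_of_le_of_lt (hz j₁ 1) (hx0 j₁ (Or.inl rfl) 1 le_rfl (by omega))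
    have hmS : m = S - x := by linarith
    have hr4 : ∀ j, (j = j₁ ∨ j = j₂) → 4 * r j < l + 6 * x := by
      intro j hjj
      have h5 := h4r j
      have h6 := hx0 j hjj 1 le_rfl (by omega)
      have h7 := hx0 j hjj 2 (by omega) (by omega)
      have h8 := hx0 j hjj 3 (by omega) hK
      linarith [(hrs j).2.2]
    have hr41 := hr4 j₁ (Or.inl rfl)
    have hr42 := hr4 j₂ (Or.inr rfl)
    -- the coordinates above `m`
    set J := I.filter (fun i => m < s i) with hJ
    set J' := I.filter (fun i => ¬ m < s i) with hJ'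
    have hsplit : ∀ f : Fin n → ℝ, ∑ i ∈ I, f i = ∑ i ∈ J, f i + ∑ i ∈ J', f i := by
      intro f
      rw [hJ, hJ', Finset.sum_filter_add_sum_filter_not]
    have hcards : (J.card : ℝ) + (J'.card : ℝ) = n - 2 := by
      have h5 := Finset.card_filter_add_card_filter_not (s := I) (fun i => m < s i)
      rw [← hcardI, ← Nat.cast_add]
      exact congrArg _ h5
    have haJ' : a ∈ J' := by
      rw [hJ', mem_filter]
      exact ⟨haI, not_lt.mpr (le_max_left _ _)⟩
    have hbJ' : b ∈ J' := by
      rw [hJ', mem_filter]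
      exact ⟨hbI, not_lt.mpr (le_max_right _ _)⟩
    have hJ'2 : 2 ≤ J'.card := by
      rw [← Finset.card_pair hab1]
      apply Finset.card_le_card
      intro i hi
      rw [mem_insert, mem_singleton] at hi
      rcases hi with rfl | rfl
      · exact haJ'
      · exact hbJ'
    have hJ'2' : (2 : ℝ) ≤ J'.card := by exact_mod_cast hJ'2
    have hnf : ∀ i ∈ I, ∀ i' ∈ I, i ≠ i' → m < s i → z i 1 + z i' 1 < max (s i) (s i') := by
      intro i hi i' hi' hii hms
      by_contra hcon
      push Not at hcon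
      have h5 := hmax (i, i') (mem_filter.mpr ⟨mem_product.mpr ⟨hi, hi'⟩, hii, hcon⟩)
      simp only at h5
      have h6 : s i ≤ max (s i) (s i') := le_max_left _ _
      linarith
    have hsJ' : ∑ i ∈ J', r i ≤ (J'.card : ℝ) * m := by
      have := Finset.sum_le_card_nsmul J' r m (fun i hi => by
        rw [hJ', mem_filter] at hi
        linarith [(hrs i).2.1, not_lt.mp hi.2])
      rwa [nsmul_eq_mul] at this
    have hJI : ∀ i ∈ J, i ∈ I ∧ m < s i := fun i hi => by
      rw [hJ, mem_filter] at hi
      exact hi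
    have hsum2 := hsplit r
    rcases le_or_gt (l / 4) x with hx4 | hx4
    · -- B1
      have hj1J : j₁ ∉ insert j₂ J := by
        rw [mem_insert]
        rintro (h5 | h5)
        · exact hj h5
        · exact ((hmemI j₁).mp (hJI _ h5).1).1 rfl
      have hj2J : j₂ ∉ J := fun h5 => ((hmemI j₂).mp (hJI _ h5).1).2 rfl
      have hc : (insert j₁ (insert j₂ J)).card = J.card + 2 := by
        rw [card_insert_of_notMem hj1J, card_insert_of_notMem hj2J]
      have h5 := hV (insert j₁ (insert j₂ J)) (by omega) (by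
        intro i hi m' hm' him hiI hmI
        have hi2 : i ∈ J := by
          rw [mem_insert, mem_insert] at hi
          rcases hi with h6 | h6 | h6
          · exact absurd h6 ((hmemI i).mp hiI).1
          · exact absurd h6 ((hmemI i).mp hiI).2
          · exact h6
        exact hnf i hiI m' hmI him (hJI i hi2).2)
      rw [Finset.sum_insert hj1J, Finset.sum_insert hj2J, hc] at h5
      push_cast at h5
      have hJ0 : (0 : ℝ) ≤ J.card := Nat.cast_nonneg _
      have h6 : (J'.card : ℝ) * m ≤ J'.card * (S - l / 4) := by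
        apply mul_le_mul_of_nonneg_left _ (Nat.cast_nonneg _)
        linarith
      obtain ⟨t, ht⟩ : ∃ t : ℝ, t = J.card := ⟨_, rfl⟩
      obtain ⟨t', ht'⟩ : ∃ t' : ℝ, t' = J'.card := ⟨_, rfl⟩
      rw [← ht] at h5 hcards hJ0
      rw [← ht'] at h6 hcards hsJ' hJ'2'
      have h7 : 0 ≤ (t / 4 + t' - 1 / 2) * (l - S) := by
        apply mul_nonneg <;> linarith
      nlinarith
    · -- B2
      rcases Nat.lt_or_ge J.card 2 with ht | ht
      · rcases Nat.eq_zero_or_pos J.card with ht0 | ht1
        · -- t = 0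
          have hJe : J = ∅ := card_eq_zero.mp ht0
          have hle : ∀ t, t ≠ j₁ → t ≠ j₂ → s t ≤ m := by
            intro t ht1 ht2
            by_contra hcon
            push Not at hcon
            have : t ∈ J := by
              rw [hJ, mem_filter]
              exact ⟨(hmemI t).mpr ⟨ht1, ht2⟩, hcon⟩
            rw [hJe] at this
            simp at this
          have h5 : r j₁ + r j₂ < 4 * x + e := by
            by_contra hcon
            push Not at hcon
            have h6 := h3 a b hab1 haI'.1 haI'.2 hbI'.1 hbI'.2 hle x hxpos.le (by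
              rw [← hm]
              linarith) (fun j hjj k hk1 hk2 => (hx0 j hjj k hk1 hk2).le) hcon
            rw [← hm, min_eq_right hab2] at h6
            linarith
          rw [hJe] at hsum2 hcards
          rw [Finset.sum_empty] at hsum2
          rw [card_empty, Nat.cast_zero] at hcards
          have h6 : (J'.card : ℝ) = n - 2 := by linarith
          rw [h6] at hsJ'
          have h7 : 0 ≤ ((n : ℝ) - 3) * (l - S) := by
            apply mul_nonneg <;> linarith
          rw [hmS] at hsJ'
          rcases Nat.lt_or_ge n 6 with hn6 | hn6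
          · have hn5 : n = 5 := by omega
            have hn5' : (n : ℝ) = 5 := by exact_mod_cast hn5
            rw [hn5'] at hsJ' h7 hβ1 hβ2
            linarith
          · have hn6' : (6 : ℝ) ≤ n := by exact_mod_cast hn6
            have h8 : 0 ≤ ((n : ℝ) - 6) * x := mul_nonneg (by linarith) hxpos.le
            linarith
        · -- t = 1
          have hJ1 : J.card = 1 := by omega
          obtain ⟨i₀, hi₀⟩ := card_eq_one.mp hJ1
          have hi₀J : i₀ ∈ J := by rw [hi₀]; exact mem_singleton_self _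
          have hi₀I := hJI i₀ hi₀J
          obtain ⟨c, hcJ, hcmax⟩ := Finset.exists_max_image J' (fun i => z i 1) ⟨a, haJ'⟩
          have hcJ2 : c ∈ I ∧ ¬ m < s c := by
            rw [hJ', mem_filter] at hcJ
            exact hcJ
          have hca : z c 1 ≤ m := by linarith [hzr c, (hrs c).2.1, not_lt.mp hcJ2.2]
          have hc0 : i₀ ≠ c := by
            rintro rfl
            exact hcJ2.2 hi₀I.2
          have h5 := hp2 i₀ hi₀I.1 c hcJ2.1 hc0 (hnf i₀ hi₀I.1 c hcJ2.1 hc0 hi₀I.2)
          have h6 : ∑ i ∈ J', r i ≤ (J'.card : ℝ) * ((m + z c 1) / 2) := by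
            have := Finset.sum_le_card_nsmul J' r ((m + z c 1) / 2) (fun i hi => by
              have h8 := hcmax i hi
              rw [hJ', mem_filter] at hi
              have h7 := h2r i
              linarith [not_lt.mp hi.2])
            rwa [nsmul_eq_mul] at this
          rw [hJ1, Nat.cast_one] at hcards
          have h7 : (J'.card : ℝ) = n - 3 := by linarith
          rw [h7] at h6
          rw [hi₀, Finset.sum_singleton] at hsum2
          have h8 := h2r i₀
          have h9 := (hrs i₀).2.2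
          obtain ⟨w, hw⟩ : ∃ w, w = z c 1 := ⟨_, rfl⟩
          obtain ⟨w0, hw0⟩ : ∃ w0, w0 = z i₀ 1 := ⟨_, rfl⟩
          obtain ⟨N, hNn⟩ : ∃ N : ℝ, N = n := ⟨_, rfl⟩
          rw [← hw] at h5 h6 hca
          rw [← hw0] at h5 h8
          rw [← hNn] at h6 hN hβ1 hβ2
          rw [hmS] at h6 hca
          have h10 : 0 ≤ (N - 4) * (S - x - w) := mul_nonneg (by linarith) (by linarith)
          have h11 : 0 ≤ (N - 4) * (l - S) := mul_nonneg (by linarith) (by linarith)
          have h13 : ∑ i ∈ I, r i ≤ (l + w0) / 2 + (N - 3) * ((S - x + w) / 2) := by linarith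
          have h14 : β + S < l / 2 + 3 * x + ((l + (S - w)) / 2 + (N - 3) * ((S - x + w) / 2)) := by
            linarith
          have h15 : β < (N - 3) * l + x * (13 / 2 - N) := by linarith
          rcases le_total N (13 / 2) with hn7 | hn7
          · have h16 : 0 ≤ (13 / 2 - N) * (l / 4 - x) := mul_nonneg (by linarith) (by linarith)
            have h17 : 0 ≤ (N - 5) * l := mul_nonneg (by linarith) hl0
            linarith
          · have h12 : 0 ≤ (N - 13 / 2) * x := mul_nonneg (by linarith) hxpos.le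
            linarith
      · -- t ≥ 2
        have h5 := hV J ht (by
          intro i hi m' hm' him hiI hmI
          exact hnf i hiI m' hmI him (hJI i hi).2)
        have ht2 : (2 : ℝ) ≤ J.card := by exact_mod_cast ht
        obtain ⟨t, ht⟩ : ∃ t : ℝ, t = J.card := ⟨_, rfl⟩
        obtain ⟨t', ht'⟩ : ∃ t' : ℝ, t' = J'.card := ⟨_, rfl⟩
        rw [← ht] at h5 hcards ht2
        rw [← ht'] at hcards hsJ' hJ'2'
        have h7 : 0 ≤ (t / 4 + t' - 1) * (l - S) := by
          apply mul_nonneg <;> linarith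
        rw [hmS] at hsJ'
        obtain ⟨N, hNn⟩ : ∃ N : ℝ, N = n := ⟨_, rfl⟩
        rw [← hNn] at hcards hβ1 hβ2
        have hN2 : N = t + t' + 2 := by linarith
        rw [hN2] at hβ1 hβ2
        have h11 : β < (3 * t / 4 + t' - 1 / 2) * l + (3 - t') * x := by linarith
        rcases le_total 3 t' with h8 | h8
        · have h9 : 0 ≤ (t' - 3) * x := mul_nonneg (by linarith) hxpos.le
          have h10 : 0 ≤ (t - 2) * l := mul_nonneg (by linarith) hl0
          linarith
        · have h9 : 0 ≤ (3 - t') * (l / 4 - x) := mul_nonneg (by linarith) (by linarith)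
          linarith

end Pool.Agent.H42.EX.Comb
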