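import Pool.Agent.H42.EX.Comb
import Pool.Agent.H42.EX.Stm3

/-!
# The second combinatorial lemma `S_COMB2`
-/

set_option autoImplicit false

namespace Pool.Agent.H42.EX.Comb2

open Finset

lemma sum_id (k : ℕ) : ∑ q ∈ Icc 1 k, (q : ℝ) = (k : ℝ) * (k + 1) / 2 := by
  induction k with
  | zero => simp
  | succ k ih =>
    rw [Finset.sum_Icc_succ_top (by omega), ih]
    push_cast
    ring

lemma sumk (k : ℕ) : ∑ q ∈ Icc 1 k, ((k : ℝ) + 1 - q) = (k : ℝ) * (k + 1) / 2 := by
  rw [Finset.sum_sub_distrib, sum_id, Finset.sum_const, Nat.card_Icc, nsmul_eq_mul,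
    Nat.add_sub_cancel]
  ring

theorem main : S_COMB2 := by
  classical
  intro n K r s z j₁ j₂ l L β e hn hK hj he he4 hrs hz hzr hkr hβ1 hβ2 hβ3 hL h1 h2 h3
  have hN : (5 : ℝ) ≤ n := by exact_mod_cast hn
  set S := ∑ i, r i - β with hS
  have hSl : S ≤ l := by linarith
  have hl0 : 0 ≤ l := by linarith [(hrs j₁).1, (hrs j₁).2.1, (hrs j₁).2.2]
  have h2r : ∀ i, 2 * r i ≤ s i + z i 1 := by
    intro i
    have := hkr i 1
    rw [Icc_self, Finset.sum_singleton] at this
    push_cast at this
    linarith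
  -- the bounds for `β` without division
  have hb2 : ((n : ℝ) - 3) * L + ((n : ℝ) - 2) * e ≤ ((n : ℝ) - 2) * β := by
    have h5 := mul_le_mul_of_nonneg_left hβ2 (by linarith : (0 : ℝ) ≤ (n : ℝ) - 2)
    have h6 : ((n : ℝ) - 2) * (((n : ℝ) - 3) / ((n : ℝ) - 2) * L + e) =
        ((n : ℝ) - 3) * L + ((n : ℝ) - 2) * e := by
      have : (n : ℝ) - 2 ≠ 0 := by linarith
      field_simp
    linarith
  have hb3 : 2 * l * n + ((n : ℝ) - 4) * L ≤ n * β := by
    have h5 := mul_le_mul_of_nonneg_left hβ3 (by linarith : (0 : ℝ) ≤ (n : ℝ))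
    have h6 : (n : ℝ) * (2 * l + ((n : ℝ) - 4) / n * L) = 2 * l * n + ((n : ℝ) - 4) * L := by
      have : (n : ℝ) ≠ 0 := by linarith
      field_simp
    linarith
  -- the small coordinates
  set I : Finset (Fin n) := (univ.erase j₁).erase j₂ with hI
  have hmemI : ∀ i, i ∈ I ↔ i ≠ j₁ ∧ i ≠ j₂ := by
    intro i
    simp only [hI, mem_erase, mem_univ, and_true]
    tauto
  have hsumI : ∀ f : Fin n → ℝ, ∑ i, f i = f j₁ + (f j₂ + ∑ i ∈ I, f i) := by
    intro f
    rw [hI, Finset.add_sum_erase _ _ (by rw [mem_erase]; exact ⟨Ne.symm hj, mem_univ _⟩),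
      Finset.add_sum_erase _ _ (mem_univ _)]
  have hcardI : (I.card : ℝ) = n - 2 := by
    rw [hI, card_erase_of_mem (by rw [mem_erase]; exact ⟨Ne.symm hj, mem_univ _⟩),
      card_erase_of_mem (mem_univ _), card_univ, Fintype.card_fin, Nat.sub_sub,
      Nat.cast_sub (by omega)]
    norm_num
  have hsum : ∑ i, r i = β + S := by rw [hS]; ring
  have hsum' : r j₁ + (r j₂ + ∑ i ∈ I, r i) = β + S := by rw [← hsumI, hsum]
  have hSL : β + S ≤ L := by rw [← hsum]; exact hL
  -- sums of two different elements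
  have hp1 : ∀ i j, (j = j₁ ∨ j = j₂) → i ≠ j → z i 1 + z j 1 < S := fun i j hjj hij =>
    h1 i j hjj hij 1 le_rfl (by omega)
  have hp2 : ∀ i ∈ I, ∀ m ∈ I, i ≠ m → z i 1 + z m 1 < max (s i) (s m) → z i 1 + z m 1 < S := by
    intro i hi m hm him hfull
    rw [hmemI] at hi hm
    have h5 := h2 i m j₁ him hi.1 hi.2 hm.1 hm.2 (Or.inl rfl) 1 le_rfl (by omega)
    rw [min_eq_left hfull.le] at h5
    have h6 : max (s i) (s m) ≤ l := max_le (hrs i).2.2 (hrs m).2.2
    have h7 : 0 ≤ min (z j₁ 1) (l - max (s i) (s m)) := le_min (hz _ _) (by linarith)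
    linarith
  -- sets without full pairs
  have hV : ∀ V : Finset (Fin n), 2 ≤ V.card → (∀ i ∈ V, ∀ m ∈ V, i ≠ m → i ∈ I → m ∈ I →
      z i 1 + z m 1 < max (s i) (s m)) → ∑ i ∈ V, r i < (V.card : ℝ) * (l / 2 + S / 4) := by
    intro V hV hnf
    have h5 : ∑ i ∈ V, z i 1 < (V.card : ℝ) * (S / 2) := by
      apply Comb.pair_sum V (fun i => z i 1) S hV
      intro i hi m hm him
      by_cases hiI : i ∈ I
      · by_cases hmI : m ∈ I
        · exact hp2 i hiI m hmI him (hnf i hi m hm him hiI hmI)
        · rw [hmemI] at hmI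
          have : m = j₁ ∨ m = j₂ := by tauto
          exact hp1 i m this him
      · rw [hmemI] at hiI
        have : i = j₁ ∨ i = j₂ := by tauto
        have h6 := hp1 m i this (Ne.symm him)
        show z i 1 + z m 1 < S
        linarith
    have h6 : ∑ i ∈ V, 2 * r i ≤ ∑ i ∈ V, (l + z i 1) := by
      apply Finset.sum_le_sum
      intro i _
      linarith [h2r i, (hrs i).2.2]
    rw [← Finset.mul_sum, Finset.sum_add_distrib, Finset.sum_const, nsmul_eq_mul] at h6
    nlinarith
  by_cases hfull : ∃ q ∈ I ×ˢ I, q.1 ≠ q.2 ∧ max (s q.1) (s q.2) ≤ z q.1 1 + z q.2 1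
  swap
  · -- no full pair
    push Not at hfull
    have h5 := hV univ (by rw [card_univ, Fintype.card_fin]; omega) (by
      intro i _ m _ him hi hm
      exact hfull (i, m) (mem_product.mpr ⟨hi, hm⟩) him)
    rw [hsum, card_univ, Fintype.card_fin] at h5
    have h6 : 0 ≤ ((n : ℝ) / 4 - 1) * (L - (β + S)) := mul_nonneg (by linarith) (by linarith)
    linarith
  · -- a full pair with maximal `max`
    have hne : ((I ×ˢ I).filter fun q => q.1 ≠ q.2 ∧
        max (s q.1) (s q.2) ≤ z q.1 1 + z q.2 1).Nonempty := by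
      obtain ⟨q, hq, hq2⟩ := hfull
      exact ⟨q, mem_filter.mpr ⟨hq, hq2⟩⟩
    obtain ⟨⟨a, b⟩, hab, hmax⟩ := Finset.exists_max_image _ (fun q => max (s q.1) (s q.2)) hne
    rw [mem_filter, mem_product] at hab
    obtain ⟨⟨haI, hbI⟩, hab1, hab2⟩ := hab
    simp only at haI hbI hab1 hab2
    set m := max (s a) (s b) with hm
    have hml : m ≤ l := max_le (hrs a).2.2 (hrs b).2.2
    have haI' := (hmemI a).mp haI
    have hbI' := (hmemI b).mp hbI
    have hx0 : ∀ j, (j = j₁ ∨ j = j₂) → ∀ k, 1 ≤ k → k ≤ K → z j k < S - m := by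
      intro j hjj k hk1 hk2
      have h5 := h2 a b j hab1 haI'.1 haI'.2 hbI'.1 hbI'.2 hjj k hk1 hk2
      rw [← hm, min_eq_right hab2] at h5
      rcases le_total (z j k) (l - m) with h6 | h6
      · rw [min_eq_left h6] at h5
        linarith
      · rw [min_eq_right h6] at h5
        linarith
    obtain ⟨x, hx⟩ : ∃ x, x = S - m := ⟨_, rfl⟩
    rw [← hx] at hx0
    have hxpos : 0 < x := lt_of_le_of_lt (hz j₁ 1) (hx0 j₁ (Or.inl rfl) 1 le_rfl (by omega))
    have hmS : m = S - x := by linarith
    have hrk : ∀ j, (j = j₁ ∨ j = j₂) → ∀ k : ℕ, 1 ≤ k → k ≤ K →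
        ((k : ℝ) + 1) * r j ≤ l + x * ((k : ℝ) * (k + 1) / 2) := by
      intro j hjj k hk1 hk2
      have h5 := hkr j k
      have h6 : ∑ q ∈ Icc 1 k, ((k : ℝ) + 1 - q) * z j q ≤ ∑ q ∈ Icc 1 k, ((k : ℝ) + 1 - q) * x := by
        apply Finset.sum_le_sum
        intro q hq
        rw [mem_Icc] at hq
        have h7 : (q : ℝ) ≤ k := by exact_mod_cast hq.2
        exact mul_le_mul_of_nonneg_left (hx0 j hjj q hq.1 (by omega)).le (by linarith)
      rw [← Finset.sum_mul, sumk] at h6
      linarith [(hrs j).2.2]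
    -- the coordinates above `m`
    set J := I.filter (fun i => m < s i) with hJ
    set J' := I.filter (fun i => ¬ m < s i) with hJ'
    have hsplit : ∀ f : Fin n → ℝ, ∑ i ∈ I, f i = ∑ i ∈ J, f i + ∑ i ∈ J', f i := by
      intro f
      rw [hJ, hJ', Finset.sum_filter_add_sum_filter_not]
    have hcards : (J.card : ℝ) + (J'.card : ℝ) = n - 2 := by
      have h5 := Finset.card_filter_add_card_filter_not (s := I) (fun i => m < s i)
      rw [← hcardI, ← Nat.cast_add]
      exact congrArg _ h5
    have haJ' : a ∈ J' := by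
      rw [hJ', mem_filter]
      exact ⟨haI, not_lt.mpr (le_max_left _ _)⟩
    have hbJ' : b ∈ J' := by
      rw [hJ', mem_filter]
      exact ⟨hbI, not_lt.mpr (le_max_right _ _)⟩
    have hJ'2 : 2 ≤ J'.card := by
      rw [← Finset.card_pair hab1]
      apply Finset.card_le_card
      intro i hi
      rw [mem_insert, mem_singleton] at hi
      rcases hi with rfl | rfl
      · exact haJ'
      · exact hbJ'
    have hJ'2' : (2 : ℝ) ≤ J'.card := by exact_mod_cast hJ'2
    have hJ'K : J'.card ≤ K := by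
      have h5 : ((J'.card : ℕ) : ℝ) ≤ (n : ℝ) := by
        have : (0 : ℝ) ≤ J.card := Nat.cast_nonneg _
        linarith
      have h6 : J'.card ≤ n := by exact_mod_cast h5
      omega
    have hnf : ∀ i ∈ I, ∀ i' ∈ I, i ≠ i' → m < s i → z i 1 + z i' 1 < max (s i) (s i') := by
      intro i hi i' hi' hii hms
      by_contra hcon
      push Not at hcon
      have h5 := hmax (i, i') (mem_filter.mpr ⟨mem_product.mpr ⟨hi, hi'⟩, hii, hcon⟩)
      simp only at h5
      have h6 : s i ≤ max (s i) (s i') := le_max_left _ _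
      linarith
    have hsJ' : ∑ i ∈ J', r i ≤ (J'.card : ℝ) * m := by
      have := Finset.sum_le_card_nsmul J' r m (fun i hi => by
        rw [hJ', mem_filter] at hi
        linarith [(hrs i).2.1, not_lt.mp hi.2])
      rwa [nsmul_eq_mul] at this
    have hJI : ∀ i ∈ J, i ∈ I ∧ m < s i := fun i hi => by
      rw [hJ, mem_filter] at hi
      exact hi
    have hsum2 := hsplit r
    rcases Nat.lt_or_ge J.card 2 with ht | ht
    · rcases Nat.eq_zero_or_pos J.card with ht0 | ht1
      · -- t = 0
        have hJe : J = ∅ := card_eq_zero.mp ht0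
        have hle : ∀ t, t ≠ j₁ → t ≠ j₂ → s t ≤ m := by
          intro t ht1 ht2
          by_contra hcon
          push Not at hcon
          have : t ∈ J := by
            rw [hJ, mem_filter]
            exact ⟨(hmemI t).mpr ⟨ht1, ht2⟩, hcon⟩
          rw [hJe] at this
          simp at this
        have h5 : r j₁ + r j₂ < 4 * x + e := by
          by_contra hcon
          push Not at hcon
          have h6 := h3 a b hab1 haI'.1 haI'.2 hbI'.1 hbI'.2 hle x hxpos.le (by
            rw [← hm]
            linarith) (fun j hjj k hk1 hk2 => (hx0 j hjj k hk1 hk2).le) hcon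
          rw [← hm, min_eq_right hab2] at h6
          linarith
        rw [hJe] at hsum2 hcards
        rw [Finset.sum_empty] at hsum2
        rw [card_empty, Nat.cast_zero] at hcards
        have h6 : (J'.card : ℝ) = n - 2 := by linarith
        rw [h6] at hsJ'
        rw [hmS] at hsJ'
        have h7 : 0 ≤ ((n : ℝ) - 3) * (L - (β + S)) := mul_nonneg (by linarith) (by linarith)
        rcases Nat.lt_or_ge n 6 with hn6 | hn6
        · have hn5 : n = 5 := by omega
          have hn5' : (n : ℝ) = 5 := by exact_mod_cast hn5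
          rw [hn5'] at hsJ' h7 hb2 hb3
          rcases le_or_gt (l / 4) x with hx4 | hx4
          · have h8 := h1 j₁ j₂ (Or.inr rfl) hj 1 le_rfl (by omega)
            have h9 := h2r j₁
            have h10 := h2r j₂
            have h11 := (hrs j₁).2.2
            have h12 := (hrs j₂).2.2
            linarith
          · linarith
        · have hn6' : (6 : ℝ) ≤ n := by exact_mod_cast hn6
          have h8 : 0 ≤ ((n : ℝ) - 6) * x := mul_nonneg (by linarith) hxpos.le
          have h9 : 0 ≤ ((n : ℝ) - 3) * e := mul_nonneg (by linarith) he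
          linarith
      · -- t = 1
        have hJ1 : J.card = 1 := by omega
        obtain ⟨i₀, hi₀⟩ := card_eq_one.mp hJ1
        have hi₀J : i₀ ∈ J := by rw [hi₀]; exact mem_singleton_self _
        have hi₀I := hJI i₀ hi₀J
        obtain ⟨c, hcJ, hcmax⟩ := Finset.exists_max_image J' (fun i => z i 1) ⟨a, haJ'⟩
        have hcJ2 : c ∈ I ∧ ¬ m < s c := by
          rw [hJ', mem_filter] at hcJ
          exact hcJ
        have hca : z c 1 ≤ m := by linarith [hzr c, (hrs c).2.1, not_lt.mp hcJ2.2]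
        have hc0 : i₀ ≠ c := by
          rintro rfl
          exact hcJ2.2 hi₀I.2
        have h5 := hp2 i₀ hi₀I.1 c hcJ2.1 hc0 (hnf i₀ hi₀I.1 c hcJ2.1 hc0 hi₀I.2)
        have h6 : ∑ i ∈ J', r i ≤ (J'.card : ℝ) * ((m + z c 1) / 2) := by
          have := Finset.sum_le_card_nsmul J' r ((m + z c 1) / 2) (fun i hi => by
            have h8 := hcmax i hi
            rw [hJ', mem_filter] at hi
            have h7 := h2r i
            linarith [not_lt.mp hi.2])
          rwa [nsmul_eq_mul] at this
        rw [hJ1, Nat.cast_one] at hcards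
        have h7 : (J'.card : ℝ) = n - 3 := by linarith
        rw [h7] at h6
        rw [hi₀, Finset.sum_singleton] at hsum2
        have h8 := h2r i₀
        have h9 := (hrs i₀).2.2
        -- the bounds for the large coordinates
        have hk1 := hrk j₁ (Or.inl rfl) (n - 4) (by omega) (by omega)
        have hk2 := hrk j₂ (Or.inr rfl) (n - 4) (by omega) (by omega)
        rw [Nat.cast_sub (by omega)] at hk1 hk2
        push_cast at hk1 hk2
        obtain ⟨w, hw⟩ : ∃ w, w = z c 1 := ⟨_, rfl⟩
        obtain ⟨w0, hw0⟩ : ∃ w0, w0 = z i₀ 1 := ⟨_, rfl⟩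
        obtain ⟨N, hNn⟩ : ∃ N : ℝ, N = n := ⟨_, rfl⟩
        rw [← hw] at h5 h6 hca
        rw [← hw0] at h5 h8
        rw [← hNn] at h6 hN hb2 hb3 hk1 hk2
        rw [hmS] at h6 hca
        obtain ⟨y, hy⟩ : ∃ y, y = l / (N - 3) := ⟨_, rfl⟩
        have hN3 : N - 3 ≠ 0 := by linarith
        have hly : l = (N - 3) * y := by rw [hy]; field_simp
        have hy0 : 0 ≤ y := by rw [hy]; exact div_nonneg hl0 (by linarith)
        have hr1 : r j₁ ≤ y + (N - 4) * x / 2 := by
          have h10 : (N - 3) * r j₁ ≤ (N - 3) * (y + (N - 4) * x / 2) := by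
            rw [hly] at hk1
            linarith
          exact le_of_mul_le_mul_left h10 (by linarith)
        have hr2 : r j₂ ≤ y + (N - 4) * x / 2 := by
          have h10 : (N - 3) * r j₂ ≤ (N - 3) * (y + (N - 4) * x / 2) := by
            rw [hly] at hk2
            linarith
          exact le_of_mul_le_mul_left h10 (by linarith)
        have h10 : 0 ≤ (N - 4) * (S - x - w) := mul_nonneg (by linarith) (by linarith)
        have h13 : ∑ i ∈ I, r i ≤ (l + w0) / 2 + (N - 3) * ((S - x + w) / 2) := by linarith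
        have h14 : ∑ i ∈ I, r i < (l + x) / 2 + (N - 3) * (S - x) := by linarith
        have h15 : β + S < l / 2 + (N - 3) * S + 2 * y := by linarith
        have h16 : 0 ≤ (N - 4) * (L - (β + S)) := mul_nonneg (by linarith) (by linarith)
        have h17 : (N - 3) * β < l / 2 + (N - 4) * L + 2 * y := by linarith
        rcases Nat.lt_or_ge n 6 with hn6 | hn6
        · have hn5 : n = 5 := by omega
          have hn5' : N = 5 := by rw [hNn]; exact_mod_cast hn5
          rw [hn5'] at h17 hb3 hly
          linarith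
        · have hn6' : (6 : ℝ) ≤ N := by rw [hNn]; exact_mod_cast hn6
          have h18 := mul_lt_mul_of_pos_left h17 (by linarith : (0 : ℝ) < 3 * N - 8)
          have h19 := mul_le_mul_of_nonneg_left hb2 (by linarith : (0 : ℝ) ≤ 3 * (N - 4))
          have h20 : 0 ≤ 3 * (N - 4) * ((N - 2) * e) :=
            mul_nonneg (by linarith) (mul_nonneg (by linarith) he)
          have h21 : 2 * l * N < (3 * N - 8) * (l / 2 + 2 * y) := by linarith
          rw [hly] at h21
          have h22 : 0 ≤ (N - 6) * (N - 1) * y := mul_nonneg (mul_nonneg (by linarith) (by linarith)) hy0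
          linarith
    · -- t ≥ 2
      have h5 := hV J ht (by
        intro i hi m' hm' him hiI hmI
        exact hnf i hiI m' hmI him (hJI i hi).2)
      have ht2 : (2 : ℝ) ≤ J.card := by exact_mod_cast ht
      have hk1 := hrk j₁ (Or.inl rfl) J'.card (by omega) hJ'K
      have hk2 := hrk j₂ (Or.inr rfl) J'.card (by omega) hJ'K
      obtain ⟨t, ht⟩ : ∃ t : ℝ, t = J.card := ⟨_, rfl⟩
      obtain ⟨t', ht'⟩ : ∃ t' : ℝ, t' = J'.card := ⟨_, rfl⟩
      rw [← ht] at h5 hcards ht2
      rw [← ht'] at hcards hsJ' hJ'2' hk1 hk2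
      rw [hmS] at hsJ'
      obtain ⟨N, hNn⟩ : ∃ N : ℝ, N = n := ⟨_, rfl⟩
      rw [← hNn] at hcards hb2 hb3
      have hN2 : N = t + t' + 2 := by linarith
      rw [hN2] at hb2 hb3
      obtain ⟨y, hy⟩ : ∃ y, y = l / (t' + 1) := ⟨_, rfl⟩
      have hN3 : t' + 1 ≠ 0 := by linarith
      have hly : l = (t' + 1) * y := by rw [hy]; field_simp
      have hy0 : 0 ≤ y := by rw [hy]; exact div_nonneg hl0 (by linarith)
      have hr1 : r j₁ ≤ y + t' * x / 2 := by
        have h10 : (t' + 1) * r j₁ ≤ (t' + 1) * (y + t' * x / 2) := by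
          rw [hly] at hk1
          linarith
        exact le_of_mul_le_mul_left h10 (by linarith)
      have hr2 : r j₂ ≤ y + t' * x / 2 := by
        have h10 : (t' + 1) * r j₂ ≤ (t' + 1) * (y + t' * x / 2) := by
          rw [hly] at hk2
          linarith
        exact le_of_mul_le_mul_left h10 (by linarith)
      have h15 : β + S < t * l / 2 + (t / 4 + t') * S + 2 * y := by linarith
      have h16 : 0 ≤ (t / 4 + t' - 1) * (L - (β + S)) := mul_nonneg (by linarith) (by linarith)
      have h17 : (t / 4 + t') * β < t * l / 2 + (t / 4 + t' - 1) * L + 2 * y := by linarith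
      have h18 := mul_lt_mul_of_pos_left h17 (by linarith : (0 : ℝ) < 3 * (t + t') - 2)
      have h19 := mul_le_mul_of_nonneg_left hb2 (by linarith : (0 : ℝ) ≤ 3 * t' - 2)
      have h20 : 0 ≤ (3 * t' - 2) * ((t + t' + 2 - 2) * e) :=
        mul_nonneg (by linarith) (mul_nonneg (by linarith) he)
      have h21 := mul_le_mul_of_nonneg_left hb3 (by linarith : (0 : ℝ) ≤ 3 * t / 4)
      have h22 : 3 * t / 4 * (2 * l * (t + t' + 2)) < (3 * (t + t') - 2) * (t * l / 2 + 2 * y) := by
        linarith
      rw [hly] at h22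
      have h23 : 0 ≤ ((2 * t - 3) * (t' - 1 / 2) + 1 / 2) * y := by
        apply mul_nonneg _ hy0
        have : 0 ≤ (2 * t - 3) * (t' - 1 / 2) := mul_nonneg (by linarith) (by linarith)
        linarith
      linarith

end Pool.Agent.H42.EX.Comb2
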