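import Pool.Agent.H42.EX.Stm4

set_option autoImplicit false

/-! # Project EX3: the combinatorial lemma -/

namespace Pool.Agent.H42.EX.Comb3

open Finset

theorem mu_zero (z : ℕ → ℝ) : mu z 0 = 0 := by simp [mu]

theorem ka_zero (z : ℕ → ℝ) : ka z 0 = 0 := by simp [ka]

/-- the counting step: two good indices with small defect -/
theorem two_good {ι : Type} [DecidableEq ι] (S : Finset ι) (del : ι → ℝ) (bad : Finset ι) (n : ℕ) (om : ℝ)
    (hn : 7 ≤ n) (hS : S.card = n - 2) (hbad : bad.card ≤ 3) (hpos : ∀ i ∈ S, 0 < del i)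
    (hom : 0 < om) (hsum : ∑ i ∈ S, del i < om) :
    ∃ i ∈ S, ∃ m ∈ S, i ≠ m ∧ i ∉ bad ∧ m ∉ bad ∧ ((n : ℝ) - 6) * del i ≤ om ∧
      ((n : ℝ) - 6) * del m ≤ om := by
  classical
  by_contra hcon
  push Not at hcon
  let Q : Finset ι := (S \ bad).filter fun i => ((n : ℝ) - 6) * del i ≤ om
  have hQ : Q.card ≤ 1 := by
    rw [card_le_one]
    intro a ha b hb
    by_contra hab
    obtain ⟨h1, h2⟩ := mem_filter.1 ha
    obtain ⟨h3, h4⟩ := mem_filter.1 hb
    rw [mem_sdiff] at h1 h3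
    exact absurd h4 (not_le.2 (hcon a h1.1 b h3.1 hab h1.2 h3.2 h2))
  have h1 : n - 5 ≤ (S \ bad).card := by
    have := le_card_sdiff bad S
    omega
  have h2 : n - 6 ≤ ((S \ bad) \ Q).card := by
    have := le_card_sdiff Q (S \ bad)
    omega
  have h3 : ((n : ℝ) - 6) * ∑ i ∈ (S \ bad) \ Q, del i < ((n : ℝ) - 6) * om := by
    refine mul_lt_mul_of_pos_left (lt_of_le_of_lt ?_ hsum) ?_
    · refine sum_le_sum_of_subset_of_nonneg ?_ fun i hi _ => (hpos i hi).le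
      exact (sdiff_subset).trans sdiff_subset
    · have : (7 : ℝ) ≤ n := by exact_mod_cast hn
      linarith
  have h4 : ((S \ bad) \ Q).card • om ≤ ∑ i ∈ (S \ bad) \ Q, ((n : ℝ) - 6) * del i := by
    refine card_nsmul_le_sum _ _ _ fun i hi => ?_
    rw [mem_sdiff] at hi
    by_contra hh
    exact hi.2 (mem_filter.2 ⟨hi.1, (not_le.1 hh).le⟩)
  rw [mul_sum] at h3
  rw [nsmul_eq_mul] at h4
  have h5 : ((n : ℝ) - 6) ≤ (((S \ bad) \ Q).card : ℝ) := by
    have h6 : n ≤ ((S \ bad) \ Q).card + 6 := by omega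
    have h7 : (n : ℝ) ≤ (((S \ bad) \ Q).card : ℝ) + 6 := by exact_mod_cast h6
    linarith
  have h8 : ((n : ℝ) - 6) * om ≤ (((S \ bad) \ Q).card : ℝ) * om := mul_le_mul_of_nonneg_right h5 hom.le
  linarith

theorem main : S_PLP → S_SIZE → S_NUM → S_COMB3 := by
  classical
  intro hPLP hSIZE hNUM n K r s z j₁ j₂ L g e E hn hK hj he hE hEe hKe hrs hStr hmu hs1 hs2 hL hL1 hL2 hg F1 F2 F3 F4
  have hnR : (30 : ℝ) ≤ n := by exact_mod_cast hn
  obtain ⟨S, hS⟩ : ∃ S : ℝ, S = ∑ t, r t := ⟨_, rfl⟩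
  obtain ⟨σ, hσ⟩ : ∃ σ : ℝ, σ = S - g := ⟨_, rfl⟩
  rw [← hS] at hL F1 F2 F3 F4
  simp only [← hσ] at F1 F2 F3 F4
  obtain ⟨ε, hε⟩ : ∃ ε : ℝ, ε = 1 / ((K : ℝ) + 1) := ⟨_, rfl⟩
  have hK1 : (0 : ℝ) < (K : ℝ) + 1 := by positivity
  have hε0 : 0 ≤ ε := by rw [hε]; positivity
  have hεe : 100 * ε ≤ e := by
    rw [hε, mul_one_div, div_le_iff₀ hK1]
    exact hKe
  have hmu' : ∀ i, r i - ε ≤ mu (z i) K := by
    intro i
    have h1 := hmu i
    have h2 : r i - mu (z i) K ≤ ε := by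
      rw [hε, le_div_iff₀ hK1]
      linarith
    linarith
  -- (0)
  have hr : ∀ i, r i < σ := by
    intro i
    obtain ⟨m, hm⟩ : ∃ m, i ≠ m := by
      by_cases h : i = j₁
      · exact ⟨j₂, by rw [h]; exact hj⟩
      · exact ⟨j₁, h⟩
    have h1 := F2 i m hm 0 (Nat.zero_le _)
    rw [mu_zero, ka_zero, min_lt_iff] at h1
    have h2 := le_max_left (s i) (s m)
    rcases h1 with h1 | h1
    · linarith
    · linarith
  have hσ0 : 0 < σ := (hrs j₁).1.trans_lt (hr j₁)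
  have hn2 : (0 : ℝ) < (n : ℝ) - 2 := by linarith
  have hn1 : (0 : ℝ) < (n : ℝ) - 1 := by linarith
  have hg' : ((n : ℝ) - 3) * L + ((n : ℝ) - 2) * e ≤ ((n : ℝ) - 2) * g := by
    have h1 := mul_le_mul_of_nonneg_left hg hn2.le
    have h2 : ((n : ℝ) - 2) * (((n : ℝ) - 3) / ((n : ℝ) - 2) * L + e) = ((n : ℝ) - 3) * L + ((n : ℝ) - 2) * e := by
      field_simp
    rw [h2] at h1
    exact h1
  have h0a : ((n : ℝ) - 2) * σ ≤ S - ((n : ℝ) - 2) * e := by
    have h1 : ((n : ℝ) - 3) * S ≤ ((n : ℝ) - 3) * L := mul_le_mul_of_nonneg_left hL (by linarith)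
    rw [hσ]
    linarith
  obtain ⟨om, hom⟩ : ∃ om : ℝ, om = r j₁ + r j₂ := ⟨_, rfl⟩
  let T : Finset (Fin n) := (univ.erase j₁).erase j₂
  have hj2 : j₂ ∈ (univ.erase j₁ : Finset (Fin n)) := mem_erase.2 ⟨hj.symm, mem_univ _⟩
  have hTc : T.card = n - 2 := by
    rw [card_erase_of_mem hj2, card_erase_of_mem (mem_univ _), card_univ, Fintype.card_fin]
    omega
  have hsumT : ∑ i ∈ T, r i = S - om := by
    have h1 := add_sum_erase univ r (mem_univ j₁)
    have h2 := add_sum_erase (univ.erase j₁) r hj2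
    rw [hS, hom]
    linarith
  have hdel : ∑ i ∈ T, (σ - r i) ≤ om - ((n : ℝ) - 2) * e := by
    rw [sum_sub_distrib, hsumT, sum_const, hTc, nsmul_eq_mul, Nat.cast_sub (by omega)]
    push_cast
    linarith
  have hdel0 : 0 ≤ ∑ i ∈ T, (σ - r i) := sum_nonneg fun i _ => by have := hr i; linarith
  have home : ((n : ℝ) - 2) * e ≤ om := by linarith
  have hne : 0 < ((n : ℝ) - 2) * e := by positivity
  have hom0 : 0 < om := by linarith
  have hom2 : om < 2 * σ := by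
    have h1 := hr j₁
    have h2 := hr j₂
    linarith
  have h28e : 28 * e ≤ om := by
    refine le_trans ?_ home
    exact mul_le_mul_of_nonneg_right (by linarith) he.le
  have hsumn : S < n * σ := by
    have h1 : ∑ t, r t < ∑ _t : Fin n, σ := sum_lt_sum_of_nonempty ⟨j₁, mem_univ _⟩ fun i _ => hr i
    rw [sum_const, card_univ, Fintype.card_fin, nsmul_eq_mul] at h1
    rw [hS]
    exact h1
  have hσL : ((n : ℝ) - 3) * L / (((n : ℝ) - 1) * ((n : ℝ) - 2)) ≤ σ := by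
    rw [div_le_iff₀ (by positivity)]
    have h1 : g < ((n : ℝ) - 1) * σ := by
      have : S = σ + g := by rw [hσ]; ring
      linarith
    have h2 := mul_lt_mul_of_pos_left h1 hn2
    nlinarith
  have hσ5 : σ ≤ 4 / 5 := by
    have h1 : ((n : ℝ) - 2) * σ ≤ ((n : ℝ) - 2) * (4 / 5) := by linarith
    exact le_of_mul_le_mul_left h1 hn2
  have h23 : (0 : ℝ) < (n : ℝ) - 23 := by linarith
  have hσN : 32 * ((n : ℝ) - 3) / (((n : ℝ) - 1) * ((n : ℝ) - 2) * ((n : ℝ) - 23)) ≤ σ := by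
    refine le_trans ?_ hσL
    have h1 : 32 * ((n : ℝ) - 3) / (((n : ℝ) - 1) * ((n : ℝ) - 2) * ((n : ℝ) - 23)) =
        ((n : ℝ) - 3) * (32 / ((n : ℝ) - 23)) / (((n : ℝ) - 1) * ((n : ℝ) - 2)) := by
      field_simp
    rw [h1]
    exact div_le_div_of_nonneg_right (mul_le_mul_of_nonneg_left hL1 (by linarith)) (by positivity)
  -- (1)
  let bad : Finset (Fin n) := univ.filter fun i => ∃ k, 2 ≤ k ∧ k ≤ K ∧ σ - r i ≤ z i k
  have hbad : bad.card ≤ 3 := by
    by_contra hcon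
    obtain ⟨B, hB1, hB2⟩ := exists_subset_card_eq (by omega : 4 ≤ bad.card)
    let t : Fin 4 → Fin n := fun a => ((B.equivFin.trans (finCongr hB2)).symm a : Fin n)
    have ht : Function.Injective t := fun a b hab =>
      (B.equivFin.trans (finCongr hB2)).symm.injective (Subtype.ext hab)
    have htb : ∀ a, t a ∈ bad := fun a => hB1 ((B.equivFin.trans (finCongr hB2)).symm a).2
    have hk : ∀ a, ∃ k, 2 ≤ k ∧ k ≤ K ∧ σ - r (t a) ≤ z (t a) k := fun a => (mem_filter.1 (htb a)).2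
    choose k hk1 hk2 hk3 using hk
    have h1 := F4 t k ht fun a => ⟨hk1 a, hk2 a⟩
    have h2 : ∑ _a : Fin 4, σ ≤ ∑ a, (r (t a) + z (t a) (k a)) :=
      sum_le_sum fun a _ => by have := hk3 a; linarith
    rw [sum_const, card_univ, Fintype.card_fin, nsmul_eq_mul] at h2
    push_cast at h2
    linarith
  obtain ⟨i, hi, m, hm, him, hib, hmb, hdi, hdm⟩ := two_good T (fun i => σ - r i) bad n om (by omega) hTc hbad
    (fun i _ => by have := hr i; show 0 < σ - r i; linarith) hom0 (by linarith)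
  have hn6 : (0 : ℝ) < (n : ℝ) - 6 := by linarith
  obtain ⟨Δ, hΔ⟩ : ∃ Δ : ℝ, Δ = om / ((n : ℝ) - 6) := ⟨_, rfl⟩
  have hΔn : ((n : ℝ) - 6) * Δ = om := by rw [hΔ]; field_simp
  have hΔ0 : 0 < Δ := by rw [hΔ]; positivity
  have hdi' : σ - r i ≤ Δ := by
    rw [← hΔn] at hdi
    exact le_of_mul_le_mul_left hdi hn6
  have hdm' : σ - r m ≤ Δ := by
    rw [← hΔn] at hdm
    exact le_of_mul_le_mul_left hdm hn6
  have h24 : 24 * Δ ≤ om := by
    rw [← hΔn]
    exact mul_le_mul_of_nonneg_right (by linarith) hΔ0.le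
  -- (2)
  have hsize : ∀ i ∈ T, σ - r i ≤ Δ → ((n : ℝ) - 6) * (1 - s i) ≤ 402 / 100 := by
    intro i hi hdi
    obtain ⟨hi2, hi1'⟩ := mem_erase.1 hi
    obtain ⟨hi1, _⟩ := mem_erase.1 hi1'
    obtain ⟨j, hjj, hrj, hsj⟩ : ∃ j, (j = j₁ ∨ j = j₂) ∧ om / 2 ≤ r j ∧ 1 - E ≤ s j := by
      rcases le_total (r j₁) (r j₂) with h | h
      · exact ⟨j₂, Or.inr rfl, by rw [hom]; linarith, hs2⟩
      · exact ⟨j₁, Or.inl rfl, by rw [hom]; linarith, hs1⟩
    have hij : i ≠ j := by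
      rcases hjj with h | h
      · rw [h]; exact hi1
      · rw [h]; exact hi2
    have h1 := hSIZE K (z j) (r i) (s i) (r j) (s j) σ ε hK (hStr j) (hrs j).1 ((hrs j).2.1.trans (hrs j).2.2)
      ((hrs i).1.trans (hrs i).2.1) (hrs j).2.2 (hmu' j) (fun e he => F2 i j hij e he)
      (fun k hk1 hk2 => F3 i j hjj hij k hk1 hk2)
    have hE2 : ((n : ℝ) - 6) * E ≤ 2 / 100 := by
      have h2 : ((n : ℝ) - 6) * (100 * E) ≤ ((n : ℝ) - 6) * e := mul_le_mul_of_nonneg_left hEe hn6.le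
      nlinarith
    rcases h1 with h1 | h1
    · rcases le_or_gt (s j) (s i) with h2 | h2
      · have h3 : ((n : ℝ) - 6) * (1 - s i) ≤ ((n : ℝ) - 6) * E :=
          mul_le_mul_of_nonneg_left (by linarith) hn6.le
        linarith
      · have h3 : (s j - s i) * (om / 2) ≤ (s j - s i) * r j := mul_le_mul_of_nonneg_left hrj (by linarith)
        have h4 : (s j - s i) * (om / 2) < 2 * Δ := by linarith
        have h5 : ((n : ℝ) - 6) * ((s j - s i) * (om / 2)) < ((n : ℝ) - 6) * (2 * Δ) :=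
          mul_lt_mul_of_pos_left h4 hn6
        have h6 : ((n : ℝ) - 6) * (2 * Δ) = 2 * om := by linarith
        rw [h6] at h5
        have h7 : ((n : ℝ) - 6) * (s j - s i) < 4 := by
          by_contra hh
          push Not at hh
          have h8 : 4 * (om / 2) ≤ ((n : ℝ) - 6) * (s j - s i) * (om / 2) :=
            mul_le_mul_of_nonneg_right hh (by linarith)
          linarith
        have h9 : ((n : ℝ) - 6) * (1 - s i) ≤ ((n : ℝ) - 6) * (E + (s j - s i)) :=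
          mul_le_mul_of_nonneg_left (by linarith) hn6.le
        linarith
    · exfalso
      linarith only [h1, hrj, hdi, h24, hεe, h28e, hom0]
  have hsi := hsize i hi hdi'
  have hsm := hsize m hm hdm'
  obtain ⟨M, hM⟩ : ∃ M : ℝ, M = max (s i) (s m) := ⟨_, rfl⟩
  have hMi : s i ≤ M := by rw [hM]; exact le_max_left _ _
  have hMN : ((n : ℝ) - 6) * (1 - M) ≤ 402 / 100 :=
    (mul_le_mul_of_nonneg_left (by linarith) hn6.le).trans hsi
  have hM45 : 4 / 5 ≤ M := by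
    by_contra hh
    push Not at hh
    have h1 : ((n : ℝ) - 6) * (1 / 5) ≤ ((n : ℝ) - 6) * (1 - M) := mul_le_mul_of_nonneg_left (by linarith) hn6.le
    linarith
  -- (3)
  have hgood : ∀ i, i ∉ bad → σ - r i ≤ Δ → ∀ q, 2 ≤ q → q ≤ K → z i q ≤ Δ := by
    intro i hi hd q hq1 hq2
    by_contra hh
    push Not at hh
    exact hi (mem_filter.2 ⟨mem_univ _, q, hq1, hq2, by linarith⟩)
  obtain ⟨p, hp1, hp2, hp3, hp4, hp5⟩ := hPLP K (z i) (z m) (r i) (r m) (s i) (s m) σ Δ ε hK hΔ0.le hε0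
    (hStr i) (hStr m) (hrs i).2.2 (hrs m).2.2
    (fun q hq1 hq2 => ⟨hgood i hib hdi' q hq1 hq2, hgood m hmb hdm' q hq1 hq2⟩) (hmu' i) (hmu' m)
    (by linarith) (by linarith) (by rw [← hM]; linarith) (by linarith)
    (fun e₁ e₂ h1 h2 => F1 i m him e₁ e₂ h1 h2)
  rw [← hM] at hp3
  refine hNUM n p M σ Δ ε hn hp1 hσN hΔ0.le (by linarith) hε0 ?_ hMN hp3 hp4 hp5
  have h1 : ((n : ℝ) - 6) * (100 * ε) ≤ ((n : ℝ) - 6) * e := mul_le_mul_of_nonneg_left hεe hn6.le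
  nlinarith

end Pool.Agent.H42.EX.Comb3
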