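import Pool.Agent.H42.EX.Stm5

set_option autoImplicit false

/-! # Project EX3: the combinatorial lemma away from the barrier -/

namespace Pool.Agent.H42.EX.Comb4

open Finset

theorem mu_zero (z : ℕ → ℝ) : mu z 0 = 0 := by simp [mu]

theorem ka_zero (z : ℕ → ℝ) : ka z 0 = 0 := by simp [ka]

theorem main : S_PLP → S_SIZE → S_NUM4 → S_COMB4 := by
  classical
  intro hPLP hSIZE hNUM n t hn ht ht2 K r s z j₁ j₂ G e E hK hj he hE hEe hKe hrs hStr hmu hs1 hs2 hL hg F1 F2 F3 F4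
  have hnR : (5 : ℝ) ≤ n := by exact_mod_cast hn
  have hn0 : (0 : ℝ) < n := by linarith
  obtain ⟨S, hS⟩ : ∃ S : ℝ, S = ∑ t, r t := ⟨_, rfl⟩
  obtain ⟨σ, hσ⟩ : ∃ σ : ℝ, σ = S - G := ⟨_, rfl⟩
  rw [← hS] at hL F1 F2 F3 F4
  simp only [← hσ] at F1 F2 F3 F4
  obtain ⟨ε, hε⟩ : ∃ ε : ℝ, ε = 1 / ((K : ℝ) + 1) := ⟨_, rfl⟩
  have hK1 : (0 : ℝ) < (K : ℝ) + 1 := by positivity
  have hε0 : 0 ≤ ε := by rw [hε]; positivity
  have hεe : 100 * ε ≤ e := by
    rw [hε, mul_one_div, div_le_iff₀ hK1]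
    exact hKe
  have hmu' : ∀ i, r i - ε ≤ mu (z i) K := by
    intro i
    have h1 := hmu i
    have h2 : r i - mu (z i) K ≤ ε := by
      rw [hε, le_div_iff₀ hK1]
      linarith
    linarith
  -- (0)
  have hr : ∀ i, r i < σ := by
    intro i
    obtain ⟨m, hm⟩ : ∃ m, i ≠ m := by
      by_cases h : i = j₁
      · exact ⟨j₂, by rw [h]; exact hj⟩
      · exact ⟨j₁, h⟩
    have h1 := F2 i m hm 0 (Nat.zero_le _)
    rw [mu_zero, ka_zero, min_lt_iff] at h1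
    have h2 := le_max_left (s i) (s m)
    rcases h1 with h1 | h1
    · linarith
    · linarith
  have hσ0 : 0 < σ := (hrs j₁).1.trans_lt (hr j₁)
  -- the parameter `w = t³/(16 n)`
  obtain ⟨w, hw⟩ : ∃ w : ℝ, w = t ^ 3 / (16 * n) := ⟨_, rfl⟩
  rw [← hw] at hg
  have ht3 : 0 < t ^ 3 := pow_pos ht 3
  have hw0 : 0 < w := by rw [hw]; positivity
  have hwn : n * w = t ^ 3 / 16 := by rw [hw]; field_simp
  have hw5 : 80 * w ≤ t ^ 3 := by nlinarith
  obtain ⟨Δ, hΔ⟩ : ∃ Δ : ℝ, Δ = t ^ 3 / 16 := ⟨_, rfl⟩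
  have hΔ0 : 0 < Δ := by rw [hΔ]; positivity
  -- the sum of the defects
  have hdel : ∑ i, (σ - r i) ≤ Δ - n * e := by
    rw [sum_sub_distrib, ← hS, sum_const, card_univ, Fintype.card_fin, nsmul_eq_mul]
    have h1 : S = σ + G := by rw [hσ]; ring
    have h2 : σ ≤ t ^ 2 + w - e := by linarith
    have h3 : ((n : ℝ) - 1) * σ ≤ ((n : ℝ) - 1) * (t ^ 2 + w - e) := mul_le_mul_of_nonneg_left h2 (by linarith)
    have h4 : ((n : ℝ) - 1) * (t ^ 2 + w - e) = ((n : ℝ) - 1) * t ^ 2 + (n * w - w) - (n * e - e) := by ring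
    rw [h4, hwn, ← hΔ] at h3
    have h5 : (n : ℝ) * σ - S = ((n : ℝ) - 1) * σ - G := by rw [h1]; ring
    rw [h5]
    linarith
  have hd1 : ∀ i, σ - r i ≤ ∑ i, (σ - r i) := fun i =>
    single_le_sum (f := fun i => σ - r i) (fun i _ => by have := hr i; show 0 ≤ σ - r i; linarith) (mem_univ i)
  have hne : 0 < n * e := by positivity
  have hdi : ∀ i, σ - r i ≤ Δ := fun i => by have := hd1 i; linarith
  have hneΔ : n * e ≤ Δ := by
    have h1 := hr j₁
    have h2 := hd1 j₁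
    linarith
  have he5 : 5 * e ≤ Δ := by nlinarith
  have heT : 80 * e ≤ t ^ 3 := by rw [hΔ] at he5; linarith
  have hεT : ε ≤ t ^ 3 / 8000 := by linarith
  have hσu : σ ≤ t ^ 2 + t ^ 3 / 80 := by
    have : σ ≤ t ^ 2 + w - e := by rw [hσ]; linarith
    linarith
  have hσl : t ^ 2 - t ^ 3 / 320 ≤ σ := by
    have h1 : S < n * σ := by
      have h1 : ∑ t, r t < ∑ _t : Fin n, σ := sum_lt_sum_of_nonempty ⟨j₁, mem_univ _⟩ fun i _ => hr i
      rw [sum_const, card_univ, Fintype.card_fin, nsmul_eq_mul] at h1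
      rw [hS]
      exact h1
    have h2 : ((n : ℝ) - 1) * t ^ 2 - w < ((n : ℝ) - 1) * σ := by
      have : S = σ + G := by rw [hσ]; ring
      linarith
    have h3 : w ≤ ((n : ℝ) - 1) * (t ^ 3 / 320) := by
      nlinarith
    have h4 : ((n : ℝ) - 1) * (t ^ 2 - t ^ 3 / 320) ≤ ((n : ℝ) - 1) * σ := by
      have : ((n : ℝ) - 1) * (t ^ 2 - t ^ 3 / 320) = ((n : ℝ) - 1) * t ^ 2 - ((n : ℝ) - 1) * (t ^ 3 / 320) := by ring
      rw [this]
      linarith
    exact le_of_mul_le_mul_left h4 (by linarith)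
  have ht1 : t ≤ 867 / 1000 := by nlinarith
  have ht3' : t ^ 3 ≤ 867 / 1000 * t ^ 2 := by
    have : t ^ 3 = t * t ^ 2 := by ring
    rw [this]
    exact mul_le_mul_of_nonneg_right ht1 (by positivity)
  have ht3'' : t ^ 3 ≤ 66 / 100 := by linarith
  have htt : 0 < t ^ 2 := by positivity
  have hE0 : E ≤ 1 / 10000 := by linarith
  -- (1)
  let bad : Finset (Fin n) := univ.filter fun i => ∃ k, 2 ≤ k ∧ k ≤ K ∧ σ - r i ≤ z i k
  have hbad : bad.card ≤ 3 := by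
    by_contra hcon
    obtain ⟨B, hB1, hB2⟩ := exists_subset_card_eq (by omega : 4 ≤ bad.card)
    let t : Fin 4 → Fin n := fun a => ((B.equivFin.trans (finCongr hB2)).symm a : Fin n)
    have ht : Function.Injective t := fun a b hab =>
      (B.equivFin.trans (finCongr hB2)).symm.injective (Subtype.ext hab)
    have htb : ∀ a, t a ∈ bad := fun a => hB1 ((B.equivFin.trans (finCongr hB2)).symm a).2
    have hk : ∀ a, ∃ k, 2 ≤ k ∧ k ≤ K ∧ σ - r (t a) ≤ z (t a) k := fun a => (mem_filter.1 (htb a)).2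
    choose k hk1 hk2 hk3 using hk
    have h1 := F4 t k ht fun a => ⟨hk1 a, hk2 a⟩
    have h2 : ∑ _a : Fin 4, σ ≤ ∑ a, (r (t a) + z (t a) (k a)) :=
      sum_le_sum fun a _ => by have := hk3 a; linarith
    rw [sum_const, card_univ, Fintype.card_fin, nsmul_eq_mul] at h2
    push_cast at h2
    linarith
  have hgc : 1 < (univ \ bad).card := by
    have h1 := le_card_sdiff bad (univ : Finset (Fin n))
    rw [card_univ, Fintype.card_fin] at h1
    omega
  obtain ⟨i, hi, m, hm, him⟩ := one_lt_card.1 hgc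
  have hib : i ∉ bad := (mem_sdiff.1 hi).2
  have hmb : m ∉ bad := (mem_sdiff.1 hm).2
  -- (2)
  have hsize : 88 / 100 ≤ s i := by
    by_cases h1 : i = j₁
    · rw [h1]; linarith
    have h0 := hSIZE K (z j₁) (r i) (s i) (r j₁) (s j₁) σ ε hK (hStr j₁) (hrs j₁).1
      ((hrs j₁).2.1.trans (hrs j₁).2.2) ((hrs i).1.trans (hrs i).2.1) (hrs j₁).2.2 (hmu' j₁)
      (fun e he => F2 i j₁ h1 e he) (fun k hk1 hk2 => F3 i j₁ (Or.inl rfl) h1 k hk1 hk2)
    have h2 := hdi i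
    have h3 := hdi j₁
    rcases h0 with h0 | h0
    · by_contra hh
      push Not at hh
      have h4 : 11 / 100 + 99 / 10000 ≤ s j₁ - s i := by linarith
      have h5 : (11 / 100 + 99 / 10000) * (σ - Δ) ≤ (s j₁ - s i) * r j₁ := by
        refine mul_le_mul h4 (by linarith) ?_ (by linarith)
        rw [hΔ]; linarith
      rw [hΔ] at h5 h2
      linarith
    · exfalso
      rw [hΔ] at h2 h3
      linarith
  obtain ⟨M, hM⟩ : ∃ M : ℝ, M = max (s i) (s m) := ⟨_, rfl⟩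
  have hMi : s i ≤ M := by rw [hM]; exact le_max_left _ _
  -- (3)
  have hgood : ∀ i, i ∉ bad → ∀ q, 2 ≤ q → q ≤ K → z i q ≤ Δ := by
    intro i hi q hq1 hq2
    by_contra hh
    push Not at hh
    have := hdi i
    exact hi (mem_filter.2 ⟨mem_univ _, q, hq1, hq2, by linarith⟩)
  obtain ⟨p, hp1, hp2, hp3, hp4, hp5⟩ := hPLP K (z i) (z m) (r i) (r m) (s i) (s m) σ Δ ε hK hΔ0.le hε0
    (hStr i) (hStr m) (hrs i).2.2 (hrs m).2.2
    (fun q hq1 hq2 => ⟨hgood i hib q hq1 hq2, hgood m hmb q hq1 hq2⟩) (hmu' i) (hmu' m)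
    (by have := hdi i; linarith) (by have := hdi m; linarith) (by rw [← hM]; linarith) (by rw [hΔ]; linarith)
    (fun e₁ e₂ h1 h2 => F1 i m him e₁ e₂ h1 h2)
  rw [← hM] at hp3
  exact hNUM p t M σ Δ ε hp1 ht ht2 hΔ hσl hσu hε0 hεT (by linarith) hp3 hp4 hp5

end Pool.Agent.H42.EX.Comb4
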