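import Pool.Agent.H42.EX.Defs

set_option autoImplicit false

/-!
# Project EX: properties of the decomposition
-/

namespace Pool.Agent.H42.EX

open Finset
open Pool.Agent.H328R2.ABC (rad sum_inv_rad)
open Pool.Agent.Q38.NC

theorem bk_pos (k m : ℕ) : 0 < bk k m :=
  Finset.prod_pos fun _ hp => (Nat.prime_of_mem_primeFactors (mem_filter.1 hp).1).pos

theorem cof_pos (D : Finset ℕ) (m : ℕ) : 0 < cof D m :=
  Finset.prod_pos fun _ hp => pow_pos (Nat.prime_of_mem_primeFactors (mem_filter.1 hp).1).pos _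

theorem prod_bk (D : Finset ℕ) (m : ℕ) (f : ℕ → ℕ → ℕ) :
    ∏ k ∈ D, ∏ p ∈ m.primeFactors with m.factorization p = k, f p k =
      ∏ p ∈ m.primeFactors with m.factorization p ∈ D, f p (m.factorization p) := by
  classical
  rw [← Finset.prod_fiberwise_of_maps_to (s := m.primeFactors.filter fun p => m.factorization p ∈ D)
    (t := D) (g := fun p => m.factorization p) (fun p hp => (mem_filter.1 hp).2)]
  refine prod_congr rfl fun k hk => ?_
  rw [filter_filter]
  refine prod_congr ?_ ?_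
  · ext p
    simp only [mem_filter]
    constructor
    · rintro ⟨h1, h2⟩
      exact ⟨h1, by rw [h2]; exact hk, h2⟩
    · rintro ⟨h1, -, h2⟩
      exact ⟨h1, h2⟩
  · intro p hp
    rw [(mem_filter.1 hp).2.2]

theorem cof_mul {m : ℕ} (hm : m ≠ 0) (D : Finset ℕ) : cof D m * ∏ k ∈ D, bk k m ^ k = m := by
  classical
  have h1 : ∏ k ∈ D, bk k m ^ k = ∏ p ∈ m.primeFactors with m.factorization p ∈ D, p ^ m.factorization p := by
    rw [← prod_bk D m fun p k => p ^ k]
    refine prod_congr rfl fun k _ => ?_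
    unfold bk
    rw [Finset.prod_pow]
  rw [h1]
  unfold cof
  rw [mul_comm, Finset.prod_filter_mul_prod_filter_not]
  exact Nat.prod_factorization_pow_eq_self hm

theorem primeFactors_cof (D : Finset ℕ) (m : ℕ) :
    (cof D m).primeFactors = m.primeFactors.filter fun p => m.factorization p ∉ D := by
  ext p
  rw [Nat.mem_primeFactors]
  constructor
  · rintro ⟨hp, hd, -⟩
    unfold cof at hd
    rw [Prime.dvd_finsetProd_iff hp.prime] at hd
    obtain ⟨q, hq, hd⟩ := hd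
    have hq' := Nat.prime_of_mem_primeFactors (mem_filter.1 hq).1
    have := (Nat.prime_dvd_prime_iff_eq hp hq').1 (hp.dvd_of_dvd_pow hd)
    rw [this]
    exact hq
  · intro hp
    have hp' := Nat.prime_of_mem_primeFactors (mem_filter.1 hp).1
    refine ⟨hp', ?_, (cof_pos D m).ne'⟩
    have h1 : p ^ m.factorization p ∣ cof D m := by
      unfold cof
      exact Finset.dvd_prod_of_mem _ hp
    refine dvd_trans (dvd_pow_self p ?_) h1
    have h2 := (mem_filter.1 hp).1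
    rw [← Nat.support_factorization, Finsupp.mem_support_iff] at h2
    exact h2

theorem rad_eq (D : Finset ℕ) (m : ℕ) : rad m = rad (cof D m) * ∏ k ∈ D, bk k m := by
  classical
  have h1 : ∏ k ∈ D, bk k m = ∏ p ∈ m.primeFactors with m.factorization p ∈ D, p := by
    rw [← prod_bk D m fun p _ => p]
    rfl
  rw [h1]
  unfold rad
  rw [primeFactors_cof, mul_comm, Finset.prod_filter_mul_prod_filter_not]

theorem rad_cof_pow (K m : ℕ) : rad (cof (Icc 1 K) m) ^ (K + 1) ≤ cof (Icc 1 K) m := by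
  unfold rad
  rw [primeFactors_cof]
  unfold cof
  rw [← Finset.prod_pow]
  refine Finset.prod_le_prod' fun p hp => ?_
  have hp' := Nat.prime_of_mem_primeFactors (mem_filter.1 hp).1
  refine Nat.pow_le_pow_right hp'.pos ?_
  have h2 := (mem_filter.1 hp).1
  rw [← Nat.support_factorization, Finsupp.mem_support_iff] at h2
  have h3 := (mem_filter.1 hp).2
  rw [mem_Icc] at h3
  omega

/-- The basic inequality between the logarithms. -/
theorem log_rad_le (K : ℕ) {m : ℕ} (hm : m ≠ 0) : ((K : ℝ) + 1) * Real.log (rad m) ≤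
    Real.log m + ∑ k ∈ Icc 1 K, ((K : ℝ) + 1 - k) * Real.log (bk k m) := by
  have hc : (0 : ℝ) < cof (Icc 1 K) m := by exact_mod_cast cof_pos _ m
  have hr : (0 : ℝ) < rad (cof (Icc 1 K) m) := by exact_mod_cast rad_pos _
  have hb : ∀ k, (0 : ℝ) < bk k m := fun k => by exact_mod_cast bk_pos k m
  have h1 : Real.log m = Real.log (cof (Icc 1 K) m) + ∑ k ∈ Icc 1 K, (k : ℝ) * Real.log (bk k m) := by
    have h2 : (m : ℝ) = (cof (Icc 1 K) m : ℝ) * ∏ k ∈ Icc 1 K, (bk k m : ℝ) ^ k := by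
      exact_mod_cast (cof_mul hm (Icc 1 K)).symm
    rw [h2, Real.log_mul hc.ne' (Finset.prod_ne_zero_iff.2 fun k _ => (pow_pos (hb k) k).ne'),
      Real.log_prod fun k _ => (pow_pos (hb k) k).ne']
    congr 1
    refine sum_congr rfl fun k _ => ?_
    rw [Real.log_pow]
  have h2 : Real.log (rad m) = Real.log (rad (cof (Icc 1 K) m)) + ∑ k ∈ Icc 1 K, Real.log (bk k m) := by
    have h3 : (rad m : ℝ) = (rad (cof (Icc 1 K) m) : ℝ) * ∏ k ∈ Icc 1 K, (bk k m : ℝ) := by
      exact_mod_cast rad_eq (Icc 1 K) m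
    rw [h3, Real.log_mul hr.ne' (Finset.prod_ne_zero_iff.2 fun k _ => (hb k).ne'),
      Real.log_prod fun k _ => (hb k).ne']
  have h3 : ((K : ℝ) + 1) * Real.log (rad (cof (Icc 1 K) m)) ≤ Real.log (cof (Icc 1 K) m) := by
    have h4 : ((rad (cof (Icc 1 K) m) : ℝ)) ^ (K + 1) ≤ (cof (Icc 1 K) m : ℝ) := by
      exact_mod_cast rad_cof_pow K m
    have h5 := Real.log_le_log (by positivity) h4
    rw [Real.log_pow] at h5
    push_cast at h5
    exact h5
  have h4 : ∑ k ∈ Icc 1 K, ((K : ℝ) + 1 - k) * Real.log (bk k m) =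
      ((K : ℝ) + 1) * ∑ k ∈ Icc 1 K, Real.log (bk k m) - ∑ k ∈ Icc 1 K, (k : ℝ) * Real.log (bk k m) := by
    rw [mul_sum, ← sum_sub_distrib]
    refine sum_congr rfl fun k _ => ?_
    ring
  rw [h4, h1, h2]
  linarith

theorem bk_le_rad (k m : ℕ) : bk k m ≤ rad m := by
  have h := rad_eq {k} m
  rw [prod_singleton] at h
  rw [h]
  exact Nat.le_mul_of_pos_left _ (rad_pos _)

theorem bk_le {k m : ℕ} (hm : m ≠ 0) : bk k m ≤ m := (bk_le_rad k m).trans (rad_le hm)

theorem cof_le {m : ℕ} (hm : m ≠ 0) (D : Finset ℕ) : cof D m ≤ m := by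
  have h := cof_mul hm D
  calc cof D m ≤ cof D m * ∏ k ∈ D, bk k m ^ k :=
        Nat.le_mul_of_pos_right _ (Finset.prod_pos fun k _ => pow_pos (bk_pos k m) k)
    _ = m := h

/-! ### The code -/

variable {n : ℕ}

theorem codeD_natAbs (D : Fin n → Finset ℕ) {x : Fin n → ℤ} {t : Fin n} (h : x t ≠ 0) :
    (codeD D x t).natAbs = cof (D t) (x t).natAbs := by
  unfold codeD
  rw [Int.natAbs_mul, Int.natAbs_natCast, Int.natAbs_sign_of_ne_zero h, one_mul]

theorem codeD_mul (D : Fin n → Finset ℕ) {x : Fin n → ℤ} {t : Fin n} (h : x t ≠ 0) :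
    x t = codeD D x t * ∏ k ∈ D t, (bk k (x t).natAbs : ℤ) ^ k := by
  have h1 := cof_mul (Int.natAbs_ne_zero.2 h) (D t)
  have h2 : ((cof (D t) (x t).natAbs : ℤ)) * ∏ k ∈ D t, (bk k (x t).natAbs : ℤ) ^ k = ((x t).natAbs : ℤ) := by
    exact_mod_cast h1
  unfold codeD
  rw [mul_assoc, h2, Int.sign_mul_natAbs]

theorem codeD_empty (D : Fin n → Finset ℕ) {x : Fin n → ℤ} {t : Fin n} (h : x t ≠ 0) (hD : D t = ∅) :
    codeD D x t = x t := by
  have := codeD_mul D h
  rw [hD, prod_empty, mul_one] at this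
  exact this.symm

theorem PR_codeD (D : Fin n → Finset ℕ) {x : Fin n → ℤ} (h : ∀ t, x t ≠ 0) :
    PR x = PR (codeD D x) * ∏ t, ∏ k ∈ D t, (bk k (x t).natAbs : ℝ) := by
  unfold PR
  rw [← prod_mul_distrib]
  refine prod_congr rfl fun t _ => ?_
  rw [codeD_natAbs D (h t)]
  exact_mod_cast rad_eq (D t) (x t).natAbs

theorem PR_codeD' (D : Fin n → Finset ℕ) (S : Finset (Fin n)) (hS : ∀ t, t ∉ S → D t = ∅) {x : Fin n → ℤ}
    (h : ∀ t, x t ≠ 0) : PR x = PR (codeD D x) * ∏ t ∈ S, ∏ k ∈ D t, (bk k (x t).natAbs : ℝ) := by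
  rw [PR_codeD D h]
  congr 1
  symm
  refine Finset.prod_subset (subset_univ S) fun t _ ht => ?_
  rw [hS t ht, prod_empty]

theorem codeD_agree (D : Fin n → Finset ℕ) {x y : Fin n → ℤ} (hx : ∀ t, x t ≠ 0) (hy : ∀ t, y t ≠ 0)
    (h : codeD D x = codeD D y) {t : Fin n} (ht : D t = ∅) : x t = y t := by
  rw [← codeD_empty D (hx t) ht, ← codeD_empty D (hy t) ht, h]

/-- The bound for a set of tuples from the bound for the fibres of a code. -/
theorem cellD (D : Fin n → Finset ℕ) {H : ℕ} {B : ℝ} (hB : 0 ≤ B) (G : Finset (Fin n → ℤ))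
    (hG : ∀ x ∈ G, (∀ i, x i ≠ 0) ∧ ∀ i, (x i).natAbs ≤ H)
    (hF : ∀ x ∈ G, ((G.filter fun y => codeD D y = codeD D x).card : ℝ) * PR (codeD D x) ≤ B) :
    (G.card : ℝ) ≤ B * SS H ^ n := by
  classical
  obtain ⟨T, hT⟩ : ∃ T, T = G.image (codeD D) := ⟨_, rfl⟩
  have h1 : (G.card : ℝ) = ∑ z ∈ T, ((G.filter fun x => codeD D x = z).card : ℝ) := by
    have := Finset.card_eq_sum_card_image (codeD D) G
    rw [hT]
    exact_mod_cast this
  have h2 : ∀ z ∈ T, ((G.filter fun x => codeD D x = z).card : ℝ) ≤ B * (1 / PR z) := by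
    intro z hz
    rw [hT] at hz
    obtain ⟨x, hx, rfl⟩ := mem_image.1 hz
    rw [mul_one_div, le_div_iff₀ (PR_pos _)]
    exact hF x hx
  rw [h1]
  refine (sum_le_sum h2).trans ?_
  rw [← mul_sum, ← sum_pi]
  refine mul_le_mul_of_nonneg_left ?_ hB
  refine sum_le_sum_of_subset_of_nonneg ?_ fun z _ _ => by
    have := PR_pos z
    positivity
  intro z hz
  rw [hT] at hz
  obtain ⟨x, hx, rfl⟩ := mem_image.1 hz
  obtain ⟨k1, k2⟩ := hG x hx
  rw [Fintype.mem_piFinset]
  intro t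
  rw [mem_ZZ, ← Int.natAbs_ne_zero, codeD_natAbs D (k1 t)]
  exact ⟨(cof_pos _ _).ne', (cof_le (Int.natAbs_ne_zero.2 (k1 t)) _).trans (k2 t)⟩

end Pool.Agent.H42.EX
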