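import Pool.Agent.H42.EX.Lib.Cnt

set_option autoImplicit false

/-!
# Project EX: the decomposition of an integer by the exponents of its primes
-/

namespace Pool.Agent.H42.EX

open Finset
open Pool.Agent.H328R2.ABC (rad)
open Pool.Agent.Q38.NC

/-- The product of the primes which divide `m` exactly `k` times. -/
def bk (k m : ℕ) : ℕ := ∏ p ∈ m.primeFactors with m.factorization p = k, p

/-- The part of `m` with the primes whose exponent is not in `D`. -/
def cof (D : Finset ℕ) (m : ℕ) : ℕ := ∏ p ∈ m.primeFactors with m.factorization p ∉ D, p ^ m.factorization p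

/-- The code of a tuple: the parts of the coordinates with exponents outside `D t`, with sign. -/
def codeD {n : ℕ} (D : Fin n → Finset ℕ) (x : Fin n → ℤ) : Fin n → ℤ :=
  fun t => (x t).sign * (cof (D t) (x t).natAbs : ℤ)

end Pool.Agent.H42.EX
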