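import Mathlib

set_option autoImplicit false

/-!
# The divisor bound (copied from the library, `R_pool_sql_team_3845a38e/H12/DivisorBound.lean`)
-/

namespace Pool.Agent.H42.EX

/-- the divisor bound: `τ(n) ≤ C n^δ` -/
theorem card_divisors_le_rpow (δ : ℝ) (hδ : 0 < δ) :
    ∃ C : ℝ, 1 ≤ C ∧ ∀ n : ℕ, n ≠ 0 → (n.divisors.card : ℝ) ≤ C * (n : ℝ) ^ δ := by
  have hlog : 0 < Real.log 2 := Real.log_pos (by norm_num)
  set c : ℝ := 1 + 1 / (δ * Real.log 2) with hc
  have hc1 : 1 ≤ c := by
    rw [hc]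
    have : 0 < 1 / (δ * Real.log 2) := by positivity
    linarith
  obtain ⟨M, hM⟩ := exists_nat_ge ((2 : ℝ) ^ (1 / δ))
  have hMδ : ∀ p : ℕ, M ≤ p → (2 : ℝ) ≤ (p : ℝ) ^ δ := by
    intro p hp
    have h1 : (2 : ℝ) ^ (1 / δ) ≤ p := hM.trans (by exact_mod_cast hp)
    calc (2 : ℝ) = ((2 : ℝ) ^ (1 / δ)) ^ δ := by
          rw [← Real.rpow_mul (by norm_num), one_div_mul_cancel hδ.ne', Real.rpow_one]
      _ ≤ (p : ℝ) ^ δ := Real.rpow_le_rpow (by positivity) h1 hδ.le
  have hbig : ∀ p k : ℕ, M ≤ p → ((k + 1 : ℕ) : ℝ) ≤ ((p : ℝ) ^ k) ^ δ := by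
    intro p k hp
    have h1 := hMδ p hp
    have h2 : ((p : ℝ) ^ k) ^ δ = ((p : ℝ) ^ δ) ^ k := by
      rw [← Real.rpow_natCast, ← Real.rpow_mul (by positivity), mul_comm, Real.rpow_mul (by positivity),
        Real.rpow_natCast]
    rw [h2]
    calc ((k + 1 : ℕ) : ℝ) ≤ (2 : ℝ) ^ k := by
          have : k + 1 ≤ 2 ^ k := Nat.lt_two_pow_self
          exact_mod_cast this
      _ ≤ ((p : ℝ) ^ δ) ^ k := pow_le_pow_left₀ (by norm_num) h1 k
  have hsmall : ∀ p k : ℕ, 2 ≤ p → ((k + 1 : ℕ) : ℝ) ≤ c * ((p : ℝ) ^ k) ^ δ := by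
    intro p k hp
    have h2 : ((p : ℝ) ^ k) ^ δ ≥ 1 + k * (δ * Real.log 2) := by
      have h3 : ((2 : ℝ) ^ k) ^ δ ≤ ((p : ℝ) ^ k) ^ δ := by
        apply Real.rpow_le_rpow (by positivity) _ hδ.le
        apply pow_le_pow_left₀ (by norm_num)
        exact_mod_cast hp
      have h4 : ((2 : ℝ) ^ k) ^ δ = Real.exp (k * (δ * Real.log 2)) := by
        rw [Real.rpow_def_of_pos (by positivity), Real.log_pow]
        ring_nf
      rw [h4] at h3
      have h5 := Real.add_one_le_exp ((k : ℝ) * (δ * Real.log 2))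
      linarith
    have h3 : c * (1 + k * (δ * Real.log 2)) = 1 + 1 / (δ * Real.log 2) + k * (δ * Real.log 2) + k := by
      rw [hc]
      field_simp
      ring
    have h4 : ((k + 1 : ℕ) : ℝ) ≤ c * (1 + k * (δ * Real.log 2)) := by
      rw [h3]
      push_cast
      have : 0 < 1 / (δ * Real.log 2) := by positivity
      have : 0 ≤ k * (δ * Real.log 2) := by positivity
      linarith
    refine h4.trans ?_
    apply mul_le_mul_of_nonneg_left h2
    linarith
  refine ⟨c ^ M, one_le_pow₀ hc1, ?_⟩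
  intro n hn
  rw [Nat.card_divisors hn]
  push_cast
  have h1 : ∏ p ∈ n.primeFactors, ((n.factorization p : ℝ) + 1) ≤
      ∏ p ∈ n.primeFactors, ((if p < M then c else 1) * ((p : ℝ) ^ n.factorization p) ^ δ) := by
    apply Finset.prod_le_prod
    · intro p _
      positivity
    · intro p hp
      have hp2 : 2 ≤ p := (Nat.prime_of_mem_primeFactors hp).two_le
      split_ifs with h
      · have := hsmall p (n.factorization p) hp2
        push_cast at this
        exact this
      · have := hbig p (n.factorization p) (by omega)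
        push_cast at this
        rw [one_mul]
        exact this
  refine h1.trans ?_
  rw [Finset.prod_mul_distrib]
  have h2 : ∏ p ∈ n.primeFactors, ((p : ℝ) ^ n.factorization p) ^ δ = (n : ℝ) ^ δ := by
    rw [Real.finsetProd_rpow _ _ (fun p _ => by positivity)]
    congr 1
    conv_rhs => rw [← Nat.prod_factorization_pow_eq_self hn]
    rw [Finsupp.prod, Nat.support_factorization]
    push_cast
    rfl
  rw [h2]
  apply mul_le_mul_of_nonneg_right _ (by positivity)
  rw [Finset.prod_ite, Finset.prod_const, Finset.prod_const_one, mul_one]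
  apply pow_le_pow_right₀ hc1
  calc (n.primeFactors.filter (fun p => p < M)).card ≤ (Finset.range M).card := by
        apply Finset.card_le_card
        intro p hp
        rw [Finset.mem_filter] at hp
        exact Finset.mem_range.2 hp.2
    _ = M := Finset.card_range M

end Pool.Agent.H42.EX
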