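import Pool.Agent.H42.EX.Stm4
import Pool.Agent.H42.EX.Dec
import Pool.Agent.H42.EX.Div

set_option autoImplicit false

/-!
# Project EX3: `S_EN`, the additive energy of a set of integers with small radical and a large power part
-/

namespace Pool.Agent.H42.EX.En

open Finset
open Pool.Agent.H328R2.ABC (rad)
open Pool.Agent.Q38.NC

/-! ### Counting pairs -/

theorem card_pairs {α β γ : Type*} [DecidableEq γ] (P : Finset α) (Q : Finset β) (T : Finset γ) (f : α → γ)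
    (g : β → γ) (hf : ∀ p ∈ P, f p ∈ T) :
    ((P ×ˢ Q).filter fun q => f q.1 = g q.2).card =
      ∑ v ∈ T, (P.filter fun p => f p = v).card * (Q.filter fun p => g p = v).card := by
  classical
  rw [Finset.card_eq_sum_card_fiberwise (f := fun q : α × β => f q.1) (t := T)]
  · refine sum_congr rfl fun v _ => ?_
    rw [← card_product]
    congr 1
    ext q
    simp only [mem_filter, mem_product]
    constructor
    · rintro ⟨⟨⟨h1, h2⟩, h3⟩, h4⟩
      exact ⟨⟨h1, h4⟩, h2, by rw [← h3, h4]⟩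
    · rintro ⟨⟨h1, h2⟩, h3, h4⟩
      exact ⟨⟨⟨h1, h3⟩, by rw [h2, h4]⟩, h2⟩
  · intro q hq
    have := (mem_product.1 (mem_filter.1 (mem_coe.1 hq)).1).1
    exact hf _ this

/-- Cauchy–Schwarz: separating the classes of `g`. -/
theorem card_le_classes {α β γ : Type*} [DecidableEq β] [DecidableEq γ] (P : Finset α) (W : Finset γ) (f : α → β)
    (g : α → γ) (hg : ∀ p ∈ P, g p ∈ W) :
    ((P ×ˢ P).filter fun q => f q.1 = f q.2).card ≤
      W.card * ((P ×ˢ P).filter fun q => f q.1 = f q.2 ∧ g q.1 = g q.2).card := by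
  classical
  have h1 := card_pairs P P (P.image f) f f fun p hp => mem_image_of_mem f hp
  have h2 := card_pairs P P (P.image f ×ˢ W) (fun p => (f p, g p)) (fun p => (f p, g p)) fun p hp =>
    mem_product.2 ⟨mem_image_of_mem f hp, hg p hp⟩
  have h3 : ((P ×ˢ P).filter fun q => f q.1 = f q.2 ∧ g q.1 = g q.2) =
      (P ×ˢ P).filter fun q => (f q.1, g q.1) = (f q.2, g q.2) := by
    refine filter_congr fun q _ => ?_
    rw [Prod.mk.injEq]
  rw [h3, h1, h2, sum_product, mul_sum]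
  refine sum_le_sum fun v _ => ?_
  have h4 : (P.filter fun p => f p = v).card = ∑ w ∈ W, (P.filter fun p => (f p, g p) = (v, w)).card := by
    rw [Finset.card_eq_sum_card_fiberwise (f := g) (t := W)]
    · refine sum_congr rfl fun w _ => ?_
      rw [filter_filter]
      congr 1
      refine filter_congr fun p _ => ?_
      rw [Prod.mk.injEq]
    · intro p hp
      exact hg p (mem_filter.1 (mem_coe.1 hp)).1
  have h5 := sq_sum_le_card_mul_sum_sq (s := W) (f := fun w => (P.filter fun p => (f p, g p) = (v, w)).card)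
  rw [← h4] at h5
  simpa only [sq, Nat.cast_id] using h5

/-- Cauchy–Schwarz for two families. -/
theorem card_pairs_sq {α β γ : Type*} [DecidableEq γ] (P : Finset α) (Q : Finset β) (f : α → γ) (g : β → γ) :
    ((P ×ˢ Q).filter fun q => f q.1 = g q.2).card ^ 2 ≤
      ((P ×ˢ P).filter fun q => f q.1 = f q.2).card * ((Q ×ˢ Q).filter fun q => g q.1 = g q.2).card := by
  classical
  have h1 := card_pairs P Q (P.image f ∪ Q.image g) f g fun p hp =>
    mem_union_left _ (mem_image_of_mem f hp)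
  have h2 := card_pairs P P (P.image f ∪ Q.image g) f f fun p hp =>
    mem_union_left _ (mem_image_of_mem f hp)
  have h3 := card_pairs Q Q (P.image f ∪ Q.image g) g g fun p hp =>
    mem_union_right _ (mem_image_of_mem g hp)
  rw [h1, h2, h3]
  have := Finset.sum_mul_sq_le_sq_mul_sq (P.image f ∪ Q.image g)
    (fun v => (P.filter fun p => f p = v).card) (fun v => (Q.filter fun p => g p = v).card)
  simpa only [sq] using this

/-! ### Integers with small radical -/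

theorem card_rad_le {H : ℕ} {ρ : ℝ} (hρ : 0 ≤ ρ) (T : Finset ℤ)
    (hT : ∀ x ∈ T, x ≠ 0 ∧ x.natAbs ≤ H ∧ (rad x.natAbs : ℝ) ≤ ρ) : (T.card : ℝ) ≤ ρ * SS H := by
  calc (T.card : ℝ) = ∑ z ∈ T, (1 : ℝ) := by simp
    _ ≤ ∑ z ∈ T, ρ * (1 / (rad z.natAbs : ℝ)) := by
        refine sum_le_sum fun z hz => ?_
        have h0 : (0 : ℝ) < rad z.natAbs := by exact_mod_cast rad_pos _
        rw [mul_one_div, le_div_iff₀ h0, one_mul]
        exact (hT z hz).2.2
    _ ≤ ∑ z ∈ ZZ H, ρ * (1 / (rad z.natAbs : ℝ)) := by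
        refine sum_le_sum_of_subset_of_nonneg ?_ fun z _ _ => by positivity
        intro z hz
        exact mem_ZZ.2 ⟨(hT z hz).1, (hT z hz).2.1⟩
    _ = ρ * SS H := by rw [← mul_sum]; rfl

/-! ### Differences of powers -/

theorem pow_diff_lt {k : ℕ} (hk : 2 ≤ k) {a b c d : ℤ} (ha : 0 ≤ a) (hb : 0 ≤ b) (h : a - b = c - d)
    (h0 : a - b ≠ 0) (hp : a ^ k - b ^ k = c ^ k - d ^ k) (hlt : a < c) : False := by
  have hbd : b < d := by omega
  rw [← geom_sum₂_mul a b k, ← geom_sum₂_mul c d k, ← h] at hp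
  have h1 := mul_right_cancel₀ h0 hp
  refine absurd h1 (ne_of_lt ?_)
  refine sum_lt_sum (fun i _ => ?_) ⟨k - 1, mem_range.2 (by omega), ?_⟩
  · exact mul_le_mul (pow_le_pow_left₀ ha hlt.le _) (pow_le_pow_left₀ hb hbd.le _) (pow_nonneg hb _)
      (pow_nonneg (by omega) _)
  · rw [Nat.sub_self, pow_zero, pow_zero, mul_one, mul_one]
    exact pow_lt_pow_left₀ hlt ha (by omega)

theorem pow_diff_inj {k : ℕ} (hk : 2 ≤ k) {a b c d : ℤ} (ha : 0 ≤ a) (hb : 0 ≤ b) (hc : 0 ≤ c) (hd : 0 ≤ d)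
    (h : a - b = c - d) (h0 : a - b ≠ 0) (hp : a ^ k - b ^ k = c ^ k - d ^ k) : a = c := by
  rcases lt_trichotomy a c with hlt | heq | hgt
  · exact (pow_diff_lt hk ha hb h h0 hp hlt).elim
  · exact heq
  · exact (pow_diff_lt hk hc hd h.symm (by rw [← h]; exact h0) hp.symm hgt).elim

/-- The divisors of an integer. -/
def DD (N : ℤ) : Finset ℤ := N.natAbs.divisors.image (fun d : ℕ => (d : ℤ)) ∪ N.natAbs.divisors.image fun d : ℕ => -(d : ℤ)

theorem card_DD (N : ℤ) : (DD N).card ≤ 2 * N.natAbs.divisors.card := by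
  unfold DD
  refine (card_union_le _ _).trans ?_
  have h1 := card_image_le (s := N.natAbs.divisors) (f := fun d : ℕ => (d : ℤ))
  have h2 := card_image_le (s := N.natAbs.divisors) (f := fun d : ℕ => -(d : ℤ))
  omega

theorem mem_DD {N z : ℤ} (hN : N ≠ 0) (h : z ∣ N) : z ∈ DD N := by
  have h1 : z.natAbs ∈ N.natAbs.divisors :=
    Nat.mem_divisors.2 ⟨Int.natAbs_dvd_natAbs.2 h, Int.natAbs_ne_zero.2 hN⟩
  unfold DD
  rcases Int.natAbs_eq z with h2 | h2
  · exact mem_union_left _ (mem_image.2 ⟨_, h1, h2.symm⟩)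
  · exact mem_union_right _ (mem_image.2 ⟨_, h1, h2.symm⟩)

theorem card_diff {k : ℕ} (hk : 2 ≤ k) (S : Finset ℤ) (w y : ℤ → ℤ) (hS : ∀ x ∈ S, x = w x * y x ^ k ∧ 0 ≤ y x)
    {N : ℤ} (hN : N ≠ 0) :
    ((S ×ˢ S).filter fun q => q.1 - q.2 = N ∧ w q.1 = w q.2).card ≤ (2 * N.natAbs.divisors.card) ^ 2 := by
  classical
  have key : ∀ q ∈ ((S ×ˢ S).filter fun q => q.1 - q.2 = N ∧ w q.1 = w q.2),
      w q.1 * (y q.1 ^ k - y q.2 ^ k) = N := by
    intro q hq
    obtain ⟨h1, h2, h3⟩ := mem_filter.1 hq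
    obtain ⟨h4, h5⟩ := mem_product.1 h1
    have h6 := (hS _ h4).1
    have h7 := (hS _ h5).1
    rw [mul_sub]
    nth_rewrite 2 [h3]
    rw [← h6, ← h7, h2]
  have h1 : ((S ×ˢ S).filter fun q => q.1 - q.2 = N ∧ w q.1 = w q.2).card ≤ (DD N ×ˢ DD N).card := by
    refine Finset.card_le_card_of_injOn (fun q => (w q.1, y q.1 - y q.2)) ?_ ?_
    · intro q hq
      have h2 := key q hq
      refine mem_coe.2 (mem_product.2 ⟨mem_DD hN (Dvd.intro _ h2), mem_DD hN ?_⟩)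
      rw [← h2]
      exact Dvd.dvd.mul_left (sub_dvd_pow_sub_pow _ _ _) _
    · intro q hq q' hq' heq
      have e1 := key q hq
      have e2 := key q' hq'
      rw [Prod.mk.injEq] at heq
      obtain ⟨i1, i2⟩ := heq
      obtain ⟨h1, h2, h3⟩ := mem_filter.1 (mem_coe.1 hq)
      obtain ⟨h1', h2', h3'⟩ := mem_filter.1 (mem_coe.1 hq')
      obtain ⟨h4, h5⟩ := mem_product.1 h1
      obtain ⟨h4', h5'⟩ := mem_product.1 h1'
      have hw : w q.1 ≠ 0 := by
        intro h0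
        rw [h0, zero_mul] at e1
        exact hN e1.symm
      have hp : y q.1 ^ k - y q.2 ^ k = y q'.1 ^ k - y q'.2 ^ k := by
        rw [← i1, ← e1] at e2
        exact (mul_left_cancel₀ hw e2).symm
      have h0 : y q.1 - y q.2 ≠ 0 := by
        intro h0
        rw [sub_eq_zero.1 h0, sub_self, mul_zero] at e1
        exact hN e1.symm
      have hy := pow_diff_inj hk (hS _ h4).2 (hS _ h5).2 (hS _ h4').2 (hS _ h5').2 i2 h0 hp
      have hy' : y q.2 = y q'.2 := by omega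
      have hq1 : q.1 = q'.1 := by rw [(hS _ h4).1, (hS _ h4').1, i1, hy]
      have hq2 : q.2 = q'.2 := by rw [(hS _ h5).1, (hS _ h5').1, ← h3, ← h3', i1, hy']
      exact Prod.ext hq1 hq2
  refine h1.trans ?_
  rw [card_product, sq]
  exact Nat.mul_le_mul (card_DD N) (card_DD N)

/-- Quadruples two of whose entries are in the same class. -/
theorem card_quad {k : ℕ} (hk : 2 ≤ k) (S : Finset ℤ) (w y : ℤ → ℤ) (hS : ∀ x ∈ S, x = w x * y x ^ k ∧ 0 ≤ y x)
    {B : ℝ} (hB0 : 0 ≤ B)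
    (hB : ∀ a ∈ S, ∀ b ∈ S, a ≠ b → ((2 * (b - a).natAbs.divisors.card : ℕ) : ℝ) ^ 2 ≤ B) :
    ((((S ×ˢ S) ×ˢ (S ×ˢ S)).filter fun q => q.1.1 + q.1.2 = q.2.1 + q.2.2 ∧ w q.1.2 = w q.2.2).card : ℝ) ≤
      (S.card : ℝ) ^ 2 * (1 + B) := by
  classical
  rw [Finset.card_eq_sum_card_fiberwise (f := fun q : (ℤ × ℤ) × (ℤ × ℤ) => (q.1.1, q.2.1)) (t := S ×ˢ S)]
  swap
  · intro q hq
    obtain ⟨h1, -⟩ := mem_filter.1 (mem_coe.1 hq)
    obtain ⟨h2, h3⟩ := mem_product.1 h1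
    exact mem_coe.2 (mem_product.2 ⟨(mem_product.1 h2).1, (mem_product.1 h3).1⟩)
  rw [Nat.cast_sum]
  have h1 : ∀ p ∈ S ×ˢ S, (((((S ×ˢ S) ×ˢ (S ×ˢ S)).filter fun q =>
      q.1.1 + q.1.2 = q.2.1 + q.2.2 ∧ w q.1.2 = w q.2.2).filter fun q => (q.1.1, q.2.1) = p).card : ℝ) ≤
      (if p.1 = p.2 then (S.card : ℝ) else 0) + B := by
    intro p hp
    obtain ⟨hp1, hp2⟩ := mem_product.1 hp
    have h2 : ((((S ×ˢ S) ×ˢ (S ×ˢ S)).filter fun q =>
        q.1.1 + q.1.2 = q.2.1 + q.2.2 ∧ w q.1.2 = w q.2.2).filter fun q => (q.1.1, q.2.1) = p).card ≤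
        ((S ×ˢ S).filter fun q => q.1 - q.2 = p.2 - p.1 ∧ w q.1 = w q.2).card := by
      refine Finset.card_le_card_of_injOn (fun q => (q.1.2, q.2.2)) ?_ ?_
      · intro q hq
        obtain ⟨h1, h2⟩ := mem_filter.1 (mem_coe.1 hq)
        obtain ⟨h3, h4, h5⟩ := mem_filter.1 h1
        obtain ⟨h6, h7⟩ := mem_product.1 h3
        refine mem_coe.2 (mem_filter.2 ⟨mem_product.2 ⟨(mem_product.1 h6).2, (mem_product.1 h7).2⟩, ?_, h5⟩)
        rw [← h2]
        show q.1.2 - q.2.2 = q.2.1 - q.1.1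
        omega
      · intro q hq q' hq' heq
        obtain ⟨-, h2⟩ := mem_filter.1 (mem_coe.1 hq)
        obtain ⟨-, h2'⟩ := mem_filter.1 (mem_coe.1 hq')
        rw [Prod.mk.injEq] at heq
        rw [← h2'] at h2
        rw [Prod.mk.injEq] at h2
        exact Prod.ext (Prod.ext h2.1 heq.1) (Prod.ext h2.2 heq.2)
    by_cases hpp : p.1 = p.2
    · rw [if_pos hpp]
      have h3 : ((S ×ˢ S).filter fun q => q.1 - q.2 = p.2 - p.1 ∧ w q.1 = w q.2).card ≤ S.card := by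
        refine Finset.card_le_card_of_injOn Prod.fst ?_ ?_
        · intro q hq
          exact (mem_product.1 (mem_filter.1 (mem_coe.1 hq)).1).1
        · intro q hq q' hq' heq
          have e1 := (mem_filter.1 (mem_coe.1 hq)).2.1
          have e2 := (mem_filter.1 (mem_coe.1 hq')).2.1
          rw [hpp, sub_self] at e1 e2
          refine Prod.ext heq ?_
          have : q.1 = q'.1 := heq
          omega
      have h4 : ((((((S ×ˢ S) ×ˢ (S ×ˢ S)).filter fun q =>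
          q.1.1 + q.1.2 = q.2.1 + q.2.2 ∧ w q.1.2 = w q.2.2).filter fun q => (q.1.1, q.2.1) = p).card : ℕ) : ℝ) ≤
          (S.card : ℝ) := by exact_mod_cast h2.trans h3
      linarith
    · rw [if_neg hpp, zero_add]
      have hN : p.2 - p.1 ≠ 0 := fun h => hpp (by omega)
      have h3 := h2.trans (card_diff hk S w y hS hN)
      have h4 : ((((((S ×ˢ S) ×ˢ (S ×ˢ S)).filter fun q =>
          q.1.1 + q.1.2 = q.2.1 + q.2.2 ∧ w q.1.2 = w q.2.2).filter fun q => (q.1.1, q.2.1) = p).card : ℕ) : ℝ) ≤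
          (((2 * (p.2 - p.1).natAbs.divisors.card) ^ 2 : ℕ) : ℝ) := by exact_mod_cast h3
      refine h4.trans ?_
      rw [Nat.cast_pow]
      exact hB _ hp1 _ hp2 hpp
  refine (sum_le_sum h1).trans ?_
  rw [sum_add_distrib, sum_product, sum_const, card_product, nsmul_eq_mul]
  have h2 : ∑ x ∈ S, ∑ z ∈ S, (if x = z then (S.card : ℝ) else 0) = (S.card : ℝ) ^ 2 := by
    have : ∀ x ∈ S, ∑ z ∈ S, (if x = z then (S.card : ℝ) else 0) = (S.card : ℝ) := by
      intro x hx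
      rw [sum_ite_eq, if_pos hx]
    rw [sum_congr rfl this, sum_const, nsmul_eq_mul, sq]
  rw [h2]
  push_cast
  nlinarith

theorem main : S_EN := by
  intro k hk η hη
  obtain ⟨C1, hC1, hSS⟩ := SS_le (η / 6) (by positivity)
  obtain ⟨C2, hC2, hdiv⟩ := card_divisors_le_rpow (η / 4) (by positivity)
  obtain ⟨C3, hC3⟩ : ∃ C3 : ℝ, C3 = 4 * C2 ^ 2 * (2 : ℝ) ^ (η / 2) := ⟨_, rfl⟩
  have hC30 : 0 ≤ C3 := by rw [hC3]; positivity
  refine ⟨C1 ^ 3 * (1 + C3), one_le_mul_of_one_le_of_one_le (one_le_pow₀ hC1) (by linarith), ?_⟩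
  intro H r Z hH hr hZ S hS
  classical
  have hH0 : (0 : ℝ) < H := by exact_mod_cast hH
  have hH1 : (1 : ℝ) ≤ H := by exact_mod_cast hH
  have hZ0 : 0 < Z := by linarith
  have hSS0 : 0 ≤ SS H := sum_nonneg fun _ _ => by positivity
  have hSSH := hSS H hH
  -- the decomposition
  obtain ⟨w, hw⟩ : ∃ w : ℤ → ℤ, w = fun x => x.sign * (cof {k} x.natAbs : ℤ) := ⟨_, rfl⟩
  obtain ⟨y, hy⟩ : ∃ y : ℤ → ℤ, y = fun x => (bk k x.natAbs : ℤ) := ⟨_, rfl⟩
  have hdec : ∀ x ∈ S, x = w x * y x ^ k ∧ 0 ≤ y x := by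
    intro x hx
    have h0 := (hS x hx).1
    have h1 := cof_mul (Int.natAbs_ne_zero.2 h0) {k}
    rw [prod_singleton] at h1
    have h2 : ((cof {k} x.natAbs : ℤ)) * (bk k x.natAbs : ℤ) ^ k = (x.natAbs : ℤ) := by exact_mod_cast h1
    refine ⟨?_, by rw [hy]; positivity⟩
    rw [hw, hy]
    simp only
    rw [mul_assoc, h2, Int.sign_mul_natAbs]
  have hwr : ∀ z ∈ S.image w, z ≠ 0 ∧ z.natAbs ≤ H ∧ (rad z.natAbs : ℝ) ≤ r / Z := by
    intro z hz
    obtain ⟨x, hx, rfl⟩ := mem_image.1 hz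
    obtain ⟨h0, h1, h2, h3⟩ := hS x hx
    have hab : (w x).natAbs = cof {k} x.natAbs := by
      rw [hw]
      simp only
      rw [Int.natAbs_mul, Int.natAbs_natCast, Int.natAbs_sign_of_ne_zero h0, one_mul]
    refine ⟨?_, ?_, ?_⟩
    · rw [← Int.natAbs_ne_zero, hab]
      exact (cof_pos _ _).ne'
    · rw [hab]
      exact (cof_le (Int.natAbs_ne_zero.2 h0) _).trans h1
    · rw [hab, le_div_iff₀ hZ0]
      have h4 := rad_eq {k} x.natAbs
      rw [prod_singleton] at h4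
      have h5 : (rad x.natAbs : ℝ) = (rad (cof {k} x.natAbs) : ℝ) * (bk k x.natAbs : ℝ) := by exact_mod_cast h4
      calc (rad (cof {k} x.natAbs) : ℝ) * Z ≤ (rad (cof {k} x.natAbs) : ℝ) * (bk k x.natAbs : ℝ) :=
            mul_le_mul_of_nonneg_left h3 (Nat.cast_nonneg _)
        _ ≤ r := by rw [← h5]; exact h2
  have hWc := card_rad_le (by positivity) (S.image w) hwr
  have hSc := card_rad_le (by linarith) S fun x hx => ⟨(hS x hx).1, (hS x hx).2.1, (hS x hx).2.2.1⟩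
  have hB : ∀ a ∈ S, ∀ b ∈ S, a ≠ b → ((2 * (b - a).natAbs.divisors.card : ℕ) : ℝ) ^ 2 ≤ C3 * (H : ℝ) ^ (η / 2) := by
    intro a ha b hb hab
    have h1 := hdiv (b - a).natAbs (Int.natAbs_ne_zero.2 (by omega))
    have h2 : (((b - a).natAbs : ℕ) : ℝ) ≤ 2 * H := by
      have h3 := (hS a ha).2.1
      have h4 := (hS b hb).2.1
      have : (b - a).natAbs ≤ 2 * H := by omega
      exact_mod_cast this
    have h3 : (((b - a).natAbs : ℕ) : ℝ) ^ (η / 4) ≤ (2 * H) ^ (η / 4) :=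
      Real.rpow_le_rpow (Nat.cast_nonneg _) h2 (by positivity)
    have h4 : (((b - a).natAbs.divisors.card : ℕ) : ℝ) ≤ C2 * (2 * H) ^ (η / 4) :=
      h1.trans (mul_le_mul_of_nonneg_left h3 (by linarith))
    push_cast
    calc (2 * ((b - a).natAbs.divisors.card : ℝ)) ^ 2 ≤ (2 * (C2 * (2 * H) ^ (η / 4))) ^ 2 :=
          pow_le_pow_left₀ (mul_nonneg (by norm_num) (Nat.cast_nonneg _))
            (mul_le_mul_of_nonneg_left h4 (by norm_num)) 2
      _ = 4 * C2 ^ 2 * ((2 * (H : ℝ)) ^ (η / 4)) ^ 2 := by ring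
      _ = C3 * (H : ℝ) ^ (η / 2) := by
          rw [hC3, ← Real.rpow_natCast ((2 * (H : ℝ)) ^ (η / 4)) 2, ← Real.rpow_mul (by positivity),
            Real.mul_rpow (by norm_num) hH0.le]
          have : η / 4 * ((2 : ℕ) : ℝ) = η / 2 := by rw [Nat.cast_ofNat]; ring
          rw [this]
          ring
  have hM := card_quad hk S w y hdec (by positivity) hB
  have hE := card_le_classes (S ×ˢ S) (S.image w) (fun p => p.1 + p.2) (fun p => w p.2)
    fun p hp => mem_image_of_mem w (mem_product.1 hp).2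
  have hE' : ((((S ×ˢ S) ×ˢ (S ×ˢ S)).filter fun q => q.1.1 + q.1.2 = q.2.1 + q.2.2).card : ℝ) ≤
      ((S.image w).card : ℝ) * ((((S ×ˢ S) ×ˢ (S ×ˢ S)).filter fun q =>
        q.1.1 + q.1.2 = q.2.1 + q.2.2 ∧ w q.1.2 = w q.2.2).card : ℝ) := by exact_mod_cast hE
  have hHη : (1 : ℝ) ≤ (H : ℝ) ^ (η / 2) := Real.one_le_rpow hH1 (by positivity)
  calc ((((S ×ˢ S) ×ˢ (S ×ˢ S)).filter fun q => q.1.1 + q.1.2 = q.2.1 + q.2.2).card : ℝ)
      ≤ ((S.image w).card : ℝ) * ((S.card : ℝ) ^ 2 * (1 + C3 * (H : ℝ) ^ (η / 2))) :=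
        hE'.trans (mul_le_mul_of_nonneg_left hM (Nat.cast_nonneg _))
    _ ≤ (r / Z * (C1 * (H : ℝ) ^ (η / 6))) * ((r * (C1 * (H : ℝ) ^ (η / 6))) ^ 2 *
          ((1 + C3) * (H : ℝ) ^ (η / 2))) := by
        refine mul_le_mul ?_ ?_ (by positivity) (by positivity)
        · exact hWc.trans (mul_le_mul_of_nonneg_left hSSH (by positivity))
        · refine mul_le_mul ?_ (by nlinarith) (by positivity) (by positivity)
          exact pow_le_pow_left₀ (Nat.cast_nonneg _)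
            (hSc.trans (mul_le_mul_of_nonneg_left hSSH (by linarith))) 2
    _ = C1 ^ 3 * (1 + C3) * (((H : ℝ) ^ (η / 6)) ^ 3 * (H : ℝ) ^ (η / 2)) * (r ^ 3 / Z) := by ring
    _ = C1 ^ 3 * (1 + C3) * (H : ℝ) ^ η * (r ^ 3 / Z) := by
        congr 2
        rw [← Real.rpow_natCast ((H : ℝ) ^ (η / 6)) 3, ← Real.rpow_mul hH0.le, ← Real.rpow_add hH0]
        congr 1
        rw [Nat.cast_ofNat]
        ring

end Pool.Agent.H42.EX.En
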