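import Pool.Agent.H42.EX.Stm2

/-! From the bound for blocks to the exact exponents (copy of `Lib/Cnt.lean` and `Lib/Exact.lean` with
`n - 2` replaced by `g`). -/

set_option autoImplicit false

namespace Pool.Agent.H42.EX.Exa

open Finset Filter Topology
open Pool.Agent.H328R2.ABC (rad sum_inv_rad)
open Pool.Agent.Q38.AE.Cov
open Pool.Agent.Q38.NC

/-- **The upper bound.** -/
theorem A_le {n : ℕ} (hn : 0 < n) {w : ℝ} (hw : 0 ≤ w) (hblk : BLK n w) {P : (Fin n → ℤ) → Prop}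
    (hP : ∀ x, P x → Adm x) {s : ℝ}
    (hs0 : 0 < s) (hs1 : s ≤ 1) (δ : ℝ) (hδ : 0 < δ) :
    ∃ C : ℝ, ∀ B : ℝ, 1 ≤ B → (A P lh lr s B).Finite ∧
      ((A P lh lr s B).ncard : ℝ) ≤ C * B ^ (max w (1 / s - 1) + δ) := by
  classical
  obtain ⟨C1, hC1, h1⟩ := hblk (δ / 2) (by positivity)
  obtain ⟨g, hg⟩ : ∃ g : ℝ, g = max w (1 / s - 1) := ⟨_, rfl⟩
  have hg1 : w ≤ g := by rw [hg]; exact le_max_left _ _
  have hg2 : 1 / s - 1 ≤ g := by rw [hg]; exact le_max_right _ _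
  have h1s : 1 ≤ 1 / s := by
    rw [le_div_iff₀ hs0]
    linarith
  rw [← hg]
  obtain ⟨e3, he3⟩ : ∃ e3 : ℝ, e3 = Real.exp 1 + 1 := ⟨_, rfl⟩
  have he30 : 0 < e3 := by rw [he3]; positivity
  refine ⟨(2 / (δ / 2) + 3) * (C1 * (2 : ℝ) ^ (δ / 2) * (e3 * 2 ^ g)), fun B hB => ?_⟩
  have hB0 : 0 < B := by linarith
  refine fin_real _ _ fun G hG => ?_
  have hn0 : 0 < n := hn
  -- the fibres of the logarithm of the height
  have hfib : ∀ k : ℕ, ((G.filter fun x => Nat.log 2 (ht x) = k).card : ℝ) ≤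
      C1 * (2 : ℝ) ^ (δ / 2) * (e3 * 2 ^ g) * B ^ (g + δ / 2) := by
    intro k
    rcases (G.filter fun x => Nat.log 2 (ht x) = k).eq_empty_or_nonempty with h0 | ⟨x₀, hx₀⟩
    · rw [h0, card_empty, Nat.cast_zero]
      positivity
    · rw [mem_filter] at hx₀
      have hk2B : ((2 ^ (k + 1) : ℕ) : ℝ) ≤ 2 * B := by
        obtain ⟨k1, k2, -⟩ := hG hx₀.1
        have hpos := ht_pos hn0 (hP _ k1)
        unfold lh at k2
        rw [Real.exp_log (by exact_mod_cast hpos)] at k2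
        have h3 := Nat.pow_log_le_self 2 hpos.ne'
        rw [hx₀.2] at h3
        have h4 : ((2 ^ k : ℕ) : ℝ) ≤ (ht x₀ : ℝ) := by exact_mod_cast h3
        rw [pow_succ]
        push_cast at h4 ⊢
        linarith
      obtain ⟨H, hH⟩ : ∃ H : ℕ, H = 2 ^ (k + 1) := ⟨_, rfl⟩
      have hH1 : 1 ≤ H := by rw [hH]; exact Nat.one_le_two_pow
      have hH0 : (0 : ℝ) < H := by exact_mod_cast hH1
      have hH1' : (1 : ℝ) ≤ H := by exact_mod_cast hH1
      rw [← hH] at hk2B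
      have h5 := h1 H hH1 (Real.exp 1 * (H : ℝ) ^ (1 / s)) (by positivity)
        (G.filter fun x => Nat.log 2 (ht x) = k) (by
          intro x hx
          rw [mem_filter] at hx
          obtain ⟨k1, k2, k3⟩ := hG hx.1
          have hA := hP _ k1
          have hpos := ht_pos hn0 hA
          have hlt : ht x < H := by
            rw [hH, ← hx.2]
            exact Nat.lt_pow_succ_log_self (by norm_num) _
          refine ⟨hA, fun i => (le_ht x i).trans hlt.le, ?_, ?_⟩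
          · obtain ⟨i, hi⟩ := exists_ht hn0 x
            refine ⟨i, ?_⟩
            rw [hi, hH, pow_succ, mul_comm]
            refine Nat.mul_le_mul_left _ ?_
            rw [← hx.2]
            exact Nat.pow_log_le_self 2 hpos.ne'
          · rw [← RX_eq hA.cop]
            have hR0 : (0 : ℝ) < RX x := by exact_mod_cast RX_pos x
            have hht0 : (0 : ℝ) < ht x := by exact_mod_cast hpos
            unfold lr lh at k3
            rw [← Real.log_rpow hht0, Real.log_lt_iff_lt_exp hR0, Real.exp_add,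
              Real.exp_log (by positivity)] at k3
            refine k3.le.trans ?_
            rw [mul_comm]
            refine mul_le_mul_of_nonneg_left ?_ (Real.exp_pos _).le
            exact Real.rpow_le_rpow hht0.le (by exact_mod_cast hlt.le) (by positivity))
      refine h5.trans ?_
      have e1 : (H : ℝ) ^ (δ / 2) ≤ (2 : ℝ) ^ (δ / 2) * B ^ (δ / 2) := by
        rw [← Real.mul_rpow (by norm_num) hB0.le]
        exact Real.rpow_le_rpow hH0.le hk2B (by positivity)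
      have e2 : (H : ℝ) ^ g ≤ 2 ^ g * B ^ g := by
        rw [← Real.mul_rpow (by norm_num) hB0.le]
        exact Real.rpow_le_rpow hH0.le hk2B (by linarith)
      have e4 : (H : ℝ) ^ w ≤ (H : ℝ) ^ g := Real.rpow_le_rpow_of_exponent_le hH1' hg1
      have e5 : Real.exp 1 * (H : ℝ) ^ (1 / s) / H ≤ Real.exp 1 * (H : ℝ) ^ g := by
        have : (H : ℝ) ^ (1 / s) / H = (H : ℝ) ^ (1 / s - 1) := by
          rw [Real.rpow_sub_one hH0.ne']
        rw [mul_div_assoc, this]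
        exact mul_le_mul_of_nonneg_left (Real.rpow_le_rpow_of_exponent_le hH1' hg2)
          (Real.exp_pos _).le
      calc C1 * (H : ℝ) ^ (δ / 2) * ((H : ℝ) ^ w + Real.exp 1 * (H : ℝ) ^ (1 / s) / H) ≤
            C1 * ((2 : ℝ) ^ (δ / 2) * B ^ (δ / 2)) * (e3 * (2 ^ g * B ^ g)) := by
            refine mul_le_mul (mul_le_mul_of_nonneg_left e1 (by linarith)) ?_ (by positivity)
              (by positivity)
            calc (H : ℝ) ^ w + Real.exp 1 * (H : ℝ) ^ (1 / s) / H ≤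
                  (H : ℝ) ^ g + Real.exp 1 * (H : ℝ) ^ g := add_le_add e4 e5
              _ = e3 * (H : ℝ) ^ g := by rw [he3]; ring
              _ ≤ e3 * (2 ^ g * B ^ g) := mul_le_mul_of_nonneg_left e2 he30.le
        _ = C1 * (2 : ℝ) ^ (δ / 2) * (e3 * 2 ^ g) * (B ^ g * B ^ (δ / 2)) := by ring
        _ = _ := by rw [← Real.rpow_add hB0]
  -- the number of fibres
  obtain ⟨K, hK⟩ : ∃ K : ℕ, K = Nat.log 2 ⌊B⌋₊ := ⟨_, rfl⟩
  have hfl : 1 ≤ ⌊B⌋₊ := by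
    rw [Nat.one_le_floor_iff]
    exact hB
  have hmaps : ∀ x ∈ G, Nat.log 2 (ht x) ∈ range (K + 1) := by
    intro x hx
    obtain ⟨k1, k2, -⟩ := hG hx
    have hpos := ht_pos hn0 (hP _ k1)
    unfold lh at k2
    rw [Real.exp_log (by exact_mod_cast hpos)] at k2
    rw [mem_range, Nat.lt_succ_iff, hK]
    exact Nat.log_mono_right (Nat.le_floor k2)
  have hKle : (K : ℝ) + 1 ≤ (2 / (δ / 2) + 3) * B ^ (δ / 2) := by
    have h3 : (K : ℝ) * Real.log 2 ≤ Real.log B := by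
      rw [← Real.log_pow]
      refine Real.log_le_log (by positivity) ?_
      have h4 := Nat.pow_log_le_self 2 (show ⌊B⌋₊ ≠ 0 by omega)
      rw [← hK] at h4
      calc (2 : ℝ) ^ K = ((2 ^ K : ℕ) : ℝ) := by push_cast; rfl
        _ ≤ (⌊B⌋₊ : ℝ) := by exact_mod_cast h4
        _ ≤ B := Nat.floor_le hB0.le
    have h4 : Real.log B ≤ B ^ (δ / 2) / (δ / 2) := Real.log_le_rpow_div hB0.le (by positivity)
    have h5 := Real.log_two_gt_d9
    have h6 : (1 : ℝ) ≤ B ^ (δ / 2) := Real.one_le_rpow hB (by positivity)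
    have h7 : (K : ℝ) ≤ 2 * (B ^ (δ / 2) / (δ / 2)) := by
      have h8 : (0 : ℝ) ≤ (K : ℝ) := Nat.cast_nonneg _
      nlinarith
    calc (K : ℝ) + 1 ≤ 2 * (B ^ (δ / 2) / (δ / 2)) + 3 * B ^ (δ / 2) := by linarith
      _ = (2 / (δ / 2) + 3) * B ^ (δ / 2) := by ring
  rw [Finset.card_eq_sum_card_fiberwise (fun x hx => hmaps x hx)]
  push_cast
  refine (sum_le_sum fun k _ => hfib k).trans ?_
  rw [sum_const, card_range, nsmul_eq_mul]
  push_cast
  have h9 : 0 ≤ C1 * (2 : ℝ) ^ (δ / 2) * (e3 * 2 ^ g) * B ^ (g + δ / 2) := by positivity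
  calc ((K : ℝ) + 1) * (C1 * (2 : ℝ) ^ (δ / 2) * (e3 * 2 ^ g) * B ^ (g + δ / 2)) ≤
        ((2 / (δ / 2) + 3) * B ^ (δ / 2)) *
          (C1 * (2 : ℝ) ^ (δ / 2) * (e3 * 2 ^ g) * B ^ (g + δ / 2)) :=
        mul_le_mul_of_nonneg_right hKle h9
    _ = (2 / (δ / 2) + 3) * (C1 * (2 : ℝ) ^ (δ / 2) * (e3 * 2 ^ g)) *
          (B ^ (δ / 2) * B ^ (g + δ / 2)) := by ring
    _ = _ := by
        rw [← Real.rpow_add hB0]
        congr 2
        ring

variable {n : ℕ} {P : (Fin n → ℤ) → Prop}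

theorem inv_facts (hn : 5 ≤ n) {g : ℝ} (hg : (n : ℝ) - 3 ≤ g) {M : ℝ} (h1 : 1 / (n : ℝ) < M)
    (h2 : M < 1 / (g + 1)) :
    0 < M ∧ M < 1 ∧ 1 / M < n ∧ g < 1 / M - 1 := by
  have hn4 : (5 : ℝ) ≤ n := by exact_mod_cast hn
  have hn0 : (0 : ℝ) < n := by linarith
  have hn1 : (0 : ℝ) < g + 1 := by linarith
  have hM0 : 0 < M := lt_trans (by positivity) h1
  rw [div_lt_iff₀ hn0] at h1
  rw [lt_div_iff₀ hn1] at h2
  have h3 : 1 / M < n := by rw [div_lt_iff₀ hM0]; linarith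
  have h4 : g + 1 < 1 / M := by rw [lt_div_iff₀ hM0]; linarith
  refine ⟨hM0, ?_, h3, by linarith⟩
  by_contra h
  push Not at h
  nlinarith

theorem Z_up (hn : 5 ≤ n) {g : ℝ} (hg : (n : ℝ) - 3 ≤ g) (hblk : BLK n g)
    (hP : ∀ x, P x → Adm x) {M : ℝ} (h1 : 1 / (n : ℝ) < M)
    (h2 : M < 1 / (g + 1)) (ε : ℝ) (hε : 0 < ε) : ∃ C : ℝ, 0 < C ∧ ∀ B : ℝ, 1 ≤ B →
    (Z P M B).Finite ∧ ((Z P M B).ncard : ℝ) ≤ C * B ^ (1 / M - 1 + ε) := by
  obtain ⟨hM0, hM1, h3, h4⟩ := inv_facts hn hg h1 h2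
  have hn4 : (5 : ℝ) ≤ n := by exact_mod_cast hn
  obtain ⟨C, hC⟩ := A_le (by omega) (by linarith) hblk hP hM0 hM1.le ε hε
  have e : max g (1 / M - 1) = 1 / M - 1 := max_eq_right (by linarith)
  rw [e] at hC
  refine ⟨|C| + 1, by positivity, fun B hB => ?_⟩
  have hB0 : 0 < B := by linarith
  obtain ⟨f, c⟩ := hC B hB
  have hsub : Z P M B ⊆ A P lh lr M B := fun x hx => ⟨hx.1, hx.2.1, hx.2.2.trans (lt_add_one _)⟩
  refine ⟨f.subset hsub, ?_⟩
  have h5 : ((Z P M B).ncard : ℝ) ≤ ((A P lh lr M B).ncard : ℝ) := by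
    exact_mod_cast Set.ncard_le_ncard hsub f
  refine h5.trans (c.trans (mul_le_mul_of_nonneg_right ?_ (by positivity)))
  linarith [le_abs_self C]

/-- the hypothesis on lower bounds -/
def LOWH (n : ℕ) (g : ℝ) : Prop :=
  ∀ M : ℝ, 1 / (n : ℝ) < M → M < 1 / (g + 1) → ∀ ε : ℝ, 0 < ε → ∀ᶠ B : ℝ in atTop,
    ∃ G : Finset (Fin n → ℤ), (∀ x ∈ G, Adm x ∧ NV x ∧ (ht x : ℝ) ≤ B ∧ (RX x : ℝ) < (ht x : ℝ) ^ (1 / M)) ∧
      B ^ (1 / M - 1 - ε) ≤ (G.card : ℝ)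

theorem Z_low (hn : 5 ≤ n) {g : ℝ} (hg : (n : ℝ) - 3 ≤ g) (hblk : BLK n g) (hlow : LOWH n g)
    (hP : ∀ x, P x → Adm x) (hP' : ∀ x, Adm x → NV x → P x) {M : ℝ}
    (h1 : 1 / (n : ℝ) < M) (h2 : M < 1 / (g + 1)) (ε : ℝ) (hε : 0 < ε) : ∀ᶠ B : ℝ in atTop,
    B ^ (1 / M - 1 - ε) ≤ ((Z P M B).ncard : ℝ) := by
  obtain ⟨hM0, hM1, h3, h4⟩ := inv_facts hn hg h1 h2
  obtain ⟨C, -, hup⟩ := Z_up hn hg hblk hP h1 h2 1 one_pos
  filter_upwards [hlow M h1 h2 ε hε, eventually_ge_atTop 1] with B hB hB1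
  obtain ⟨G, hG1, hG2⟩ := hB
  refine hG2.trans ?_
  have hsub : (G : Set (Fin n → ℤ)) ⊆ Z P M B := by
    intro x hx
    obtain ⟨k1, k2, k3, k4⟩ := hG1 x hx
    have hpos : (0 : ℝ) < ht x := by exact_mod_cast ht_pos (by omega) k1
    have hR : (0 : ℝ) < RX x := by exact_mod_cast RX_pos x
    refine ⟨hP' x k1 k2, ?_, ?_⟩
    · unfold lh
      rw [Real.exp_log hpos]
      exact k3
    · unfold lh lr
      rw [← Real.log_rpow hpos]
      exact Real.log_lt_log hR k4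
  have h5 := Set.ncard_le_ncard hsub (hup B hB1).1
  rw [Set.ncard_coe_finset] at h5
  exact_mod_cast h5

theorem Z_exact (hn : 5 ≤ n) {g : ℝ} (hg : (n : ℝ) - 3 ≤ g) (hblk : BLK n g) (hlow : LOWH n g)
    (hP : ∀ x, P x → Adm x) (hP' : ∀ x, Adm x → NV x → P x) {M : ℝ}
    (h1 : 1 / (n : ℝ) < M) (h2 : M < 1 / (g + 1)) :
    Tendsto (fun X : ℝ => Real.log ((Z P M X).ncard : ℝ) / Real.log X) atTop
      (𝓝 (1 / M - 1)) := by
  refine tendsto_exponent (fun ε hε => ?_) fun ε hε => ?_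
  · obtain ⟨C, hC, h⟩ := Z_up hn hg hblk hP h1 h2 ε hε
    exact ⟨C, hC, fun X hX => (h X hX).2⟩
  · exact eventually_atTop.1 (Z_low hn hg hblk hlow hP hP' h1 h2 ε hε)

theorem E_up (hn : 5 ≤ n) {g : ℝ} (hg : (n : ℝ) - 3 ≤ g) (hblk : BLK n g)
    (hP : ∀ x, P x → Adm x) {M L : ℝ} (h1 : 1 / (n : ℝ) < M)
    (h2 : M < 1 / (g + 1)) (hML : M < L) (hL : L ≤ (1 - M) / g) {ε : ℝ}
    (hε : 0 < ε) : ∃ C : ℝ, 0 < C ∧ ∀ X : ℝ, 1 ≤ X → (E P lh lr M L X).Finite ∧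
      ((E P lh lr M L X).ncard : ℝ) ≤ C * X ^ (1 - M + ε) := by
  obtain ⟨hM0, hM1, h3, h4⟩ := inv_facts hn hg h1 h2
  have hn4 : (5 : ℝ) ≤ n := by exact_mod_cast hn
  have hn2 : (0 : ℝ) < g := by linarith
  rw [le_div_iff₀ hn2] at hL
  refine cover (G := 1 / M) hM0 hML.le (by positivity) (fun s hs1 hs2 => ?_) hε
  have hs0 : 0 < s := by linarith
  have hs1' : s ≤ 1 := by nlinarith
  have hsM : 1 / s ≤ 1 / M := one_div_le_one_div_of_le hM0 hs1
  refine ⟨max g (1 / s - 1), le_trans hn2.le (le_max_left _ _), ?_, ?_, ?_⟩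
  · exact max_le (by linarith) (by linarith)
  · rw [mul_max_of_nonneg _ _ hs0.le]
    refine max_le ?_ ?_
    · have := mul_le_mul_of_nonneg_right hs2 hn2.le
      linarith
    · have : s * (1 / s - 1) = 1 - s := by field_simp
      rw [this]
      linarith
  · exact fun δ hδ => A_le (by omega) hn2.le hblk hP hs0 hs1' δ hδ

theorem F_low (hn : 5 ≤ n) {g : ℝ} (hg : (n : ℝ) - 3 ≤ g) (hblk : BLK n g) (hlow' : LOWH n g)
    (hP : ∀ x, P x → Adm x) (hP' : ∀ x, Adm x → NV x → P x) {M L : ℝ}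
    (h1 : 1 / (n : ℝ) < M) (h2 : M < 1 / (g + 1)) (hML : M < L)
    (hL : L ≤ (1 - M) / g) {ε : ℝ} (hε : 0 < ε) :
    ∃ X₀ : ℝ, ∀ X : ℝ, X₀ ≤ X → X ^ (1 - M - ε) ≤ ((F P lh lr M L X).ncard : ℝ) := by
  obtain ⟨hM0, hM1, h3, h4⟩ := inv_facts hn hg h1 h2
  have hn4 : (5 : ℝ) ≤ n := by exact_mod_cast hn
  have hn2 : (0 : ℝ) < g := by linarith
  have hL0 : 0 < L := by linarith
  have hL1 : L ≤ 1 := by
    rw [le_div_iff₀ hn2] at hL
    nlinarith
  obtain ⟨g', hg'⟩ : ∃ g', g' = max g (1 / L - 1) := ⟨_, rfl⟩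
  have hg1 : g' < 1 / M - 1 := by
    rw [hg']
    refine max_lt (by linarith) ?_
    have := one_div_lt_one_div_of_lt hM0 hML
    linarith
  obtain ⟨ε', hε'⟩ : ∃ ε', ε' = min (ε / 2) ((1 / M - 1 - g') / 2) := ⟨_, rfl⟩
  have hε'0 : 0 < ε' := by
    rw [hε']
    exact lt_min (by linarith) (by linarith)
  have hε'1 : ε' ≤ ε / 2 := by rw [hε']; exact min_le_left _ _
  have hε'2 : ε' ≤ (1 / M - 1 - g') / 2 := by rw [hε']; exact min_le_right _ _
  have hlow := lower (P := P) (h := lh) (N := lr) (M := M) (L := L) (L' := L)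
    (g := 1 / M - 1 - ε') (g' := g') (ε := ε / 2) hM0 hML le_rfl
    (fun x hx => lh_nonneg (by omega) (hP x hx))
    ⟨1, one_pos, by
      filter_upwards [Z_low hn hg hblk hlow' hP hP' h1 h2 ε' hε'0] with B hB
      rw [one_mul]
      exact hB⟩
    (fun X hX => by
      obtain ⟨C, -, hC⟩ := E_up hn hg hblk hP h1 h2 hML hL one_pos
      exact (hC X hX).1)
    (fun δ hδ => by
      rw [hg']
      exact A_le (by omega) hn2.le hblk hP hL0 hL1 δ hδ) (by linarith) (by linarith)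
  obtain ⟨X₀, hX₀⟩ := hlow
  refine ⟨max X₀ 1, fun X hX => ?_⟩
  have hX1 : 1 ≤ X := (le_max_right _ _).trans hX
  refine le_trans ?_ (hX₀ X ((le_max_left _ _).trans hX))
  refine Real.rpow_le_rpow_of_exponent_le hX1 ?_
  have e1 : M * (1 / M - 1 - ε') = 1 - M - M * ε' := by field_simp
  rw [e1]
  nlinarith

theorem F_exact (hn : 5 ≤ n) {g : ℝ} (hg : (n : ℝ) - 3 ≤ g) (hblk : BLK n g) (hlow : LOWH n g)
    (hP : ∀ x, P x → Adm x) (hP' : ∀ x, Adm x → NV x → P x) {M L : ℝ}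
    (h1 : 1 / (n : ℝ) < M) (h2 : M < 1 / (g + 1)) (hML : M < L)
    (hL : L ≤ (1 - M) / g) :
    (∀ X : ℝ, 1 ≤ X → (F P lh lr M L X).Finite) ∧
    Tendsto (fun X : ℝ => Real.log ((F P lh lr M L X).ncard : ℝ) / Real.log X) atTop
      (𝓝 (1 - M)) := by
  obtain ⟨hM0, hM1, h3, h4⟩ := inv_facts hn hg h1 h2
  have hn4 : (5 : ℝ) ≤ n := by exact_mod_cast hn
  have hfin : ∀ X : ℝ, 1 ≤ X → (F P lh lr M L X).Finite := by
    intro X hX
    obtain ⟨C, -, hC⟩ := E_up hn hg hblk hP h1 h2 hML hL one_pos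
    exact (hC X hX).1.subset (F_sub (by linarith) (by linarith))
  refine ⟨hfin, tendsto_exponent (fun ε hε => ?_) fun ε hε =>
    F_low hn hg hblk hlow hP hP' h1 h2 hML hL hε⟩
  obtain ⟨C, hC, h⟩ := E_up hn hg hblk hP h1 h2 hML hL hε
  refine ⟨C, hC, fun X hX => le_trans ?_ (h X hX).2⟩
  exact_mod_cast Set.ncard_le_ncard (F_sub (by linarith) (by linarith)) (h X hX).1

theorem main : S_EXA := by
  intro n g hn hg _ hblk hlow P hP hP'
  have hn4 : (5 : ℝ) ≤ n := by exact_mod_cast hn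
  refine ⟨fun s hs0 hs1 δ hδ => A_le (by omega) (by linarith) hblk hP hs0 hs1 δ hδ,
    fun M h1 h2 => ⟨Z_exact hn hg hblk hlow hP hP' h1 h2, fun L hML hL =>
      F_exact hn hg hblk hlow hP hP' h1 h2 hML hL⟩⟩

end Pool.Agent.H42.EX.Exa
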