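import Pool.Agent.H42.EX.Stm2

set_option autoImplicit false

/-!
# Project EX: the fibres of the first two codes (`S_PAIR`, `S_F1`, `S_F2`)
-/

namespace Pool.Agent.H42.EX.Fib12

open Finset
open Pool.Agent.Q38.NC

variable {n : ℕ}

/-- tuples with the same sum which agree outside two coordinates -/
theorem two_coord {x y : Fin n → ℤ} (hx : ∑ t, x t = 0) (hy : ∑ t, y t = 0) {i m : Fin n}
    (him : i ≠ m) (h : ∀ t, t ≠ i → t ≠ m → x t = y t) : x i - y i = -(x m - y m) := by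
  have h1 : ∑ t, (x t - y t) = 0 := by rw [Finset.sum_sub_distrib, hx, hy, sub_zero]
  have h2 : ∑ t, (x t - y t) = ∑ t ∈ ({i, m} : Finset (Fin n)), (x t - y t) := by
    symm
    apply Finset.sum_subset (Finset.subset_univ _)
    intro t _ ht
    rw [Finset.mem_insert, Finset.mem_singleton, not_or] at ht
    rw [h t ht.1 ht.2, sub_self]
  rw [h2, Finset.sum_pair him] at h1
  linarith

/-- tuples with the same sum which agree outside three coordinates -/
theorem three_coord {x y : Fin n → ℤ} (hx : ∑ t, x t = 0) (hy : ∑ t, y t = 0) {i m j : Fin n}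
    (him : i ≠ m) (hij : i ≠ j) (hmj : m ≠ j) (h : ∀ t, t ≠ i → t ≠ m → t ≠ j → x t = y t) :
    x j - y j = -(x i - y i) - (x m - y m) := by
  have h1 : ∑ t, (x t - y t) = 0 := by rw [Finset.sum_sub_distrib, hx, hy, sub_zero]
  have h2 : ∑ t, (x t - y t) = ∑ t ∈ ({i, m, j} : Finset (Fin n)), (x t - y t) := by
    symm
    apply Finset.sum_subset (Finset.subset_univ _)
    intro t _ ht
    rw [Finset.mem_insert, Finset.mem_insert, Finset.mem_singleton, not_or, not_or] at ht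
    rw [h t ht.1 ht.2.1 ht.2.2, sub_self]
  rw [h2, Finset.sum_insert (by simp [him, hij]), Finset.sum_pair hmj] at h1
  linarith

theorem eq_of_two {x y : Fin n → ℤ} (hx : ∑ t, x t = 0) (hy : ∑ t, y t = 0) {i m : Fin n}
    (him : i ≠ m) (h : ∀ t, t ≠ i → t ≠ m → x t = y t) (hi : x i = y i) : x = y := by
  have h1 := two_coord hx hy him h
  funext t
  by_cases h2 : t = i
  · rw [h2, hi]
  · by_cases h3 : t = m
    · rw [h3]
      rw [hi, sub_self] at h1
      linarith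
    · exact h t h2 h3

/-- divisors of coprime numbers are coprime -/
theorem cop_of_dvd {a b u v : ℤ} (h : Int.gcd a b = 1) (hu : u ∣ a) (hv : v ∣ b) : IsCoprime u v := by
  have h1 : IsCoprime a b := Int.isCoprime_iff_gcd_eq_one.2 h
  exact (h1.of_isCoprime_of_dvd_left hu).of_isCoprime_of_dvd_right hv

theorem pair : S_PAIR := by
  classical
  intro n i m u u' A A' X him hA hA' hX G hG hagree
  rcases G.eq_empty_or_nonempty with h | ⟨z, hz⟩
  · rw [h, card_empty, Nat.cast_zero]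
    positivity
  -- the numbers `u`, `u'`
  obtain ⟨hz0, hz1, a0, a0', e0, e0', -, hb0'⟩ := hG z hz
  have hu : u ≠ 0 := by
    rintro rfl
    exact hz0.ne i (by rw [e0, zero_mul])
  have hu' : u' ≠ 0 := by
    rintro rfl
    exact hz0.ne m (by rw [e0', zero_mul])
  have hcop : IsCoprime u u' :=
    cop_of_dvd (hz0.cop i m him) (e0 ▸ dvd_mul_right _ _) (e0' ▸ dvd_mul_right _ _)
  have huR : (0 : ℝ) < |(u : ℝ)| := abs_pos.2 (by exact_mod_cast hu)
  have huR' : (0 : ℝ) < |(u' : ℝ)| := abs_pos.2 (by exact_mod_cast hu')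
  have hinj : Set.InjOn (fun x : Fin n → ℤ => x i) (G : Set (Fin n → ℤ)) := by
    intro x hx y hy hxy
    exact eq_of_two (hG x hx).1.sum (hG y hy).1.sum him (hagree x hx y hy) hxy
  have hcard : (G.image fun x => x i).card = G.card := Finset.card_image_of_injOn hinj
  rw [← hcard]
  have hmpos : 0 < (u * u').natAbs := Int.natAbs_pos.2 (mul_ne_zero hu hu')
  have hap := card_ap (G.image fun x => x i) (u * u').natAbs hmpos (2 * A * |(u : ℝ)|) (by positivity)
    (by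
      intro y hy
      obtain ⟨x, hx, rfl⟩ := Finset.mem_image.1 hy
      obtain ⟨-, -, a, a', e1, -, h1, -⟩ := hG x hx
      simp only [e1]
      push_cast
      rw [abs_mul, abs_of_nonneg (Nat.cast_nonneg (α := ℝ) a), mul_comm]
      exact mul_le_mul_of_nonneg_right h1 huR.le)
    (by
      intro y hy y' hy'
      obtain ⟨x, hx, rfl⟩ := Finset.mem_image.1 hy
      obtain ⟨x', hx', rfl⟩ := Finset.mem_image.1 hy'
      obtain ⟨hx0, -, a, a', e1, e2, -, -⟩ := hG x hx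
      obtain ⟨hx0', -, b, b', f1, f2, -, -⟩ := hG x' hx'
      have h1 := two_coord hx0.sum hx0'.sum him (hagree x hx x' hx')
      rw [Int.natAbs_dvd]
      apply hcop.mul_dvd
      · exact ⟨a - b, by simp only [e1, f1]; ring⟩
      · refine ⟨-(a' - b'), ?_⟩
        rw [h1, e2, f2]
        ring)
  refine hap.trans ?_
  have e1 : (((u * u').natAbs : ℕ) : ℝ) = |(u : ℝ)| * |(u' : ℝ)| := by
    rw [Nat.cast_natAbs]
    push_cast
    rw [abs_mul]
  rw [e1]
  have h2 : 2 * (2 * A * |(u : ℝ)|) / (|(u : ℝ)| * |(u' : ℝ)|) = 4 * A / |(u' : ℝ)| := by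
    field_simp
    ring
  rw [h2]
  have h3 : X ≤ |(u' : ℝ)| * (2 * A') := by
    rw [Nat.cast_natAbs, e0'] at hz1
    push_cast at hz1
    rw [abs_mul, abs_of_nonneg (Nat.cast_nonneg (α := ℝ) a0')] at hz1
    exact hz1.trans (mul_le_mul_of_nonneg_left hb0' huR'.le)
  have h4 : 4 * A / |(u' : ℝ)| ≤ 8 * A * A' / X := by
    rw [div_le_div_iff₀ huR' (by linarith)]
    calc 4 * A * X ≤ 4 * A * (|(u' : ℝ)| * (2 * A')) := mul_le_mul_of_nonneg_left h3 (by linarith)
      _ = 8 * A * A' * |(u' : ℝ)| := by ring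
  linarith

/-- differences of `k`-th powers -/
theorem pow_diff {b b' : ℕ} {Z : ℝ} {k : ℕ} (hk : 1 ≤ k) (hZ : 1 ≤ Z) (h : Z ≤ b) (h' : Z ≤ b') :
    |(b : ℝ) - b'| * Z ^ (k - 1) ≤ |(b : ℝ) ^ k - (b' : ℝ) ^ k| := by
  wlog hbb : b' ≤ b generalizing b b'
  · have := this h' h (by omega)
    rw [abs_sub_comm, abs_sub_comm ((b : ℝ) ^ k)]
    exact this
  have hbR : (b' : ℝ) ≤ b := by exact_mod_cast hbb
  have hb0 : (0 : ℝ) ≤ b' := by linarith
  have hp : (b' : ℝ) ^ k ≤ (b : ℝ) ^ k := pow_le_pow_left₀ hb0 hbR k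
  rw [abs_of_nonneg (by linarith), abs_of_nonneg (by linarith)]
  obtain ⟨k, rfl⟩ : ∃ k', k = k' + 1 := ⟨k - 1, by omega⟩
  rw [Nat.add_sub_cancel, pow_succ, pow_succ]
  have h1 : Z ^ k ≤ (b : ℝ) ^ k := pow_le_pow_left₀ (by linarith) h k
  have h2 : (b' : ℝ) ^ k ≤ (b : ℝ) ^ k := pow_le_pow_left₀ hb0 hbR k
  have h3 : ((b : ℝ) - b') * Z ^ k ≤ ((b : ℝ) - b') * b ^ k :=
    mul_le_mul_of_nonneg_left h1 (by linarith)
  have h4 : (b' : ℝ) ^ k * b' ≤ (b : ℝ) ^ k * b' := mul_le_mul_of_nonneg_right h2 hb0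
  linarith

/-- the bound for the difference of two bases -/
theorem base_diff {H : ℕ} {v xj : ℤ} {b b' k : ℕ} {Z Y : ℝ} (hk : 1 ≤ k) (hZ : 1 ≤ Z) (hH : 1 ≤ H)
    (h : Z ≤ b) (h2 : (b : ℝ) ≤ 2 * Z) (h' : Z ≤ b') (hxj : xj = v * (b : ℤ) ^ k)
    (hn : H ≤ 2 * n * xj.natAbs) (hY : |(v : ℝ) * ((b : ℝ) ^ k - (b' : ℝ) ^ k)| ≤ Y) :
    |(b : ℝ) - b'| ≤ 2 * n * 2 ^ k * Y * Z / H := by
  have hHR : (1 : ℝ) ≤ H := by exact_mod_cast hH
  have h1 : (H : ℝ) ≤ 2 * n * (|(v : ℝ)| * (2 * Z) ^ k) := by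
    have h3 : (H : ℝ) ≤ 2 * n * (xj.natAbs : ℝ) := by exact_mod_cast hn
    rw [Nat.cast_natAbs, hxj] at h3
    push_cast at h3
    rw [abs_mul, abs_of_nonneg (by positivity : (0 : ℝ) ≤ (b : ℝ) ^ k)] at h3
    refine h3.trans ?_
    have h4 : (b : ℝ) ^ k ≤ (2 * Z) ^ k := pow_le_pow_left₀ (by linarith) h2 k
    gcongr
  rw [abs_mul] at hY
  have h3 := pow_diff hk hZ h h'
  have h4 : |(v : ℝ)| * (|(b : ℝ) - b'| * Z ^ (k - 1)) ≤ Y :=
    (mul_le_mul_of_nonneg_left h3 (abs_nonneg _)).trans hY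
  rw [le_div_iff₀ (by linarith)]
  obtain ⟨k, rfl⟩ : ∃ k', k = k' + 1 := ⟨k - 1, by omega⟩
  rw [Nat.add_sub_cancel] at h4
  calc |(b : ℝ) - b'| * H ≤ |(b : ℝ) - b'| * (2 * n * (|(v : ℝ)| * (2 * Z) ^ (k + 1))) :=
        mul_le_mul_of_nonneg_left h1 (abs_nonneg _)
    _ = 2 * n * 2 ^ (k + 1) * Z * (|(v : ℝ)| * (|(b : ℝ) - b'| * Z ^ k)) := by
        rw [mul_pow]; ring
    _ ≤ 2 * n * 2 ^ (k + 1) * Z * Y := mul_le_mul_of_nonneg_left h4 (by positivity)
    _ = _ := by ring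

theorem f1 (hfib : S_FIB) : S_F1 := by
  classical
  intro n k hk δ hδ
  obtain ⟨C, hC, hmain⟩ := hfib k hk δ hδ
  refine ⟨C * (1 + 4 * n * 2 ^ k), ?_, ?_⟩
  · have : (0 : ℝ) ≤ 4 * n * 2 ^ k := by positivity
    nlinarith
  intro H i j u v A Z hH hij hA hZ G hG hagree
  have hHR : (1 : ℝ) ≤ H := by exact_mod_cast hH
  rcases G.eq_empty_or_nonempty with h | ⟨z, hz⟩
  · rw [h, card_empty, Nat.cast_zero]
    positivity
  obtain ⟨hz0, hz1, hz2, a0, b0, e0, f0, g0, g1, g2⟩ := hG z hz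
  have hu : u ≠ 0 := by
    rintro rfl
    exact hz0.ne i (by rw [e0, zero_mul])
  have hv : v ≠ 0 := by
    rintro rfl
    exact hz0.ne j (by rw [f0, zero_mul])
  have hcop : IsCoprime u v :=
    cop_of_dvd (hz0.cop i j hij) (e0 ▸ dvd_mul_right _ _) (f0 ▸ dvd_mul_right _ _)
  have hw : 1 ≤ u.natAbs := Int.natAbs_pos.2 hu
  have hwR : (1 : ℝ) ≤ (u.natAbs : ℝ) := by exact_mod_cast hw
  have hwH : (u.natAbs : ℝ) ≤ H := by
    have h1 : u.natAbs ≤ (z i).natAbs := Int.natAbs_le_of_dvd_ne_zero (e0 ▸ dvd_mul_right _ _) (hz0.ne i)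
    exact_mod_cast h1.trans hz1
  have hex : ∀ x ∈ G, ∃ a b : ℕ, x i = u * a ∧ x j = v * (b : ℤ) ^ k ∧ (a : ℝ) ≤ 2 * A ∧
      Z ≤ (b : ℝ) ∧ (b : ℝ) ≤ 2 * Z := fun x hx => (hG x hx).2.2.2
  choose! a b hab using hex
  have hinj : Set.InjOn b (G : Set (Fin n → ℤ)) := by
    intro x hx y hy hxy
    have h1 : x j = y j := by rw [(hab x hx).2.1, (hab y hy).2.1, hxy]
    exact eq_of_two (hG x hx).1.sum (hG y hy).1.sum hij.symm
      (fun t h2 h3 => hagree x hx y hy t h3 h2) h1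
  -- the equation
  have heq : ∀ x ∈ G, ∀ y ∈ G, v * ((b x : ℤ) ^ k - (b y : ℤ) ^ k) = u * ((a y : ℤ) - a x) := by
    intro x hx y hy
    have h1 := two_coord (hG x hx).1.sum (hG y hy).1.sum hij (hagree x hx y hy)
    rw [(hab x hx).1, (hab y hy).1, (hab x hx).2.1, (hab y hy).2.1] at h1
    linarith
  set L : ℝ := 2 * n * 2 ^ k * ((u.natAbs : ℝ) * (2 * A)) * Z / H with hL
  have hL0 : 0 ≤ L := by positivity
  have hfin := hmain u.natAbs hw L hL0 (G.image b) (by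
      intro y hy
      obtain ⟨x, hx, rfl⟩ := Finset.mem_image.1 hy
      have h1 : ((b x : ℕ) : ℤ) ∣ x j := by
        rw [(hab x hx).2.1]
        exact Dvd.dvd.mul_left (dvd_pow_self _ (by omega)) _
      have h2 : IsCoprime ((b x : ℕ) : ℤ) u :=
        (cop_of_dvd ((hG x hx).1.cop i j hij) ((hab x hx).1 ▸ dvd_mul_right _ _) h1).symm
      rw [Nat.Coprime, ← Int.natAbs_natCast (b x), ← Int.gcd]
      exact Int.isCoprime_iff_gcd_eq_one.1 h2)
    (by
      intro y hy y' hy'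
      obtain ⟨x, hx, rfl⟩ := Finset.mem_image.1 hy
      obtain ⟨x', hx', rfl⟩ := Finset.mem_image.1 hy'
      rw [Int.natAbs_dvd]
      exact hcop.dvd_of_dvd_mul_left ⟨_, heq x hx x' hx'⟩)
    (by
      intro y hy y' hy'
      obtain ⟨x, hx, rfl⟩ := Finset.mem_image.1 hy
      obtain ⟨x', hx', rfl⟩ := Finset.mem_image.1 hy'
      obtain ⟨e1, e2, e3, e4, e5⟩ := hab x hx
      obtain ⟨f1, f2, f3, f4, f5⟩ := hab x' hx'
      refine base_diff hk hZ hH e4 e5 f4 e2 (hG x hx).2.2.1 ?_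
      have h1 : (v : ℝ) * ((b x : ℝ) ^ k - (b x' : ℝ) ^ k) = u * ((a x' : ℝ) - a x) := by
        exact_mod_cast heq x hx x' hx'
      rw [h1, abs_mul]
      have h2 : |(u : ℝ)| = (u.natAbs : ℝ) := by rw [Nat.cast_natAbs]; push_cast; rfl
      rw [h2]
      apply mul_le_mul_of_nonneg_left _ (by positivity)
      have h3 : (0 : ℝ) ≤ a x := Nat.cast_nonneg _
      have h4 : (0 : ℝ) ≤ a x' := Nat.cast_nonneg _
      rw [abs_le]
      constructor <;> linarith)
  rw [Finset.card_image_of_injOn hinj] at hfin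
  refine hfin.trans ?_
  have h1 : (u.natAbs : ℝ) ^ δ ≤ (H : ℝ) ^ δ := Real.rpow_le_rpow (by linarith) hwH hδ.le
  have h2 : 1 + L / (u.natAbs : ℝ) ≤ (1 + 4 * n * 2 ^ k) * (1 + A * Z / H) := by
    have h3 : L / (u.natAbs : ℝ) = 4 * n * 2 ^ k * (A * Z / H) := by
      rw [hL]
      field_simp
      ring
    rw [h3]
    have h4 : 0 ≤ A * Z / H := by positivity
    have h5 : (0 : ℝ) ≤ 4 * n * 2 ^ k := by positivity
    nlinarith
  calc C * (u.natAbs : ℝ) ^ δ * (1 + L / (u.natAbs : ℝ))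
      ≤ C * (H : ℝ) ^ δ * ((1 + 4 * n * 2 ^ k) * (1 + A * Z / H)) := by
        apply mul_le_mul _ h2 (by positivity) (by positivity)
        exact mul_le_mul_of_nonneg_left h1 (by linarith)
    _ = _ := by ring

theorem f2 : S_F2 := by
  classical
  intro n k hk
  refine ⟨8 * (1 + 16 * n * 2 ^ k), ?_, ?_⟩
  · have : (0 : ℝ) ≤ 16 * n * 2 ^ k := by positivity
    linarith
  intro H i m j u u' v A A' Z X hH him hij hmj hA hA' hZ hX G hG hagree
  have hHR : (1 : ℝ) ≤ H := by exact_mod_cast hH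
  have hex : ∀ x ∈ G, ∃ a a' b : ℕ, x i = u * a ∧ x m = u' * a' ∧ x j = v * (b : ℤ) ^ k ∧
      (a : ℝ) ≤ 2 * A ∧ (a' : ℝ) ≤ 2 * A' ∧ Z ≤ (b : ℝ) ∧ (b : ℝ) ≤ 2 * Z :=
    fun x hx => (hG x hx).2.2.2.2.2
  choose! a a' b hab using hex
  -- the values of `b`
  have himg : ((G.image b).card : ℝ) ≤ 1 + 16 * n * 2 ^ k * (Z * X / H) := by
    rcases G.eq_empty_or_nonempty with h | ⟨z, hz⟩
    · rw [h, image_empty, card_empty, Nat.cast_zero]
      positivity
    have h1 : ∀ x ∈ G, ∀ y ∈ G, |(b x : ℝ) - b y| ≤ 16 * n * 2 ^ k * (Z * X / H) := by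
      intro x hx y hy
      obtain ⟨e1, e2, e3, e4, e5, e6, e7⟩ := hab x hx
      obtain ⟨f1, f2, f3, f4, f5, f6, f7⟩ := hab y hy
      have h2 := base_diff (Y := 8 * X) hk hZ hH e6 e7 f6 e3 (hG x hx).2.2.2.2.1 (by
        have h3 := three_coord (hG x hx).1.sum (hG y hy).1.sum him hij hmj (hagree x hx y hy)
        rw [e3, f3] at h3
        have h4 : (v : ℝ) * ((b x : ℝ) ^ k - (b y : ℝ) ^ k) =
            -((x i : ℝ) - y i) - ((x m : ℝ) - y m) := by
          have : (v : ℤ) * ((b x : ℤ) ^ k - (b y : ℤ) ^ k) = -(x i - y i) - (x m - y m) := by linarith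
          exact_mod_cast this
        rw [h4]
        have g : ∀ w : ℤ, ((w.natAbs : ℕ) : ℝ) = |(w : ℝ)| := fun w => by
          rw [Nat.cast_natAbs]; push_cast; rfl
        have g1 := (hG x hx).2.1
        have g2 := (hG y hy).2.1
        have g3 := (hG x hx).2.2.2.1
        have g4 := (hG y hy).2.2.2.1
        rw [g] at g1 g2 g3 g4
        rw [abs_le] at g1 g2 g3 g4 ⊢
        constructor <;> linarith)
      refine h2.trans (le_of_eq ?_)
      ring
    -- integers in a short interval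
    set B := 16 * (n : ℝ) * 2 ^ k * (Z * X / H) with hB
    have hB0 : 0 ≤ B := by positivity
    obtain ⟨x0, hx0, hmin⟩ := G.exists_min_image b ⟨z, hz⟩
    have h3 : G.image b ⊆ Finset.Icc (b x0) (b x0 + ⌊B⌋₊) := by
      intro y hy
      obtain ⟨x, hx, rfl⟩ := Finset.mem_image.1 hy
      rw [Finset.mem_Icc]
      refine ⟨hmin x hx, ?_⟩
      have h4 := h1 x hx x0 hx0
      have h5 := (abs_le.1 h4).2
      have h6 : ((b x - b x0 : ℕ) : ℝ) ≤ B := by
        rw [Nat.cast_sub (hmin x hx)]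
        exact h5
      have h7 := Nat.le_floor h6
      have := hmin x hx
      omega
    have h4 := Finset.card_le_card h3
    rw [Nat.card_Icc] at h4
    have h5 : ((G.image b).card : ℝ) ≤ (⌊B⌋₊ : ℝ) + 1 := by exact_mod_cast (by omega)
    have h6 := Nat.floor_le hB0
    linarith
  -- the fibres
  have hfib : ∀ c ∈ G.image b, ((G.filter fun x => b x = c).card : ℝ) ≤ 1 + 8 * A * A' / X := by
    intro c _
    refine pair n i m u u' A A' X him hA hA' hX _ ?_ ?_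
    · intro x hx
      rw [mem_filter] at hx
      obtain ⟨e1, e2, e3, e4, e5, e6, e7⟩ := hab x hx.1
      exact ⟨(hG x hx.1).1, (hG x hx.1).2.2.1, a x, a' x, e1, e2, e4, e5⟩
    · intro x hx y hy t h1 h2
      rw [mem_filter] at hx hy
      by_cases h3 : t = j
      · rw [h3, (hab x hx.1).2.2.1, (hab y hy.1).2.2.1, hx.2, hy.2]
      · exact hagree x hx.1 y hy.1 t h1 h2 h3
  have hsum : (G.card : ℝ) = ∑ c ∈ G.image b, ((G.filter fun x => b x = c).card : ℝ) := by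
    have h1 := Finset.card_eq_sum_card_image b G
    exact_mod_cast h1
  have hAX : 0 ≤ A * A' / X := by positivity
  have hZX : 0 ≤ Z * X / H := by positivity
  calc (G.card : ℝ) = ∑ c ∈ G.image b, ((G.filter fun x => b x = c).card : ℝ) := hsum
    _ ≤ ∑ _c ∈ G.image b, (1 + 8 * A * A' / X) := Finset.sum_le_sum hfib
    _ = (G.image b).card * (1 + 8 * A * A' / X) := by rw [Finset.sum_const, nsmul_eq_mul]
    _ ≤ (1 + 16 * n * 2 ^ k * (Z * X / H)) * (1 + 8 * A * A' / X) :=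
      mul_le_mul_of_nonneg_right himg (by positivity)
    _ ≤ ((1 + 16 * n * 2 ^ k) * (1 + Z * X / H)) * (8 * (1 + A * A' / X)) := by
      have h1 : 1 + 16 * n * 2 ^ k * (Z * X / H) ≤ (1 + 16 * n * 2 ^ k) * (1 + Z * X / H) := by
        have : (0 : ℝ) ≤ 16 * n * 2 ^ k := by positivity
        nlinarith
      have h2 : 1 + 8 * A * A' / X ≤ 8 * (1 + A * A' / X) := by
        have : 8 * A * A' / X = 8 * (A * A' / X) := by ring
        rw [this]
        linarith
      exact mul_le_mul h1 h2 (by positivity) (by positivity)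
    _ = _ := by ring

end Pool.Agent.H42.EX.Fib12
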