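import Pool.Agent.H42.EX.Stm4
import Pool.Agent.H42.EX.Fib12

set_option autoImplicit false

/-! EX3-F0 (helper63): fibres of a small coordinate and the base of a power -/

namespace Pool.Agent.H42.EX.F0

open Finset
open Pool.Agent.Q38.NC
open Pool.Agent.H42.EX.Fib12

/-- a set of natural numbers of small diameter -/
theorem card_diam (S : Finset ℕ) (L : ℝ) (hL : 0 ≤ L)
    (h : ∀ a ∈ S, ∀ b ∈ S, |(a : ℝ) - b| ≤ L) : (S.card : ℝ) ≤ 1 + L := by
  rcases S.eq_empty_or_nonempty with h0 | hne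
  · rw [h0, card_empty, Nat.cast_zero]
    linarith
  have h1 : S ⊆ Icc (S.min' hne) (S.min' hne + ⌊L⌋₊) := by
    intro a ha
    rw [mem_Icc]
    refine ⟨min'_le _ _ ha, ?_⟩
    have h2 : S.min' hne ≤ a := min'_le _ _ ha
    have h3 := (le_abs_self _).trans (h a ha _ (min'_mem S hne))
    have h4 : ((a - S.min' hne : ℕ) : ℝ) ≤ L := by
      rw [Nat.cast_sub h2]
      exact h3
    have h5 := Nat.le_floor h4
    omega
  have h2 := card_le_card h1
  rw [Nat.card_Icc] at h2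
  have h3 : S.card ≤ ⌊L⌋₊ + 1 := by omega
  have h4 : (S.card : ℝ) ≤ (⌊L⌋₊ : ℝ) + 1 := by exact_mod_cast h3
  have h5 := Nat.floor_le hL
  linarith

theorem main : S_F0 := by
  classical
  intro n k hk
  refine ⟨1 + 8 * n * 2 ^ k, ?_, ?_⟩
  · have : (0 : ℝ) ≤ 8 * n * 2 ^ k := by positivity
    linarith
  intro H i j v Z X hH hij hZ hX G hG hagree
  have hHR : (1 : ℝ) ≤ H := by exact_mod_cast hH
  have hex : ∀ x ∈ G, ∃ b : ℕ, x j = v * (b : ℤ) ^ k ∧ Z ≤ (b : ℝ) ∧ (b : ℝ) ≤ 2 * Z :=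
    fun x hx => (hG x hx).2.2.2
  choose! b hb using hex
  have hinj : Set.InjOn b (G : Set (Fin n → ℤ)) := by
    intro x hx y hy hxy
    have h1 : x j = y j := by rw [(hb x hx).1, (hb y hy).1, hxy]
    exact eq_of_two (hG x hx).1.sum (hG y hy).1.sum hij.symm
      (fun t h2 h3 => hagree x hx y hy t h3 h2) h1
  rw [← Finset.card_image_of_injOn hinj]
  set L : ℝ := 2 * n * 2 ^ k * (4 * X) * Z / H with hL
  have hL0 : 0 ≤ L := by positivity
  refine (card_diam (G.image b) L hL0 ?_).trans ?_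
  · intro p hp q hq
    obtain ⟨x, hx, rfl⟩ := Finset.mem_image.1 hp
    obtain ⟨y, hy, rfl⟩ := Finset.mem_image.1 hq
    refine base_diff (v := v) hk hZ hH (hb x hx).2.1 (hb x hx).2.2 (hb y hy).2.1 (hb x hx).1
      (hG x hx).2.2.1 ?_
    have h1 := two_coord (hG x hx).1.sum (hG y hy).1.sum hij (hagree x hx y hy)
    rw [(hb x hx).1, (hb y hy).1] at h1
    have h2 : (v : ℝ) * ((b x : ℝ) ^ k - (b y : ℝ) ^ k) = -((x i : ℝ) - y i) := by
      have h3 : v * ((b x : ℤ) ^ k - (b y : ℤ) ^ k) = -(x i - y i) := by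
        rw [h1]
        ring
      exact_mod_cast h3
    rw [h2, abs_neg]
    refine (abs_sub _ _).trans ?_
    have h4 := (hG x hx).2.1
    have h5 := (hG y hy).2.1
    rw [Nat.cast_natAbs] at h4 h5
    push_cast at h4 h5
    linarith
  · have e : L = 8 * n * 2 ^ k * (Z * X / H) := by
      rw [hL]
      ring
    rw [e]
    have h1 : 0 ≤ Z * X / H := by positivity
    have h2 : (0 : ℝ) ≤ 8 * n * 2 ^ k := by positivity
    nlinarith

end Pool.Agent.H42.EX.F0
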