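import Pool.Agent.H42.EX.Stm2

set_option autoImplicit false

/-!
# Project EX: the fibres of the third code (`S_F3` from `S_HOLD` and `S_PAIR`)
-/

namespace Pool.Agent.H42.EX.F3

open Finset
open Pool.Agent.Q38.NC

variable {n K : ℕ}

/-- the exponents with signs -/
noncomputable def kap (p : Fin 2 × Fin K) : ℝ := (if p.1 = 0 then 1 else -1) * (((p.2 : ℕ) : ℝ) + 1)

theorem kap_abs (p : Fin 2 × Fin K) : 1 ≤ |kap p| := by
  unfold kap
  have h : (0 : ℝ) ≤ ((p.2 : ℕ) : ℝ) := Nat.cast_nonneg _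
  rw [abs_mul, abs_of_nonneg (by linarith : (0 : ℝ) ≤ ((p.2 : ℕ) : ℝ) + 1)]
  split_ifs <;> simp

/-- the logarithmic form -/
noncomputable def lam (v : Fin 2 → ℤ) (b : Fin 2 × Fin K → ℕ) : ℝ :=
  Real.log |(v 0 : ℝ)| - Real.log |(v 1 : ℝ)| + ∑ p, kap p * Real.log (b p)

theorem log_coord {xj w : ℤ} {b : Fin K → ℕ} (hx : xj ≠ 0) (hb : ∀ k, 1 ≤ b k)
    (h : xj = w * ∏ k : Fin K, (b k : ℤ) ^ ((k : ℕ) + 1)) :
    Real.log |(xj : ℝ)| = Real.log |(w : ℝ)| + ∑ k : Fin K, (((k : ℕ) : ℝ) + 1) * Real.log (b k) := by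
  have hw : w ≠ 0 := by
    rintro rfl
    exact hx (by rw [h, zero_mul])
  have hwR : |(w : ℝ)| ≠ 0 := by
    rw [abs_ne_zero]
    exact_mod_cast hw
  have hbR : ∀ k, (b k : ℝ) ≠ 0 := fun k => by
    have := hb k
    exact_mod_cast (by omega : b k ≠ 0)
  have e : |(xj : ℝ)| = |(w : ℝ)| * ∏ k : Fin K, (b k : ℝ) ^ ((k : ℕ) + 1) := by
    rw [h]
    push_cast
    rw [abs_mul, abs_of_nonneg (Finset.prod_nonneg fun k _ => by positivity :
      (0 : ℝ) ≤ ∏ k : Fin K, (b k : ℝ) ^ ((k : ℕ) + 1))]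
  rw [e, Real.log_mul hwR (Finset.prod_ne_zero_iff.2 fun k _ => pow_ne_zero _ (hbR k)),
    Real.log_prod (fun k _ => pow_ne_zero _ (hbR k))]
  congr 1
  refine Finset.sum_congr rfl fun k _ => ?_
  rw [Real.log_pow]
  push_cast
  ring

theorem lam_eq {v : Fin 2 → ℤ} {b : Fin 2 × Fin K → ℕ} {xj : Fin 2 → ℤ} (hx : ∀ c, xj c ≠ 0)
    (hb : ∀ p, 1 ≤ b p) (h : ∀ c, xj c = v c * ∏ k : Fin K, (b (c, k) : ℤ) ^ ((k : ℕ) + 1)) :
    lam v b = Real.log |(xj 0 : ℝ)| - Real.log |(xj 1 : ℝ)| := by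
  rw [log_coord (hx 0) (fun k => hb (0, k)) (h 0), log_coord (hx 1) (fun k => hb (1, k)) (h 1)]
  unfold lam
  rw [Fintype.sum_prod_type, Fin.sum_univ_two]
  have e0 : ∑ k : Fin K, kap ((0, k) : Fin 2 × Fin K) * Real.log (b (0, k)) =
      ∑ k : Fin K, (((k : ℕ) : ℝ) + 1) * Real.log (b (0, k)) :=
    Finset.sum_congr rfl fun k _ => by simp [kap]
  have e1 : ∑ k : Fin K, kap ((1, k) : Fin 2 × Fin K) * Real.log (b (1, k)) =
      -∑ k : Fin K, (((k : ℕ) : ℝ) + 1) * Real.log (b (1, k)) := by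
    rw [← Finset.sum_neg_distrib]
    exact Finset.sum_congr rfl fun k _ => by
      simp [kap]
      ring
  rw [e0, e1]
  ring

theorem log_close {s t y : ℝ} (hy : 0 < y) (hs : y ≤ s) (ht : y ≤ t) :
    |Real.log s - Real.log t| ≤ |s - t| / y := by
  wlog h : t ≤ s generalizing s t
  · have := this ht hs (by linarith)
    rwa [abs_sub_comm, abs_sub_comm s]
  have h1 : Real.log t ≤ Real.log s := Real.log_le_log (by linarith) h
  rw [abs_of_nonneg (by linarith), abs_of_nonneg (by linarith)]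
  have h2 := Real.log_le_sub_one_of_pos (show 0 < s / t by
    have : 0 < t := by linarith
    have : 0 < s := by linarith
    positivity)
  rw [Real.log_div (by linarith) (by linarith)] at h2
  have h3 : s / t - 1 ≤ (s - t) / y := by
    rw [div_sub_one (by linarith)]
    exact div_le_div_of_nonneg_left (by linarith) hy ht
  linarith

/-- the two large coordinates are close -/
theorem lam_small {H : ℕ} {x : Fin n → ℤ} {j : Fin 2 → Fin n} {v : Fin 2 → ℤ}
    {b : Fin 2 × Fin K → ℕ} {X T : ℝ} (hH : 1 ≤ H) (hT : 1 ≤ T) (hX : 1 ≤ X) (hTX : T * X ≤ 2 * H)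
    (hj : j 0 ≠ j 1) (hx : Adm x) (h1 : ∀ c, H ≤ 2 * n * (x (j c)).natAbs)
    (h2 : ∀ t, (∀ c, t ≠ j c) → ((x t).natAbs : ℝ) ≤ 2 * X) (hb : ∀ p, 1 ≤ b p)
    (h : ∀ c, x (j c) = v c * ∏ k : Fin K, (b (c, k) : ℤ) ^ ((k : ℕ) + 1)) :
    |lam v b| ≤ 8 * (n : ℝ) ^ 2 / T := by
  classical
  have hn : 1 ≤ n := by
    rcases Nat.eq_zero_or_pos n with h0 | h0
    · subst h0
      exact (j 0).elim0
    · exact h0
  have hnR : (1 : ℝ) ≤ n := by exact_mod_cast hn
  have hHR : (1 : ℝ) ≤ H := by exact_mod_cast hH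
  rw [lam_eq (xj := fun c => x (j c)) (fun c => hx.ne _) hb h]
  have hy : (0 : ℝ) < H / (2 * n) := by positivity
  have g : ∀ w : ℤ, ((w.natAbs : ℕ) : ℝ) = |(w : ℝ)| := fun w => by
    rw [Nat.cast_natAbs]; push_cast; rfl
  have hlow : ∀ c, (H : ℝ) / (2 * n) ≤ |(x (j c) : ℝ)| := by
    intro c
    rw [div_le_iff₀ (by positivity), ← g]
    have h3 := h1 c
    have h4 : (H : ℝ) ≤ 2 * n * ((x (j c)).natAbs : ℝ) := by exact_mod_cast h3
    linarith
  refine (log_close hy (hlow 0) (hlow 1)).trans ?_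
  have hsum : |(x (j 0) : ℝ) + x (j 1)| ≤ n * (2 * X) := by
    have h3 : ∑ t, x t = 0 := hx.sum
    have h4 : ∑ t, x t = x (j 0) + x (j 1) + ∑ t ∈ (Finset.univ \ {j 0, j 1}), x t := by
      rw [← Finset.sum_sdiff (Finset.subset_univ ({j 0, j 1} : Finset (Fin n))), Finset.sum_pair hj]
      ring
    have h5 : (x (j 0) : ℝ) + x (j 1) = -∑ t ∈ (Finset.univ \ {j 0, j 1}), (x t : ℝ) := by
      have : x (j 0) + x (j 1) = -∑ t ∈ (Finset.univ \ {j 0, j 1}), x t := by linarith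
      exact_mod_cast this
    rw [h5, abs_neg]
    calc |∑ t ∈ (Finset.univ \ {j 0, j 1}), (x t : ℝ)| ≤
        ∑ t ∈ (Finset.univ \ {j 0, j 1}), |(x t : ℝ)| := Finset.abs_sum_le_sum_abs _ _
      _ ≤ ∑ _t ∈ (Finset.univ \ {j 0, j 1} : Finset (Fin n)), 2 * X := by
        refine Finset.sum_le_sum fun t ht => ?_
        rw [← g]
        apply h2
        rw [Finset.mem_sdiff, Finset.mem_insert, Finset.mem_singleton, not_or] at ht
        intro c
        fin_cases c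
        · exact ht.2.1
        · exact ht.2.2
      _ = ((Finset.univ \ {j 0, j 1} : Finset (Fin n)).card : ℝ) * (2 * X) := by
        rw [Finset.sum_const, nsmul_eq_mul]
      _ ≤ n * (2 * X) := by
        apply mul_le_mul_of_nonneg_right _ (by linarith)
        have := Finset.card_le_card (Finset.sdiff_subset (s := (Finset.univ : Finset (Fin n)))
          (t := {j 0, j 1}))
        rw [Finset.card_univ, Fintype.card_fin] at this
        exact_mod_cast this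
  have habs : |(|(x (j 0) : ℝ)| - |(x (j 1) : ℝ)|)| ≤ n * (2 * X) := by
    refine le_trans ?_ hsum
    have := abs_abs_sub_abs_le_abs_sub (x (j 0) : ℝ) (-(x (j 1) : ℝ))
    rwa [abs_neg, sub_neg_eq_add] at this
  calc |(|(x (j 0) : ℝ)| - |(x (j 1) : ℝ)|)| / (H / (2 * n)) ≤ n * (2 * X) / (H / (2 * n)) :=
        div_le_div_of_nonneg_right habs hy.le
    _ = 4 * (n : ℝ) ^ 2 * X / H := by field_simp; ring
    _ ≤ 8 * (n : ℝ) ^ 2 / T := by
      rw [div_le_div_iff₀ (by linarith) (by linarith)]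
      have : (0 : ℝ) ≤ 4 * (n : ℝ) ^ 2 := by positivity
      nlinarith

/-- **The number of the values of `b`.** -/
theorem count_b (hold : S_HOLD) (n K Q : ℕ) (δ : ℝ) (hδ : 0 < δ) : ∃ C : ℝ, 1 ≤ C ∧
    ∀ (H : ℕ) (v : Fin 2 → ℤ) (T : ℝ) (Z : Fin 2 × Fin K → ℝ) (q : Fin 2 × Fin K → ℕ)
      (I : Finset (Fin 2 × Fin K)), 1 ≤ n → 1 ≤ H → 1 ≤ T → (∀ p, 1 ≤ Z p ∧ Z p ≤ H) →
      (∀ p ∈ I, 1 ≤ q p ∧ q p ≤ Q ∧ T ≤ Z p ^ q p) → 1 ≤ ∑ p ∈ I, 1 / (2 * (q p : ℝ)) →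
      ∀ B : Finset (Fin 2 × Fin K → ℕ), (∀ β ∈ B, ∀ p, Z p ≤ (β p : ℝ) ∧ (β p : ℝ) ≤ 2 * Z p) →
      (∀ β ∈ B, |lam v β| ≤ 8 * (n : ℝ) ^ 2 / T) →
      (B.card : ℝ) ≤ C * (H : ℝ) ^ δ * ((∏ p, Z p) / T) := by
  classical
  rcases Nat.eq_zero_or_pos n with hn0 | hn0
  · exact ⟨1, le_rfl, fun H v T Z q I h => by omega⟩
  have hD : (1 : ℝ) ≤ 8 * (n : ℝ) ^ 2 := by
    have : (1 : ℝ) ≤ n := by exact_mod_cast hn0
    nlinarith
  choose C hC hmain using fun I : Finset (Fin 2 × Fin K) => hold {p // p ∈ I} Q δ (8 * (n : ℝ) ^ 2) hδ hD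
  have hsum : ∀ I, C I ≤ ∑ I', C I' := fun I =>
    Finset.single_le_sum (f := C) (fun I' _ => by linarith [hC I']) (Finset.mem_univ I)
  refine ⟨2 ^ (2 * K) * ∑ I', C I', ?_, ?_⟩
  · have h1 := hsum ∅
    have h2 := hC ∅
    have h3 : (1 : ℝ) ≤ 2 ^ (2 * K) := one_le_pow₀ (by norm_num)
    nlinarith
  intro H v T Z q I _ hH hT hZ hq hsumq B hB hlam
  have hHR : (1 : ℝ) ≤ H := by exact_mod_cast hH
  have hT0 : 0 < T := by linarith
  -- the part outside of `I`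
  set ρ : (Fin 2 × Fin K → ℕ) → (Fin 2 × Fin K → ℕ) := fun β p => if p ∈ I then 0 else β p with hρ
  set R : Fin 2 × Fin K → Finset ℕ := fun p => if p ∈ I then {0} else Finset.Icc ⌈Z p⌉₊ ⌊2 * Z p⌋₊
    with hR
  have himg : B.image ρ ⊆ Fintype.piFinset R := by
    intro c hc
    obtain ⟨β, hβ, rfl⟩ := Finset.mem_image.1 hc
    rw [Fintype.mem_piFinset]
    intro p
    simp only [hρ, hR]
    split_ifs with h
    · simp
    · rw [Finset.mem_Icc]
      exact ⟨Nat.ceil_le.2 (hB β hβ p).1, Nat.le_floor (hB β hβ p).2⟩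
  have hRcard : ∀ p, ((R p).card : ℝ) ≤ 2 * (if p ∈ I then 1 else Z p) := by
    intro p
    simp only [hR]
    split_ifs with h
    · simp
    · rw [Nat.card_Icc]
      have h1 := (hZ p).1
      have h2 : (⌊2 * Z p⌋₊ : ℝ) ≤ 2 * Z p := Nat.floor_le (by linarith)
      have h3 : Z p ≤ (⌈Z p⌉₊ : ℝ) := Nat.le_ceil _
      rcases Nat.lt_or_ge (⌊2 * Z p⌋₊ + 1) ⌈Z p⌉₊ with h4 | h4
      · rw [Nat.sub_eq_zero_of_le h4.le]
        push_cast
        linarith
      · rw [Nat.cast_sub h4]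
        push_cast
        linarith
  have hcard1 : ((B.image ρ).card : ℝ) ≤ 2 ^ (2 * K) * ∏ p, (if p ∈ I then 1 else Z p) := by
    have h1 := Finset.card_le_card himg
    rw [Fintype.card_piFinset] at h1
    calc ((B.image ρ).card : ℝ) ≤ ∏ p, ((R p).card : ℝ) := by exact_mod_cast h1
      _ ≤ ∏ p, (2 * (if p ∈ I then 1 else Z p)) :=
        Finset.prod_le_prod (fun p _ => Nat.cast_nonneg _) fun p _ => hRcard p
      _ = _ := by
        rw [Finset.prod_mul_distrib, Finset.prod_const, Finset.card_univ, Fintype.card_prod,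
          Fintype.card_fin, Fintype.card_fin]
  -- the fibres
  have hfib : ∀ c ∈ B.image ρ, ((B.filter fun β => ρ β = c).card : ℝ) ≤
      C I * (H : ℝ) ^ δ * (∏ p : {p // p ∈ I}, Z p) / T := by
    intro c hc
    set F := B.filter fun β => ρ β = c with hF
    set res : (Fin 2 × Fin K → ℕ) → ({p // p ∈ I} → ℕ) := fun β p => β p with hres
    have hinj : Set.InjOn res (F : Set (Fin 2 × Fin K → ℕ)) := by
      intro β hβ β' hβ' h
      rw [Finset.mem_coe, hF, Finset.mem_filter] at hβ hβ'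
      funext p
      by_cases hp : p ∈ I
      · exact congrFun h ⟨p, hp⟩
      · have h1 := congrFun (hβ.2.trans hβ'.2.symm) p
        simp only [hρ, if_neg hp] at h1
        exact h1
    rw [← Finset.card_image_of_injOn hinj]
    refine hmain I (H : ℝ) T (Real.log |(v 0 : ℝ)| - Real.log |(v 1 : ℝ)| +
        ∑ p ∈ Iᶜ, kap p * Real.log (c p)) (fun p => Z p) (fun p => kap p.1) (fun p => q p) hT
      (fun p => hZ p) (fun p => kap_abs _) (fun p => hq p p.2) ?_ _ ?_ ?_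
    · have h1 := Finset.sum_coe_sort I (fun p => 1 / (2 * (q p : ℝ)))
      rw [h1]
      exact hsumq
    · intro z hz
      obtain ⟨β, hβ, rfl⟩ := Finset.mem_image.1 hz
      rw [hF, Finset.mem_filter] at hβ
      exact fun p => hB β hβ.1 p
    · intro z hz
      obtain ⟨β, hβ, rfl⟩ := Finset.mem_image.1 hz
      rw [hF, Finset.mem_filter] at hβ
      have h1 := hlam β hβ.1
      have h2 : ∑ p ∈ Iᶜ, kap p * Real.log (c p) = ∑ p ∈ Iᶜ, kap p * Real.log (β p) := by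
        refine Finset.sum_congr rfl fun p hp => ?_
        rw [Finset.mem_compl] at hp
        rw [← hβ.2]
        simp only [hρ, if_neg hp]
      have h3 : ∑ p : {p // p ∈ I}, kap p.1 * Real.log (res β p) = ∑ p ∈ I, kap p * Real.log (β p) :=
        Finset.sum_coe_sort I (fun p => kap p * Real.log (β p))
      rw [h2, h3]
      unfold lam at h1
      rw [← Finset.sum_compl_add_sum I] at h1
      rwa [add_assoc]
  have hsumB : (B.card : ℝ) = ∑ c ∈ B.image ρ, ((B.filter fun β => ρ β = c).card : ℝ) := by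
    have h1 := Finset.card_eq_sum_card_image ρ B
    exact_mod_cast h1
  have hprodI : (0 : ℝ) ≤ ∏ p : {p // p ∈ I}, Z p :=
    Finset.prod_nonneg fun p _ => by linarith [(hZ p).1]
  have hCI0 : 0 ≤ C I := by linarith [hC I]
  have hsplit : (∏ p, (if p ∈ I then 1 else Z p)) * ∏ p : {p // p ∈ I}, Z p = ∏ p, Z p := by
    have h1 : ∏ p : {p // p ∈ I}, Z p = ∏ p ∈ I, Z p := Finset.prod_coe_sort I Z
    have h2 : ∏ p, (if p ∈ I then 1 else Z p) = ∏ p ∈ Iᶜ, Z p := by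
      rw [← Finset.prod_compl_mul_prod I]
      have e1 : ∏ p ∈ I, (if p ∈ I then 1 else Z p) = 1 := Finset.prod_eq_one fun p hp => if_pos hp
      have e2 : ∏ p ∈ Iᶜ, (if p ∈ I then 1 else Z p) = ∏ p ∈ Iᶜ, Z p :=
        Finset.prod_congr rfl fun p hp => if_neg (Finset.mem_compl.1 hp)
      rw [e1, e2, mul_one]
    rw [h1, h2, Finset.prod_compl_mul_prod]
  have hpos : 0 ≤ C I * (H : ℝ) ^ δ * (∏ p : {p // p ∈ I}, Z p) / T := by positivity
  calc (B.card : ℝ) = ∑ c ∈ B.image ρ, ((B.filter fun β => ρ β = c).card : ℝ) := hsumB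
    _ ≤ ∑ _c ∈ B.image ρ, (C I * (H : ℝ) ^ δ * (∏ p : {p // p ∈ I}, Z p) / T) :=
      Finset.sum_le_sum hfib
    _ = (B.image ρ).card * (C I * (H : ℝ) ^ δ * (∏ p : {p // p ∈ I}, Z p) / T) := by
      rw [Finset.sum_const, nsmul_eq_mul]
    _ ≤ (2 ^ (2 * K) * ∏ p, (if p ∈ I then 1 else Z p)) *
        (C I * (H : ℝ) ^ δ * (∏ p : {p // p ∈ I}, Z p) / T) :=
      mul_le_mul_of_nonneg_right hcard1 hpos
    _ = 2 ^ (2 * K) * C I * ((H : ℝ) ^ δ *
        (((∏ p, (if p ∈ I then 1 else Z p)) * ∏ p : {p // p ∈ I}, Z p) / T)) := by ring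
    _ = 2 ^ (2 * K) * C I * ((H : ℝ) ^ δ * ((∏ p, Z p) / T)) := by rw [hsplit]
    _ ≤ 2 ^ (2 * K) * (∑ I', C I') * ((H : ℝ) ^ δ * ((∏ p, Z p) / T)) := by
      apply mul_le_mul_of_nonneg_right
      · exact mul_le_mul_of_nonneg_left (hsum I) (by positivity)
      · have : 0 ≤ ∏ p, Z p := Finset.prod_nonneg fun p _ => by linarith [(hZ p).1]
        positivity
    _ = _ := by ring

theorem main : S_HOLD → S_PAIR → S_F3 := by
  classical
  intro hold hpair n K Q δ hδ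
  obtain ⟨C, hC, hcount⟩ := count_b hold n K Q δ hδ
  refine ⟨8 * C, by linarith, ?_⟩
  intro H i m j u u' v A A' X T Z q I hH him hj hij hA hA' hX hT hTX hZ hq hsumq G hG hagree
  have hn : 1 ≤ n := by
    rcases Nat.eq_zero_or_pos n with h0 | h0
    · subst h0
      exact i.elim0
    · exact h0
  have hHR : (1 : ℝ) ≤ H := by exact_mod_cast hH
  have hex : ∀ x ∈ G, ∃ (a a' : ℕ) (b : Fin 2 × Fin K → ℕ), x i = u * a ∧ x m = u' * a' ∧
      (∀ c, x (j c) = v c * ∏ k : Fin K, (b (c, k) : ℤ) ^ ((k : ℕ) + 1)) ∧ (a : ℝ) ≤ 2 * A ∧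
      (a' : ℝ) ≤ 2 * A' ∧ ∀ p, Z p ≤ (b p : ℝ) ∧ (b p : ℝ) ≤ 2 * Z p :=
    fun x hx => (hG x hx).2.2.2.2
  choose! a a' b hab using hex
  have himg : ((G.image b).card : ℝ) ≤ C * (H : ℝ) ^ δ * ((∏ p, Z p) / T) := by
    refine hcount H v T Z q I hn hH hT hZ hq hsumq (G.image b) ?_ ?_
    · intro β hβ
      obtain ⟨x, hx, rfl⟩ := Finset.mem_image.1 hβ
      exact (hab x hx).2.2.2.2.2
    · intro β hβ
      obtain ⟨x, hx, rfl⟩ := Finset.mem_image.1 hβ
      refine lam_small hH hT hX hTX hj (hG x hx).1 (hG x hx).2.1 (hG x hx).2.2.1 (fun p => ?_)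
        (hab x hx).2.2.1
      have h1 := ((hab x hx).2.2.2.2.2 p).1
      have h2 := (hZ p).1
      exact_mod_cast (h2.trans h1)
  have hfib : ∀ c ∈ G.image b, ((G.filter fun x => b x = c).card : ℝ) ≤ 1 + 8 * A * A' / X := by
    intro c _
    refine hpair n i m u u' A A' X him hA hA' hX _ ?_ ?_
    · intro x hx
      rw [mem_filter] at hx
      obtain ⟨e1, e2, e3, e4, e5, e6⟩ := hab x hx.1
      exact ⟨(hG x hx.1).1, (hG x hx.1).2.2.2.1, a x, a' x, e1, e2, e4, e5⟩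
    · intro x hx y hy t h1 h2
      rw [mem_filter] at hx hy
      by_cases h3 : ∃ c, t = j c
      · obtain ⟨c, rfl⟩ := h3
        rw [(hab x hx.1).2.2.1, (hab y hy.1).2.2.1, hx.2, hy.2]
      · push Not at h3
        exact hagree x hx.1 y hy.1 t h1 h2 h3
  have hsum : (G.card : ℝ) = ∑ c ∈ G.image b, ((G.filter fun x => b x = c).card : ℝ) := by
    have h1 := Finset.card_eq_sum_card_image b G
    exact_mod_cast h1
  have hAX : 0 ≤ A * A' / X := by positivity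
  have hprod : 0 ≤ ∏ p, Z p := Finset.prod_nonneg fun p _ => by linarith [(hZ p).1]
  calc (G.card : ℝ) = ∑ c ∈ G.image b, ((G.filter fun x => b x = c).card : ℝ) := hsum
    _ ≤ ∑ _c ∈ G.image b, (1 + 8 * A * A' / X) := Finset.sum_le_sum hfib
    _ = (G.image b).card * (1 + 8 * A * A' / X) := by rw [Finset.sum_const, nsmul_eq_mul]
    _ ≤ (C * (H : ℝ) ^ δ * ((∏ p, Z p) / T)) * (1 + 8 * A * A' / X) :=
      mul_le_mul_of_nonneg_right himg (by positivity)
    _ ≤ (C * (H : ℝ) ^ δ * ((∏ p, Z p) / T)) * (8 * (1 + A * A' / X)) := by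
      apply mul_le_mul_of_nonneg_left _ (by positivity)
      have : 8 * A * A' / X = 8 * (A * A' / X) := by ring
      rw [this]
      linarith
    _ = _ := by ring

end Pool.Agent.H42.EX.F3
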