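import Pool.Agent.H42.EX.Stm
import Pool.Agent.H42.EX.Div

set_option autoImplicit false

/-!
# Project EX, stub FIB: `k`-th powers congruent mod `w` in a short interval

The count of the solutions of `a ^ n = 1` modulo `q` is copied from the library
(`R_pool_sql_team_seeded_47a924f7/T6/H8/UnitQ.lean`).
-/

namespace Pool.Agent.H42.EX

namespace Fib

/-! ## the solutions of `a ^ n = 1` modulo `q` -/

/-- the number of solutions of `a ^ n = 1` in a group -/
noncomputable def tc (G : Type) [Group G] (n : ℕ) : ℕ := Nat.card {a : G // a ^ n = 1}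

lemma tc_le_card (G : Type) [Group G] [Finite G] (n : ℕ) : tc G n ≤ Nat.card G :=
  Nat.card_le_card_of_injective (fun a : {a : G // a ^ n = 1} => a.1) Subtype.val_injective

lemma tc_cyclic (G : Type) [Group G] [Finite G] (h : IsCyclic G) {n : ℕ} (hn : 0 < n) :
    tc G n ≤ n := by
  classical
  have := Fintype.ofFinite G
  have h1 := IsCyclic.card_pow_eq_one_le (α := G) hn
  unfold tc
  rw [Nat.card_eq_fintype_card, Fintype.card_subtype]
  exact h1

lemma tc_inj {G G' : Type} [Group G] [Group G'] [Finite G'] (f : G →* G')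
    (hf : Function.Injective f) (n : ℕ) : tc G n ≤ tc G' n := by
  unfold tc
  refine Nat.card_le_card_of_injective (fun a : {a : G // a ^ n = 1} =>
    (⟨f a.1, by rw [← map_pow, a.2, map_one]⟩ : {a : G' // a ^ n = 1})) ?_
  intro a b h
  exact Subtype.ext (hf (congrArg Subtype.val h))

lemma tc_prod (G G' : Type) [Group G] [Group G'] [Finite G] [Finite G'] (n : ℕ) :
    tc (G × G') n ≤ tc G n * tc G' n := by
  unfold tc
  rw [← Nat.card_prod]
  refine Nat.card_le_card_of_injective (fun a : {a : G × G' // a ^ n = 1} =>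
    ((⟨a.1.1, congrArg Prod.fst a.2⟩, ⟨a.1.2, congrArg Prod.snd a.2⟩) :
      {a : G // a ^ n = 1} × {a : G' // a ^ n = 1})) ?_
  intro a b h
  obtain ⟨h1, h2⟩ := Prod.mk.inj h
  exact Subtype.ext (Prod.ext (congrArg Subtype.val h1) (congrArg Subtype.val h2))

/-- a cyclic subgroup of index at most two -/
lemma tc_index_two (G : Type) [CommGroup G] [Finite G] (H : Subgroup G) (hc : IsCyclic H)
    (hi : H.index ≤ 2) {n : ℕ} (hn : 0 < n) : tc G n ≤ 2 * n := by
  obtain ⟨T, hT⟩ : ∃ T : Subgroup G, T = (powMonoidHom n : G →* G).ker := ⟨_, rfl⟩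
  have hTm : ∀ a : G, a ∈ T ↔ a ^ n = 1 := fun a => by
    rw [hT, MonoidHom.mem_ker, powMonoidHom_apply]
  have h1 : tc G n = Nat.card T := by
    unfold tc
    exact Nat.card_congr (Equiv.subtypeEquivRight fun a => (hTm a).symm)
  have h2 : Nat.card (H.subgroupOf T) ≤ n := by
    refine le_trans ?_ (tc_cyclic H hc hn)
    unfold tc
    refine Nat.card_le_card_of_injective (fun a : H.subgroupOf T =>
      (⟨⟨(a.1 : G), a.2⟩, ?_⟩ : {a : H // a ^ n = 1})) ?_
    · apply Subtype.ext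
      exact (hTm _).mp a.1.2
    · intro a b h
      have h3 := congrArg (fun x : {a : H // a ^ n = 1} => ((x.1 : H) : G)) h
      exact Subtype.ext (Subtype.ext h3)
  have h3 : (H.subgroupOf T).index ≤ 2 := by
    refine le_trans ?_ hi
    exact Nat.le_of_dvd (Nat.pos_of_ne_zero Subgroup.FiniteIndex.index_ne_zero)
      (Subgroup.relIndex_dvd_index_of_normal H T)
  rw [h1, ← Subgroup.card_mul_index (H.subgroupOf T), mul_comm]
  exact Nat.mul_le_mul h3 h2

lemma tc_prime_pow {p : ℕ} (hp : p.Prime) (k : ℕ) {n : ℕ} (hn : 0 < n) :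
    tc (ZMod (p ^ k))ˣ n ≤ 2 * n := by
  have hne : NeZero (p ^ k) := ⟨pow_ne_zero _ hp.ne_zero⟩
  by_cases h2 : p = 2
  · subst h2
    by_cases hk : k ≤ 2
    · exact (tc_cyclic _ ((ZMod.isCyclic_units_two_pow_iff k).mpr hk) hn).trans (by omega)
    · obtain ⟨j, rfl⟩ : ∃ j, k = j + 2 := ⟨k - 2, by omega⟩
      have h5 : IsUnit (5 : ZMod (2 ^ (j + 2))) := by
        have h5c : Nat.Coprime 5 (2 ^ (j + 2)) := Nat.Coprime.pow_right _ (by norm_num)
        have := (ZMod.unitOfCoprime 5 h5c).isUnit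
        rwa [ZMod.coe_unitOfCoprime] at this
      obtain ⟨g, hg⟩ := h5
      have hord : orderOf g = 2 ^ j := by
        rw [← orderOf_units, hg, ZMod.orderOf_five]
      have hcard : Nat.card (ZMod (2 ^ (j + 2)))ˣ = 2 ^ (j + 1) := by
        rw [Nat.card_eq_fintype_card, ZMod.card_units_eq_totient,
          Nat.totient_prime_pow Nat.prime_two (by omega)]
        norm_num
      refine tc_index_two _ (Subgroup.zpowers g) inferInstance ?_ hn
      have h6 := Subgroup.card_mul_index (Subgroup.zpowers g)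
      rw [Nat.card_zpowers, hord, hcard] at h6
      have h7 : 2 ^ j * (Subgroup.zpowers g).index = 2 ^ j * 2 := by rw [h6]; ring
      exact (Nat.eq_of_mul_eq_mul_left (by positivity) h7).le
  · exact (tc_cyclic _ (ZMod.isCyclic_units_of_prime_pow p hp h2 k) hn).trans (by omega)

lemma tc_coprime {a b : ℕ} (ha : 0 < a) (hb : 0 < b) (h : a.Coprime b) (n : ℕ) :
    tc (ZMod (a * b))ˣ n ≤ tc (ZMod a)ˣ n * tc (ZMod b)ˣ n := by
  have : NeZero a := ⟨ha.ne'⟩
  have : NeZero b := ⟨hb.ne'⟩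
  have : NeZero (a * b) := ⟨(mul_pos ha hb).ne'⟩
  refine le_trans ?_ (tc_prod (ZMod a)ˣ (ZMod b)ˣ n)
  exact tc_inj (((Units.mapEquiv (ZMod.chineseRemainder h).toMulEquiv).trans
    MulEquiv.prodUnits).toMonoidHom) (MulEquiv.injective _) n

lemma tc_omega {n : ℕ} (hn : 0 < n) (q : ℕ) (hq : 0 < q) :
    tc (ZMod q)ˣ n ≤ (2 * n) ^ q.primeFactors.card := by
  induction q using Nat.recOnPosPrimePosCoprime with
  | prime_pow p k hp hk =>
    rw [Nat.primeFactors_prime_pow hk.ne' hp, Finset.card_singleton, pow_one]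
    exact tc_prime_pow hp k hn
  | zero => omega
  | one =>
    have := tc_le_card (ZMod 1)ˣ n
    have h1 : Nat.card (ZMod 1)ˣ = 1 := by
      rw [Nat.card_eq_fintype_card, ZMod.card_units_eq_totient, Nat.totient_one]
    simpa [h1] using this
  | coprime a b ha hb hab iha ihb =>
    refine (tc_coprime (by omega) (by omega) hab n).trans ?_
    rw [Nat.Coprime.primeFactors_mul hab, Finset.card_union_of_disjoint hab.disjoint_primeFactors,
      pow_add]
    exact Nat.mul_le_mul (iha (by omega)) (ihb (by omega))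

/-! ## divisors -/

lemma two_pow_omega_le (q : ℕ) (hq : q ≠ 0) : 2 ^ q.primeFactors.card ≤ q.divisors.card := by
  rw [Nat.card_divisors hq, ← Finset.prod_const]
  refine Finset.prod_le_prod' fun p hp => ?_
  have := (Nat.prime_of_mem_primeFactors hp).factorization_pos_of_dvd hq
    (Nat.dvd_of_mem_primeFactors hp)
  omega

/-- the number of solutions of `a ^ n = 1` modulo `q` -/
theorem tc_bound {n : ℕ} (hn : 0 < n) {ε : ℝ} (hε : 0 < ε) : ∃ C : ℝ, 1 ≤ C ∧ ∀ q : ℕ, 0 < q →
    (tc (ZMod q)ˣ n : ℝ) ≤ C * (q : ℝ) ^ ε := by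
  obtain ⟨c, hc⟩ : ∃ c : ℕ, 2 * n ≤ 2 ^ c := ⟨2 * n, (Nat.lt_two_pow_self).le⟩
  obtain ⟨C, hC, h⟩ := card_divisors_le_rpow (ε / (c + 1)) (by positivity)
  refine ⟨C ^ (c + 1), one_le_pow₀ hC, fun q hq => ?_⟩
  have h1 : tc (ZMod q)ˣ n ≤ q.divisors.card ^ (c + 1) := by
    calc tc (ZMod q)ˣ n ≤ (2 * n) ^ q.primeFactors.card := tc_omega hn q hq
      _ ≤ (2 ^ c) ^ q.primeFactors.card := Nat.pow_le_pow_left hc _
      _ ≤ (2 ^ (c + 1)) ^ q.primeFactors.card :=
          Nat.pow_le_pow_left (Nat.pow_le_pow_right (by norm_num) (by omega)) _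
      _ = (2 ^ q.primeFactors.card) ^ (c + 1) := by rw [← pow_mul, ← pow_mul, mul_comm]
      _ ≤ _ := Nat.pow_le_pow_left (two_pow_omega_le q hq.ne') _
  have h2 : (tc (ZMod q)ˣ n : ℝ) ≤ (q.divisors.card : ℝ) ^ (c + 1) := by exact_mod_cast h1
  refine h2.trans ?_
  calc (q.divisors.card : ℝ) ^ (c + 1) ≤ (C * (q : ℝ) ^ (ε / (c + 1))) ^ (c + 1) :=
        pow_le_pow_left₀ (Nat.cast_nonneg _) (h q hq.ne') _
    _ = C ^ (c + 1) * (q : ℝ) ^ ε := by
        rw [mul_pow, ← Real.rpow_natCast ((q : ℝ) ^ (ε / (c + 1))), ← Real.rpow_mul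
          (Nat.cast_nonneg _)]
        congr 2
        push_cast
        field_simp


/-! ## numbers in one class -/

/-- congruent numbers in a short interval -/
lemma card_class (w : ℕ) (hw : 0 < w) (L : ℝ) (G : Finset ℕ)
    (h1 : ∀ z ∈ G, ∀ z' ∈ G, (z : ZMod w) = (z' : ZMod w))
    (h2 : ∀ z ∈ G, ∀ z' ∈ G, |(z : ℝ) - (z' : ℝ)| ≤ L) : G.card ≤ ⌊L / w⌋₊ + 1 := by
  rcases G.eq_empty_or_nonempty with rfl | hne
  · simp
  obtain ⟨m, hm⟩ : ∃ m, m = G.min' hne := ⟨_, rfl⟩
  have hmG : m ∈ G := hm ▸ G.min'_mem hne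
  have hle : ∀ z ∈ G, m ≤ z := fun z hz => hm ▸ G.min'_le z hz
  have hdvd : ∀ z ∈ G, w ∣ z - m := by
    intro z hz
    have := h1 m hmG z hz
    rw [ZMod.natCast_eq_natCast_iff] at this
    exact (Nat.modEq_iff_dvd' (hle z hz)).1 this
  calc G.card ≤ (Finset.range (⌊L / w⌋₊ + 1)).card := by
        refine Finset.card_le_card_of_injOn (fun z => (z - m) / w) ?_ ?_
        · intro z hz
          rw [Finset.mem_coe] at hz ⊢
          rw [Finset.mem_range, Nat.lt_add_one_iff]
          apply Nat.le_floor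
          have h3 := h2 z hz m hmG
          have h4 : ((((z - m) / w : ℕ)) : ℝ) = ((z : ℝ) - m) / w := by
            rw [Nat.cast_div (hdvd z hz) (by positivity), Nat.cast_sub (hle z hz)]
          rw [h4]
          apply div_le_div_of_nonneg_right _ (by positivity)
          exact (le_abs_self _).trans h3
        · intro z hz z' hz' h
          rw [Finset.mem_coe] at hz hz'
          have h3 := Nat.div_mul_cancel (hdvd z hz)
          have h4 := Nat.div_mul_cancel (hdvd z' hz')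
          have h5 := hle z hz
          have h6 := hle z' hz'
          dsimp only at h
          rw [h] at h3
          omega
    _ = _ := Finset.card_range _

theorem main : S_FIB := by
  intro k hk δ hδ
  obtain ⟨C, hC, hb⟩ := tc_bound (n := k) hk hδ
  refine ⟨C, hC, ?_⟩
  intro w hw L hL G hco hdv hdist
  classical
  have hw0 : 0 < w := hw
  have : NeZero w := ⟨hw0.ne'⟩
  have himg : (G.image (fun z : ℕ => (z : ZMod w))).card ≤ tc (ZMod w)ˣ k := by
    rcases G.eq_empty_or_nonempty with rfl | ⟨z0, hz0⟩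
    · simp
    have hex : ∀ y : {y // y ∈ G.image (fun z : ℕ => (z : ZMod w))}, ∃ z : ℕ, z ∈ G ∧
        (z : ZMod w) = y.1 := fun y => Finset.mem_image.1 y.2
    choose f hf1 hf2 using hex
    have hun : ∀ (z : ℕ) (hz : z ∈ G), ((ZMod.unitOfCoprime z (hco z hz)) ^ k : (ZMod w)ˣ) =
        (ZMod.unitOfCoprime z0 (hco z0 hz0)) ^ k := by
      intro z hz
      apply Units.ext
      rw [Units.val_pow_eq_pow_val, Units.val_pow_eq_pow_val, ZMod.coe_unitOfCoprime,
        ZMod.coe_unitOfCoprime]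
      have h3 := (ZMod.intCast_zmod_eq_zero_iff_dvd _ w).2 (hdv z hz z0 hz0)
      push_cast at h3
      exact sub_eq_zero.1 h3
    have hc : (G.image (fun z : ℕ => (z : ZMod w))).card =
        Nat.card {y // y ∈ G.image (fun z : ℕ => (z : ZMod w))} := by
      simp only [Nat.card_eq_fintype_card, Fintype.card_coe]
    rw [hc]
    unfold tc
    refine Nat.card_le_card_of_injective (fun y =>
      (⟨ZMod.unitOfCoprime (f y) (hco _ (hf1 y)) * (ZMod.unitOfCoprime z0 (hco z0 hz0))⁻¹, by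
        rw [mul_pow, inv_pow, hun _ (hf1 y), mul_inv_cancel]⟩ : {a : (ZMod w)ˣ // a ^ k = 1})) ?_
    intro y y' h
    have h3 := mul_right_cancel (congrArg Subtype.val h)
    have h4 := congrArg (fun u : (ZMod w)ˣ => (u : ZMod w)) h3
    simp only [ZMod.coe_unitOfCoprime] at h4
    rw [hf2, hf2] at h4
    exact Subtype.ext h4
  have hfib : G.card ≤ (⌊L / w⌋₊ + 1) * (G.image (fun z : ℕ => (z : ZMod w))).card := by
    apply Finset.card_le_mul_card_image
    intro a _
    apply card_class w hw0 L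
    · intro z hz z' hz'
      rw [(Finset.mem_filter.1 hz).2, (Finset.mem_filter.1 hz').2]
    · intro z hz z' hz'
      exact hdist z (Finset.mem_filter.1 hz).1 z' (Finset.mem_filter.1 hz').1
  have h1 : (G.card : ℝ) ≤ ((⌊L / w⌋₊ : ℝ) + 1) * (tc (ZMod w)ˣ k : ℝ) := by
    calc (G.card : ℝ) ≤ (((⌊L / w⌋₊ + 1) * (G.image (fun z : ℕ => (z : ZMod w))).card : ℕ) : ℝ) := by
          exact_mod_cast hfib
      _ = ((⌊L / w⌋₊ : ℝ) + 1) * ((G.image (fun z : ℕ => (z : ZMod w))).card : ℝ) := by push_cast; ring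
      _ ≤ _ := by
          apply mul_le_mul_of_nonneg_left _ (by positivity)
          exact_mod_cast himg
  have h2 : (⌊L / w⌋₊ : ℝ) ≤ L / w := Nat.floor_le (by positivity)
  calc (G.card : ℝ) ≤ ((⌊L / w⌋₊ : ℝ) + 1) * (tc (ZMod w)ˣ k : ℝ) := h1
    _ ≤ (L / w + 1) * (C * (w : ℝ) ^ δ) := by
        apply mul_le_mul (by linarith) (hb w hw0) (by positivity) (by positivity)
    _ = _ := by ring

end Fib

end Pool.Agent.H42.EX
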