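import Pool.Agent.H42.EX.Blk
import Pool.Agent.H42.EX.BarG

set_option autoImplicit false

/-!
# Project EX: the lower bound in all cases and the barrier
-/

namespace Pool.Agent.H42.EX

open Finset Filter Topology
open Pool.Agent.Q38.NC

theorem adm_of_sn {n : ℕ} {x : Fin n → ℤ} (h : SN.Adm x) : Adm x :=
  ⟨h.1, fun i j hij => Int.isCoprime_iff_gcd_eq_one.1 (h.2.1 i j hij), h.2.2⟩

/-- The lower bound for all exponents. -/
theorem low_all (hL : S_LOW) {n : ℕ} (hn : 5 ≤ n) {lam : ℝ} (h1 : (n : ℝ) - 2 < lam) (h2 : lam < n) {ε : ℝ}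
    (hε : 0 < ε) : ∀ᶠ B : ℝ in atTop,
    ∃ G : Finset (Fin n → ℤ), (∀ x ∈ G, Adm x ∧ NV x ∧ (ht x : ℝ) ≤ B ∧ (RX x : ℝ) < (ht x : ℝ) ^ lam) ∧
      B ^ (lam - 1 - ε) ≤ (G.card : ℝ) := by
  have hnR : (5 : ℝ) ≤ n := by exact_mod_cast hn
  rcases lt_trichotomy lam ((n : ℝ) - 1) with h | h | h
  · filter_upwards [hL n hn lam ε h1 h hε] with B hB
    obtain ⟨F, hF1, hF2⟩ := hB
    refine ⟨F, fun x hx => ?_, hF1⟩
    obtain ⟨k1, k2, k3, k4⟩ := hF2 x hx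
    exact ⟨adm_of_sn k1, k2, k3, k4⟩
  · obtain ⟨η, hη⟩ : ∃ η : ℝ, η = min (ε / 2) (1 / 2) := ⟨_, rfl⟩
    have hη0 : 0 < η := by rw [hη]; exact lt_min (by positivity) (by norm_num)
    have hη1 : η ≤ ε / 2 := by rw [hη]; exact min_le_left _ _
    have hη2 : η ≤ 1 / 2 := by rw [hη]; exact min_le_right _ _
    filter_upwards [hL n hn (lam - η) (ε / 2) (by linarith) (by linarith) (by positivity),
      eventually_ge_atTop 1] with B hB hB1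
    obtain ⟨F, hF1, hF2⟩ := hB
    refine ⟨F, fun x hx => ?_, ?_⟩
    · obtain ⟨k1, k2, k3, k4⟩ := hF2 x hx
      refine ⟨adm_of_sn k1, k2, k3, lt_of_lt_of_le k4 ?_⟩
      have hpos : 0 < ht x := ht_pos (by omega) (adm_of_sn k1)
      have h5 : (1 : ℝ) ≤ (ht x : ℝ) := by exact_mod_cast hpos
      exact Real.rpow_le_rpow_of_exponent_le h5 (by linarith)
    · refine le_trans ?_ hF1
      exact Real.rpow_le_rpow_of_exponent_le hB1 (by linarith)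
  · obtain ⟨m, rfl⟩ : ∃ m, n = m + 1 + 1 := ⟨n - 2, by omega⟩
    push_cast at h1 h2 h
    filter_upwards [low (m := m) (by omega) (κ := (m : ℝ) + 2 - lam) (by linarith) (by linarith) hε] with B hB
    obtain ⟨G, hG1, hG2⟩ := hB
    have e1 : (m : ℝ) + 2 - ((m : ℝ) + 2 - lam) = lam := by ring
    have e2 : (m : ℝ) + 1 - ((m : ℝ) + 2 - lam) - ε = lam - 1 - ε := by ring
    rw [e1] at hG1
    rw [e2] at hG2
    exact ⟨G, hG1, hG2⟩

/-- The barrier. -/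
theorem barrier {n : ℕ} (hn : 5 ≤ n) {u : ℝ} (hu1 : 1 ≤ u) (hu2 : u < (n : ℝ) - 2)
    (N : ℝ → ℝ) (hN : ∀ X : ℝ, ∀ F : Finset (Fin n → ℤ), (∀ x ∈ F, SN.Adm x ∧ SN.NVS x ∧ (SN.size x : ℝ) ≤ X ∧
      (SN.radN (∏ i, x i) : ℝ) < (SN.size x : ℝ) ^ u) → (F.card : ℝ) ≤ N X)
    (hup : ∀ ε : ℝ, 0 < ε → ∃ C : ℝ, ∀ X : ℝ, 1 ≤ X → N X ≤ C * X ^ (u - 1 + ε)) {ε : ℝ} (hε : 0 < ε) :
    ∃ δ : ℝ, 0 < δ ∧ ∃ a₀ : ℕ, ∀ a : ℕ, a₀ ≤ a → ∀ h : ℕ, 1 ≤ h → (h : ℝ) ≤ (a : ℝ) ^ ((u - 1) / ((n : ℝ) - 3) + δ) →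
      Nat.Coprime a h → Even (n + h) →
      (a : ℝ) ^ (((n : ℝ) - 2 - u) / ((n : ℝ) - 3) - ε) ≤ (SN.radN ((a : ℤ) * ((a : ℤ) + (h : ℤ))) : ℝ) := by
  have hnR : (5 : ℝ) ≤ n := by exact_mod_cast hn
  have hn2 : (0 : ℝ) < (n : ℝ) - 2 := by linarith
  have hn3 : (0 : ℝ) < (n : ℝ) - 3 := by linarith
  obtain ⟨c, hc⟩ : ∃ c : ℝ, c = ((n : ℝ) - 2 - u) / ((n : ℝ) - 3) := ⟨_, rfl⟩
  have hc' : c * ((n : ℝ) - 3) = (n : ℝ) - 2 - u := by rw [hc]; field_simp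
  have hc0 : 0 < c := by rw [hc]; exact div_pos (by linarith) hn3
  have hc1 : c ≤ 1 := by rw [hc, div_le_one hn3]; linarith
  -- we may assume that ε is small
  obtain ⟨e, he⟩ : ∃ e : ℝ, e = min ε (min (c / 2) (1 / 8)) := ⟨_, rfl⟩
  have he0 : 0 < e := by rw [he]; exact lt_min hε (lt_min (by positivity) (by norm_num))
  have he1 : e ≤ ε := by rw [he]; exact min_le_left _ _
  have he2 : e ≤ c / 2 := by rw [he]; exact (min_le_right _ _).trans (min_le_left _ _)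
  have he3 : e ≤ 1 / 8 := by rw [he]; exact (min_le_right _ _).trans (min_le_right _ _)
  -- y
  obtain ⟨y, hy⟩ : ∃ y : ℝ, y = (u - c + e / 2) / ((n : ℝ) - 2) := ⟨_, rfl⟩
  have hy' : y * ((n : ℝ) - 2) = u - c + e / 2 := by rw [hy]; field_simp
  have hy0 : 0 < y := by rw [hy]; exact div_pos (by linarith) hn2
  have hy1 : y < 1 := by
    rw [hy, div_lt_one hn2]
    linarith
  -- the small exponents
  obtain ⟨η, hη⟩ : ∃ η : ℝ, η = e / 16 := ⟨_, rfl⟩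
  have hη0 : 0 < η := by rw [hη]; positivity
  obtain ⟨a₁, ha₁⟩ := barG n hn y η hy0 hy1 hη0
  obtain ⟨C, hC⟩ := hup η hη0
  -- comparison of the exponents
  have hexp : u - 1 + η < ((n : ℝ) - 3) * y - η := by
    -- (n-3) y > u - 1 + e/8 ; multiply by (n-2)
    have h2 : ((n : ℝ) - 2) * (((n : ℝ) - 3) * y) = ((n : ℝ) - 3) * (u - c + e / 2) := by
      rw [← hy']; ring
    have h3 : ((n : ℝ) - 3) * (u - c + e / 2) = ((n : ℝ) - 2) * (u - 1) + ((n : ℝ) - 3) * (e / 2) := by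
      have : ((n : ℝ) - 3) * (u - c + e / 2) = ((n : ℝ) - 3) * u - c * ((n : ℝ) - 3) + ((n : ℝ) - 3) * (e / 2) := by
        ring
      rw [this, hc']; ring
    have h4 : ((n : ℝ) - 2) * (((n : ℝ) - 3) * y - η - (u - 1 + η)) =
        ((n : ℝ) - 3) * (e / 2) - ((n : ℝ) - 2) * (2 * η) := by
      rw [mul_sub, mul_sub, h2, h3]; ring
    have h5 : 0 < ((n : ℝ) - 3) * (e / 2) - ((n : ℝ) - 2) * (2 * η) := by
      rw [hη]; nlinarith
    rw [← h4] at h5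
    have h6 := (pos_iff_pos_of_mul_pos h5).1 hn2
    linarith
  obtain ⟨γ, hγ⟩ : ∃ γ : ℝ, γ = ((n : ℝ) - 3) * y - η - (u - 1 + η) := ⟨_, rfl⟩
  have hγ0 : 0 < γ := by rw [hγ]; linarith
  have hev : ∀ᶠ a : ℕ in atTop, |C| * 3 ^ (u - 1 + η) < (a : ℝ) ^ γ := by
    have h1 : Tendsto (fun a : ℕ => (a : ℝ) ^ γ) atTop atTop :=
      (tendsto_rpow_atTop hγ0).comp tendsto_natCast_atTop_atTop
    exact h1.eventually (eventually_gt_atTop _)
  obtain ⟨a₂, ha₂⟩ := eventually_atTop.1 hev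
  -- the range of h
  have hy0' : (u - 1) / ((n : ℝ) - 3) + e / (2 * ((n : ℝ) - 2)) = y := by
    rw [hy, hc]
    field_simp
    ring
  refine ⟨e / (2 * ((n : ℝ) - 2)), by positivity, max (max a₁ a₂) 1, fun a ha h hh1 hha hcop hpar => ?_⟩
  rw [hy0'] at hha
  have g1 : a₁ ≤ a := (le_max_left _ _).trans ((le_max_left _ _).trans ha)
  have g2 : a₂ ≤ a := (le_max_right _ _).trans ((le_max_left _ _).trans ha)
  have g3 : 1 ≤ a := (le_max_right _ _).trans ha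
  have haR : (1 : ℝ) ≤ a := by exact_mod_cast g3
  have ha0 : (0 : ℝ) < a := by linarith
  have hha' : (h : ℝ) ≤ a := by
    refine hha.trans ?_
    calc (a : ℝ) ^ y ≤ (a : ℝ) ^ (1 : ℝ) := Real.rpow_le_rpow_of_exponent_le haR hy1.le
      _ = a := Real.rpow_one _
  rw [← hc]
  by_contra hlt
  rw [not_le] at hlt
  have hlt' : (SN.radN ((a : ℤ) * ((a : ℤ) + (h : ℤ))) : ℝ) < (a : ℝ) ^ (c - e) :=
    lt_of_lt_of_le hlt (Real.rpow_le_rpow_of_exponent_le haR (by linarith))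
  obtain ⟨F, hF1, hF2⟩ := ha₁ a g1 h hh1 hha hcop hpar
  have hF : (F.card : ℝ) ≤ N (3 * a) := by
    refine hN _ F fun x hx => ?_
    obtain ⟨k1, k2, k3, k4, k5⟩ := hF2 x hx
    have ks : (a : ℝ) ≤ SN.size x := by exact_mod_cast k3
    refine ⟨k1, k2, ?_, ?_⟩
    · have k6 : (SN.size x : ℝ) ≤ (a : ℝ) + h := by exact_mod_cast k4
      linarith
    · calc (SN.radN (∏ i, x i) : ℝ) ≤
            (SN.radN ((a : ℤ) * ((a : ℤ) + (h : ℤ))) : ℝ) * (a : ℝ) ^ (((n : ℝ) - 2) * y + η) := k5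
        _ < (a : ℝ) ^ (c - e) * (a : ℝ) ^ (((n : ℝ) - 2) * y + η) :=
            mul_lt_mul_of_pos_right hlt' (by positivity)
        _ = (a : ℝ) ^ (c - e + (((n : ℝ) - 2) * y + η)) := by rw [← Real.rpow_add ha0]
        _ ≤ (a : ℝ) ^ u := by
            apply Real.rpow_le_rpow_of_exponent_le haR
            rw [mul_comm, hy', hη]
            linarith
        _ ≤ (SN.size x : ℝ) ^ u := Real.rpow_le_rpow ha0.le ks (by linarith)
  have h6 : (a : ℝ) ^ (((n : ℝ) - 3) * y - η) ≤ |C| * 3 ^ (u - 1 + η) * (a : ℝ) ^ (u - 1 + η) := by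
    calc (a : ℝ) ^ (((n : ℝ) - 3) * y - η) ≤ F.card := hF1
      _ ≤ N (3 * a) := hF
      _ ≤ C * (3 * (a : ℝ)) ^ (u - 1 + η) := hC _ (by linarith)
      _ ≤ |C| * (3 * (a : ℝ)) ^ (u - 1 + η) := mul_le_mul_of_nonneg_right (le_abs_self C) (by positivity)
      _ = _ := by rw [Real.mul_rpow (by norm_num) ha0.le]; ring
  have h7 := ha₂ a g2
  have h8 : (a : ℝ) ^ (((n : ℝ) - 3) * y - η) = (a : ℝ) ^ γ * (a : ℝ) ^ (u - 1 + η) := by
    rw [← Real.rpow_add ha0]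
    congr 1
    rw [hγ]; ring
  rw [h8] at h6
  have h9 : (0 : ℝ) < (a : ℝ) ^ (u - 1 + η) := by positivity
  have h10 := le_of_mul_le_mul_right h6 h9
  linarith

end Pool.Agent.H42.EX
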