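import Pool.Agent.H42.EX.Stm

set_option autoImplicit false

/-!
# Project EX, stub HOLD: points of a box which nearly satisfy one multiplicative relation

The indicator function of `|s| ≤ D / T` is majorised by a Gaussian, the Gaussian is the mean value of
`exp (i t s)` over a normal random variable `t`, and the mean value of the product of the Dirichlet
polynomials is bounded by Hölder's inequality and their moments.
-/

namespace Pool.Agent.H42.EX

namespace Hold

open Finset MeasureTheory ProbabilityTheory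

/-- the normal law with variance `T ^ 2` -/
noncomputable def mu (T : ℝ) : Measure ℝ := gaussianReal 0 (Real.toNNReal (T ^ 2))

instance (T : ℝ) : IsProbabilityMeasure (mu T) := by unfold mu; infer_instance

/-- the character `t ↦ exp (i x t)` -/
noncomputable def ch (x t : ℝ) : ℂ := Complex.exp ((x * t : ℝ) * Complex.I)

lemma ch_mul (x y t : ℝ) : ch x t * ch y t = ch (x + y) t := by
  unfold ch
  rw [← Complex.exp_add]
  congr 1
  push_cast
  ring

lemma ch_zero (t : ℝ) : ch 0 t = 1 := by simp [ch]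

lemma ch_sum {α : Type} (s : Finset α) (f : α → ℝ) (t : ℝ) :
    ∏ i ∈ s, ch (f i) t = ch (∑ i ∈ s, f i) t := by
  classical
  induction s using Finset.induction with
  | empty => simp [ch_zero]
  | insert a s ha ih => rw [prod_insert ha, sum_insert ha, ih, ch_mul]

lemma norm_ch (x t : ℝ) : ‖ch x t‖ = 1 := by
  unfold ch
  exact Complex.norm_exp_ofReal_mul_I _

lemma conj_ch (x t : ℝ) : (starRingEnd ℂ) (ch x t) = ch (-x) t := by
  unfold ch
  rw [← Complex.exp_conj, map_mul, Complex.conj_ofReal, Complex.conj_I]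
  congr 1
  push_cast
  ring

lemma ch_cont (x : ℝ) : Continuous (ch x) := by
  unfold ch
  fun_prop

lemma int_ch (T x : ℝ) : ∫ t, ch x t ∂(mu T) = ((Real.exp (-(T ^ 2 * x ^ 2 / 2)) : ℝ) : ℂ) := by
  have h := charFun_gaussianReal (μ := 0) (v := Real.toNNReal (T ^ 2)) x
  rw [charFun_apply_real] at h
  unfold mu ch
  have e : ∀ t : ℝ, Complex.exp ((x * t : ℝ) * Complex.I) =
      Complex.exp ((x : ℂ) * (t : ℂ) * Complex.I) := by
    intro t; push_cast; rfl
  simp only [e]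
  rw [h]
  have h2 : ((Real.toNNReal (T ^ 2) : NNReal) : ℝ) = T ^ 2 := Real.coe_toNNReal _ (sq_nonneg T)
  have h3 : (((Real.toNNReal (T ^ 2) : NNReal) : ℝ) : ℂ) = ((T ^ 2 : ℝ) : ℂ) := by rw [h2]
  rw [h3]
  push_cast
  congr 1
  ring

lemma integrable_of_cont {E : Type} [NormedAddCommGroup E] [NormedSpace ℝ E]
    [SecondCountableTopologyEither ℝ E] (T : ℝ) (f : ℝ → E)
    (hf : Continuous f) (K : ℝ) (hK : ∀ t, ‖f t‖ ≤ K) : Integrable f (mu T) :=
  Integrable.of_bound hf.aestronglyMeasurable K (Filter.Eventually.of_forall hK)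

lemma integrable_ch (T x : ℝ) : Integrable (ch x) (mu T) :=
  integrable_of_cont T _ (ch_cont x) 1 (fun t => (norm_ch x t).le)

/-- the Dirichlet polynomial -/
noncomputable def DD (B : Finset ℕ) (κ t : ℝ) : ℂ := ∑ z ∈ B, ch (κ * Real.log z) t

lemma DD_cont (B : Finset ℕ) (κ : ℝ) : Continuous (DD B κ) := by
  unfold DD
  exact continuous_finsetSum _ (fun z _ => ch_cont _)

lemma DD_norm (B : Finset ℕ) (κ t : ℝ) : ‖DD B κ t‖ ≤ B.card := by
  unfold DD
  refine (norm_sum_le _ _).trans ?_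
  simp [norm_ch]

lemma DD_prod {ι : Type} [Fintype ι] [DecidableEq ι] (B : ι → Finset ℕ) (κ : ι → ℝ) (t : ℝ) :
    ∏ i, DD (B i) (κ i) t = ∑ z ∈ Fintype.piFinset B, ch (∑ i, κ i * Real.log (z i)) t := by
  unfold DD
  rw [Finset.prod_univ_sum]
  apply Finset.sum_congr rfl
  intro z _
  exact ch_sum _ _ _

/-- the moments of the Dirichlet polynomial -/
lemma mom_eq (T : ℝ) (B : Finset ℕ) (κ : ℝ) (q : ℕ) :
    ∫ t, ‖DD B κ t‖ ^ (2 * q) ∂(mu T) =
      ∑ u ∈ Fintype.piFinset (fun _ : Fin q => B), ∑ v ∈ Fintype.piFinset (fun _ : Fin q => B),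
        Real.exp (-(T ^ 2 * (κ * (∑ i, Real.log (u i) - ∑ i, Real.log (v i))) ^ 2 / 2)) := by
  have hpow : ∀ t, DD B κ t ^ q =
      ∑ u ∈ Fintype.piFinset (fun _ : Fin q => B), ch (κ * ∑ i, Real.log (u i)) t := by
    intro t
    have h := DD_prod (fun _ : Fin q => B) (fun _ => κ) t
    rw [Finset.prod_const, Finset.card_univ, Fintype.card_fin] at h
    rw [h]
    apply Finset.sum_congr rfl
    intro u _
    rw [Finset.mul_sum]
  have hpt : ∀ t, ((‖DD B κ t‖ ^ (2 * q) : ℝ) : ℂ) =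
      ∑ u ∈ Fintype.piFinset (fun _ : Fin q => B), ∑ v ∈ Fintype.piFinset (fun _ : Fin q => B),
        ch (κ * (∑ i, Real.log (u i) - ∑ i, Real.log (v i))) t := by
    intro t
    have e1 : ((‖DD B κ t‖ ^ (2 * q) : ℝ) : ℂ) = DD B κ t ^ q * (starRingEnd ℂ) (DD B κ t ^ q) := by
      rw [Complex.mul_conj, Complex.normSq_eq_norm_sq, norm_pow]
      push_cast
      ring
    rw [e1, hpow t, map_sum, Finset.sum_mul_sum]
    apply Finset.sum_congr rfl
    intro u _
    apply Finset.sum_congr rfl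
    intro v _
    rw [conj_ch, ch_mul]
    congr 1
    ring
  have h1 : ((∫ t, ‖DD B κ t‖ ^ (2 * q) ∂(mu T) : ℝ) : ℂ) =
      ∫ t, ((‖DD B κ t‖ ^ (2 * q) : ℝ) : ℂ) ∂(mu T) := (integral_ofReal).symm
  have h2 : ((∫ t, ‖DD B κ t‖ ^ (2 * q) ∂(mu T) : ℝ) : ℂ) =
      ((∑ u ∈ Fintype.piFinset (fun _ : Fin q => B), ∑ v ∈ Fintype.piFinset (fun _ : Fin q => B),
        Real.exp (-(T ^ 2 * (κ * (∑ i, Real.log (u i) - ∑ i, Real.log (v i))) ^ 2 / 2)) : ℝ) : ℂ) := by
    rw [h1]
    simp only [hpt]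
    rw [integral_finsetSum _ (fun u _ => integrable_finsetSum _ (fun v _ => integrable_ch _ _))]
    push_cast
    apply Finset.sum_congr rfl
    intro u _
    rw [integral_finsetSum _ (fun v _ => integrable_ch _ _)]
    apply Finset.sum_congr rfl
    intro v _
    rw [int_ch]
    push_cast
    rfl
  exact_mod_cast h2

/-- the sum over the box -/
lemma box_le {ι : Type} [Fintype ι] [DecidableEq ι] (T τ : ℝ) (B : ι → Finset ℕ) (κ : ι → ℝ) :
    ∑ z ∈ Fintype.piFinset B, Real.exp (-(T ^ 2 * (τ + ∑ i, κ i * Real.log (z i)) ^ 2 / 2)) ≤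
      ∫ t, ∏ i, ‖DD (B i) (κ i) t‖ ∂(mu T) := by
  have hpt : ∀ t, ch τ t * ∏ i, DD (B i) (κ i) t =
      ∑ z ∈ Fintype.piFinset B, ch (τ + ∑ i, κ i * Real.log (z i)) t := by
    intro t
    rw [DD_prod, Finset.mul_sum]
    apply Finset.sum_congr rfl
    intro z _
    rw [ch_mul]
  have h1 : ∫ t, ch τ t * ∏ i, DD (B i) (κ i) t ∂(mu T) =
      ((∑ z ∈ Fintype.piFinset B,
        Real.exp (-(T ^ 2 * (τ + ∑ i, κ i * Real.log (z i)) ^ 2 / 2)) : ℝ) : ℂ) := by
    simp only [hpt]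
    rw [integral_finsetSum _ (fun u _ => integrable_ch _ _)]
    push_cast
    apply Finset.sum_congr rfl
    intro z _
    rw [int_ch]
    push_cast
    rfl
  have h2 : ‖((∑ z ∈ Fintype.piFinset B,
        Real.exp (-(T ^ 2 * (τ + ∑ i, κ i * Real.log (z i)) ^ 2 / 2)) : ℝ) : ℂ)‖ ≤
      ∫ t, ∏ i, ‖DD (B i) (κ i) t‖ ∂(mu T) := by
    rw [← h1]
    refine (norm_integral_le_integral_norm _).trans_eq ?_
    congr 1
    ext t
    rw [norm_mul, norm_ch, one_mul, norm_prod]
  refine le_trans ?_ h2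
  rw [Complex.norm_real]
  exact le_abs_self _

/-- Hölder's inequality for several functions -/
lemma holder {ι : Type} [Fintype ι] (T : ℝ) (g : ι → ℝ → ℝ) (hc : ∀ i, Continuous (g i))
    (h0 : ∀ i t, 0 ≤ g i t) (K : ι → ℝ) (hK : ∀ i t, g i t ≤ K i) (p : ι → ℝ) (hp : ∑ i, p i = 1)
    (hp0 : ∀ i, 0 < p i) (X : ι → ℝ) (hX : ∀ i, ∫ t, g i t ^ (1 / p i) ∂(mu T) ≤ X i) :
    ∫ t, ∏ i, g i t ∂(mu T) ≤ ∏ i, X i ^ p i := by
  have hcont : ∀ i, Continuous (fun t => g i t ^ (1 / p i)) := by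
    intro i
    exact (hc i).rpow_const (fun t => Or.inr (by have := hp0 i; positivity))
  have hnn : ∀ i t, 0 ≤ g i t ^ (1 / p i) := fun i t => Real.rpow_nonneg (h0 i t) _
  have hX0 : ∀ i, 0 ≤ X i := fun i => (integral_nonneg (hnn i)).trans (hX i)
  have hint : ∀ i, Integrable (fun t => g i t ^ (1 / p i)) (mu T) := by
    intro i
    apply integrable_of_cont T _ (hcont i) (K i ^ (1 / p i))
    intro t
    rw [Real.norm_of_nonneg (hnn i t)]
    exact Real.rpow_le_rpow (h0 i t) (hK i t) (by have := hp0 i; positivity)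
  have hprodc : Continuous (fun t => ∏ i, g i t) := continuous_finsetProd _ (fun i _ => hc i)
  have hprod0 : ∀ t, 0 ≤ ∏ i, g i t := fun t => Finset.prod_nonneg (fun i _ => h0 i t)
  have hprodi : Integrable (fun t => ∏ i, g i t) (mu T) := by
    apply integrable_of_cont T _ hprodc (∏ i, K i)
    intro t
    rw [Real.norm_of_nonneg (hprod0 t)]
    exact Finset.prod_le_prod (fun i _ => h0 i t) (fun i _ => hK i t)
  have h1 : ENNReal.ofReal (∫ t, ∏ i, g i t ∂(mu T)) ≤ ENNReal.ofReal (∏ i, X i ^ p i) := by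
    rw [ofReal_integral_eq_lintegral_ofReal hprodi (Filter.Eventually.of_forall hprod0)]
    have e1 : ∀ t, ENNReal.ofReal (∏ i, g i t) =
        ∏ i, (ENNReal.ofReal (g i t ^ (1 / p i))) ^ p i := by
      intro t
      rw [ENNReal.ofReal_prod_of_nonneg (fun i _ => h0 i t)]
      apply Finset.prod_congr rfl
      intro i _
      rw [ENNReal.ofReal_rpow_of_nonneg (hnn i t) (hp0 i).le, ← Real.rpow_mul (h0 i t),
        one_div_mul_cancel (hp0 i).ne', Real.rpow_one]
    simp only [e1]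
    refine (ENNReal.lintegral_prod_norm_pow_le (μ := mu T) Finset.univ
      (fun i _ => (hcont i).measurable.ennreal_ofReal.aemeasurable) hp
      (fun i _ => (hp0 i).le)).trans ?_
    rw [ENNReal.ofReal_prod_of_nonneg (fun i _ => Real.rpow_nonneg (hX0 i) _)]
    apply Finset.prod_le_prod'
    intro i _
    rw [← ENNReal.ofReal_rpow_of_nonneg (hX0 i) (hp0 i).le]
    apply ENNReal.rpow_le_rpow _ (hp0 i).le
    rw [← ofReal_integral_eq_lintegral_ofReal (hint i) (Filter.Eventually.of_forall (hnn i))]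
    exact ENNReal.ofReal_le_ofReal (hX i)
  exact (ENNReal.ofReal_le_ofReal_iff (Finset.prod_nonneg
    (fun i _ => Real.rpow_nonneg (hX0 i) _))).1 h1

/-- the exponents in Hölder's inequality -/
lemma pow_X {Z A W q : ℝ} (hZ : 1 ≤ Z) (hA : 0 ≤ A) (hW : 1 ≤ W) (hq : 0 < q) :
    ((3 * Z) ^ (2 * q * (W - 1)) * (A * Z ^ (2 * q))) ^ (1 / (2 * q) / W) ≤
      3 * Z * A ^ (1 / (2 * q) / W) := by
  have hZ0 : 0 < Z := by linarith
  have hW0 : 0 < W := by linarith
  rw [Real.mul_rpow (by positivity) (by positivity), Real.mul_rpow hA (by positivity),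
    ← Real.rpow_mul (by positivity), ← Real.rpow_mul (by positivity)]
  have e1 : 2 * q * (W - 1) * (1 / (2 * q) / W) = 1 - 1 / W := by field_simp
  have e2 : 2 * q * (1 / (2 * q) / W) = 1 / W := by field_simp
  rw [e1, e2]
  have h1 : (3 * Z) ^ (1 - 1 / W) * Z ^ (1 / W) ≤ 3 * Z := by
    calc (3 * Z) ^ (1 - 1 / W) * Z ^ (1 / W) ≤ (3 * Z) ^ (1 - 1 / W) * (3 * Z) ^ (1 / W) := by
          apply mul_le_mul_of_nonneg_left _ (by positivity)
          exact Real.rpow_le_rpow hZ0.le (by linarith) (by positivity)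
      _ = 3 * Z := by
          rw [← Real.rpow_add (by positivity)]
          simp
  calc (3 * Z) ^ (1 - 1 / W) * (A ^ (1 / (2 * q) / W) * Z ^ (1 / W))
      = ((3 * Z) ^ (1 - 1 / W) * Z ^ (1 / W)) * A ^ (1 / (2 * q) / W) := by ring
    _ ≤ _ := mul_le_mul_of_nonneg_right h1 (by positivity)

theorem main : S_MOM → S_HOLD := by
  intro hM ι _ Q ε D hε hD
  classical
  have hM' : ∀ q : ℕ, ∃ C : ℝ, 1 ≤ C ∧ (1 ≤ q → ∀ (H T Z : ℝ), 1 ≤ T → 1 ≤ Z → Z ≤ H → T ≤ Z ^ q →
      ∀ B : Finset ℕ, (∀ z ∈ B, Z ≤ (z : ℝ) ∧ (z : ℝ) ≤ 2 * Z) →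
      ∑ u ∈ Fintype.piFinset (fun _ : Fin q => B), ∑ v ∈ Fintype.piFinset (fun _ : Fin q => B),
        Real.exp (-(T ^ 2 * (∑ i, Real.log (u i) - ∑ i, Real.log (v i)) ^ 2 / 2)) ≤
          C * H ^ ε * Z ^ (2 * q) / T) := by
    intro q
    by_cases hq : 1 ≤ q
    · obtain ⟨C, hC, h⟩ := hM q ε hq hε
      exact ⟨C, hC, fun _ => h⟩
    · exact ⟨1, le_rfl, fun h => absurd h hq⟩
  choose Cm hCm1 hCm using hM'
  obtain ⟨C0, hC0⟩ : ∃ C0, C0 = ∑ q ∈ range (Q + 1), Cm q := ⟨_, rfl⟩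
  have hC0le : ∀ q, q ≤ Q → Cm q ≤ C0 := by
    intro q hq
    rw [hC0]
    exact Finset.single_le_sum (f := Cm) (fun i _ => by linarith [hCm1 i])
      (Finset.mem_range.2 (by omega))
  have hC01 : 1 ≤ C0 := (hCm1 0).trans (hC0le 0 (Nat.zero_le _))
  refine ⟨Real.exp (D ^ 2 / 2) * 3 ^ (Fintype.card ι) * C0, ?_, ?_⟩
  · have h1 : (1 : ℝ) ≤ Real.exp (D ^ 2 / 2) := Real.one_le_exp (by positivity)
    have h2 : (1 : ℝ) ≤ 3 ^ (Fintype.card ι) := one_le_pow₀ (by norm_num)
    exact one_le_mul_of_one_le_of_one_le (one_le_mul_of_one_le_of_one_le h1 h2) hC01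
  intro H T τ Z κ q hT hZ hκ hq hW G hG1 hG2
  have hT0 : 0 < T := by linarith
  obtain ⟨B, hBdef⟩ : ∃ B : ι → Finset ℕ,
      B = fun i => (range (⌊2 * Z i⌋₊ + 1)).filter (fun z : ℕ => Z i ≤ (z : ℝ)) := ⟨_, rfl⟩
  have hB : ∀ i, ∀ z ∈ B i, Z i ≤ (z : ℝ) ∧ (z : ℝ) ≤ 2 * Z i := by
    intro i z hz
    rw [hBdef, Finset.mem_filter, Finset.mem_range, Nat.lt_add_one_iff] at hz
    refine ⟨hz.2, ?_⟩
    have h1 : (0 : ℝ) ≤ 2 * Z i := by linarith [(hZ i).1]
    exact (Nat.le_floor_iff h1).1 hz.1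
  have hBc : ∀ i, ((B i).card : ℝ) ≤ 3 * Z i := by
    intro i
    have h1 : (B i).card ≤ ⌊2 * Z i⌋₊ + 1 := by
      rw [hBdef]
      exact (Finset.card_filter_le _ _).trans_eq (Finset.card_range _)
    have h2 : (⌊2 * Z i⌋₊ : ℝ) ≤ 2 * Z i := Nat.floor_le (by linarith [(hZ i).1])
    have h3 : ((B i).card : ℝ) ≤ (⌊2 * Z i⌋₊ : ℝ) + 1 := by exact_mod_cast h1
    linarith [(hZ i).1]
  have hGB : G ⊆ Fintype.piFinset B := by
    intro z hz
    rw [Fintype.mem_piFinset]
    intro i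
    rw [hBdef, Finset.mem_filter, Finset.mem_range, Nat.lt_add_one_iff]
    exact ⟨Nat.le_floor (hG1 z hz i).2, (hG1 z hz i).1⟩
  -- the Gaussian majorant
  have step1 : (G.card : ℝ) * Real.exp (-(D ^ 2 / 2)) ≤ ∫ t, ∏ i, ‖DD (B i) (κ i) t‖ ∂(mu T) := by
    calc (G.card : ℝ) * Real.exp (-(D ^ 2 / 2)) = ∑ _z ∈ G, Real.exp (-(D ^ 2 / 2)) := by
          rw [Finset.sum_const, nsmul_eq_mul]
      _ ≤ ∑ z ∈ G, Real.exp (-(T ^ 2 * (τ + ∑ i, κ i * Real.log (z i)) ^ 2 / 2)) := by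
          apply Finset.sum_le_sum
          intro z hz
          apply Real.exp_le_exp.2
          have h1 := hG2 z hz
          rw [le_div_iff₀ hT0] at h1
          have h2 : (T * (τ + ∑ i, κ i * Real.log (z i))) ^ 2 ≤ D ^ 2 := by
            apply sq_le_sq'
            · have := neg_abs_le (τ + ∑ i, κ i * Real.log (z i))
              nlinarith
            · have := le_abs_self (τ + ∑ i, κ i * Real.log (z i))
              nlinarith
          rw [mul_pow] at h2
          linarith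
      _ ≤ ∑ z ∈ Fintype.piFinset B, Real.exp (-(T ^ 2 * (τ + ∑ i, κ i * Real.log (z i)) ^ 2 / 2)) :=
          Finset.sum_le_sum_of_subset_of_nonneg hGB (fun _ _ _ => (Real.exp_pos _).le)
      _ ≤ _ := box_le T τ B κ
  -- Hölder's inequality
  obtain ⟨W, hWdef⟩ : ∃ W : ℝ, W = ∑ i, 1 / (2 * (q i : ℝ)) := ⟨_, rfl⟩
  rw [← hWdef] at hW
  have hW0 : 0 < W := by linarith
  have hq0 : ∀ i, (0 : ℝ) < q i := fun i => by exact_mod_cast (hq i).1
  obtain ⟨A, hA⟩ : ∃ A : ℝ, A = C0 * H ^ ε / T := ⟨_, rfl⟩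
  have hι : Nonempty ι := by
    by_contra hne
    rw [not_nonempty_iff] at hne
    rw [Fintype.sum_empty] at hWdef
    linarith
  have hH : 1 ≤ H := (hZ hι.some).1.trans (hZ hι.some).2
  have hA0 : 0 ≤ A := by rw [hA]; positivity
  have hmom : ∀ i, ∫ t, ‖DD (B i) (κ i) t‖ ^ (2 * q i) ∂(mu T) ≤ A * Z i ^ (2 * q i) := by
    intro i
    rw [mom_eq]
    calc _ ≤ ∑ u ∈ Fintype.piFinset (fun _ : Fin (q i) => B i),
            ∑ v ∈ Fintype.piFinset (fun _ : Fin (q i) => B i),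
            Real.exp (-(T ^ 2 * (∑ j, Real.log (u j) - ∑ j, Real.log (v j)) ^ 2 / 2)) := by
          apply Finset.sum_le_sum
          intro u _
          apply Finset.sum_le_sum
          intro v _
          apply Real.exp_le_exp.2
          have h1 : 1 ≤ κ i ^ 2 := by
            rw [← sq_abs]
            exact one_le_pow₀ (hκ i)
          have h2 : 0 ≤ T ^ 2 * (∑ j, Real.log (u j) - ∑ j, Real.log (v j)) ^ 2 := by positivity
          rw [mul_pow]
          nlinarith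
      _ ≤ Cm (q i) * H ^ ε * Z i ^ (2 * q i) / T :=
          hCm (q i) (hq i).1 H T (Z i) hT (hZ i).1 (hZ i).2 (hq i).2.2 (B i) (hB i)
      _ ≤ C0 * H ^ ε * Z i ^ (2 * q i) / T := by
          have := hC0le (q i) (hq i).2.1
          have h3 : 0 ≤ Z i := by linarith [(hZ i).1]
          gcongr
      _ = A * Z i ^ (2 * q i) := by rw [hA]; ring
  have step2 := holder T (fun i t => ‖DD (B i) (κ i) t‖) (fun i => (DD_cont _ _).norm)
    (fun i t => norm_nonneg _) (fun i => 3 * Z i) (fun i t => (DD_norm _ _ _).trans (hBc i))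
    (fun i => 1 / (2 * (q i : ℝ)) / W)
    (by rw [← Finset.sum_div, ← hWdef, div_self hW0.ne'])
    (fun i => by have := hq0 i; positivity)
    (fun i => (3 * Z i) ^ (2 * (q i : ℝ) * (W - 1)) * (A * Z i ^ (2 * (q i : ℝ)))) (by
      intro i
      have hqi := hq0 i
      have hZi : 0 ≤ 3 * Z i := by linarith [(hZ i).1]
      have e1 : 1 / (1 / (2 * (q i : ℝ)) / W) = ((2 * q i : ℕ) : ℝ) + 2 * (q i : ℝ) * (W - 1) := by
        push_cast
        field_simp
        ring
      have hWm : 0 ≤ 2 * (q i : ℝ) * (W - 1) := by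
        have : 0 ≤ W - 1 := by linarith
        positivity
      have hpt : ∀ t, ‖DD (B i) (κ i) t‖ ^ (1 / (1 / (2 * (q i : ℝ)) / W)) ≤
          (3 * Z i) ^ (2 * (q i : ℝ) * (W - 1)) * ‖DD (B i) (κ i) t‖ ^ (2 * q i) := by
        intro t
        rw [e1, Real.rpow_add_of_nonneg (norm_nonneg _) (by positivity) hWm, Real.rpow_natCast,
          mul_comm]
        apply mul_le_mul_of_nonneg_right _ (by positivity)
        exact Real.rpow_le_rpow (norm_nonneg _) ((DD_norm _ _ _).trans (hBc i)) hWm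
      have hc2 : Continuous (fun t => (3 * Z i) ^ (2 * (q i : ℝ) * (W - 1)) *
          ‖DD (B i) (κ i) t‖ ^ (2 * q i)) := by
        exact continuous_const.mul ((DD_cont _ _).norm.pow _)
      have hc1 : Continuous (fun t => ‖DD (B i) (κ i) t‖ ^ (1 / (1 / (2 * (q i : ℝ)) / W))) :=
        (DD_cont _ _).norm.rpow_const (fun t => Or.inr (by rw [e1]; positivity))
      have hi2 : Integrable (fun t => (3 * Z i) ^ (2 * (q i : ℝ) * (W - 1)) *
          ‖DD (B i) (κ i) t‖ ^ (2 * q i)) (mu T) := by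
        apply integrable_of_cont T _ hc2 ((3 * Z i) ^ (2 * (q i : ℝ) * (W - 1)) *
          (3 * Z i) ^ (2 * q i))
        intro t
        rw [Real.norm_of_nonneg (by positivity)]
        apply mul_le_mul_of_nonneg_left _ (by positivity)
        exact pow_le_pow_left₀ (norm_nonneg _) ((DD_norm _ _ _).trans (hBc i)) _
      have hi1 : Integrable (fun t => ‖DD (B i) (κ i) t‖ ^ (1 / (1 / (2 * (q i : ℝ)) / W)))
          (mu T) := by
        apply hi2.mono' hc1.aestronglyMeasurable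
        filter_upwards with t
        rw [Real.norm_of_nonneg (by positivity)]
        exact hpt t
      calc _ ≤ ∫ t, (3 * Z i) ^ (2 * (q i : ℝ) * (W - 1)) *
          ‖DD (B i) (κ i) t‖ ^ (2 * q i) ∂(mu T) := integral_mono hi1 hi2 hpt
        _ = (3 * Z i) ^ (2 * (q i : ℝ) * (W - 1)) *
          ∫ t, ‖DD (B i) (κ i) t‖ ^ (2 * q i) ∂(mu T) := by rw [integral_const_mul]
        _ ≤ (3 * Z i) ^ (2 * (q i : ℝ) * (W - 1)) * (A * Z i ^ (2 * q i)) :=
          mul_le_mul_of_nonneg_left (hmom i) (by positivity)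
        _ = _ := by
          congr 2
          rw [← Real.rpow_natCast]
          push_cast
          rfl)
  have step3 : ∏ i, ((3 * Z i) ^ (2 * (q i : ℝ) * (W - 1)) * (A * Z i ^ (2 * (q i : ℝ)))) ^
      (1 / (2 * (q i : ℝ)) / W) ≤ 3 ^ (Fintype.card ι) * (∏ i, Z i) * A := by
    calc _ ≤ ∏ i, (3 * Z i * A ^ (1 / (2 * (q i : ℝ)) / W)) := by
          apply Finset.prod_le_prod
          · intro i _
            have := (hZ i).1
            positivity
          · intro i _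
            exact pow_X (hZ i).1 hA0 hW (hq0 i)
      _ = 3 ^ (Fintype.card ι) * (∏ i, Z i) * ∏ i, A ^ (1 / (2 * (q i : ℝ)) / W) := by
          rw [Finset.prod_mul_distrib, Finset.prod_mul_distrib, Finset.prod_const,
            Finset.card_univ]
      _ = _ := by
          rw [← Real.rpow_sum_of_nonneg hA0 (fun i _ => by have := hq0 i; positivity),
            ← Finset.sum_div, ← hWdef, div_self hW0.ne', Real.rpow_one]
  have hfin := (step1.trans step2).trans step3
  have hexp : Real.exp (D ^ 2 / 2) * Real.exp (-(D ^ 2 / 2)) = 1 := by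
    rw [← Real.exp_add]; simp
  calc (G.card : ℝ) = Real.exp (D ^ 2 / 2) * ((G.card : ℝ) * Real.exp (-(D ^ 2 / 2))) := by
        rw [mul_left_comm, hexp, mul_one]
    _ ≤ Real.exp (D ^ 2 / 2) * (3 ^ (Fintype.card ι) * (∏ i, Z i) * A) :=
        mul_le_mul_of_nonneg_left hfin (Real.exp_pos _).le
    _ = _ := by rw [hA]; ring

end Hold

end Pool.Agent.H42.EX
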