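import Pool.Agent.H42.EX.Par
import Pool.Agent.H42.EX.Stm2

set_option autoImplicit false

/-!
# Project EX: many tuples with small radical, exponents between `n - 2` and `n - 1`
-/

namespace Pool.Agent.H42.EX.Low

open Finset Filter Topology
open Pool.Agent.H42.SN

theorem card_biUnion_ge' {α β : Type*} [DecidableEq α] [DecidableEq β] (A : Finset α) (B : α → Finset β)
    (hd : ∀ a ∈ A, ∀ a' ∈ A, ∀ b, b ∈ B a → b ∈ B a' → a = a') {N : ℕ} (hN : ∀ a ∈ A, N ≤ (B a).card) :
    A.card * N ≤ (A.biUnion B).card := by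
  rw [Finset.card_biUnion]
  · calc A.card * N = ∑ _a ∈ A, N := by rw [sum_const, smul_eq_mul]
      _ ≤ ∑ a ∈ A, (B a).card := sum_le_sum hN
  · intro a ha a' ha' hne
    show Disjoint (B a) (B a')
    rw [Finset.disjoint_left]
    intro b hb hb'
    exact hne (hd a ha a' ha' b hb hb')

/-- The factors `w`. -/
theorem exists_W {W : ℕ} (hW : 0 < W) {A : ℝ} (hA : 8 * W ≤ A) :
    ∃ S : Finset ℕ, A / (4 * W) ≤ S.card ∧ ∀ w ∈ S, A / 2 ≤ w ∧ (w : ℝ) ≤ A ∧ (W : ℤ) ∣ (w : ℤ) - 1 := by
  have hWR : (1 : ℝ) ≤ W := by exact_mod_cast hW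
  have hA0 : 0 < A := by linarith
  refine ⟨(Ioc ⌊A / (2 * W)⌋₊ ⌊(A - 1) / W⌋₊).image (fun i => 1 + W * i), ?_, ?_⟩
  · rw [Finset.card_image_of_injective _ (fun i i' h => by
      have h : 1 + W * i = 1 + W * i' := h
      have : W * i = W * i' := by omega
      exact Nat.eq_of_mul_eq_mul_left hW this)]
    rw [Nat.card_Ioc]
    have h1 : (⌊A / (2 * W)⌋₊ : ℝ) ≤ A / (2 * W) := Nat.floor_le (by positivity)
    have h2 : (A - 1) / W < (⌊(A - 1) / W⌋₊ : ℝ) + 1 := Nat.lt_floor_add_one _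
    have h3 : A / (4 * W) ≤ (A - 1) / W - 1 - A / (2 * W) := by
      rw [div_sub' (by positivity), div_sub_div _ _ (by positivity) (by positivity),
        div_le_div_iff₀ (by positivity) (by positivity)]
      nlinarith [mul_nonneg (mul_nonneg (by linarith : (0 : ℝ) ≤ (W : ℝ)) (by linarith : (0 : ℝ) ≤ (W : ℝ))) (by linarith : (0 : ℝ) ≤ A - 8 * W),
        mul_nonneg (mul_nonneg (by linarith : (0 : ℝ) ≤ (W : ℝ)) (by linarith : (0 : ℝ) ≤ (W : ℝ))) (by linarith : (0 : ℝ) ≤ (W : ℝ) - 1)]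
    have h4 : ((⌊(A - 1) / W⌋₊ - ⌊A / (2 * W)⌋₊ : ℕ) : ℝ) ≥ (⌊(A - 1) / W⌋₊ : ℝ) - ⌊A / (2 * W)⌋₊ := by
      rcases le_total ⌊A / (2 * W)⌋₊ ⌊(A - 1) / W⌋₊ with h | h
      · rw [Nat.cast_sub h]
      · rw [Nat.sub_eq_zero_of_le h]
        have : (⌊(A - 1) / W⌋₊ : ℝ) ≤ ⌊A / (2 * W)⌋₊ := by exact_mod_cast h
        push_cast
        linarith
    linarith
  · intro w hw
    obtain ⟨i, hi, rfl⟩ := mem_image.mp hw
    rw [mem_Ioc] at hi
    have h1 : A / (2 * W) < i := (Nat.floor_lt (by positivity)).mp hi.1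
    have h2 : (i : ℝ) ≤ (A - 1) / W := by
      have h3 : (i : ℝ) ≤ (⌊(A - 1) / W⌋₊ : ℝ) := by exact_mod_cast hi.2
      exact h3.trans (Nat.floor_le (div_nonneg (by linarith) (by linarith)))
    rw [div_lt_iff₀ (by positivity)] at h1
    rw [le_div_iff₀ (by linarith)] at h2
    push_cast
    refine ⟨by nlinarith, by nlinarith, ⟨i, by ring⟩⟩

theorem inj_aux {q w w' k k' : ℕ} (hq : 2 ≤ q) (h : ¬ q ∣ w) (h' : ¬ q ∣ w')
    (e : q ^ k * w = q ^ k' * w') : w = w' := by
  rcases lt_trichotomy k k' with h1 | h1 | h1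
  · exfalso
    obtain ⟨d, hd⟩ := Nat.exists_eq_add_of_lt h1
    have e2 : q ^ k * w = q ^ k * (q * (q ^ d * w')) := by
      rw [e, hd]; ring
    have e3 := Nat.eq_of_mul_eq_mul_left (pow_pos (by omega) k) e2
    exact h ⟨_, e3⟩
  · subst h1
    exact Nat.eq_of_mul_eq_mul_left (pow_pos (by omega) k) e
  · exfalso
    obtain ⟨d, hd⟩ := Nat.exists_eq_add_of_lt h1
    have e2 : q ^ k' * w' = q ^ k' * (q * (q ^ d * w)) := by
      rw [← e, hd]; ring
    have e3 := Nat.eq_of_mul_eq_mul_left (pow_pos (by omega) k') e2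
    exact h' ⟨_, e3⟩

/-- The core `(1, b)`. -/
theorem core_pair {b : ℤ} (hb : 0 < b) : Core (![1, b] : Fin 2 → ℤ) where
  ne := by
    intro i
    fin_cases i
    · simp
    · simpa using hb.ne'
  cop := by
    intro i i' h
    fin_cases i <;> fin_cases i'
    · exact absurd rfl h
    · exact isCoprime_one_left
    · exact isCoprime_one_right
    · exact absurd rfl h
  free := by
    intro S hS
    have hpos : ∀ i ∈ S, 0 < (![1, b] : Fin 2 → ℤ) i := by
      intro i _
      fin_cases i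
      · simp
      · simpa using hb
    exact (Finset.sum_pos hpos hS).ne'

theorem exists_q (t : ℕ) : ∃ q : ℕ, q.Prime ∧ q ≤ 3 ∧ q ∣ 6 ∧
    ∀ k w : ℕ, 1 ≤ k → (6 : ℤ) ∣ (w : ℤ) - 1 → Even ((1 : ℤ) + (q : ℤ) ^ k * w + t) := by
  rcases Nat.even_or_odd t with ht | ht
  · refine ⟨3, Nat.prime_three, le_rfl, by norm_num, ?_⟩
    intro k w _ hw
    have h1 : Odd (w : ℤ) := by
      obtain ⟨z, hz⟩ := hw
      exact ⟨3 * z, by linarith⟩
    have h2 : Odd ((3 : ℤ) ^ k * w) := (Odd.pow (by decide)).mul h1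
    have h3 : Even (t : ℤ) := by exact_mod_cast ht
    exact (odd_one.add_odd h2).add h3
  · refine ⟨2, Nat.prime_two, by norm_num, by norm_num, ?_⟩
    intro k w hk _
    have h2 : Even ((2 : ℤ) ^ k * w) := (even_two.pow_of_ne_zero (by omega)).mul_right _
    have h3 : Odd (t : ℤ) := by exact_mod_cast ht
    have e : (1 : ℤ) + ((2 : ℕ) : ℤ) ^ k * w + t = (1 + t) + (2 : ℤ) ^ k * w := by push_cast; ring
    rw [e]
    exact (odd_one.add_odd h3).add h2

theorem main : S_LOW := by
  classical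
  intro n hn lam ε hlam hlam' hε
  obtain ⟨t, rfl⟩ : ∃ t, n = 2 + t + 2 := ⟨n - 4, by omega⟩
  have hnR : ((2 + t + 2 : ℕ) : ℝ) = t + 4 := by push_cast; ring
  rw [hnR] at hlam hlam'
  have htR : (0 : ℝ) ≤ (t : ℝ) := by positivity
  set α : ℝ := lam - (t + 2) with hα
  have hα0 : 0 < α := by rw [hα]; linarith
  have hα1 : α < 1 := by rw [hα]; linarith
  set θ : ℝ := min (min (ε / (3 * t + 5)) (α / 4)) (1 / 8) with hθ
  have hθ0 : 0 < θ := lt_min (lt_min (by positivity) (by positivity)) (by norm_num)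
  have hθ1 : (3 * t + 5) * θ ≤ ε := by
    have h1 : θ ≤ ε / (3 * t + 5) := (min_le_left _ _).trans (min_le_left _ _)
    rw [le_div_iff₀ (by positivity)] at h1
    linarith
  have hθ2 : θ ≤ α / 4 := (min_le_left _ _).trans (min_le_right _ _)
  have hθ3 : θ ≤ 1 / 8 := min_le_right _ _
  obtain ⟨q, hqp, hq3, hq6, hqpar⟩ := exists_q t
  have hq2 : 2 ≤ q := hqp.two_le
  have hq2R : (2 : ℝ) ≤ q := by exact_mod_cast hq2
  have hq3R : (q : ℝ) ≤ 3 := by exact_mod_cast hq3
  set D : ℝ := 4 * ((t : ℝ) + 4) with hD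
  have hD1 : 1 ≤ D := by rw [hD]; linarith
  have hD0 : 0 < D := by linarith
  set cst : ℝ := (t + 2) * (2 * t + 3) with hcst
  have hcst0 : 0 < cst := by rw [hcst]; positivity
  have key : ∀ᶠ T : ℝ in atTop, ∃ F : Finset (Fin (2 + t + 2) → ℤ), (D * T) ^ (lam - 1 - ε) ≤ (F.card : ℝ) ∧
      ∀ x ∈ F, Adm x ∧ NVS x ∧ (size x : ℝ) ≤ D * T ∧ (radN (∏ i, x i) : ℝ) < (size x : ℝ) ^ lam := by
    have ev : ∀ᶠ T : ℝ in atTop,
        (2 ≤ T ∧ (t : ℝ) + 1 ≤ T) ∧ (8 * ((6 : ℕ) : ℝ) ≤ 1 * T ^ (α - θ)) ∧ (6 ≤ 1 * T ^ (1 - α + θ)) ∧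
        (3 * cst * 6 ^ lam + 1 ≤ 1 * T ^ θ) ∧ (24 * D ^ (lam - 1) ≤ 1 * T ^ θ) := by
      refine ((eventually_ge_atTop 2).and (eventually_ge_atTop _)).and
        ((ev_const_le (by linarith) one_pos).and ((ev_const_le (by linarith) one_pos).and
          ((ev_const_le hθ0 one_pos).and (ev_const_le hθ0 one_pos))))
    filter_upwards [ev, Par.ev_par (2 + t) t (κ := (t : ℝ) + 3) (by positivity) hθ0 hθ3] with T hT hpar
    obtain ⟨⟨g1, g2⟩, g3, g4, g5, g6⟩ := hT
    rw [one_mul] at g3 g4 g5 g6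
    obtain ⟨Y, N, hpar, hN⟩ := hpar
    have hT0 : 0 < T := by linarith
    have hT1 : 1 ≤ T := by linarith
    have hlogT : 0 ≤ Real.log T := Real.log_nonneg hT1
    set A : ℝ := T ^ (α - θ) with hA
    have hA0 : 0 < A := by positivity
    obtain ⟨S, hS1, hS2⟩ := exists_W (W := 6) (by norm_num) g3
    have hAT : 6 * A ≤ T := by
      calc 6 * A ≤ T ^ (1 - α + θ) * T ^ (α - θ) := mul_le_mul_of_nonneg_right g4 hA0.le
        _ = T := by rw [← Real.rpow_add hT0]; simp
    have hw : ∀ w ∈ S, ∃ (k : ℕ) (F : Finset (Fin (2 + t + 2) → ℤ)), N ^ (t + 1) ≤ F.card ∧ ∀ x ∈ F,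
        x (Fin.castAdd t (1 : Fin 2)).castSucc.castSucc = (q : ℤ) ^ k * w ∧
        Adm x ∧ NVS x ∧ (size x : ℝ) ≤ D * T ∧ (radN (∏ i, x i) : ℝ) < (size x : ℝ) ^ lam := by
      intro w hwS
      obtain ⟨w1, w2, w3⟩ := hS2 w hwS
      have hw0 : (0 : ℝ) < w := lt_of_lt_of_le (by positivity) w1
      have hw0' : w ≠ 0 := by
        rintro rfl
        simp at hw0
      have hx1 : (q : ℝ) ≤ T / (2 * w) := by
        rw [le_div_iff₀ (by positivity)]
        nlinarith
      obtain ⟨k, hk1, hk2⟩ := exists_nat_pow_near (x := T / (2 * w)) (y := (q : ℝ)) (by linarith) (by linarith)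
      have hk : 1 ≤ k := by
        by_contra h
        have : k = 0 := by omega
        subst this
        simp at hk2
        linarith
      rw [le_div_iff₀ (by positivity)] at hk1
      rw [div_lt_iff₀ (by positivity)] at hk2
      set b : ℤ := (q : ℤ) ^ k * w with hb
      have hbR : (b : ℝ) = (q : ℝ) ^ k * w := by rw [hb]; push_cast; ring
      have hbpos : 0 < b := by
        rw [hb]
        have h1 : (0 : ℤ) < q := by exact_mod_cast (by omega : 0 < q)
        have h2 : (0 : ℤ) < w := by exact_mod_cast (by omega : 0 < w)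
        positivity
      have hbR0 : (0 : ℝ) < b := by exact_mod_cast hbpos
      have hb1 : (b : ℝ) ≤ T / 2 := by rw [hbR]; linarith
      have hb2 : T / 6 ≤ (b : ℝ) := by
        have : (q : ℝ) ^ (k + 1) * (2 * w) = 2 * q * b := by rw [hbR]; ring
        rw [this] at hk2
        have h3 : 2 * (q : ℝ) * b ≤ 6 * b := mul_le_mul_of_nonneg_right (by linarith) hbR0.le
        linarith
      have hsum : ∑ i, (![1, b] : Fin 2 → ℤ) i = 1 + b := by simp
      have hprod : ∏ i, (![1, b] : Fin 2 → ℤ) i = b := by simp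
      obtain ⟨F, hF1, hF2⟩ := fullCount hpar (le_refl (2 + t)) (core_pair hbpos)
        (by rw [hsum]; exact hqpar k w hk w3)
        (by rw [hsum]; omega)
        (by
          rw [hsum]
          push_cast
          rw [abs_of_pos (by linarith)]
          linarith)
        (by
          rw [hprod, abs_of_pos hbR0]
          have h1 : Real.log b ≤ Real.log T := Real.log_le_log hbR0 (by linarith)
          have h2 : Real.log ((t + 1) * T) ≤ 2 * Real.log T := by
            have h1 : ((t : ℝ) + 1) * T ≤ T * T := mul_le_mul g2 le_rfl hT0.le hT0.le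
            have h2 := Real.log_le_log (by positivity) h1
            rw [Real.log_mul hT0.ne' hT0.ne'] at h2
            linarith
          linarith)
      refine ⟨k, F, hF1, ?_⟩
      intro x hx
      obtain ⟨x1, x2, x3, x4, x5⟩ := hF2 x hx
      have hx1' := x3 1
      have hx1'' : x (Fin.castAdd t (1 : Fin 2)).castSucc.castSucc = b := by rw [hx1']; simp
      have hsize1 : (b : ℝ) ≤ size x := by
        have h1 := le_size x (Fin.castAdd t (1 : Fin 2)).castSucc.castSucc
        rw [hx1'', abs_of_pos hbR0] at h1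
        exact h1
      have hsize2 : (size x : ℝ) ≤ D * T := by
        refine size_le (by positivity) ?_
        intro i
        rcases x5 i with ⟨i', h⟩ | h
        · rw [h]
          have hT' : T ≤ D * T := by nlinarith
          fin_cases i'
          · simp only [Fin.zero_eta, Fin.isValue, Matrix.cons_val_zero, Int.cast_one, abs_one]
            linarith
          · simp only [Fin.mk_one, Fin.isValue, Matrix.cons_val_one, Matrix.cons_val_fin_one]
            rw [abs_of_pos hbR0]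
            linarith
        · refine h.trans ?_
          apply mul_le_mul_of_nonneg_right _ hT0.le
          rw [hD]; linarith
      refine ⟨hx1'', x1, x2, hsize2, ?_⟩
      have hrad0 : (radN (∏ i, (![1, b] : Fin 2 → ℤ) i) : ℝ) ≤ 3 * A := by
        rw [hprod]
        have h1 : (radN b : ℝ) ≤ |(((q : ℤ) * (w : ℤ) : ℤ) : ℝ)| := by
          apply radN_le (mul_ne_zero (by exact_mod_cast (by omega : q ≠ 0)) (by exact_mod_cast hw0'))
          intro p hp hd
          have hpp : Prime (p : ℤ) := Nat.prime_iff_prime_int.mp hp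
          rw [hb] at hd
          rcases hpp.dvd_or_dvd hd with h | h
          · exact (hpp.dvd_of_dvd_pow h).mul_right _
          · exact h.mul_left _
        refine h1.trans ?_
        push_cast
        rw [abs_of_nonneg (by positivity)]
        exact mul_le_mul hq3R w2 hw0.le (by norm_num)
      have hlam0 : 0 < lam := by linarith
      have e1 : (T : ℝ) ^ lam = T ^ (α - θ) * T ^ (t + 2) * T ^ θ := by
        rw [← Real.rpow_natCast T (t + 2), ← Real.rpow_add hT0, ← Real.rpow_add hT0]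
        congr 1
        rw [hα]; push_cast; ring
      have hlow : T ^ lam ≤ (size x : ℝ) ^ lam * 6 ^ lam := by
        rw [← Real.mul_rpow (by positivity) (by norm_num)]
        exact Real.rpow_le_rpow hT0.le (by linarith) hlam0.le
      have h6 : (0 : ℝ) < 6 ^ lam := by positivity
      have hup : (radN (∏ i, x i) : ℝ) * 6 ^ lam ≤ (3 * cst * 6 ^ lam) * (A * T ^ (t + 2)) := by
        calc (radN (∏ i, x i) : ℝ) * 6 ^ lam ≤ ((3 * A) * cst * T ^ (t + 2)) * 6 ^ lam := by
              apply mul_le_mul_of_nonneg_right _ h6.le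
              refine x4.trans ?_
              apply mul_le_mul_of_nonneg_right _ (by positivity)
              exact mul_le_mul_of_nonneg_right hrad0 hcst0.le
          _ = (3 * cst * 6 ^ lam) * (A * T ^ (t + 2)) := by ring
      have hAT' : 0 < A * T ^ (t + 2) := by positivity
      have h9 : (radN (∏ i, x i) : ℝ) * 6 ^ lam < (size x : ℝ) ^ lam * 6 ^ lam := by
        refine lt_of_le_of_lt hup (lt_of_lt_of_le ?_ hlow)
        rw [e1]
        calc (3 * cst * 6 ^ lam) * (A * T ^ (t + 2)) < T ^ θ * (A * T ^ (t + 2)) :=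
              mul_lt_mul_of_pos_right (by linarith) hAT'
          _ = T ^ (α - θ) * T ^ (t + 2) * T ^ θ := by rw [hA]; ring
      exact lt_of_mul_lt_mul_right h9 h6.le
    choose! k F hF1 hF2 using hw
    refine ⟨S.biUnion F, ?_, ?_⟩
    · have h1 : S.card * N ^ (t + 1) ≤ (S.biUnion F).card := by
        refine card_biUnion_ge' S F ?_ hF1
        intro w hw w' hw' x hx hx'
        have e1 := (hF2 w hw x hx).1
        have e2 := (hF2 w' hw' x hx').1
        rw [e1] at e2
        have e3 : q ^ k w * w = q ^ k w' * w' := by exact_mod_cast e2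
        have hnd : ∀ w ∈ S, ¬ q ∣ w := by
          intro w hw hd
          have h6 := (hS2 w hw).2.2
          have h1 : (q : ℤ) ∣ (w : ℤ) - 1 := dvd_trans (by exact_mod_cast hq6) h6
          have h2 : (q : ℤ) ∣ (w : ℤ) := by exact_mod_cast hd
          have h3 : (q : ℤ) ∣ 1 := by
            have := dvd_sub h2 h1
            simpa using this
          have h4 : q ∣ 1 := by exact_mod_cast h3
          exact hqp.one_lt.ne' (Nat.dvd_one.mp h4)
        exact inj_aux hq2 (hnd w hw) (hnd w' hw') e3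
      have hlam1 : 0 ≤ lam - 1 := by linarith
      have h2 : (D * T) ^ (lam - 1 - ε) ≤ D ^ (lam - 1) * T ^ (lam - 1 - ε) := by
        rw [Real.mul_rpow hD0.le hT0.le]
        apply mul_le_mul_of_nonneg_right _ (by positivity)
        exact Real.rpow_le_rpow_of_exponent_le hD1 (by linarith)
      have h3 : T ^ (lam - 1 - ε) ≤ T ^ (α - θ) * (T ^ (1 - 3 * θ)) ^ (t + 1) * T ^ (-θ) := by
        rw [← Real.rpow_natCast (T ^ (1 - 3 * θ)), ← Real.rpow_mul hT0.le, ← Real.rpow_add hT0, ← Real.rpow_add hT0]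
        apply Real.rpow_le_rpow_of_exponent_le hT1
        rw [hα]
        push_cast
        nlinarith
      have h4 : T ^ θ * T ^ (-θ) = 1 := by rw [← Real.rpow_add hT0]; simp
      have h5 : (0 : ℝ) < T ^ (-θ) := by positivity
      have h24 : 24 * (D * T) ^ (lam - 1 - ε) ≤ A * (T ^ (1 - 3 * θ)) ^ (t + 1) := by
        calc 24 * (D * T) ^ (lam - 1 - ε) ≤ 24 * (D ^ (lam - 1) * (T ^ (α - θ) * (T ^ (1 - 3 * θ)) ^ (t + 1) * T ^ (-θ))) := by
              apply mul_le_mul_of_nonneg_left _ (by norm_num)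
              refine h2.trans ?_
              exact mul_le_mul_of_nonneg_left h3 (by positivity)
          _ = (24 * D ^ (lam - 1)) * (T ^ (α - θ) * (T ^ (1 - 3 * θ)) ^ (t + 1) * T ^ (-θ)) := by ring
          _ ≤ T ^ θ * (T ^ (α - θ) * (T ^ (1 - 3 * θ)) ^ (t + 1) * T ^ (-θ)) :=
              mul_le_mul_of_nonneg_right g6 (by positivity)
          _ = (T ^ θ * T ^ (-θ)) * (T ^ (α - θ) * (T ^ (1 - 3 * θ)) ^ (t + 1)) := by ring
          _ = A * (T ^ (1 - 3 * θ)) ^ (t + 1) := by rw [h4, one_mul]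
      have hS1' : A / 24 ≤ (S.card : ℝ) := by
        have : A / (4 * ((6 : ℕ) : ℝ)) = A / 24 := by norm_num
        rw [this] at hS1
        exact hS1
      calc (D * T) ^ (lam - 1 - ε) ≤ A / 24 * (T ^ (1 - 3 * θ)) ^ (t + 1) := by linarith
        _ ≤ (S.card : ℝ) * (N : ℝ) ^ (t + 1) :=
          mul_le_mul hS1' (pow_le_pow_left₀ (by positivity) hN _) (by positivity) (by positivity)
        _ ≤ ((S.biUnion F).card : ℝ) := by exact_mod_cast h1
    · intro x hx
      obtain ⟨w, hw, hx⟩ := mem_biUnion.mp hx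
      exact (hF2 w hw x hx).2
  have htend : Tendsto (fun X : ℝ => X / D) atTop atTop := tendsto_id.atTop_div_const hD0
  filter_upwards [htend.eventually key] with X hX
  rw [mul_div_cancel₀ _ hD0.ne'] at hX
  exact hX

end Pool.Agent.H42.EX.Low
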