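import Pool.Agent.H42.EX.Stm
import Pool.Agent.H42.EX.Div

set_option autoImplicit false

/-!
# Project EX, stub MOM: near-coincidences of two products of `q` factors
-/

namespace Pool.Agent.H42.EX

namespace Mom

open Finset

/-- a bounded increasing function -/
noncomputable def kk (x : ℝ) : ℝ := x / (1 + |x|)

lemma kk_abs (x : ℝ) : |kk x| ≤ 1 := by
  unfold kk
  have h : 0 < 1 + |x| := by positivity
  rw [abs_div, abs_of_pos h, div_le_one h]
  linarith [abs_nonneg x]

lemma kk_neg (x : ℝ) : kk (-x) = - kk x := by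
  unfold kk
  rw [abs_neg, neg_div]

lemma kk_mono {x y : ℝ} (h : x ≤ y) : kk x ≤ kk y := by
  unfold kk
  have hx : 0 < 1 + |x| := by positivity
  have hy : 0 < 1 + |y| := by positivity
  rw [div_le_div_iff₀ hx hy]
  rcases le_total 0 x with h1 | h1 <;> rcases le_total 0 y with h2 | h2
  · rw [abs_of_nonneg h1, abs_of_nonneg h2]; nlinarith
  · have : x = 0 := by linarith
    have : y = 0 := by linarith
    subst_vars
    simp
  · rw [abs_of_nonpos h1, abs_of_nonneg h2]; nlinarith
  · rw [abs_of_nonpos h1, abs_of_nonpos h2]; nlinarith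

lemma kk_step {a y : ℝ} (ha : 0 < a) (ha1 : a ≤ 1) :
    1 / (1 + y ^ 2 / 2) ≤ 6 / a * (kk (y + a) - kk (y - a)) := by
  -- the case of nonnegative numbers
  have key : ∀ y : ℝ, 0 ≤ y → 1 / (1 + y ^ 2 / 2) ≤ 6 / a * (kk (y + a) - kk (y - a)) := by
    intro y hy
    have h1 : kk (y - a) ≤ kk y := kk_mono (by linarith)
    have h2 : kk (y + a) - kk y = a / ((1 + y) * (1 + y + a)) := by
      unfold kk
      rw [abs_of_nonneg hy, abs_of_nonneg (by linarith : (0:ℝ) ≤ y + a)]
      have : (1 + y) ≠ 0 := by positivity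
      have : (1 + (y + a)) ≠ 0 := by positivity
      have : (1 + y + a) ≠ 0 := by positivity
      field_simp
      ring
    have h3 : 6 / a * (a / ((1 + y) * (1 + y + a))) = 6 / ((1 + y) * (1 + y + a)) := by
      field_simp
    have h4 : 1 / (1 + y ^ 2 / 2) ≤ 6 / ((1 + y) * (1 + y + a)) := by
      rw [div_le_div_iff₀ (by positivity) (by positivity)]
      nlinarith [sq_nonneg (4 * y - 3), mul_nonneg hy (by linarith : (0:ℝ) ≤ 1 - a)]
    calc 1 / (1 + y ^ 2 / 2) ≤ 6 / a * (kk (y + a) - kk y) := by rw [h2, h3]; exact h4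
      _ ≤ _ := by
        apply mul_le_mul_of_nonneg_left (by linarith) (by positivity)
  rcases le_total 0 y with h | h
  · exact key y h
  · have h1 := key (-y) (by linarith)
    have h2 : -y + a = -(y - a) := by ring
    have h3 : -y - a = -(y + a) := by ring
    rw [h2, h3, kk_neg, kk_neg, neg_sq] at h1
    calc 1 / (1 + y ^ 2 / 2) ≤ 6 / a * (-kk (y - a) - -kk (y + a)) := h1
      _ = _ := by ring

lemma sum_le {a U : ℝ} (ha : 0 < a) (ha1 : a ≤ 1) (n : ℕ) :
    ∑ V ∈ range n, 1 / (1 + (a * ((V : ℝ) - U)) ^ 2 / 2) ≤ 24 / a := by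
  have h : ∑ V ∈ range n, 1 / (1 + (a * ((V : ℝ) - U)) ^ 2 / 2) ≤
      6 / a * (kk (a * ((n : ℝ) - U)) + kk (a * ((n : ℝ) - U) - a) - kk (a * (0 - U)) -
        kk (a * (0 - U) - a)) := by
    induction n with
    | zero => simp
    | succ n ih =>
      rw [sum_range_succ]
      have h1 := kk_step (y := a * ((n : ℝ) - U)) ha ha1
      have e1 : a * (((n + 1 : ℕ) : ℝ) - U) = a * ((n : ℝ) - U) + a := by push_cast; ring
      have e2 : a * ((n : ℝ) - U) + a - a = a * ((n : ℝ) - U) := by ring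
      rw [e1, e2]
      calc _ ≤ 6 / a * (kk (a * ((n : ℝ) - U)) + kk (a * ((n : ℝ) - U) - a) - kk (a * (0 - U)) -
        kk (a * (0 - U) - a)) + 6 / a * (kk (a * ((n : ℝ) - U) + a) - kk (a * ((n : ℝ) - U) - a)) :=
            add_le_add ih h1
        _ = _ := by ring
  refine h.trans ?_
  have b1 := abs_le.1 (kk_abs (a * ((n : ℝ) - U)))
  have b2 := abs_le.1 (kk_abs (a * ((n : ℝ) - U) - a))
  have b3 := abs_le.1 (kk_abs (a * (0 - U)))
  have b4 := abs_le.1 (kk_abs (a * (0 - U) - a))
  calc _ ≤ 6 / a * 4 := by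
        apply mul_le_mul_of_nonneg_left (by linarith [b1.1, b1.2, b2.1, b2.2, b3.1, b3.2, b4.1, b4.2])
          (by positivity)
    _ = 24 / a := by ring

/-- the logarithms of different integers -/
lemma log_sub {U V M : ℝ} (hU : 0 < U) (hV : 0 < V) (hUM : U ≤ M) (hVM : V ≤ M) :
    |V - U| / M ≤ |Real.log U - Real.log V| := by
  have hM : 0 < M := by linarith
  have key : ∀ U V : ℝ, 0 < U → 0 < V → U ≤ M → V ≤ U → (U - V) / M ≤ Real.log U - Real.log V := by
    intro U V hU hV hUM h
    rw [← Real.log_div hU.ne' hV.ne']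
    have h1 := Real.one_sub_inv_le_log_of_pos (div_pos hU hV)
    have h2 : 1 - (U / V)⁻¹ = (U - V) / U := by
      rw [inv_div]; field_simp
    rw [h2] at h1
    refine le_trans ?_ h1
    exact div_le_div_of_nonneg_left (by linarith) hU hUM
  rcases le_total V U with h | h
  · have h1 := key U V hU hV hUM h
    rw [abs_sub_comm, abs_of_nonneg (by linarith : 0 ≤ U - V)]
    exact h1.trans (le_abs_self _)
  · have h1 := key V U hV hU hVM h
    rw [abs_of_nonneg (by linarith : 0 ≤ V - U), abs_sub_comm]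
    exact h1.trans (le_abs_self _)

lemma exp_le {x y : ℝ} (h : |y| ≤ |x|) : Real.exp (-(x ^ 2 / 2)) ≤ 1 / (1 + y ^ 2 / 2) := by
  have h1 : y ^ 2 ≤ x ^ 2 := sq_le_sq.2 h
  rw [Real.exp_neg, one_div]
  apply inv_anti₀ (by positivity)
  have := Real.add_one_le_exp (x ^ 2 / 2)
  linarith

/-- a sum grouped by the values of a function -/
lemma group_sum {α : Type} (S : Finset α) (g : α → ℕ) (w : ℕ → ℝ) (hw : ∀ V, 0 ≤ w V)
    (K : ℝ) (hK : 0 ≤ K) (N : ℕ) (h1 : ∀ V, (∃ v ∈ S, g v = V) → ((S.filter (fun v => g v = V)).card : ℝ) ≤ K)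
    (h2 : ∀ v ∈ S, g v ∈ range N) : ∑ v ∈ S, w (g v) ≤ K * ∑ V ∈ range N, w V := by
  rw [← Finset.sum_fiberwise_of_maps_to h2, Finset.mul_sum]
  apply Finset.sum_le_sum
  intro V _
  have e : ∑ v ∈ S with g v = V, w (g v) = ((S.filter (fun v => g v = V)).card : ℝ) * w V := by
    rw [← nsmul_eq_mul, ← Finset.sum_const]
    apply Finset.sum_congr rfl
    intro v hv
    rw [(Finset.mem_filter.1 hv).2]
  rw [e]
  by_cases hV : ∃ v ∈ S, g v = V
  · exact mul_le_mul_of_nonneg_right (h1 V hV) (hw V)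
  · have : S.filter (fun v => g v = V) = ∅ := by
      apply Finset.filter_eq_empty_iff.2
      intro v hv h
      exact hV ⟨v, hv, h⟩
    rw [this]
    simp only [Finset.card_empty, Nat.cast_zero, zero_mul]
    exact mul_nonneg hK (hw V)

/-- the number of tuples with a given product -/
lemma card_prod (q : ℕ) (B : Finset ℕ) (W : ℕ) (hW : W ≠ 0) :
    ((Fintype.piFinset (fun _ : Fin q => B)).filter (fun v => ∏ i, v i = W)).card ≤
      W.divisors.card ^ q := by
  calc _ ≤ (Fintype.piFinset (fun _ : Fin q => W.divisors)).card := by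
        apply Finset.card_le_card
        intro t ht
        rw [Finset.mem_filter] at ht
        rw [Fintype.mem_piFinset]
        intro i
        rw [Nat.mem_divisors]
        exact ⟨ht.2 ▸ Finset.dvd_prod_of_mem t (Finset.mem_univ i), hW⟩
    _ = _ := by simp [Fintype.card_piFinset]

theorem main : S_MOM := by
  intro q ε hq hε
  have hq0 : (0 : ℝ) < q := by exact_mod_cast hq
  obtain ⟨C₁, hC₁, hdiv⟩ := card_divisors_le_rpow (ε / (q : ℝ) ^ 2) (by positivity)
  refine ⟨C₁ ^ q * 2 ^ ε * 24 * 6 ^ q, ?_, ?_⟩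
  · have h1 : (1 : ℝ) ≤ C₁ ^ q := one_le_pow₀ hC₁
    have h2 : (1 : ℝ) ≤ 2 ^ ε := Real.one_le_rpow (by norm_num) hε.le
    have h3 : (1 : ℝ) ≤ 6 ^ q := one_le_pow₀ (by norm_num)
    have h4 := one_le_mul_of_one_le_of_one_le h1 h2
    have h5 := one_le_mul_of_one_le_of_one_le h4 (by norm_num : (1:ℝ) ≤ 24)
    exact one_le_mul_of_one_le_of_one_le h5 h3
  intro H T Z hT hZ hZH hTZ B hB
  classical
  have hH : 1 ≤ H := hZ.trans hZH
  set M : ℝ := (2 * Z) ^ q with hM
  have hM0 : 0 < M := by positivity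
  have hTM : T ≤ M := hTZ.trans (pow_le_pow_left₀ (by positivity) (by linarith) q)
  set a : ℝ := T / M with ha
  have ha0 : 0 < a := by positivity
  have ha1 : a ≤ 1 := (div_le_one hM0).2 hTM
  -- the products
  have hpos : ∀ u ∈ Fintype.piFinset (fun _ : Fin q => B), 0 < ∏ i, u i ∧
      ((∏ i, u i : ℕ) : ℝ) ≤ M := by
    intro u hu
    rw [Fintype.mem_piFinset] at hu
    constructor
    · apply Finset.prod_pos
      intro i _
      have := (hB _ (hu i)).1
      have h0 : (0 : ℝ) < (u i : ℝ) := by linarith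
      exact_mod_cast h0
    · push_cast
      calc ∏ i, (u i : ℝ) ≤ ∏ _i : Fin q, (2 * Z) :=
            Finset.prod_le_prod (fun i _ => Nat.cast_nonneg _) (fun i _ => (hB _ (hu i)).2)
        _ = M := by simp [hM]
  have hlog : ∀ u ∈ Fintype.piFinset (fun _ : Fin q => B),
      ∑ i, Real.log (u i) = Real.log ((∏ i, u i : ℕ) : ℝ) := by
    intro u hu
    rw [Fintype.mem_piFinset] at hu
    push_cast
    rw [Real.log_prod]
    intro i _
    have := (hB _ (hu i)).1
    have h0 : (0 : ℝ) < (u i : ℝ) := by linarith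
    exact h0.ne'
  -- the sum over `v`
  set K : ℝ := C₁ ^ q * 2 ^ ε * H ^ ε with hK
  have hK0 : 0 ≤ K := by positivity
  have inner : ∀ u ∈ Fintype.piFinset (fun _ : Fin q => B),
      ∑ v ∈ Fintype.piFinset (fun _ : Fin q => B),
        Real.exp (-(T ^ 2 * (∑ i, Real.log (u i) - ∑ i, Real.log (v i)) ^ 2 / 2)) ≤
      K * (24 / a) := by
    intro u hu
    obtain ⟨hU0, hUM⟩ := hpos u hu
    set U : ℝ := ((∏ i, u i : ℕ) : ℝ) with hU
    have hU0' : 0 < U := by rw [hU]; exact_mod_cast hU0
    calc ∑ v ∈ Fintype.piFinset (fun _ : Fin q => B),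
          Real.exp (-(T ^ 2 * (∑ i, Real.log (u i) - ∑ i, Real.log (v i)) ^ 2 / 2))
        ≤ ∑ v ∈ Fintype.piFinset (fun _ : Fin q => B),
          (fun V : ℕ => 1 / (1 + (a * ((V : ℝ) - U)) ^ 2 / 2)) (∏ i, v i) := by
          apply Finset.sum_le_sum
          intro v hv
          obtain ⟨hV0, hVM⟩ := hpos v hv
          rw [hlog u hu, hlog v hv]
          have e1 : T ^ 2 * (Real.log U - Real.log ((∏ i, v i : ℕ) : ℝ)) ^ 2 / 2 =
              (T * (Real.log U - Real.log ((∏ i, v i : ℕ) : ℝ))) ^ 2 / 2 := by ring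
          rw [e1]
          apply exp_le
          rw [abs_mul, abs_mul, abs_of_pos ha0, abs_of_pos (by linarith : 0 < T)]
          have h1 := log_sub (U := U) (V := ((∏ i, v i : ℕ) : ℝ)) (M := M) hU0'
            (by exact_mod_cast hV0) hUM hVM
          calc a * |((∏ i, v i : ℕ) : ℝ) - U| = T * (|((∏ i, v i : ℕ) : ℝ) - U| / M) := by
                rw [ha]; ring
            _ ≤ _ := mul_le_mul_of_nonneg_left h1 (by linarith)
      _ ≤ K * ∑ V ∈ range (⌊M⌋₊ + 1), (1 / (1 + (a * ((V : ℝ) - U)) ^ 2 / 2)) := by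
          refine group_sum (Fintype.piFinset (fun _ : Fin q => B)) (fun v => ∏ i, v i)
            (fun V : ℕ => 1 / (1 + (a * ((V : ℝ) - U)) ^ 2 / 2)) (fun V => by positivity) K hK0 _
            ?_ ?_
          · rintro W ⟨v, hv, rfl⟩
            obtain ⟨hV0, hVM⟩ := hpos v hv
            obtain ⟨W, hW⟩ : ∃ W : ℕ, W = ∏ i, v i := ⟨_, rfl⟩
            rw [← hW] at hV0 hVM ⊢
            have h1 := card_prod q B W hV0.ne'
            have h2 := hdiv W hV0.ne'
            have hWH : (W : ℝ) ≤ (2 * H) ^ (q : ℝ) := by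
              rw [Real.rpow_natCast]
              exact hVM.trans (pow_le_pow_left₀ (by positivity) (by linarith) q)
            calc ((((Fintype.piFinset (fun _ : Fin q => B)).filter (fun v => ∏ i, v i = W)).card : ℕ) : ℝ)
                ≤ ((W.divisors.card ^ q : ℕ) : ℝ) := by exact_mod_cast h1
              _ = (W.divisors.card : ℝ) ^ q := by push_cast; ring
              _ ≤ (C₁ * (W : ℝ) ^ (ε / (q : ℝ) ^ 2)) ^ q := pow_le_pow_left₀ (by positivity) h2 q
              _ = C₁ ^ q * (W : ℝ) ^ (ε / q) := by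
                  rw [mul_pow, ← Real.rpow_natCast ((W : ℝ) ^ (ε / (q : ℝ) ^ 2)),
                    ← Real.rpow_mul (by positivity)]
                  congr 2
                  field_simp
              _ ≤ C₁ ^ q * ((2 * H) ^ (q : ℝ)) ^ (ε / q) := by
                  apply mul_le_mul_of_nonneg_left _ (by positivity)
                  exact Real.rpow_le_rpow (by positivity) hWH (by positivity)
              _ = C₁ ^ q * (2 * H) ^ ε := by
                  rw [← Real.rpow_mul (by positivity)]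
                  congr 2
                  field_simp
              _ = K := by
                  rw [Real.mul_rpow (by norm_num) (by positivity), hK]
                  ring
          · intro v hv
            rw [Finset.mem_range, Nat.lt_add_one_iff]
            exact Nat.le_floor (hpos v hv).2
      _ ≤ _ := mul_le_mul_of_nonneg_left (sum_le ha0 ha1 _) hK0
  -- the number of the `u`
  have hcard : ((Fintype.piFinset (fun _ : Fin q => B)).card : ℝ) ≤ (3 * Z) ^ q := by
    rw [Fintype.card_piFinset]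
    simp only [Finset.prod_const, Finset.card_univ, Fintype.card_fin]
    push_cast
    apply pow_le_pow_left₀ (by positivity)
    have h1 : B.card ≤ ⌊2 * Z⌋₊ + 1 := by
      calc B.card ≤ (range (⌊2 * Z⌋₊ + 1)).card := by
            apply Finset.card_le_card
            intro z hz
            rw [Finset.mem_range, Nat.lt_add_one_iff]
            exact Nat.le_floor (hB z hz).2
        _ = _ := Finset.card_range _
    have h2 : (⌊2 * Z⌋₊ : ℝ) ≤ 2 * Z := Nat.floor_le (by positivity)
    have h3 : (B.card : ℝ) ≤ (⌊2 * Z⌋₊ : ℝ) + 1 := by exact_mod_cast h1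
    linarith
  calc ∑ u ∈ Fintype.piFinset (fun _ : Fin q => B), ∑ v ∈ Fintype.piFinset (fun _ : Fin q => B),
        Real.exp (-(T ^ 2 * (∑ i, Real.log (u i) - ∑ i, Real.log (v i)) ^ 2 / 2))
      ≤ ∑ _u ∈ Fintype.piFinset (fun _ : Fin q => B), K * (24 / a) := Finset.sum_le_sum inner
    _ = ((Fintype.piFinset (fun _ : Fin q => B)).card : ℝ) * (K * (24 / a)) := by
        rw [Finset.sum_const, nsmul_eq_mul]
    _ ≤ (3 * Z) ^ q * (K * (24 / a)) := by
        apply mul_le_mul_of_nonneg_right hcard (by positivity)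
    _ = C₁ ^ q * 2 ^ ε * 24 * 6 ^ q * H ^ ε * Z ^ (2 * q) / T := by
        rw [hK, ha, hM]
        have h6 : (6 : ℝ) ^ q = 3 ^ q * 2 ^ q := by rw [← mul_pow]; norm_num
        rw [h6, mul_pow, mul_pow, two_mul q, pow_add]
        have hT0 : T ≠ 0 := by positivity
        have : ((2 : ℝ) ^ q * Z ^ q) ≠ 0 := by positivity
        field_simp

end Mom

end Pool.Agent.H42.EX
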