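import Pool.Agent.H42.EX.Stm4

set_option autoImplicit false

/-! EX3-NUM (helper63): the final inequality -/

namespace Pool.Agent.H42.EX.Num

open Finset

theorem main : S_NUM := by
  intro n p s σ Δ ε hn hp hσ hΔ0 hΔ hε0 hε _ _ h8 h9
  have hn' : (30 : ℝ) ≤ n := by exact_mod_cast hn
  obtain ⟨N, hN⟩ : ∃ N : ℝ, N = (n : ℝ) - 6 := ⟨_, rfl⟩
  have hN24 : 24 ≤ N := by linarith
  have hσ0 : 0 < σ := by
    refine lt_of_lt_of_le ?_ hσ
    apply div_pos
    · linarith
    · exact mul_pos (mul_pos (by linarith) (by linarith)) (by linarith)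
  rw [← hN] at hΔ hε
  -- the main inequality
  have hA : ∀ h : ℕ, h + 1 ≤ p → (h : ℝ) * (N - 2 * h - 202 / 100) < 4 * p := by
    intro h hh
    have h1 := h9 h hh
    have hh0 : (0 : ℝ) ≤ h := Nat.cast_nonneg h
    have hp0 : (0 : ℝ) ≤ p := Nat.cast_nonneg p
    have h2 : (h : ℝ) * (N - 2 * h - 202 / 100) * σ ≤ N * (h * (σ - Δ - ε - h * Δ)) := by
      have h3 : (N - 2 * h - 202 / 100) * σ ≤ N * (σ - Δ - ε - h * Δ) := by
        have h4 : (1 + h) * (N * Δ) ≤ (1 + h) * (2 * σ) :=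
          mul_le_mul_of_nonneg_left hΔ (by linarith)
        nlinarith
      calc (h : ℝ) * (N - 2 * h - 202 / 100) * σ = h * ((N - 2 * h - 202 / 100) * σ) := by ring
        _ ≤ h * (N * (σ - Δ - ε - h * Δ)) := mul_le_mul_of_nonneg_left h3 hh0
        _ = _ := by ring
    have h3 : N * (h * (σ - Δ - ε - h * Δ)) < N * (2 * p * Δ) :=
      mul_lt_mul_of_pos_left h1 (by linarith)
    have h4 : N * (2 * p * Δ) ≤ 4 * p * σ := by
      have := mul_le_mul_of_nonneg_left hΔ (by linarith : (0 : ℝ) ≤ 2 * p)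
      linarith
    have h5 : (h : ℝ) * (N - 2 * h - 202 / 100) * σ < 4 * p * σ := by linarith
    exact lt_of_mul_lt_mul_right h5 hσ0.le
  by_cases hc : ((p : ℝ) - 1) ≤ N / 4
  · have h1 := hA (p - 1) (by omega)
    rw [Nat.cast_sub (by omega), Nat.cast_one] at h1
    obtain ⟨q, hq⟩ : ∃ q : ℝ, q = (p : ℝ) - 1 := ⟨_, rfl⟩
    have hp2 : (2 : ℝ) ≤ p := by exact_mod_cast hp
    have hq1 : 1 ≤ q := by linarith
    rw [← hq] at h1 hc
    have hpq : (p : ℝ) = q + 1 := by linarith
    rw [hpq] at h1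
    have h2 : q * (N / 2 - 202 / 100) ≤ q * (N - 2 * q - 202 / 100) :=
      mul_le_mul_of_nonneg_left (by linarith) (by linarith)
    nlinarith
  · push Not at hc
    obtain ⟨h, hh⟩ : ∃ h : ℕ, h = (n - 6) / 4 := ⟨_, rfl⟩
    have e1 : 4 * h ≤ n - 6 := by omega
    have e2 : n - 6 ≤ 4 * h + 3 := by omega
    have e1' : 4 * (h : ℝ) ≤ N := by
      rw [hN]
      have : ((4 * h : ℕ) : ℝ) ≤ ((n - 6 : ℕ) : ℝ) := by exact_mod_cast e1
      rw [Nat.cast_sub (by omega)] at this
      push_cast at this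
      exact this
    have e2' : N ≤ 4 * (h : ℝ) + 3 := by
      rw [hN]
      have : ((n - 6 : ℕ) : ℝ) ≤ ((4 * h + 3 : ℕ) : ℝ) := by exact_mod_cast e2
      rw [Nat.cast_sub (by omega)] at this
      push_cast at this
      exact this
    have hhp : h + 1 ≤ p := by
      have : (h : ℝ) + 1 < p := by linarith
      exact_mod_cast this.le
    have h1 := hA h hhp
    have h2 : N * (N - 404 / 100) / 8 ≤ (h : ℝ) * (N - 2 * h - 202 / 100) := by
      nlinarith [mul_nonneg (sub_nonneg.2 e1') (sub_nonneg.2 e2')]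
    -- upper bound for `p`
    have h3 : (p : ℝ) * σ * (N - 6) < N := by
      have h4 : σ * (N - 6) ≤ N * (σ - 3 * Δ) := by nlinarith
      calc (p : ℝ) * σ * (N - 6) = p * (σ * (N - 6)) := by ring
        _ ≤ p * (N * (σ - 3 * Δ)) := mul_le_mul_of_nonneg_left h4 (Nat.cast_nonneg p)
        _ = N * (p * (σ - 3 * Δ)) := by ring
        _ < N * 1 := mul_lt_mul_of_pos_left h8 (by linarith)
        _ = N := mul_one N
    have hσ' : 32 * (N + 3) ≤ σ * ((N + 5) * (N + 4) * (N - 17)) := by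
      have e : 32 * ((n : ℝ) - 3) / (((n : ℝ) - 1) * ((n : ℝ) - 2) * ((n : ℝ) - 23)) =
          32 * (N + 3) / ((N + 5) * (N + 4) * (N - 17)) := by
        rw [hN]
        ring_nf
      rw [e, div_le_iff₀ (by
        exact mul_pos (mul_pos (by linarith) (by linarith)) (by linarith))] at hσ
      exact hσ
    have h4 : N * (N - 404 / 100) / 8 < 4 * p := lt_of_le_of_lt h2 h1
    -- combine
    obtain ⟨Q, hQ⟩ : ∃ Q : ℝ, Q = (N + 5) * (N + 4) * (N - 17) := ⟨_, rfl⟩
    rw [← hQ] at hσ'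
    have hQ0 : 0 < Q := by
      rw [hQ]
      exact mul_pos (mul_pos (by linarith) (by linarith)) (by linarith)
    have h5 : N * (N - 404 / 100) * ((N + 3) * (N - 6)) < N * Q := by
      have a1 : N * (N - 404 / 100) < 32 * p := by linarith
      have a2 : N * (N - 404 / 100) * ((N + 3) * (N - 6)) < 32 * p * ((N + 3) * (N - 6)) :=
        mul_lt_mul_of_pos_right a1 (mul_pos (by linarith) (by linarith))
      have a3 : 32 * (p : ℝ) * ((N + 3) * (N - 6)) ≤ p * (N - 6) * (σ * Q) := by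
        have := mul_le_mul_of_nonneg_left hσ' (mul_nonneg (Nat.cast_nonneg (α := ℝ) p)
          (by linarith : (0 : ℝ) ≤ N - 6))
        linarith
      have a4 : (p : ℝ) * (N - 6) * (σ * Q) < N * Q := by
        have := mul_lt_mul_of_pos_right h3 hQ0
        linarith
      linarith
    have h6 : (N - 404 / 100) * ((N + 3) * (N - 6)) < Q := by
      have : N * ((N - 404 / 100) * ((N + 3) * (N - 6))) < N * Q := by linarith
      exact lt_of_mul_lt_mul_left this (by linarith)
    rw [hQ] at h6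
    nlinarith

end Pool.Agent.H42.EX.Num
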