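import Pool.Agent.H42.EX.Stm5

set_option autoImplicit false

namespace Pool.Agent.H42.EX.Num4

theorem core {p h : ℕ} {t σ Δ ε q2 : ℝ} (ht : 0 < t) (ht1 : 4 * t ^ 2 ≤ 3) (hΔ : Δ = t ^ 3 / 16)
    (hσ : t ^ 2 - t ^ 3 / 320 ≤ σ) (hε : ε ≤ t ^ 3 / 8000)
    (hp : (p : ℝ) * (σ - 3 * Δ) < 1)
    (hq2 : q2 = 1 - t * (263 / 4000 + 1 / 16 * h)) (hq20 : 0 ≤ q2)
    (hh : (h : ℝ) * (σ - Δ - ε - h * Δ) < 2 * p * Δ) :
    (h : ℝ) * t * ((1 - 61 / 320 * t) * q2) < 1 / 8 := by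
  have ht2 : t < 1 := by nlinarith
  have hΔp : 0 < Δ := by rw [hΔ]; positivity
  have hq1 : 0 < 1 - 61 / 320 * t := by linarith
  have e1 : t ^ 2 * (1 - 61 / 320 * t) ≤ σ - 3 * Δ := by rw [hΔ]; nlinarith
  have e2 : t ^ 2 * q2 ≤ σ - Δ - ε - h * Δ := by
    rw [hq2, hΔ]
    have : t ^ 2 * (1 - t * (263 / 4000 + 1 / 16 * h)) =
      (t ^ 2 - t ^ 3 / 320) - t ^ 3 / 16 - t ^ 3 / 8000 - h * (t ^ 3 / 16) := by ring
    rw [this]
    linarith
  have ht2p : 0 < t ^ 2 := by positivity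
  have hT1 : 0 < σ - 3 * Δ := lt_of_lt_of_le (mul_pos ht2p hq1) e1
  have hh0 : (0 : ℝ) ≤ h := Nat.cast_nonneg h
  have a1 : (h : ℝ) * (σ - Δ - ε - h * Δ) * (σ - 3 * Δ) < 2 * Δ := by
    have b1 := mul_lt_mul_of_pos_right hh hT1
    have b2 : 2 * p * Δ * (σ - 3 * Δ) = 2 * Δ * (p * (σ - 3 * Δ)) := by ring
    rw [b2] at b1
    have b3 : 2 * Δ * (p * (σ - 3 * Δ)) < 2 * Δ * 1 := mul_lt_mul_of_pos_left hp (by linarith)
    linarith
  have a2 : (h : ℝ) * (t ^ 2 * q2) * (t ^ 2 * (1 - 61 / 320 * t)) ≤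
      (h : ℝ) * (σ - Δ - ε - h * Δ) * (σ - 3 * Δ) := by
    have c1 : (h : ℝ) * (t ^ 2 * q2) ≤ (h : ℝ) * (σ - Δ - ε - h * Δ) :=
      mul_le_mul_of_nonneg_left e2 hh0
    have c0 : 0 ≤ (h : ℝ) * (t ^ 2 * q2) := by positivity
    exact mul_le_mul c1 e1 (by positivity) (c0.trans c1)
  have a3 : t ^ 3 * ((h : ℝ) * t * ((1 - 61 / 320 * t) * q2)) < t ^ 3 * (1 / 8) := by
    have : t ^ 3 * ((h : ℝ) * t * ((1 - 61 / 320 * t) * q2)) =
      (h : ℝ) * (t ^ 2 * q2) * (t ^ 2 * (1 - 61 / 320 * t)) := by ring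
    rw [this]
    have : 2 * Δ = t ^ 3 * (1 / 8) := by rw [hΔ]; ring
    linarith
  exact lt_of_mul_lt_mul_left a3 (by positivity)

theorem main : S_NUM4 := by
  intro p t s σ Δ ε hp ht ht1 hΔ hσ1 hσ2 hε0 hε hs1 hs2 hp1 hall
  have ht2 : t ≤ 867 / 1000 := by nlinarith
  rcases le_or_gt (131 / 1000) t with hc | hc
  · have h1 := hall 1 (by omega)
    have := core (h := 1) (q2 := 1 - t * (263 / 4000 + 1 / 16 * (1 : ℕ))) ht ht1 hΔ hσ1 hε hp1 rfl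
      (by push_cast; nlinarith) h1
    push_cast at this
    have b1 : 0 ≤ (t - 131 / 1000) * (867 / 1000 - t) :=
      mul_nonneg (by linarith) (by linarith)
    nlinarith [mul_pos ht (mul_pos ht ht)]
  · set h : ℕ := ⌈(15 / 100) / t⌉₊ with hh
    have hx : (15 / 100) / t ≤ h := Nat.le_ceil _
    have hx2 : (h : ℝ) < (15 / 100) / t + 1 := Nat.ceil_lt_add_one (by positivity)
    have hy1 : 15 / 100 ≤ (h : ℝ) * t := by rwa [div_le_iff₀ ht] at hx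
    have hy2 : (h : ℝ) * t < 15 / 100 + t := by
      have := mul_lt_mul_of_pos_right hx2 ht
      rw [add_mul, div_mul_cancel₀ _ ht.ne', one_mul] at this
      exact this
    have hhp : h + 1 ≤ p := by
      have hΔp : 0 < Δ := by rw [hΔ]; positivity
      have b1 : σ + Δ ≤ t ^ 2 * (101 / 100) := by
        rw [hΔ]
        nlinarith [mul_pos ht ht]
      have b2 : 88 / 100 < (p : ℝ) * (t ^ 2 * (101 / 100)) :=
        lt_of_le_of_lt hs1 (hs2.trans_le (mul_le_mul_of_nonneg_left b1 (Nat.cast_nonneg p)))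
      have b3 : ((h : ℝ) + 1) * (t ^ 2 * (101 / 100)) < 88 / 100 := by
        have : ((h : ℝ) + 1) * (t ^ 2 * (101 / 100)) = ((h : ℝ) * t + t) * t * (101 / 100) := by ring
        rw [this]
        have c1 : (h : ℝ) * t + t ≤ 1 := by linarith
        have c2 : ((h : ℝ) * t + t) * t ≤ 1 * t := mul_le_mul_of_nonneg_right c1 ht.le
        linarith
      have b4 : ((h : ℝ) + 1) * (t ^ 2 * (101 / 100)) < (p : ℝ) * (t ^ 2 * (101 / 100)) :=
        b3.trans b2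
      have b5 : (h : ℝ) + 1 < p := lt_of_mul_lt_mul_right b4 (by positivity)
      have b6 : h + 1 < p := by exact_mod_cast b5
      exact b6.le
    have h1 := hall h hhp
    have hq2 : 97 / 100 ≤ 1 - t * (263 / 4000 + 1 / 16 * (h : ℝ)) := by nlinarith
    have := core (h := h) (q2 := 1 - t * (263 / 4000 + 1 / 16 * (h : ℝ))) ht ht1 hΔ hσ1 hε hp1 rfl
      (by linarith) h1
    have hq1 : 97 / 100 ≤ 1 - 61 / 320 * t := by linarith
    have c1 : (97 / 100 : ℝ) * (97 / 100) ≤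
        (1 - 61 / 320 * t) * (1 - t * (263 / 4000 + 1 / 16 * (h : ℝ))) :=
      mul_le_mul hq1 hq2 (by norm_num) (by linarith)
    have c2 : (15 / 100 : ℝ) * ((97 / 100 : ℝ) * (97 / 100)) ≤ (h : ℝ) * t *
        ((1 - 61 / 320 * t) * (1 - t * (263 / 4000 + 1 / 16 * (h : ℝ)))) :=
      mul_le_mul hy1 c1 (by norm_num) (by linarith)
    norm_num at c2
    linarith

end Pool.Agent.H42.EX.Num4
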