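import Pool.Agent.H42.EX.Cell3

set_option autoImplicit false

/-!
# Project EX: every tuple belongs to one of the cells
-/

namespace Pool.Agent.H42.EX

open Finset
open Pool.Agent.H328R2.ABC (rad sum_inv_rad)
open Pool.Agent.Q38.NC

/-- Two large coordinates. -/
theorem two_large {n : ℕ} {H : ℕ} (hH : 1 ≤ H) {x : Fin n → ℤ} (hx : Adm x)
    (hl : ∃ i, H ≤ 2 * (x i).natAbs) : ∃ i j : Fin n, i ≠ j ∧ H ≤ 2 * n * (x i).natAbs ∧ H ≤ 2 * n * (x j).natAbs := by
  classical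
  obtain ⟨i, hi⟩ := hl
  have hn : 0 < n := lt_of_le_of_lt (Nat.zero_le _) i.2
  have hi' : H ≤ 2 * n * (x i).natAbs := by
    calc H ≤ 2 * (x i).natAbs := hi
      _ ≤ 2 * n * (x i).natAbs := Nat.mul_le_mul_right _ (by omega)
  by_contra hcon
  push Not at hcon
  have h1 : ∀ j ∈ univ.erase i, 2 * n * (x j).natAbs < H := by
    intro j hj
    exact hcon i j (Ne.symm (ne_of_mem_erase hj)) hi'
  have h2 : (x i).natAbs ≤ ∑ j ∈ univ.erase i, (x j).natAbs := by
    have h3 := hx.sum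
    rw [← add_sum_erase _ _ (mem_univ i)] at h3
    have h4 : x i = -∑ j ∈ univ.erase i, x j := by linarith
    rw [h4, Int.natAbs_neg]
    exact Int.natAbs_sum_le _ _
  have h3 : 2 * n * ∑ j ∈ univ.erase i, (x j).natAbs ≤ (n - 1) * H := by
    rw [mul_sum]
    refine (sum_le_card_nsmul _ _ H fun j hj => (h1 j hj).le).trans ?_
    rw [card_erase_of_mem (mem_univ i), card_univ, Fintype.card_fin, smul_eq_mul]
  have h5 : n * H ≤ (n - 1) * H := by
    calc n * H ≤ n * (2 * (x i).natAbs) := Nat.mul_le_mul_left _ hi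
      _ = 2 * n * (x i).natAbs := by ring
      _ ≤ 2 * n * ∑ j ∈ univ.erase i, (x j).natAbs := Nat.mul_le_mul_left _ h2
      _ ≤ (n - 1) * H := h3
  have h6 : n ≤ n - 1 := Nat.le_of_mul_le_mul_right h5 hH
  omega

/-- One small variable and a large coordinate. -/
def Opt1 (n H : ℕ) (B₀ : ℝ) (i j : Fin n) (k : ℕ) (x : Fin n → ℤ) : Prop :=
  i ≠ j ∧ H ≤ 2 * n * (x j).natAbs ∧ PR x ≤ B₀ * ((bk 1 (x i).natAbs : ℝ) * bk k (x j).natAbs)

/-- Two small coordinates and a large one. -/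
def Opt2 (n H : ℕ) (B₀ : ℝ) (i m j : Fin n) (k : ℕ) (x : Fin n → ℤ) : Prop :=
  i ≠ m ∧ i ≠ j ∧ m ≠ j ∧ H ≤ 2 * n * (x j).natAbs ∧ (x i).natAbs ≤ (x m).natAbs ∧
  PR x ≤ B₀ * ((bk 1 (x i).natAbs : ℝ) * bk 1 (x m).natAbs * bk k (x j).natAbs) ∧
  PR x * (x m).natAbs ≤ B₀ * ((bk 1 (x i).natAbs : ℝ) * bk 1 (x m).natAbs * H) ∧
  PR x ≤ B₀ * ((x m).natAbs * bk k (x j).natAbs)

/-- Two small coordinates and both large ones. -/
def Opt3 (n H K : ℕ) (B₀ e₀ : ℝ) (i m : Fin n) (j : Fin 2 → Fin n) (τ : ℕ) (x : Fin n → ℤ) : Prop :=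
  i ≠ m ∧ j 0 ≠ j 1 ∧ (∀ c, i ≠ j c ∧ m ≠ j c) ∧ (∀ c, H ≤ 2 * n * (x (j c)).natAbs) ∧
  (∀ t, (∀ c, t ≠ j c) → (x t).natAbs ≤ (x m).natAbs) ∧
  (∀ p : Fin 2 × Fin K, (bk ((p.2 : ℕ) + 1) (x (j p.1)).natAbs : ℝ) ≤ 2 * 2 ^ τ) ∧
  (2 : ℝ) ^ τ * ((x m).natAbs : ℝ) ≤ H ∧
  4 * Real.log ((2 : ℝ) ^ τ) + e₀ * Real.log H ≤
    Real.log (rad (x (j 0)).natAbs) + Real.log (rad (x (j 1)).natAbs) ∧
  PR x ≤ 2 * B₀ * ((bk 1 (x i).natAbs : ℝ) * bk 1 (x m).natAbs * 2 ^ τ) ∧
  PR x ≤ 2 * B₀ * ((x m).natAbs * 2 ^ τ)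

theorem exists_option (hc : S_COMB) {n : ℕ} (hn : 5 ≤ n) {g : ℝ} (hg1 : (n : ℝ) - 3 ≤ g)
    (hg2 : 3 * (n : ℝ) / 4 - 1 ≤ g) {e₀ : ℝ} (he₀ : 0 < e₀) (he₀' : e₀ ≤ 1 / 4) {K : ℕ} (hK : 3 ≤ K) {H : ℕ}
    (hH : 1 ≤ H) {B₀ : ℝ} (hB : (H : ℝ) ^ (g + e₀) ≤ B₀) {x : Fin n → ℤ} (hx : Adm x)
    (hxH : ∀ i, (x i).natAbs ≤ H) (hl : ∃ i, H ≤ 2 * (x i).natAbs) (hR : PR x ≤ B₀ * H) :
    (∃ i j k, 1 ≤ k ∧ k ≤ K ∧ Opt1 n H B₀ i j k x) ∨ (∃ i m j k, 1 ≤ k ∧ k ≤ K ∧ Opt2 n H B₀ i m j k x) ∨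
    (∃ i m j τ, τ ≤ Nat.log 2 H ∧ Opt3 n H K B₀ e₀ i m j τ x) := by
  classical
  have hH0 : (0 : ℝ) < H := by exact_mod_cast hH
  have hH1 : (1 : ℝ) ≤ H := by exact_mod_cast hH
  have hB0 : 0 < B₀ := lt_of_lt_of_le (by positivity) hB
  have hl0 : 0 ≤ Real.log H := Real.log_nonneg hH1
  have hne : ∀ t, (x t).natAbs ≠ 0 := fun t => Int.natAbs_ne_zero.2 (hx.ne t)
  have hx0 : ∀ t, (0 : ℝ) < ((x t).natAbs : ℝ) := fun t => by exact_mod_cast Nat.pos_of_ne_zero (hne t)
  have hr0 : ∀ t, (0 : ℝ) < (rad (x t).natAbs : ℝ) := fun t => by exact_mod_cast rad_pos _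
  have hPR0 := PR_pos x
  have hlogPR : Real.log (PR x) = ∑ t, Real.log (rad (x t).natAbs) := by
    unfold PR
    rw [Real.log_prod fun t _ => (hr0 t).ne']
  have hβ : (g + e₀) * Real.log H ≤ Real.log B₀ := by
    rw [← Real.log_rpow hH0]
    exact Real.log_le_log (by positivity) hB
  obtain ⟨j₁, j₂, hj, hj1, hj2⟩ := two_large hH hx hl
  by_contra hcon
  rw [not_or, not_or] at hcon
  obtain ⟨c1, c2, c3⟩ := hcon
  refine hc n K (fun t => Real.log (rad (x t).natAbs)) (fun t => Real.log (x t).natAbs)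
    (fun t k => Real.log (bk k (x t).natAbs)) j₁ j₂ (Real.log H) (Real.log B₀) (e₀ * Real.log H) hn hK hj
    (by positivity) (by nlinarith) ?_ ?_ ?_ ?_ ?_ ?_ ?_ ?_ ?_ ?_ ?_
  · intro t
    refine ⟨Real.log_nonneg (by exact_mod_cast rad_pos _), Real.log_le_log (hr0 t) (by exact_mod_cast rad_le (hne t)),
      Real.log_le_log (hx0 t) (by exact_mod_cast hxH t)⟩
  · intro t k
    exact Real.log_nonneg (by exact_mod_cast bk_pos _ _)
  · intro t
    exact Real.log_le_log (cast_bk_pos _ _) (by exact_mod_cast bk_le_rad _ _)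
  · intro t
    have h := log_rad_le 1 (hne t)
    simp only [Icc_self, sum_singleton, Nat.cast_one] at h
    linarith
  · intro t
    have h := log_rad_le 3 (hne t)
    have e : Icc 1 3 = ({1, 2, 3} : Finset ℕ) := by decide
    rw [e, sum_insert (by decide), sum_insert (by decide), sum_singleton] at h
    push_cast at h
    linarith
  · calc (3 * (n : ℝ) / 4 - 1) * Real.log H ≤ g * Real.log H := mul_le_mul_of_nonneg_right hg2 hl0
      _ ≤ (g + e₀) * Real.log H := mul_le_mul_of_nonneg_right (by linarith) hl0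
      _ ≤ _ := hβ
  · calc ((n : ℝ) - 3) * Real.log H + e₀ * Real.log H ≤ g * Real.log H + e₀ * Real.log H := by
          have := mul_le_mul_of_nonneg_right hg1 hl0
          linarith
      _ = (g + e₀) * Real.log H := by ring
      _ ≤ _ := hβ
  · rw [← hlogPR]
    have h := Real.log_le_log hPR0 hR
    rw [Real.log_mul hB0.ne' hH0.ne'] at h
    linarith
  · -- the first kind
    intro i j hjj hij k hk1 hk2
    by_contra hlt
    rw [not_lt, ← hlogPR] at hlt
    refine c1 ⟨i, j, k, hk1, hk2, hij, ?_, ?_⟩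
    · rcases hjj with rfl | rfl
      · exact hj1
      · exact hj2
    · have h0 : 0 < (bk 1 (x i).natAbs : ℝ) * bk k (x j).natAbs := mul_pos (cast_bk_pos _ _) (cast_bk_pos _ _)
      rw [← Real.log_le_log_iff hPR0 (by positivity), Real.log_mul hB0.ne' h0.ne',
        Real.log_mul (cast_bk_pos _ _).ne' (cast_bk_pos _ _).ne']
      linarith
  · -- the second kind
    have key : ∀ i m j : Fin n, i ≠ m → i ≠ j₁ → i ≠ j₂ → m ≠ j₁ → m ≠ j₂ → (j = j₁ ∨ j = j₂) →
        (x i).natAbs ≤ (x m).natAbs → ∀ k, 1 ≤ k → k ≤ K →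
        min (Real.log (bk 1 (x i).natAbs) + Real.log (bk 1 (x m).natAbs)) (Real.log (x m).natAbs) +
          min (Real.log (bk k (x j).natAbs)) (Real.log H - Real.log (x m).natAbs) <
          ∑ t, Real.log (rad (x t).natAbs) - Real.log B₀ := by
      intro i m j him hi1 hi2 hm1 hm2 hjj hle k hk1 hk2
      by_contra hlt
      rw [not_lt, ← hlogPR] at hlt
      have a0 := cast_bk_pos 1 (x i).natAbs
      have a0' := cast_bk_pos 1 (x m).natAbs
      have b0 := cast_bk_pos k (x j).natAbs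
      have m1 := min_le_left (Real.log (bk 1 (x i).natAbs) + Real.log (bk 1 (x m).natAbs)) (Real.log (x m).natAbs)
      have m2 := min_le_right (Real.log (bk 1 (x i).natAbs) + Real.log (bk 1 (x m).natAbs)) (Real.log (x m).natAbs)
      have m3 := min_le_left (Real.log (bk k (x j).natAbs)) (Real.log H - Real.log (x m).natAbs)
      have m4 := min_le_right (Real.log (bk k (x j).natAbs)) (Real.log H - Real.log (x m).natAbs)
      refine c2 ⟨i, m, j, k, hk1, hk2, him, ?_, ?_, ?_, hle, ?_, ?_, ?_⟩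
      · rcases hjj with rfl | rfl
        · exact hi1
        · exact hi2
      · rcases hjj with rfl | rfl
        · exact hm1
        · exact hm2
      · rcases hjj with rfl | rfl
        · exact hj1
        · exact hj2
      · rw [← Real.log_le_log_iff hPR0 (by positivity), Real.log_mul hB0.ne' (by positivity),
          Real.log_mul (by positivity) b0.ne', Real.log_mul a0.ne' a0'.ne']
        linarith
      · have := hx0 m
        rw [← Real.log_le_log_iff (by positivity) (by positivity), Real.log_mul hPR0.ne' this.ne',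
          Real.log_mul hB0.ne' (by positivity),
          Real.log_mul (by positivity) hH0.ne', Real.log_mul a0.ne' a0'.ne']
        linarith
      · have := hx0 m
        rw [← Real.log_le_log_iff hPR0 (by positivity), Real.log_mul hB0.ne' (by positivity),
          Real.log_mul this.ne' b0.ne']
        linarith
    intro i m j him hi1 hi2 hm1 hm2 hjj k hk1 hk2
    rcases le_total (x i).natAbs (x m).natAbs with h | h
    · have h' : Real.log ((x i).natAbs : ℝ) ≤ Real.log ((x m).natAbs : ℝ) :=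
        Real.log_le_log (hx0 i) (by exact_mod_cast h)
      rw [max_eq_right h']
      exact key i m j him hi1 hi2 hm1 hm2 hjj h k hk1 hk2
    · have h' : Real.log ((x m).natAbs : ℝ) ≤ Real.log ((x i).natAbs : ℝ) :=
        Real.log_le_log (hx0 m) (by exact_mod_cast h)
      rw [max_eq_left h', add_comm (Real.log (bk 1 (x i).natAbs))]
      exact key m i j him.symm hm1 hm2 hi1 hi2 hjj h k hk1 hk2
  · -- the third kind
    have key : ∀ i m : Fin n, i ≠ m → i ≠ j₁ → i ≠ j₂ → m ≠ j₁ → m ≠ j₂ →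
        (∀ t, t ≠ j₁ → t ≠ j₂ → Real.log ((x t).natAbs : ℝ) ≤ Real.log ((x m).natAbs : ℝ)) →
        ∀ y, 0 ≤ y → y ≤ Real.log H - Real.log (x m).natAbs →
        (∀ j, (j = j₁ ∨ j = j₂) → ∀ k, 1 ≤ k → k ≤ K → Real.log (bk k (x j).natAbs) ≤ y) →
        4 * y + e₀ * Real.log H ≤ Real.log (rad (x j₁).natAbs) + Real.log (rad (x j₂).natAbs) →
        min (Real.log (bk 1 (x i).natAbs) + Real.log (bk 1 (x m).natAbs)) (Real.log (x m).natAbs) + y <
          ∑ t, Real.log (rad (x t).natAbs) - Real.log B₀ := by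
      intro i m him hi1 hi2 hm1 hm2 hmax y hy0 hy1 hy2 hy3
      by_contra hlt
      rw [not_lt, ← hlogPR] at hlt
      have a0 := cast_bk_pos 1 (x i).natAbs
      have a0' := cast_bk_pos 1 (x m).natAbs
      have m1 := min_le_left (Real.log (bk 1 (x i).natAbs) + Real.log (bk 1 (x m).natAbs)) (Real.log (x m).natAbs)
      have m2 := min_le_right (Real.log (bk 1 (x i).natAbs) + Real.log (bk 1 (x m).natAbs)) (Real.log (x m).natAbs)
      have hE1 : 1 ≤ Real.exp y := Real.one_le_exp hy0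
      have hfl : ⌊Real.exp y⌋₊ ≠ 0 := by
        have : 1 ≤ ⌊Real.exp y⌋₊ := (Nat.one_le_floor_iff _).2 hE1
        omega
      obtain ⟨τ, hτ⟩ : ∃ τ : ℕ, τ = Nat.log 2 ⌊Real.exp y⌋₊ := ⟨_, rfl⟩
      have t1 : (2 : ℝ) ^ τ ≤ Real.exp y := by
        have h1 := Nat.pow_log_le_self 2 hfl
        rw [← hτ] at h1
        calc (2 : ℝ) ^ τ = ((2 ^ τ : ℕ) : ℝ) := by push_cast; rfl
          _ ≤ (⌊Real.exp y⌋₊ : ℝ) := by exact_mod_cast h1
          _ ≤ Real.exp y := Nat.floor_le (Real.exp_pos y).le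
      have t2 : Real.exp y ≤ 2 * 2 ^ τ := by
        have h1 := Nat.lt_pow_succ_log_self (b := 2) (by norm_num) ⌊Real.exp y⌋₊
        rw [← hτ] at h1
        have h2 : ⌊Real.exp y⌋₊ + 1 ≤ 2 ^ (τ + 1) := h1
        calc Real.exp y ≤ (⌊Real.exp y⌋₊ : ℝ) + 1 := (Nat.lt_floor_add_one _).le
          _ ≤ ((2 ^ (τ + 1) : ℕ) : ℝ) := by exact_mod_cast h2
          _ = 2 * 2 ^ τ := by push_cast; ring
      have hτ0 : (0 : ℝ) < 2 ^ τ := by positivity
      have t3 : Real.exp y * ((x m).natAbs : ℝ) ≤ H := by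
        have h1 := Real.exp_le_exp.2 hy1
        rw [Real.exp_sub, Real.exp_log hH0, Real.exp_log (hx0 m), le_div_iff₀ (hx0 m)] at h1
        exact h1
      have t4 : Real.exp y ≤ H := by
        have h1 : (1 : ℝ) ≤ ((x m).natAbs : ℝ) := by exact_mod_cast Nat.pos_of_ne_zero (hne m)
        nlinarith [Real.exp_pos y]
      have t5 : Real.log ((2 : ℝ) ^ τ) ≤ y := by
        have := Real.log_le_log hτ0 t1
        rwa [Real.log_exp] at this
      have t6 : y ≤ Real.log (2 * 2 ^ τ) := by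
        have := Real.log_le_log (Real.exp_pos y) t2
        rwa [Real.log_exp] at this
      refine c3 ⟨i, m, ![j₁, j₂], τ, ?_, him, hj, ?_, ?_, ?_, ?_, ?_, ?_, ?_, ?_⟩
      · rw [hτ]
        exact Nat.log_mono_right (Nat.floor_le_of_le t4)
      · intro c
        fin_cases c
        · exact ⟨hi1, hm1⟩
        · exact ⟨hi2, hm2⟩
      · intro c
        fin_cases c
        · exact hj1
        · exact hj2
      · intro t ht
        have h1 := hmax t (ht 0) (ht 1)
        rw [Real.log_le_log_iff (hx0 t) (hx0 m)] at h1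
        exact_mod_cast h1
      · rintro ⟨c, k⟩
        have h1 : Real.log (bk ((k : ℕ) + 1) (x ((![j₁, j₂] : Fin 2 → Fin n) c)).natAbs) ≤ y := by
          refine hy2 _ ?_ _ (by omega) (by have := k.2; omega)
          fin_cases c
          · left; rfl
          · right; rfl
        rw [Real.log_le_iff_le_exp (cast_bk_pos _ _)] at h1
        exact h1.trans t2
      · exact (mul_le_mul_of_nonneg_right t1 (hx0 m).le).trans t3
      · show _ ≤ Real.log (rad (x j₁).natAbs) + Real.log (rad (x j₂).natAbs)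
        linarith
      · have e1 : 2 * B₀ * ((bk 1 (x i).natAbs : ℝ) * bk 1 (x m).natAbs * 2 ^ τ) =
            B₀ * ((bk 1 (x i).natAbs : ℝ) * bk 1 (x m).natAbs * (2 * 2 ^ τ)) := by ring
        rw [e1, ← Real.log_le_log_iff hPR0 (by positivity), Real.log_mul hB0.ne' (by positivity),
          Real.log_mul (by positivity) (by positivity), Real.log_mul a0.ne' a0'.ne']
        linarith
      · have := hx0 m
        have e1 : 2 * B₀ * (((x m).natAbs : ℝ) * 2 ^ τ) = B₀ * (((x m).natAbs : ℝ) * (2 * 2 ^ τ)) := by ring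
        rw [e1, ← Real.log_le_log_iff hPR0 (by positivity), Real.log_mul hB0.ne' (by positivity),
          Real.log_mul this.ne' (by positivity)]
        linarith
    intro i m him hi1 hi2 hm1 hm2 hmax y hy0 hy1 hy2 hy3
    rcases le_total (x i).natAbs (x m).natAbs with h | h
    · have h' : Real.log ((x i).natAbs : ℝ) ≤ Real.log ((x m).natAbs : ℝ) :=
        Real.log_le_log (hx0 i) (by exact_mod_cast h)
      rw [max_eq_right h'] at hmax hy1 ⊢
      exact key i m him hi1 hi2 hm1 hm2 hmax y hy0 hy1 hy2 hy3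
    · have h' : Real.log ((x m).natAbs : ℝ) ≤ Real.log ((x i).natAbs : ℝ) :=
        Real.log_le_log (hx0 m) (by exact_mod_cast h)
      rw [max_eq_left h'] at hmax hy1 ⊢
      rw [add_comm (Real.log (bk 1 (x i).natAbs))]
      exact key m i him.symm hm1 hm2 hi1 hi2 hmax y hy0 hy1 hy2 hy3

end Pool.Agent.H42.EX
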