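import Pool.Agent.H42.EX.Stm4
import Pool.Agent.H42.EX.Block

set_option autoImplicit false

/-! EX3-PC (helper63): the tuples of the third kind in a block -/

namespace Pool.Agent.H42.EX.PC

open Finset
open Pool.Agent.H328R2.ABC (rad)
open Pool.Agent.Q38.NC

theorem main : S_C4 → S_PC := by
  classical
  intro hC4 n K η hη
  obtain ⟨C, hC, hF⟩ := hC4 n K η hη
  refine ⟨(n : ℝ) ^ 4 * (K + 1) ^ 4 * (C * 2 ^ (n + 1)) + 1, by
    have : 0 ≤ (n : ℝ) ^ 4 * (K + 1) ^ 4 * (C * 2 ^ (n + 1)) := by positivity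
    linarith, ?_⟩
  intro H B₀ hH hB₀ G hG hopt
  have hH0 : (0 : ℝ) < H := by exact_mod_cast hH
  have hcl := card_classes G ((univ : Finset (Fin 4 → Fin n)) ×ˢ
    (Fintype.piFinset (fun _ : Fin 4 => range (K + 1)) ×ˢ
    (Fintype.piFinset (fun _ : Fin n => range (Nat.log 2 H + 1)) ×ˢ
      Fintype.piFinset (fun _ : Fin 4 => range (Nat.log 2 H + 1)))))
    (fun t x => (∀ a, 2 ≤ t.2.1 a ∧ t.2.1 a ≤ K) ∧ OptC n B₀ t.1 t.2.1 x ∧
      (∀ i, Nat.log 2 (rad (x i).natAbs) = t.2.2.1 i) ∧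
      ∀ a, Nat.log 2 (bk (t.2.1 a) (x (t.1 a)).natAbs) = t.2.2.2 a) (by
      intro x hx
      obtain ⟨t, k, hk, ho⟩ := hopt x hx
      obtain ⟨g1, g2⟩ := hG x hx
      have hne : ∀ t, (x t).natAbs ≠ 0 := fun t => Int.natAbs_ne_zero.2 (g1.ne t)
      refine ⟨(t, (k, ((fun i => Nat.log 2 (rad (x i).natAbs)),
        (fun a => Nat.log 2 (bk (k a) (x (t a)).natAbs))))), ?_, hk, ho, fun _ => rfl, fun _ => rfl⟩
      rw [mem_product, mem_product, mem_product]
      refine ⟨mem_univ _, Fintype.mem_piFinset.2 fun a => mem_range.2 (Nat.lt_succ_of_le (hk a).2),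
        Fintype.mem_piFinset.2 fun i => log_mem ((rad_le (hne i)).trans (g2 i)),
        Fintype.mem_piFinset.2 fun a => log_mem ((bk_le (hne _)).trans (g2 _))⟩)
    (B := C * (H : ℝ) ^ η * (2 ^ (n + 1) * B₀)) (by
      rintro ⟨t, k, u, v⟩ _ G' hG'
      rcases G'.eq_empty_or_nonempty with h0 | ⟨x₀, hx₀⟩
      · rw [h0, card_empty, Nat.cast_zero]; positivity
      obtain ⟨h1, h2, h3, h4, h5⟩ := hG' x₀ hx₀
      simp only at h2 h3 h4 h5
      have hb := hF H t k (fun i => 2 * 2 ^ (u i)) (fun a => 2 ^ (v a)) hH h3.1 h2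
        (fun i => by
          have : (1 : ℝ) ≤ 2 ^ (u i) := one_le_pow₀ (by norm_num)
          linarith) (fun a => one_le_pow₀ (by norm_num)) G' (by
          intro x hx
          obtain ⟨q1, q2, q3, q4, q5⟩ := hG' x hx
          simp only at q2 q3 q4 q5
          refine ⟨(hG x q1).1, (hG x q1).2, fun i => ?_, fun a => ?_⟩
          · have := (dy (rad_pos (x i).natAbs)).2
            rw [q4] at this
            exact this
          · have := (dy (bk_pos (k a) (x (t a)).natAbs)).1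
            rw [q5] at this
            exact this)
      refine hb.trans ?_
      have hCH : 0 ≤ C * (H : ℝ) ^ η := by positivity
      refine mul_le_mul_of_nonneg_left ?_ hCH
      -- the product of the radicals
      have e1 : ∏ i, (2 * 2 ^ (u i) : ℝ) ≤ 2 ^ n * PR x₀ := by
        rw [prod_mul_distrib, prod_const, card_univ, Fintype.card_fin]
        refine mul_le_mul_of_nonneg_left ?_ (by positivity)
        unfold PR
        refine prod_le_prod (fun i _ => by positivity) fun i _ => ?_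
        have := (dy (rad_pos (x₀ i).natAbs)).1
        rw [h4] at this
        exact this
      set Q : ℝ := ∏ a, ((rad (x₀ (t a)).natAbs : ℝ) * bk (k a) (x₀ (t a)).natAbs) with hQ
      have hQ0 : 0 < Q := prod_pos fun a _ => by
        have i1 : (0 : ℝ) < (rad (x₀ (t a)).natAbs : ℝ) := by exact_mod_cast rad_pos _
        have i2 : (0 : ℝ) < (bk (k a) (x₀ (t a)).natAbs : ℝ) := by exact_mod_cast bk_pos _ _
        exact mul_pos i1 i2
      have e2 : Q / 16 ≤ ∏ a, ((2 * 2 ^ (u (t a))) * 2 ^ (v a) : ℝ) := by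
        have : Q / 16 = ∏ a, ((rad (x₀ (t a)).natAbs : ℝ) * bk (k a) (x₀ (t a)).natAbs / 2) := by
          rw [prod_div_distrib, ← hQ]
          simp
          norm_num
        rw [this]
        refine prod_le_prod (fun a _ => by positivity) fun a _ => ?_
        have d1 := (dy (rad_pos (x₀ (t a)).natAbs)).2
        have d2 := (dy (bk_pos (k a) (x₀ (t a)).natAbs)).2
        rw [h4] at d1
        rw [h5] at d2
        have := mul_le_mul d1 d2 (by positivity) (by positivity)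
        linarith
      have e3 : Q ^ (1 / 4 : ℝ) / 2 ≤ (∏ a, ((2 * 2 ^ (u (t a))) * 2 ^ (v a) : ℝ)) ^ (1 / 4 : ℝ) := by
        have e4 : Q ^ (1 / 4 : ℝ) / 2 = (Q / 16) ^ (1 / 4 : ℝ) := by
          rw [Real.div_rpow hQ0.le (by norm_num)]
          congr 1
          rw [show (16 : ℝ) = 2 ^ (4 : ℝ) by norm_num, ← Real.rpow_mul (by norm_num)]
          norm_num
        rw [e4]
        exact Real.rpow_le_rpow (by positivity) e2 (by norm_num)
      have hQr : 0 < Q ^ (1 / 4 : ℝ) := Real.rpow_pos_of_pos hQ0 _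
      have hopt := h3.2
      rw [← hQ] at hopt
      calc (∏ i, (2 * 2 ^ (u i) : ℝ)) / (∏ a, ((2 * 2 ^ (u (t a))) * 2 ^ (v a) : ℝ)) ^ (1 / 4 : ℝ)
          ≤ (2 ^ n * (B₀ * Q ^ (1 / 4 : ℝ))) / (Q ^ (1 / 4 : ℝ) / 2) := by
            refine div_le_div₀ (by positivity) (e1.trans ?_) (by positivity) e3
            exact mul_le_mul_of_nonneg_left hopt (by positivity)
        _ = 2 ^ (n + 1) * B₀ := by
            rw [pow_succ]
            field_simp)
  refine hcl.trans ?_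
  rw [card_product, card_product, card_product, Fintype.card_piFinset, Fintype.card_piFinset,
    Fintype.card_piFinset, card_univ, Fintype.card_fun, Fintype.card_fin]
  simp only [card_range, prod_const, card_univ, Fintype.card_fin]
  push_cast
  have hl : 0 ≤ (H : ℝ) ^ η * ((Nat.log 2 H : ℝ) + 1) ^ (n + 4) * B₀ := by positivity
  have e : ((n : ℝ) ^ 4 * (((K : ℝ) + 1) ^ 4 * (((Nat.log 2 H : ℝ) + 1) ^ n * ((Nat.log 2 H : ℝ) + 1) ^ 4))) *
      (C * (H : ℝ) ^ η * (2 ^ (n + 1) * B₀)) =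
      ((n : ℝ) ^ 4 * (K + 1) ^ 4 * (C * 2 ^ (n + 1))) *
        ((H : ℝ) ^ η * ((Nat.log 2 H : ℝ) + 1) ^ (n + 4) * B₀) := by
    rw [pow_add _ n 4]
    ring
  rw [e]
  have e5 : ((n : ℝ) ^ 4 * (K + 1) ^ 4 * (C * 2 ^ (n + 1)) + 1) * (H : ℝ) ^ η *
      ((Nat.log 2 H : ℝ) + 1) ^ (n + 4) * B₀ = ((n : ℝ) ^ 4 * (K + 1) ^ 4 * (C * 2 ^ (n + 1))) *
        ((H : ℝ) ^ η * ((Nat.log 2 H : ℝ) + 1) ^ (n + 4) * B₀) +
        (H : ℝ) ^ η * ((Nat.log 2 H : ℝ) + 1) ^ (n + 4) * B₀ := by ring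
  rw [e5]
  linarith

end Pool.Agent.H42.EX.PC
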