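import Pool.Agent.H42.EX.Stm4
import Pool.Agent.H42.EX.Cell
import Pool.Agent.H42.EX.Block

set_option autoImplicit false

/-!
# Project EX3: the tuples of the second kind in a block (helper31)
-/

namespace Pool.Agent.H42.EX.PF

open Finset
open Pool.Agent.H328R2.ABC (rad)
open Pool.Agent.Q38.NC
open Pool.Agent.H42.EX

theorem cof_all {m : ℕ} (hm : m ≠ 0) {H : ℕ} (h : m ≤ H) : cof (range (H + 1)) m = 1 := by
  unfold cof
  rw [Finset.prod_eq_one]
  intro p hp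
  exfalso
  obtain ⟨hp1, hp2⟩ := mem_filter.1 hp
  apply hp2
  rw [mem_range, Nat.lt_succ_iff]
  have h1 := Nat.factorization_lt p hm
  omega

/-- A whole coordinate and the base of a power in a large coordinate. -/
theorem cellF (h0 : S_F0) {n k : ℕ} (hk : 1 ≤ k) : ∃ C : ℝ, 1 ≤ C ∧
    ∀ (H : ℕ) (i j : Fin n) (Z X B₀ : ℝ), 1 ≤ H → i ≠ j → 1 ≤ Z → 1 ≤ X → 0 ≤ B₀ →
    ∀ G : Finset (Fin n → ℤ), (∀ x ∈ G, Adm x ∧ (∀ t, (x t).natAbs ≤ H) ∧ H ≤ 2 * n * (x j).natAbs ∧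
      X ≤ ((x i).natAbs : ℝ) ∧ ((x i).natAbs : ℝ) ≤ 2 * X ∧
      Z ≤ (bk k (x j).natAbs : ℝ) ∧ (bk k (x j).natAbs : ℝ) ≤ 2 * Z ∧
      PR x ≤ B₀ * ((rad (x i).natAbs : ℝ) * bk k (x j).natAbs) ∧
      PR x * (x i).natAbs ≤ B₀ * ((rad (x i).natAbs : ℝ) * H)) →
    (G.card : ℝ) ≤ C * B₀ * SS H ^ n := by
  classical
  obtain ⟨C, hC, hF⟩ := h0 n k hk
  refine ⟨2 * C, by linarith, ?_⟩
  intro H i j Z X B₀ hH hij hZ hX hB₀ G hG
  have hH0 : (0 : ℝ) < H := by exact_mod_cast hH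
  obtain ⟨D, hD⟩ : ∃ D : Fin n → Finset ℕ, D = fun t => if t = i then range (H + 1) else
    if t = j then {k} else ∅ := ⟨_, rfl⟩
  have hDi : D i = range (H + 1) := by rw [hD]; simp
  have hDj : D j = {k} := by rw [hD]; simp [hij.symm]
  have hDt : ∀ t, t ≠ i → t ≠ j → D t = ∅ := by
    intro t h1 h2
    rw [hD]; simp [h1, h2]
  have hDS : ∀ t, t ∉ ({i, j} : Finset (Fin n)) → D t = ∅ := by
    intro t ht
    simp only [mem_insert, mem_singleton, not_or] at ht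
    exact hDt t ht.1 ht.2
  refine cellD D (by positivity) G (fun x hx => ⟨(hG x hx).1.ne, (hG x hx).2.1⟩) ?_
  intro x hx
  obtain ⟨x1, x2, x3, x4, x5, x6, x7, x8, x9⟩ := hG x hx
  have hfib := hF H i j (codeD D x j) Z X hH hij hZ hX (G.filter fun y => codeD D y = codeD D x) (by
    intro y hy
    obtain ⟨hy, hyx⟩ := mem_filter.1 hy
    obtain ⟨y1, y2, y3, y4, y5, y6, y7, -, -⟩ := hG y hy
    refine ⟨y1, y5, y3, bk k (y j).natAbs, ?_, y6, y7⟩
    have := codeD_mul D (y1.ne j)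
    rw [hDj, prod_singleton, hyx] at this
    exact this) (by
    intro y hy z hz t ht1 ht2
    obtain ⟨hy, hyx⟩ := mem_filter.1 hy
    obtain ⟨hz, hzx⟩ := mem_filter.1 hz
    exact codeD_agree D (hG y hy).1.ne (hG z hz).1.ne (hyx.trans hzx.symm) (hDt t ht1 ht2))
  have hPR := PR_codeD' D {i, j} hDS x1.ne
  rw [prod_pair hij, hDi, hDj, prod_singleton] at hPR
  have hrad := rad_eq (range (H + 1)) (x i).natAbs
  rw [cof_all (Int.natAbs_ne_zero.2 (x1.ne i)) (x2 i)] at hrad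
  have hr1 : rad 1 = 1 := by simp [rad]
  rw [hr1, one_mul] at hrad
  have hr : ∏ k ∈ range (H + 1), (bk k (x i).natAbs : ℝ) = (rad (x i).natAbs : ℝ) := by
    rw [hrad]; push_cast; rfl
  rw [hr] at hPR
  obtain ⟨a, ha⟩ : ∃ a : ℝ, a = (rad (x i).natAbs : ℝ) := ⟨_, rfl⟩
  obtain ⟨b, hb⟩ : ∃ b : ℝ, b = bk k (x j).natAbs := ⟨_, rfl⟩
  obtain ⟨X', hX'⟩ : ∃ X' : ℝ, X' = (x i).natAbs := ⟨_, rfl⟩
  have ha0 : 0 < a := by rw [ha]; exact_mod_cast rad_pos _
  have hb0 : 0 < b := by rw [hb]; exact cast_bk_pos _ _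
  rw [← ha] at x8 x9 hPR
  rw [← hb] at x6 x7 x8 hPR
  rw [← hX'] at x4 x5 x9
  have hX'0 : 0 < X' := by linarith
  have hP : PR (codeD D x) = PR x / (a * b) := by
    rw [hPR]; field_simp
  have hPR0 := PR_pos x
  have hPc0 := PR_pos (codeD D x)
  have hZ0 : 0 < Z := by linarith
  have hX0 : 0 < X := by linarith
  have e1 : PR x / (a * b) ≤ B₀ := by
    rw [div_le_iff₀ (by positivity)]; exact x8
  have e2 : Z * X / H * (PR x / (a * b)) ≤ B₀ := by
    rw [div_mul_div_comm, div_le_iff₀ (by positivity)]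
    calc Z * X * PR x ≤ b * X' * PR x := by
          apply mul_le_mul_of_nonneg_right _ hPR0.le
          exact mul_le_mul x6 x4 hX0.le hb0.le
      _ = b * (PR x * X') := by ring
      _ ≤ b * (B₀ * (a * H)) := mul_le_mul_of_nonneg_left x9 hb0.le
      _ = B₀ * (H * (a * b)) := by ring
  calc ((G.filter fun y => codeD D y = codeD D x).card : ℝ) * PR (codeD D x) ≤
        (C * (1 + Z * X / H)) * PR (codeD D x) := mul_le_mul_of_nonneg_right hfib hPc0.le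
    _ = C * (PR x / (a * b) + Z * X / H * (PR x / (a * b))) := by rw [hP]; ring
    _ ≤ C * (B₀ + B₀) := by
        apply mul_le_mul_of_nonneg_left _ (by positivity)
        linarith
    _ = 2 * C * B₀ := by ring

theorem main : S_F0 → S_PF := by
  classical
  intro h0 n K
  choose C hC hF using fun k : ℕ => cellF h0 (n := n) (k := k + 1) (Nat.le_add_left 1 k)
  have hCs : ∀ k, k < K → C k ≤ ∑ k ∈ range K, C k := fun k hk =>
    single_le_sum (f := C) (fun i _ => by linarith [hC i]) (mem_range.2 hk)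
  have hCs0 : 0 ≤ ∑ k ∈ range K, C k := sum_nonneg fun i _ => by linarith [hC i]
  refine ⟨(n : ℝ) ^ 2 * K * (∑ k ∈ range K, C k) + 1, by
    have : 0 ≤ (n : ℝ) ^ 2 * K * (∑ k ∈ range K, C k) := by positivity
    linarith, ?_⟩
  intro H B₀ hH hB₀ G hG hopt
  have hH0 : (0 : ℝ) < H := by exact_mod_cast hH
  have hSS : 0 ≤ SS H := sum_nonneg fun _ _ => by positivity
  have hcl := card_classes G ((univ : Finset (Fin n × Fin n)) ×ˢ (range K ×ˢ
    (range (Nat.log 2 H + 1) ×ˢ range (Nat.log 2 H + 1))))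
    (fun t x => OptF n H B₀ t.1.1 t.1.2 (t.2.1 + 1) x ∧ Nat.log 2 (x t.1.1).natAbs = t.2.2.1 ∧
      Nat.log 2 (bk (t.2.1 + 1) (x t.1.2).natAbs) = t.2.2.2) (by
      intro x hx
      obtain ⟨i, j, k, hk1, hk2, ho⟩ := hopt x hx
      obtain ⟨g1, g2⟩ := hG x hx
      have hne : ∀ t, (x t).natAbs ≠ 0 := fun t => Int.natAbs_ne_zero.2 (g1.ne t)
      obtain ⟨k', rfl⟩ : ∃ k', k = k' + 1 := ⟨k - 1, by omega⟩
      refine ⟨((i, j), (k', (Nat.log 2 (x i).natAbs, Nat.log 2 (bk (k' + 1) (x j).natAbs)))), ?_,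
        ho, rfl, rfl⟩
      rw [mem_product, mem_product, mem_product]
      exact ⟨mem_univ _, mem_range.2 (show k' < K by omega), log_mem (g2 i),
        log_mem ((bk_le (hne j)).trans (g2 j))⟩)
    (B := (∑ k ∈ range K, C k) * B₀ * SS H ^ n) (by
      rintro ⟨⟨i, j⟩, k, u, v⟩ ht G' hG'
      rw [mem_product, mem_product] at ht
      have hk := mem_range.1 ht.2.1
      rcases G'.eq_empty_or_nonempty with h0 | ⟨x₀, hx₀⟩
      · rw [h0, card_empty, Nat.cast_zero]; positivity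
      refine (hF k H i j (2 ^ v) (2 ^ u) B₀ hH (hG' x₀ hx₀).2.1.1 (one_le_pow₀ (by norm_num))
        (one_le_pow₀ (by norm_num)) hB₀ G' ?_).trans ?_
      · intro x hx
        obtain ⟨hxG, ⟨o1, o2, o3, o4⟩, hu, hv⟩ := hG' x hx
        obtain ⟨g1, g2⟩ := hG x hxG
        simp only at hu hv
        have d1 := dy (Int.natAbs_pos.2 (g1.ne i))
        have d2 := dy (bk_pos (k + 1) (x j).natAbs)
        rw [hu] at d1
        rw [hv] at d2
        exact ⟨g1, g2, o2, d1.1, d1.2, d2.1, d2.2, o3, o4⟩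
      · have := hCs k hk
        gcongr)
  refine hcl.trans ?_
  rw [card_product, card_product, card_product, card_range, card_range, card_univ, Fintype.card_prod,
    Fintype.card_fin]
  push_cast
  have e : ((n : ℝ) * n * (K * (((Nat.log 2 H : ℝ) + 1) * ((Nat.log 2 H : ℝ) + 1)))) *
      ((∑ k ∈ range K, C k) * B₀ * SS H ^ n) =
      ((n : ℝ) ^ 2 * K * (∑ k ∈ range K, C k)) * (((Nat.log 2 H : ℝ) + 1) ^ 2 * B₀ * SS H ^ n) := by
    ring
  rw [e]
  have h0 : 0 ≤ ((Nat.log 2 H : ℝ) + 1) ^ 2 * B₀ * SS H ^ n := by positivity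
  calc ((n : ℝ) ^ 2 * K * (∑ k ∈ range K, C k)) * (((Nat.log 2 H : ℝ) + 1) ^ 2 * B₀ * SS H ^ n) ≤
      ((n : ℝ) ^ 2 * K * (∑ k ∈ range K, C k) + 1) *
        (((Nat.log 2 H : ℝ) + 1) ^ 2 * B₀ * SS H ^ n) := by nlinarith
    _ = _ := by ring

end Pool.Agent.H42.EX.PF
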