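import Pool.Agent.H42.EX.Stm2

set_option autoImplicit false

/-!
# Project EX3 (MP_7ecdd4_nt, stronger form of slot 4): statements to be proved

`S_EN`    additive energy of the integers with small radical and a large `k`-th power part
`S_C4`    the number of tuples in a class, from the energies of four coordinates
`S_F0`    fibres: a small coordinate and the base of a power in a large coordinate
`S_PP`, `S_PF`, `S_PC`  the bounds for the three kinds of tuples of a block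
`S_PLP`, `S_SIZE`, `S_NUM`, `S_COMB3`  the combinatorial lemma (elementary real inequalities)
-/

namespace Pool.Agent.H42.EX

open Finset
open Pool.Agent.H328R2.ABC (rad)
open Pool.Agent.Q38.NC

/-- The additive energy of a set of integers with small radical and a large power part. -/
def S_EN : Prop := ∀ k : ℕ, 2 ≤ k → ∀ η : ℝ, 0 < η → ∃ C : ℝ, 1 ≤ C ∧ ∀ (H : ℕ) (r Z : ℝ), 1 ≤ H → 1 ≤ r →
  1 ≤ Z → ∀ S : Finset ℤ, (∀ x ∈ S, x ≠ 0 ∧ x.natAbs ≤ H ∧ (rad x.natAbs : ℝ) ≤ r ∧ Z ≤ (bk k x.natAbs : ℝ)) →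
  ((((S ×ˢ S) ×ˢ (S ×ˢ S)).filter fun q => q.1.1 + q.1.2 = q.2.1 + q.2.2).card : ℝ) ≤
    C * (H : ℝ) ^ η * (r ^ 3 / Z)

/-- The number of tuples with given radicals, four of them with large power parts. -/
def S_C4 : Prop := ∀ (n K : ℕ) (η : ℝ), 0 < η → ∃ C : ℝ, 1 ≤ C ∧ ∀ (H : ℕ) (t : Fin 4 → Fin n) (k : Fin 4 → ℕ)
  (r : Fin n → ℝ) (Z : Fin 4 → ℝ), 1 ≤ H → Function.Injective t → (∀ a, 2 ≤ k a ∧ k a ≤ K) →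
  (∀ i, 1 ≤ r i) → (∀ a, 1 ≤ Z a) →
  ∀ G : Finset (Fin n → ℤ), (∀ x ∈ G, Adm x ∧ (∀ i, (x i).natAbs ≤ H) ∧ (∀ i, (rad (x i).natAbs : ℝ) ≤ r i) ∧
    ∀ a, Z a ≤ (bk (k a) (x (t a)).natAbs : ℝ)) →
  (G.card : ℝ) ≤ C * (H : ℝ) ^ η * ((∏ i, r i) / (∏ a, (r (t a) * Z a)) ^ (1 / 4 : ℝ))

/-- Fibres: a small coordinate and the base of a power in a large coordinate. -/
def S_F0 : Prop := ∀ (n k : ℕ), 1 ≤ k → ∃ C : ℝ, 1 ≤ C ∧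
  ∀ (H : ℕ) (i j : Fin n) (v : ℤ) (Z X : ℝ), 1 ≤ H → i ≠ j → 1 ≤ Z → 1 ≤ X →
  ∀ G : Finset (Fin n → ℤ), (∀ x ∈ G, Adm x ∧ ((x i).natAbs : ℝ) ≤ 2 * X ∧ H ≤ 2 * n * (x j).natAbs ∧
    ∃ b : ℕ, x j = v * (b : ℤ) ^ k ∧ Z ≤ (b : ℝ) ∧ (b : ℝ) ≤ 2 * Z) →
  (∀ x ∈ G, ∀ y ∈ G, ∀ t, t ≠ i → t ≠ j → x t = y t) →
  (G.card : ℝ) ≤ C * (1 + Z * X / H)

/-- The sets of exponents: up to `e`, or all of them. -/
def dset (H K e : ℕ) : Finset ℕ := if e ≤ K then Icc 1 e else range (H + 1)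

/-- The part of `m` with exponents in `D`. -/
def low (D : Finset ℕ) (m : ℕ) : ℕ := ∏ k ∈ D, bk k m ^ k

/-- The radical of the part of `m` with exponents in `D`. -/
def rlow (D : Finset ℕ) (m : ℕ) : ℕ := ∏ k ∈ D, bk k m

/-- First kind: parts of two coordinates. -/
def OptP (n H K : ℕ) (B₀ : ℝ) (i m : Fin n) (e₁ e₂ : ℕ) (x : Fin n → ℤ) : Prop :=
  i ≠ m ∧
  PR x ≤ B₀ * ((rlow (dset H K e₁) (x i).natAbs : ℝ) * rlow (dset H K e₂) (x m).natAbs) ∧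
  PR x * ((low (dset H K e₁) (x i).natAbs : ℝ) * low (dset H K e₂) (x m).natAbs) ≤
    B₀ * ((rlow (dset H K e₁) (x i).natAbs : ℝ) * rlow (dset H K e₂) (x m).natAbs) * (x m).natAbs

/-- Second kind: a coordinate and the base of a power in a large coordinate. -/
def OptF (n H : ℕ) (B₀ : ℝ) (i j : Fin n) (k : ℕ) (x : Fin n → ℤ) : Prop :=
  i ≠ j ∧ H ≤ 2 * n * (x j).natAbs ∧
  PR x ≤ B₀ * ((rad (x i).natAbs : ℝ) * bk k (x j).natAbs) ∧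
  PR x * (x i).natAbs ≤ B₀ * ((rad (x i).natAbs : ℝ) * H)

/-- Third kind: four coordinates with power parts. -/
def OptC (n : ℕ) (B₀ : ℝ) (t : Fin 4 → Fin n) (k : Fin 4 → ℕ) (x : Fin n → ℤ) : Prop :=
  Function.Injective t ∧
  PR x ≤ B₀ * (∏ a, ((rad (x (t a)).natAbs : ℝ) * bk (k a) (x (t a)).natAbs)) ^ (1 / 4 : ℝ)

/-- The tuples of the first kind in a block. -/
def S_PP : Prop := ∀ (n K : ℕ), ∃ C : ℝ, 1 ≤ C ∧ ∀ (H : ℕ) (B₀ : ℝ), 1 ≤ H → 0 ≤ B₀ →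
  ∀ G : Finset (Fin n → ℤ), (∀ x ∈ G, Adm x ∧ ∀ i, (x i).natAbs ≤ H) →
  (∀ x ∈ G, ∃ i m e₁ e₂, e₁ ≤ K + 1 ∧ e₂ ≤ K ∧ OptP n H K B₀ i m e₁ e₂ x) →
  (G.card : ℝ) ≤ C * ((Nat.log 2 H : ℝ) + 1) ^ 3 * B₀ * SS H ^ n

/-- The tuples of the second kind in a block. -/
def S_PF : Prop := ∀ (n K : ℕ), ∃ C : ℝ, 1 ≤ C ∧ ∀ (H : ℕ) (B₀ : ℝ), 1 ≤ H → 0 ≤ B₀ →
  ∀ G : Finset (Fin n → ℤ), (∀ x ∈ G, Adm x ∧ ∀ i, (x i).natAbs ≤ H) →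
  (∀ x ∈ G, ∃ i j k, 1 ≤ k ∧ k ≤ K ∧ OptF n H B₀ i j k x) →
  (G.card : ℝ) ≤ C * ((Nat.log 2 H : ℝ) + 1) ^ 2 * B₀ * SS H ^ n

/-- The tuples of the third kind in a block. -/
def S_PC : Prop := ∀ (n K : ℕ) (η : ℝ), 0 < η → ∃ C : ℝ, 1 ≤ C ∧ ∀ (H : ℕ) (B₀ : ℝ), 1 ≤ H → 0 ≤ B₀ →
  ∀ G : Finset (Fin n → ℤ), (∀ x ∈ G, Adm x ∧ ∀ i, (x i).natAbs ≤ H) →
  (∀ x ∈ G, ∃ (t : Fin 4 → Fin n) (k : Fin 4 → ℕ), (∀ a, 2 ≤ k a ∧ k a ≤ K) ∧ OptC n B₀ t k x) →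
  (G.card : ℝ) ≤ C * (H : ℝ) ^ η * ((Nat.log 2 H : ℝ) + 1) ^ (n + 4) * B₀

/-! ### The combinatorial lemma -/

/-- The radical of the part with exponents up to `e` (logarithm). -/
def mu (z : ℕ → ℝ) (e : ℕ) : ℝ := ∑ q ∈ Icc 1 e, z q

/-- The size of the part with exponents up to `e` (logarithm). -/
def ka (z : ℕ → ℝ) (e : ℕ) : ℝ := ∑ q ∈ Icc 1 e, (q : ℝ) * z q

/-- `z` describes an integer of radical `r` and size `s` (logarithms), up to the exponent `K`. -/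
def Str (K : ℕ) (z : ℕ → ℝ) (r s : ℝ) : Prop :=
  (∀ q, 0 ≤ z q) ∧ ∀ p : ℕ, p ≤ K → (p : ℝ) * r + ∑ q ∈ Icc 1 K, ((q : ℝ) - p) * z q ≤ s

/-- Two coordinates all of whose power parts are small. -/
def S_PLP : Prop := ∀ (K : ℕ) (a b : ℕ → ℝ) (ra rb sa sb σ Δ ε : ℝ), 1 ≤ K → 0 ≤ Δ → 0 ≤ ε →
  Str K a ra sa → Str K b rb sb → sa ≤ 1 → sb ≤ 1 →
  (∀ q, 2 ≤ q → q ≤ K → a q ≤ Δ ∧ b q ≤ Δ) → ra - ε ≤ mu a K → rb - ε ≤ mu b K →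
  σ - Δ ≤ ra → σ - Δ ≤ rb → σ ≤ max sa sb → 2 * Δ + 2 * ε < σ →
  (∀ e₁ e₂, e₁ ≤ K → e₂ ≤ K →
    min (mu a e₁ + mu b e₂) (mu a e₁ + mu b e₂ - ka a e₁ - ka b e₂ + max sa sb) < σ) →
  ∃ p : ℕ, 2 ≤ p ∧ p ≤ K ∧ max sa sb < (p : ℝ) * (σ + Δ) ∧ (p : ℝ) * (σ - 3 * Δ) < 1 ∧
    ∀ h : ℕ, h + 1 ≤ p → (h : ℝ) * (σ - Δ - ε - h * Δ) < 2 * p * Δ

/-- A coordinate of small size `si` and a large coordinate `j`. -/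
def S_SIZE : Prop := ∀ (K : ℕ) (z : ℕ → ℝ) (ri si rj sj σ ε : ℝ), 1 ≤ K → Str K z rj sj → 0 ≤ rj → rj ≤ 1 →
  0 ≤ si → sj ≤ 1 → rj - ε ≤ mu z K →
  (∀ e, e ≤ K → min (ri + mu z e) (ri + mu z e - si - ka z e + max si sj) < σ) →
  (∀ k, 1 ≤ k → k ≤ K → ri + min (z k) (1 - si) < σ) →
  (sj - si) * rj < 2 * (σ - ri) ∨ rj - ε < σ - ri

/-- The final inequality. -/
def S_NUM : Prop := ∀ (n p : ℕ) (s σ Δ ε : ℝ), 30 ≤ n → 2 ≤ p →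
  32 * ((n : ℝ) - 3) / (((n : ℝ) - 1) * ((n : ℝ) - 2) * ((n : ℝ) - 23)) ≤ σ → 0 ≤ Δ →
  ((n : ℝ) - 6) * Δ ≤ 2 * σ → 0 ≤ ε → 50 * ((n : ℝ) - 6) * ε ≤ σ → ((n : ℝ) - 6) * (1 - s) ≤ 402 / 100 →
  s < p * (σ + Δ) → (p : ℝ) * (σ - 3 * Δ) < 1 →
  (∀ h : ℕ, h + 1 ≤ p → (h : ℝ) * (σ - Δ - ε - h * Δ) < 2 * p * Δ) → False

/-- The third combinatorial lemma (logarithms to base `H`). -/
def S_COMB3 : Prop := ∀ (n K : ℕ) (r s : Fin n → ℝ) (z : Fin n → ℕ → ℝ) (j₁ j₂ : Fin n) (L g e E : ℝ),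
  30 ≤ n → 1 ≤ K → j₁ ≠ j₂ → 0 < e → 0 ≤ E → 100 * E ≤ e → 100 ≤ e * ((K : ℝ) + 1) →
  (∀ i, 0 ≤ r i ∧ r i ≤ s i ∧ s i ≤ 1) → (∀ i, Str K (z i) (r i) (s i)) →
  (∀ i, ((K : ℝ) + 1) * (r i - mu (z i) K) ≤ 1) → 1 - E ≤ s j₁ → 1 - E ≤ s j₂ →
  ∑ i, r i ≤ L → 32 / ((n : ℝ) - 23) ≤ L → L ≤ 4 / 5 * ((n : ℝ) - 2) →
  ((n : ℝ) - 3) / ((n : ℝ) - 2) * L + e ≤ g →
  -- no saving from parts of two coordinates
  (∀ i m, i ≠ m → ∀ e₁ e₂, e₁ ≤ K → e₂ ≤ K → min (mu (z i) e₁ + mu (z m) e₂)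
    (mu (z i) e₁ + mu (z m) e₂ - ka (z i) e₁ - ka (z m) e₂ + max (s i) (s m)) < ∑ t, r t - g) →
  (∀ i m, i ≠ m → ∀ e₂, e₂ ≤ K → min (r i + mu (z m) e₂)
    (r i + mu (z m) e₂ - s i - ka (z m) e₂ + max (s i) (s m)) < ∑ t, r t - g) →
  -- no saving from a coordinate and the base of a power in a large coordinate
  (∀ i j, (j = j₁ ∨ j = j₂) → i ≠ j → ∀ k, 1 ≤ k → k ≤ K → r i + min (z j k) (1 - s i) < ∑ t, r t - g) →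
  -- no saving from four coordinates with power parts
  (∀ (t : Fin 4 → Fin n) (k : Fin 4 → ℕ), Function.Injective t → (∀ a, 2 ≤ k a ∧ k a ≤ K) →
    (∑ a, (r (t a) + z (t a) (k a))) / 4 < ∑ t, r t - g) →
  False

end Pool.Agent.H42.EX
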