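import Pool.Agent.H42.EX.Block
import Pool.Agent.H42.EX.Fib12
import Pool.Agent.H42.EX.Stm4

set_option autoImplicit false

/-!
# Project EX3: the tuples of the first kind in a block (`S_PP`; helper85)
-/

namespace Pool.Agent.H42.EX.PP

open Finset
open Pool.Agent.H328R2.ABC (rad sum_inv_rad)
open Pool.Agent.Q38.NC

theorem low_pos (D : Finset ℕ) (m : ℕ) : 0 < low D m :=
  Finset.prod_pos fun k _ => pow_pos (bk_pos k m) k

theorem rlow_pos (D : Finset ℕ) (m : ℕ) : 0 < rlow D m :=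
  Finset.prod_pos fun k _ => bk_pos k m

theorem low_le (D : Finset ℕ) {m : ℕ} (hm : m ≠ 0) : low D m ≤ m := by
  have h := cof_mul hm D
  unfold low
  calc ∏ k ∈ D, bk k m ^ k ≤ cof D m * ∏ k ∈ D, bk k m ^ k :=
        Nat.le_mul_of_pos_left _ (cof_pos _ _)
    _ = m := h

/-- Parts of two coordinates: the bound for a cell. -/
theorem cell {n H : ℕ} (i m : Fin n) (D₁ D₂ : Finset ℕ) (A A' X B₀ : ℝ) (him : i ≠ m)
    (hA : 1 ≤ A) (hA' : 1 ≤ A') (hX : 1 ≤ X) (hB₀ : 0 ≤ B₀) (G : Finset (Fin n → ℤ))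
    (hG : ∀ x ∈ G, Adm x ∧ (∀ t, (x t).natAbs ≤ H) ∧ X ≤ ((x m).natAbs : ℝ) ∧
      ((x m).natAbs : ℝ) ≤ 2 * X ∧
      A ≤ (low D₁ (x i).natAbs : ℝ) ∧ (low D₁ (x i).natAbs : ℝ) ≤ 2 * A ∧
      A' ≤ (low D₂ (x m).natAbs : ℝ) ∧ (low D₂ (x m).natAbs : ℝ) ≤ 2 * A' ∧
      PR x ≤ B₀ * ((rlow D₁ (x i).natAbs : ℝ) * rlow D₂ (x m).natAbs) ∧
      PR x * ((low D₁ (x i).natAbs : ℝ) * low D₂ (x m).natAbs) ≤
        B₀ * ((rlow D₁ (x i).natAbs : ℝ) * rlow D₂ (x m).natAbs) * (x m).natAbs) :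
    (G.card : ℝ) ≤ 17 * B₀ * SS H ^ n := by
  classical
  obtain ⟨D, hD⟩ : ∃ D : Fin n → Finset ℕ, D = fun t => if t = i then D₁ else if t = m then D₂ else ∅ :=
    ⟨_, rfl⟩
  have hDi : D i = D₁ := by rw [hD]; simp
  have hDm : D m = D₂ := by rw [hD]; simp [him.symm]
  have hDt : ∀ t, t ≠ i → t ≠ m → D t = ∅ := by
    intro t h1 h2
    rw [hD]; simp [h1, h2]
  have hDS : ∀ t, t ∉ ({i, m} : Finset (Fin n)) → D t = ∅ := by
    intro t ht
    simp only [mem_insert, mem_singleton, not_or] at ht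
    exact hDt t ht.1 ht.2
  refine cellD D (by positivity) G (fun x hx => ⟨(hG x hx).1.ne, (hG x hx).2.1⟩) ?_
  intro x hx
  obtain ⟨x1, x2, x3, x4, x5, x6, x7, x8, x9, x10⟩ := hG x hx
  have hfib := Fib12.pair n i m (codeD D x i) (codeD D x m) A A' X him hA hA' hX
    (G.filter fun y => codeD D y = codeD D x) (by
    intro y hy
    obtain ⟨hy, hyx⟩ := mem_filter.1 hy
    obtain ⟨y1, y2, y3, y4, y5, y6, y7, y8, -, -⟩ := hG y hy
    refine ⟨y1, y3, low D₁ (y i).natAbs, low D₂ (y m).natAbs, ?_, ?_, y6, y8⟩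
    · have := codeD_mul D (y1.ne i)
      rw [hDi, hyx] at this
      rw [this]
      unfold low
      push_cast
      congr 1
      rw [← this]
    · have := codeD_mul D (y1.ne m)
      rw [hDm, hyx] at this
      rw [this]
      unfold low
      push_cast
      congr 1
      rw [← this]) (by
    intro y hy z hz t ht1 ht2
    obtain ⟨hy, hyx⟩ := mem_filter.1 hy
    obtain ⟨hz, hzx⟩ := mem_filter.1 hz
    exact codeD_agree D (hG y hy).1.ne (hG z hz).1.ne (hyx.trans hzx.symm) (hDt t ht1 ht2))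
  have hPR := PR_codeD' D {i, m} hDS x1.ne
  rw [prod_pair him, hDi, hDm] at hPR
  obtain ⟨r, hr⟩ : ∃ r : ℝ, r = rlow D₁ (x i).natAbs := ⟨_, rfl⟩
  obtain ⟨r', hr'⟩ : ∃ r' : ℝ, r' = rlow D₂ (x m).natAbs := ⟨_, rfl⟩
  obtain ⟨a, ha⟩ : ∃ a : ℝ, a = low D₁ (x i).natAbs := ⟨_, rfl⟩
  obtain ⟨a', ha'⟩ : ∃ a' : ℝ, a' = low D₂ (x m).natAbs := ⟨_, rfl⟩
  obtain ⟨X', hX'⟩ : ∃ X' : ℝ, X' = (x m).natAbs := ⟨_, rfl⟩
  have hr0 : 0 < r := by rw [hr]; exact_mod_cast rlow_pos _ _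
  have hr'0 : 0 < r' := by rw [hr']; exact_mod_cast rlow_pos _ _
  have ha0 : 0 < a := by rw [ha]; exact_mod_cast low_pos _ _
  have ha'0 : 0 < a' := by rw [ha']; exact_mod_cast low_pos _ _
  have hPR' : PR x = PR (codeD D x) * (r * r') := by
    rw [hr, hr', hPR]
    unfold rlow
    push_cast
    ring
  rw [← hr, ← hr'] at x9 x10
  rw [← ha] at x5 x6 x10
  rw [← ha'] at x7 x8 x10
  rw [← hX'] at x3 x4 x10
  have hX'0 : 0 < X' := by linarith
  have hP : PR (codeD D x) = PR x / (r * r') := by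
    rw [hPR']; field_simp
  have hPR0 := PR_pos x
  have hPc0 := PR_pos (codeD D x)
  have hX0 : 0 < X := by linarith
  have e1 : PR x / (r * r') ≤ B₀ := by
    rw [div_le_iff₀ (by positivity)]; exact x9
  have e2 : 8 * A * A' / X * (PR x / (r * r')) ≤ 16 * B₀ := by
    rw [div_mul_div_comm, div_le_iff₀ (by positivity)]
    have h1 : A * A' ≤ a * a' := mul_le_mul x5 x7 (by linarith) ha0.le
    calc 8 * A * A' * PR x = 8 * ((A * A') * PR x) := by ring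
      _ ≤ 8 * ((a * a') * PR x) := by
          apply mul_le_mul_of_nonneg_left _ (by norm_num)
          exact mul_le_mul_of_nonneg_right h1 hPR0.le
      _ = 8 * (PR x * (a * a')) := by ring
      _ ≤ 8 * (B₀ * (r * r') * X') := mul_le_mul_of_nonneg_left x10 (by norm_num)
      _ ≤ 8 * (B₀ * (r * r') * (2 * X)) := by
          apply mul_le_mul_of_nonneg_left _ (by norm_num)
          exact mul_le_mul_of_nonneg_left x4 (by positivity)
      _ = 16 * B₀ * (X * (r * r')) := by ring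
  calc ((G.filter fun y => codeD D y = codeD D x).card : ℝ) * PR (codeD D x) ≤
        (1 + 8 * A * A' / X) * PR (codeD D x) := mul_le_mul_of_nonneg_right hfib hPc0.le
    _ = PR x / (r * r') + 8 * A * A' / X * (PR x / (r * r')) := by rw [hP]; ring
    _ ≤ B₀ + 16 * B₀ := add_le_add e1 e2
    _ = 17 * B₀ := by ring

theorem main : S_PP := by
  classical
  intro n K
  refine ⟨(n : ℝ) ^ 2 * ((K + 2) * (K + 1)) * 17 + 1, by
    have : 0 ≤ (n : ℝ) ^ 2 * ((K + 2) * (K + 1)) * 17 := by positivity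
    linarith, ?_⟩
  intro H B₀ hH hB₀ G hG hopt
  have hH0 : (0 : ℝ) < H := by exact_mod_cast hH
  have hSS : 0 ≤ SS H := sum_nonneg fun _ _ => by positivity
  have hcl := card_classes G ((univ : Finset (Fin n × Fin n)) ×ˢ ((range (K + 2) ×ˢ range (K + 1)) ×ˢ
    (range (Nat.log 2 H + 1) ×ˢ (range (Nat.log 2 H + 1) ×ˢ range (Nat.log 2 H + 1)))))
    (fun t x => OptP n H K B₀ t.1.1 t.1.2 t.2.1.1 t.2.1.2 x ∧
      Nat.log 2 (low (dset H K t.2.1.1) (x t.1.1).natAbs) = t.2.2.1 ∧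
      Nat.log 2 (low (dset H K t.2.1.2) (x t.1.2).natAbs) = t.2.2.2.1 ∧
      Nat.log 2 (x t.1.2).natAbs = t.2.2.2.2) (by
      intro x hx
      obtain ⟨i, m, e₁, e₂, he₁, he₂, ho⟩ := hopt x hx
      obtain ⟨g1, g2⟩ := hG x hx
      have hne : ∀ t, (x t).natAbs ≠ 0 := fun t => Int.natAbs_ne_zero.2 (g1.ne t)
      refine ⟨((i, m), ((e₁, e₂), (Nat.log 2 (low (dset H K e₁) (x i).natAbs),
        (Nat.log 2 (low (dset H K e₂) (x m).natAbs), Nat.log 2 (x m).natAbs)))), ?_, ho, rfl, rfl, rfl⟩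
      rw [mem_product, mem_product, mem_product, mem_product, mem_product]
      exact ⟨mem_univ _, ⟨mem_range.2 (show e₁ < K + 2 by omega), mem_range.2 (show e₂ < K + 1 by omega)⟩,
        log_mem ((low_le _ (hne i)).trans (g2 i)), log_mem ((low_le _ (hne m)).trans (g2 m)),
        log_mem (g2 m)⟩)
    (B := 17 * B₀ * SS H ^ n) (by
      rintro ⟨⟨i, m⟩, ⟨e₁, e₂⟩, u, v, w⟩ ht G' hG'
      rcases G'.eq_empty_or_nonempty with h0 | ⟨x₀, hx₀⟩
      · rw [h0, card_empty, Nat.cast_zero]; positivity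
      refine cell i m (dset H K e₁) (dset H K e₂) (2 ^ u) (2 ^ v) (2 ^ w) B₀ (hG' x₀ hx₀).2.1.1
        (one_le_pow₀ (by norm_num)) (one_le_pow₀ (by norm_num)) (one_le_pow₀ (by norm_num)) hB₀ G' ?_
      intro x hx
      obtain ⟨hxG, ⟨o1, o2, o3⟩, hu, hv, hw⟩ := hG' x hx
      obtain ⟨g1, g2⟩ := hG x hxG
      simp only at hu hv hw
      have d1 := dy (low_pos (dset H K e₁) (x i).natAbs)
      have d2 := dy (low_pos (dset H K e₂) (x m).natAbs)
      have d3 := dy (Int.natAbs_pos.2 (g1.ne m))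
      rw [hu] at d1
      rw [hv] at d2
      rw [hw] at d3
      exact ⟨g1, g2, d3.1, d3.2, d1.1, d1.2, d2.1, d2.2, o2, o3⟩)
  refine hcl.trans ?_
  rw [card_product, card_product, card_product, card_product, card_product, card_range, card_range,
    card_range, card_univ, Fintype.card_prod, Fintype.card_fin]
  push_cast
  have e : ((n : ℝ) * n * (((K : ℝ) + 2) * ((K : ℝ) + 1) * (((Nat.log 2 H : ℝ) + 1) *
      (((Nat.log 2 H : ℝ) + 1) * ((Nat.log 2 H : ℝ) + 1))))) *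
      (17 * B₀ * SS H ^ n) =
      ((n : ℝ) ^ 2 * ((K + 2) * (K + 1)) * 17) * (((Nat.log 2 H : ℝ) + 1) ^ 3 * B₀ * SS H ^ n) := by
    ring
  rw [e]
  have h0 : 0 ≤ ((Nat.log 2 H : ℝ) + 1) ^ 3 * B₀ * SS H ^ n := by positivity
  calc ((n : ℝ) ^ 2 * ((K + 2) * (K + 1)) * 17) * (((Nat.log 2 H : ℝ) + 1) ^ 3 * B₀ * SS H ^ n) ≤
      ((n : ℝ) ^ 2 * ((K + 2) * (K + 1)) * 17 + 1) *
        (((Nat.log 2 H : ℝ) + 1) ^ 3 * B₀ * SS H ^ n) := by nlinarith
    _ = _ := by ring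

end Pool.Agent.H42.EX.PP
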