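import Pool.Agent.H42.SN.Count2

set_option autoImplicit false

/-!
# Project EX: the numerical conditions of the count, for all large `T`
-/

namespace Pool.Agent.H42.EX.Par

open Finset Filter Topology
open Pool.Agent.H42.SN

/-- The numerical conditions hold for all large `T`. -/
theorem ev_par (K t : ℕ) {κ θ : ℝ} (hκ : 0 ≤ κ) (hθ0 : 0 < θ) (hθ : θ ≤ 1 / 8) :
    ∀ᶠ T : ℝ in atTop, ∃ Y N : ℕ, Par K t T (κ * Real.log T) Y N ∧ T ^ (1 - 3 * θ) ≤ (N : ℝ) := by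
  have htR : (0 : ℝ) ≤ (t : ℝ) := by positivity
  set E : ℝ := 1 / (2 * θ) with hE
  have hE0 : 0 < E := by positivity
  have hEθ : 1 / (2 * E) = θ := by rw [hE]; field_simp
  have ev : ∀ᶠ H : ℝ in atTop,
      (1 ≤ H) ∧
      (((16 : ℝ) ≤ (⌊Real.log H / (4 * E)⌋₊ : ℝ)) ∧
        (Real.exp (64 * E * κ) ≤ (⌊Real.log H / (4 * E)⌋₊ : ℝ))) ∧
      ((2 * Real.sqrt (2 * (t + 2)) ≤ 1 / 16 * H ^ (1 / 2 - θ)) ∧
        (4 * κ * Real.log H ≤ 1 / 16 * H ^ (1 - θ)) ∧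
        (1 ≤ 1 / 16 * H ^ θ) ∧ ((2 : ℝ) ^ (K + 1) + 3 ≤ 1 / 16 * H ^ (1 - θ))) ∧
      (2 ≤ 1 * H ^ (1 - 2 * θ)) := by
    refine (eventually_ge_atTop 1).and
      (((ev_floor_log hE0 _).and (ev_floor_log hE0 _)).and
      (((ev_const_le (by linarith) (by norm_num)).and ((ev_log_le (by linarith) (by norm_num)).and
        ((ev_const_le hθ0 (by norm_num)).and (ev_const_le (by linarith) (by norm_num))))).and
      (ev_const_le (by linarith) one_pos)))
  filter_upwards [ev] with H hH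
  obtain ⟨g1, ⟨g3, g4⟩, ⟨g5, g6, g7, g8⟩, g16⟩ := hH
  rw [one_mul] at g16
  have hH0 : 0 < H := by linarith
  have hlogH : 0 ≤ Real.log H := Real.log_nonneg g1
  set Y : ℕ := ⌊Real.log H / (4 * E)⌋₊ with hY
  have hY16 : 16 ≤ Y := by exact_mod_cast g3
  have hYR : (16 : ℝ) ≤ Y := by exact_mod_cast hY16
  set N : ℕ := ⌊H ^ (1 - 2 * θ)⌋₊ with hN
  have hNle : (N : ℝ) ≤ H ^ (1 - 2 * θ) := Nat.floor_le (by positivity)
  have hprim : ((primorial Y : ℕ) : ℝ) ≤ H ^ θ := by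
    have h1 : ((primorial Y : ℕ) : ℝ) ≤ (4 : ℝ) ^ Y := by exact_mod_cast primorial_le_four_pow Y
    have h2 := four_pow_le hE0 g1
    rw [hEθ] at h2
    exact h1.trans h2
  have hprim0 : (0 : ℝ) < ((primorial Y : ℕ) : ℝ) := by exact_mod_cast primorial_pos Y
  refine ⟨Y, N, ⟨hY16, g1, ?_, ?_⟩, ?_⟩
  · rcases hκ.eq_or_lt with h0 | hκ0
    · rw [← h0]; norm_num
    have hlY : 64 * E * κ ≤ Real.log Y := by
      rw [← Real.log_exp (64 * E * κ)]
      exact Real.log_le_log (Real.exp_pos _) g4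
    have hlY0 : 0 < Real.log Y := lt_of_lt_of_le (by positivity) hlY
    rw [div_le_iff₀ (by positivity)]
    have h1 : Real.log H / (4 * E) < Y + 1 := Nat.lt_floor_add_one _
    have h2 : Real.log H ≤ 8 * E * Y := by
      rw [div_lt_iff₀ (by positivity)] at h1
      nlinarith
    calc κ * Real.log H ≤ κ * (8 * E * Y) := mul_le_mul_of_nonneg_left h2 hκ
      _ = 1 / 8 * (Y * (64 * E * κ)) := by ring
      _ ≤ 1 / 8 * (Y * Real.log Y) := by
        apply mul_le_mul_of_nonneg_left _ (by norm_num)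
        exact mul_le_mul_of_nonneg_left hlY (by positivity)
  · have h1 : H ^ (1 - θ) ≤ H / ((primorial Y : ℕ) : ℝ) := by
      rw [le_div_iff₀ hprim0]
      calc H ^ (1 - θ) * ((primorial Y : ℕ) : ℝ) ≤ H ^ (1 - θ) * H ^ θ :=
            mul_le_mul_of_nonneg_left hprim (by positivity)
        _ = H := by rw [← Real.rpow_add hH0]; simp
    have h2 : 2 * Real.sqrt (2 * ((t + 2) * H)) ≤ 1 / 16 * H ^ (1 - θ) := by
      have e1 : Real.sqrt (2 * ((t + 2) * H)) = Real.sqrt (2 * (t + 2)) * H ^ ((1 : ℝ) / 2) := by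
        rw [← mul_assoc, Real.sqrt_mul (by positivity), Real.sqrt_eq_rpow H]
      rw [e1]
      calc 2 * (Real.sqrt (2 * (t + 2)) * H ^ ((1 : ℝ) / 2)) = (2 * Real.sqrt (2 * (t + 2))) * H ^ ((1 : ℝ) / 2) := by ring
        _ ≤ (1 / 16 * H ^ (1 / 2 - θ)) * H ^ ((1 : ℝ) / 2) := mul_le_mul_of_nonneg_right g5 (by positivity)
        _ = 1 / 16 * H ^ (1 - θ) := by
          rw [mul_assoc, ← Real.rpow_add hH0]; congr 2; ring
    have h3 : (N : ℝ) ≤ 1 / 16 * H ^ (1 - θ) := by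
      calc (N : ℝ) ≤ H ^ (1 - 2 * θ) * 1 := by rw [mul_one]; exact hNle
        _ ≤ H ^ (1 - 2 * θ) * (1 / 16 * H ^ θ) := mul_le_mul_of_nonneg_left g7 (by positivity)
        _ = 1 / 16 * H ^ (1 - θ) := by
          rw [mul_left_comm, ← Real.rpow_add hH0]; congr 2; ring
    have h4 : 4 * (κ * Real.log H) ≤ 1 / 16 * H ^ (1 - θ) := by linarith
    have h5 : 0 < H ^ (1 - θ) := by positivity
    linarith
  · have h4 : H ^ (1 - 2 * θ) < N + 1 := Nat.lt_floor_add_one _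
    have h5 : H ^ (1 - 2 * θ) / 2 ≤ N := by linarith
    refine le_trans ?_ h5
    rw [le_div_iff₀ (by norm_num)]
    have h6 : (2 : ℝ) ≤ H ^ θ := by linarith
    calc H ^ (1 - 3 * θ) * 2 ≤ H ^ (1 - 3 * θ) * H ^ θ := mul_le_mul_of_nonneg_left h6 (by positivity)
      _ = H ^ (1 - 2 * θ) := by rw [← Real.rpow_add hH0]; congr 1; ring

end Pool.Agent.H42.EX.Par
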