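import Pool.Agent.H42.EX.Stm4

set_option autoImplicit false

/-! # EX3-PLP: two coordinates all of whose power parts are small (helper71) -/

namespace Pool.Agent.H42.EX.Plp

open Finset
open Pool.Agent.H42.EX

theorem mu_succ (z : ℕ → ℝ) (e : ℕ) : mu z (e + 1) = mu z e + z (e + 1) := by
  unfold mu
  rw [Finset.sum_Icc_succ_top (by omega)]

theorem ka_succ (z : ℕ → ℝ) (e : ℕ) : ka z (e + 1) = ka z e + ((e : ℝ) + 1) * z (e + 1) := by
  unfold ka
  rw [Finset.sum_Icc_succ_top (by omega)]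
  push_cast
  ring

/-- the deviation from `m + 1` -/
theorem dev_eq (z : ℕ → ℝ) (m K : ℕ) (h : m ≤ K) :
    ∑ q ∈ Icc 1 K, |(q : ℝ) - ((m : ℝ) + 1)| * z q =
      ∑ q ∈ Icc 1 K, ((q : ℝ) - ((m : ℝ) + 1)) * z q +
        2 * (((m : ℝ) + 1) * mu z m - ka z m) := by
  induction K, h using Nat.le_induction with
  | base =>
    unfold mu ka
    rw [Finset.mul_sum, ← Finset.sum_sub_distrib, Finset.mul_sum, ← Finset.sum_add_distrib]
    refine Finset.sum_congr rfl fun q hq => ?_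
    have : (q : ℝ) ≤ m := by exact_mod_cast (Finset.mem_Icc.1 hq).2
    rw [abs_of_nonpos (by linarith)]
    ring
  | succ K hK ih =>
    rw [Finset.sum_Icc_succ_top (by omega), Finset.sum_Icc_succ_top (by omega), ih]
    have : (m : ℝ) ≤ K := by exact_mod_cast hK
    push_cast
    rw [abs_of_nonneg (by linarith)]
    ring

theorem dev_abs (z : ℕ → ℝ) (c : ℝ) (K : ℕ) (hz : ∀ q, 0 ≤ z q) :
    |∑ q ∈ Icc 1 K, ((q : ℝ) - c) * z q| ≤ ∑ q ∈ Icc 1 K, |(q : ℝ) - c| * z q := by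
  refine (Finset.abs_sum_le_sum_abs _ _).trans (le_of_eq (Finset.sum_congr rfl fun q _ => ?_))
  rw [abs_mul, abs_of_nonneg (hz q)]

theorem hump (K p h : ℕ) (hp : h ≤ p) :
    ∑ q ∈ Icc 1 K, max 0 ((h : ℝ) - |(q : ℝ) - p|) ≤ (h : ℝ) ^ 2 := by
  induction h with
  | zero =>
    refine le_of_eq ?_
    rw [Finset.sum_eq_zero]
    · simp
    · intro q _
      refine max_eq_left ?_
      have := abs_nonneg ((q : ℝ) - p)
      push_cast
      linarith
  | succ h ih =>
    have h1 : ∀ q ∈ Icc 1 K, max 0 (((h + 1 : ℕ) : ℝ) - |(q : ℝ) - p|) ≤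
        max 0 ((h : ℝ) - |(q : ℝ) - p|) + (if q ∈ Icc (p - h) (p + h) then (1 : ℝ) else 0) := by
      intro q _
      push_cast
      by_cases hq : q ∈ Icc (p - h) (p + h)
      · rw [if_pos hq]
        refine max_le ?_ ?_
        · have := le_max_left 0 ((h : ℝ) - |(q : ℝ) - p|)
          linarith
        · have := le_max_right 0 ((h : ℝ) - |(q : ℝ) - p|)
          linarith
      · rw [if_neg hq, add_zero]
        refine max_le (le_max_left _ _) ?_
        have h2 : (h : ℝ) + 1 ≤ |(q : ℝ) - p| := by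
          rw [Finset.mem_Icc, not_and_or, not_le, not_le] at hq
          rcases hq with hq | hq
          · have h3 : q + (h + 1) ≤ p := by omega
            have h4 : (q : ℝ) + ((h : ℝ) + 1) ≤ p := by exact_mod_cast h3
            rw [abs_sub_comm]
            exact le_trans (by linarith) (le_abs_self _)
          · have h3 : p + (h + 1) ≤ q := by omega
            have h4 : (p : ℝ) + ((h : ℝ) + 1) ≤ q := by exact_mod_cast h3
            exact le_trans (by linarith) (le_abs_self _)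
        exact le_trans (by linarith) (le_max_left _ _)
    refine (Finset.sum_le_sum h1).trans ?_
    rw [Finset.sum_add_distrib]
    have h2 : ∑ q ∈ Icc 1 K, (if q ∈ Icc (p - h) (p + h) then (1 : ℝ) else 0) ≤ 2 * h + 1 := by
      rw [Finset.sum_ite_mem, Finset.sum_const, nsmul_eq_mul, mul_one]
      have : (Icc 1 K ∩ Icc (p - h) (p + h)).card ≤ 2 * h + 1 := by
        refine (Finset.card_le_card Finset.inter_subset_right).trans ?_
        rw [Nat.card_Icc]
        omega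
      exact_mod_cast this
    have h3 := ih (by omega)
    push_cast
    nlinarith

theorem dev_ge (z : ℕ → ℝ) (K p h : ℕ) (Δ : ℝ) (hz : ∀ q, 0 ≤ z q) (hΔ : 0 ≤ Δ)
    (hs : ∀ q, 2 ≤ q → q ≤ K → z q ≤ Δ) (hp : h + 1 ≤ p) :
    (h : ℝ) * mu z K - Δ * (h : ℝ) ^ 2 ≤ ∑ q ∈ Icc 1 K, |(q : ℝ) - p| * z q := by
  have h1 : (h : ℝ) * mu z K - ∑ q ∈ Icc 1 K, |(q : ℝ) - p| * z q ≤
      ∑ q ∈ Icc 1 K, max 0 ((h : ℝ) - |(q : ℝ) - p|) * Δ := by
    unfold mu
    rw [Finset.mul_sum, ← Finset.sum_sub_distrib]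
    refine Finset.sum_le_sum fun q hq => ?_
    obtain ⟨hq1, hq2⟩ := Finset.mem_Icc.1 hq
    have e : (h : ℝ) * z q - |(q : ℝ) - p| * z q = ((h : ℝ) - |(q : ℝ) - p|) * z q := by ring
    rw [e]
    rcases Nat.lt_or_ge q 2 with h2 | h2
    · have h4 : q = 1 := by omega
      subst h4
      have h3 : (h : ℝ) - |((1 : ℕ) : ℝ) - p| ≤ 0 := by
        have h5 : (h : ℝ) + 1 ≤ p := by exact_mod_cast hp
        have h6 : (0 : ℝ) ≤ h := Nat.cast_nonneg h
        rw [abs_of_nonpos (by push_cast; linarith)]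
        push_cast
        linarith
      exact (mul_nonpos_of_nonpos_of_nonneg h3 (hz 1)).trans (mul_nonneg (le_max_left _ _) hΔ)
    · exact (mul_le_mul_of_nonneg_right (le_max_right 0 _) (hz q)).trans
        (mul_le_mul_of_nonneg_left (hs q h2 hq2) (le_max_left _ _))
  rw [← Finset.sum_mul] at h1
  have h2 := mul_le_mul_of_nonneg_right (hump K p h (by omega)) hΔ
  linarith

theorem main : S_PLP := by
  intro K a b ra rb sa sb σ Δ ε hK hΔ hε ha hb hsa hsb hab hμa hμb hra hrb hσ hlt hmin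
  obtain ⟨s, hs⟩ : ∃ s, s = max sa sb := ⟨_, rfl⟩
  rw [← hs] at hσ hmin ⊢
  have hs1 : sa ≤ s := hs ▸ le_max_left _ _
  have hs2 : sb ≤ s := hs ▸ le_max_right _ _
  have hss : sa + sb - s ≤ 1 := by
    rcases le_total sa sb with h | h
    · rw [max_eq_right h] at hs
      linarith
    · rw [max_eq_left h] at hs
      linarith
  have hmin' : ∀ e₁ e₂, e₁ ≤ K → e₂ ≤ K → ka a e₁ + ka b e₂ ≤ s → mu a e₁ + mu b e₂ < σ := by
    intro e₁ e₂ h1 h2 h3
    rcases min_lt_iff.1 (hmin e₁ e₂ h1 h2) with h | h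
    · exact h
    · linarith
  have hKK : s < ka a K + ka b K := by
    by_contra h
    have := hmin' K K le_rfl le_rfl (not_lt.1 h)
    linarith
  have hex : ∃ p, s < ka a p + ka b p := ⟨K, hKK⟩
  classical
  obtain ⟨p, hp, hpm⟩ : ∃ p, s < ka a p + ka b p ∧ ∀ m < p, ka a m + ka b m ≤ s :=
    ⟨Nat.find hex, Nat.find_spec hex, fun m hm => not_lt.1 (Nat.find_min hex hm)⟩
  have hpK : p ≤ K := by
    by_contra h
    have := hpm K (not_le.1 h)
    linarith
  have hka0 : ∀ z : ℕ → ℝ, ka z 0 = 0 := fun z => by simp [ka]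
  have hmu0 : ∀ z : ℕ → ℝ, mu z 0 = 0 := fun z => by simp [mu]
  have hp0 : p ≠ 0 := by
    rintro rfl
    rw [hka0, hka0] at hp
    linarith
  have hp1 : p ≠ 1 := by
    rintro rfl
    have e1 : ∀ z : ℕ → ℝ, mu z 1 = ka z 1 := fun z => by simp [mu, ka]
    rcases min_lt_iff.1 (hmin 1 1 hK hK) with h | h
    · rw [e1, e1] at h
      linarith
    · rw [e1, e1] at h
      linarith
  obtain ⟨m, rfl⟩ : ∃ m, p = m + 1 := ⟨p - 1, by omega⟩
  have hm1 : 1 ≤ m := by omega
  have hmc := hpm m (by omega)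
  obtain ⟨P, hP⟩ : ∃ P, P = (m : ℝ) + 1 := ⟨_, rfl⟩
  have hP0 : 0 < P := by rw [hP]; positivity
  have hPc : ((m + 1 : ℕ) : ℝ) = P := by rw [hP]; push_cast; ring
  rw [ka_succ, ka_succ, ← hP] at hp
  obtain ⟨hda, hdb⟩ := hab (m + 1) (by omega) hpK
  have hPa := mul_le_mul_of_nonneg_left hda hP0.le
  have hPb := mul_le_mul_of_nonneg_left hdb hP0.le
  -- (ii), (iii)
  have h3 : s + (P * mu a m - ka a m) + (P * mu b m - ka b m) < P * (σ + Δ) := by
    rcases le_or_gt (P * a (m + 1)) (s - (ka a m + ka b m)) with hc | hc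
    · have h4 := hmin' (m + 1) m hpK (by omega) (by rw [ka_succ, ← hP]; linarith)
      rw [mu_succ] at h4
      have h5 := mul_lt_mul_of_pos_left h4 hP0
      nlinarith
    · have h4 := hmin' m m (by omega) (by omega) hmc
      have h5 := mul_lt_mul_of_pos_left h4 hP0
      nlinarith
  -- (iv)
  have h4a := ha.2 (m + 1) hpK
  have h4b := hb.2 (m + 1) hpK
  rw [hPc] at h4a h4b
  have ea := dev_eq a m K (by omega)
  have eb := dev_eq b m K (by omega)
  rw [← hP] at ea eb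
  have fa := abs_le.1 (dev_abs a P K ha.1)
  have fb := abs_le.1 (dev_abs b P K hb.1)
  have hra' := mul_le_mul_of_nonneg_left hra hP0.le
  have hrb' := mul_le_mul_of_nonneg_left hrb hP0.le
  refine ⟨m + 1, by omega, hpK, ?_, ?_, ?_⟩
  · rw [hPc]
    linarith [fa.2, fb.2]
  · rw [hPc]
    nlinarith [fa.1, fb.1]
  · intro h hh
    rw [hPc]
    have ga := dev_ge a K (m + 1) h Δ ha.1 hΔ (fun q h1 h2 => (hab q h1 h2).1) hh
    have gb := dev_ge b K (m + 1) h Δ hb.1 hΔ (fun q h1 h2 => (hab q h1 h2).2) hh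
    rw [hPc] at ga gb
    have hh0 : (0 : ℝ) ≤ h := Nat.cast_nonneg h
    have ka' : (h : ℝ) * (σ - Δ - ε) ≤ h * mu a K :=
      mul_le_mul_of_nonneg_left (by linarith) hh0
    have kb' : (h : ℝ) * (σ - Δ - ε) ≤ h * mu b K :=
      mul_le_mul_of_nonneg_left (by linarith) hh0
    nlinarith

end Pool.Agent.H42.EX.Plp
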