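import Pool.Agent.H42.EX.Stm4

set_option autoImplicit false

namespace Pool.Agent.H42.EX.Size

open Finset

theorem main : S_SIZE := by
  intro K z ri si rj sj σ ε hK hS hrj0 hrj1 hsi hsj hmu h1 h2
  obtain ⟨hz, hp⟩ := hS
  have mu0 : mu z 0 = 0 := by simp [mu]
  have ka0 : ka z 0 = 0 := by simp [ka]
  have hri : ri < σ := by
    have := h1 0 (Nat.zero_le _)
    rw [mu0, ka0, min_lt_iff] at this
    rcases this with h | h
    · linarith
    · linarith [le_max_left si sj]
  rcases le_or_gt (sj - si) 0 with hc | hc
  · left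
    nlinarith
  have hmax : max si sj = sj := max_eq_right (by linarith)
  have key : ∀ e ≤ K, ka z e ≤ sj - si → mu z e < σ - ri := by
    intro e he hk
    have := h1 e he
    rw [hmax, min_lt_iff] at this
    rcases this with h | h <;> linarith
  by_cases hall : ∃ e, e ≤ K ∧ sj - si < ka z e
  · left
    obtain ⟨k, ⟨hkK, hk⟩, hkmin⟩ : ∃ k, (k ≤ K ∧ sj - si < ka z k) ∧
        ∀ e < k, ¬ (e ≤ K ∧ sj - si < ka z e) := by
      classical
      exact ⟨Nat.find hall, Nat.find_spec hall, fun e he => Nat.find_min hall he⟩
    have hk0 : k ≠ 0 := by rintro rfl; rw [ka0] at hk; linarith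
    obtain ⟨e, rfl⟩ := Nat.exists_eq_succ_of_ne_zero hk0
    have hek : ka z e ≤ sj - si := by
      have := hkmin e (Nat.lt_succ_self e)
      push Not at this
      exact this (by omega)
    have hmue : mu z e < σ - ri := key e (by omega) hek
    have hmu_nonneg : 0 ≤ mu z e := Finset.sum_nonneg fun q _ => hz q
    have hkas : ka z (e + 1) = ka z e + ((e : ℝ) + 1) * z (e + 1) := by
      unfold ka
      rw [Finset.sum_Icc_succ_top (by omega)]
      push_cast
      ring
    have hk' : sj - si < ka z e + ((e : ℝ) + 1) * z (e + 1) := by rw [← hkas]; exact hk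
    have hele : ka z e ≤ (e : ℝ) * mu z e := by
      unfold ka mu
      rw [Finset.mul_sum]
      refine Finset.sum_le_sum fun q hq => ?_
      refine mul_le_mul_of_nonneg_right ?_ (hz q)
      exact_mod_cast (Finset.mem_Icc.1 hq).2
    have h3 := h2 (e + 1) (by omega) hkK
    have h3' : min (z (e + 1)) (1 - si) < σ - ri := by linarith
    rw [min_lt_iff] at h3'
    rcases h3' with h4 | h4
    · -- the main case
      have h5 := hp (e + 1) hkK
      have h6 : ka z e - ((e : ℝ) + 1) * mu z e ≤
          ∑ q ∈ Icc 1 K, ((q : ℝ) - ((e + 1 : ℕ) : ℝ)) * z q := by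
        have hsub : Icc 1 e ⊆ Icc 1 K := Finset.Icc_subset_Icc le_rfl (by omega)
        have h7 : ka z e - ((e : ℝ) + 1) * mu z e =
            ∑ q ∈ Icc 1 e, ((q : ℝ) - ((e + 1 : ℕ) : ℝ)) * z q := by
          unfold ka mu
          rw [Finset.mul_sum, ← Finset.sum_sub_distrib]
          refine Finset.sum_congr rfl fun q _ => ?_
          push_cast
          ring
        rw [h7, ← Finset.sum_sdiff hsub]
        have h8 : 0 ≤ ∑ q ∈ Icc 1 K \ Icc 1 e, ((q : ℝ) - ((e + 1 : ℕ) : ℝ)) * z q := by
          refine Finset.sum_nonneg fun q hq => mul_nonneg ?_ (hz q)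
          rw [Finset.mem_sdiff, Finset.mem_Icc, Finset.mem_Icc] at hq
          have : e + 1 ≤ q := by omega
          rw [sub_nonneg]
          exact_mod_cast this
        linarith
      push_cast at h5
      have he0 : (0 : ℝ) ≤ e := Nat.cast_nonneg _
      have hk1 : (0 : ℝ) < (e : ℝ) + 1 := by linarith
      push_cast at h6
      -- k G ≥ k rj - sj + c
      set c := sj - si with hcdef
      set k : ℝ := (e : ℝ) + 1 with hkdef
      have hG1 : k * rj - sj + c ≤ k * mu z e + c - ka z e := by linarith
      have hG2 : c ≤ k * mu z e + c - ka z e := by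
        have : (e : ℝ) * mu z e ≤ k * mu z e :=
          mul_le_mul_of_nonneg_right (by linarith) hmu_nonneg
        linarith
      have hc1 : c ≤ 1 := by linarith
      have hG3 : c * (k * rj) ≤ k * mu z e + c - ka z e := by
        have h9 := mul_le_mul_of_nonneg_left hG1 hc.le
        have h10 := mul_le_mul_of_nonneg_left hG2 (sub_nonneg.2 hc1)
        nlinarith
      have hG4 : k * mu z e + c - ka z e < k * (2 * (σ - ri)) := by
        have h11 : k * mu z e + c - ka z e < k * (mu z e + z (e + 1)) := by linarith
        refine h11.trans ?_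
        exact mul_lt_mul_of_pos_left (by linarith) hk1
      have hG5 : k * (c * rj) < k * (2 * (σ - ri)) := by
        calc k * (c * rj) = c * (k * rj) := by ring
          _ ≤ _ := hG3
          _ < _ := hG4
      exact lt_of_mul_lt_mul_left hG5 hk1.le
    · have : (sj - si) * rj ≤ sj - si := by nlinarith
      linarith
  · right
    push Not at hall
    have := key K le_rfl (hall K le_rfl)
    linarith

end Pool.Agent.H42.EX.Size
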