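import Pool.Agent.H42.EX.Blk2

set_option autoImplicit false

/-!
# Project EX2: the trivial bound, and the sum over the blocks
-/

namespace Pool.Agent.H42.EX

open Finset
open Pool.Agent.H328R2.ABC (rad sum_inv_rad)
open Pool.Agent.Q38.NC

/-- The bound for a block of heights and radical at most `H ^ lam`. -/
def BLK2 (n : ℕ) (lam g : ℝ) : Prop := ∀ δ : ℝ, 0 < δ → ∃ C : ℝ, 1 ≤ C ∧ ∀ H : ℕ, 1 ≤ H →
    ∀ G : Finset (Fin n → ℤ), (∀ x ∈ G, Adm x ∧ (∀ i, (x i).natAbs ≤ H) ∧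
      (∃ i, H ≤ 2 * (x i).natAbs) ∧ PR x ≤ (H : ℝ) ^ lam) →
    (G.card : ℝ) ≤ C * (H : ℝ) ^ δ * (H : ℝ) ^ g

/-- From the blocks to all tuples. -/
theorem up_of_blk {n : ℕ} (hn : 0 < n) {lam g : ℝ} (hlam : 0 ≤ lam) (hg : 0 ≤ g) (hb : BLK2 n lam g) {ε : ℝ}
    (hε : 0 < ε) : ∃ C : ℝ, 0 ≤ C ∧ ∀ X : ℝ, 1 ≤ X → ∀ G : Finset (Fin n → ℤ),
      (∀ x ∈ G, Adm x ∧ (ht x : ℝ) ≤ X ∧ (RX x : ℝ) < (ht x : ℝ) ^ lam) →
      (G.card : ℝ) ≤ C * X ^ (g + ε) := by
  classical
  obtain ⟨C, hC, h⟩ := hb (ε / 2) (by positivity)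
  obtain ⟨Cl, hCl, hl⟩ := log_le (ε / 2) (by positivity)
  refine ⟨Cl * (C * 2 ^ (ε / 2 + g)), by positivity, ?_⟩
  intro X hX G hG
  have hX0 : 0 < X := by linarith
  have hfl : 1 ≤ ⌊X⌋₊ := (Nat.one_le_floor_iff _).2 hX
  have hcl := card_classes G (range (Nat.log 2 ⌊X⌋₊ + 1)) (fun k x => Nat.log 2 (ht x) = k) (by
      intro x hx
      refine ⟨Nat.log 2 (ht x), ?_, rfl⟩
      rw [mem_range, Nat.lt_succ_iff]
      exact Nat.log_mono_right (Nat.le_floor (hG x hx).2.1))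
    (B := C * 2 ^ (ε / 2 + g) * X ^ (ε / 2 + g)) (by
      intro k hk G' hG'
      rcases G'.eq_empty_or_nonempty with h0 | ⟨x₀, hx₀⟩
      · rw [h0, card_empty, Nat.cast_zero]; positivity
      obtain ⟨H, hH⟩ : ∃ H : ℕ, H = 2 ^ (k + 1) := ⟨_, rfl⟩
      have hH1 : 1 ≤ H := by rw [hH]; exact Nat.one_le_two_pow
      have hH0 : (0 : ℝ) < H := by exact_mod_cast hH1
      have hHX : (H : ℝ) ≤ 2 * X := by
        obtain ⟨g1, g2⟩ := hG' x₀ hx₀
        obtain ⟨k1, k2, -⟩ := hG x₀ g1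
        have h3 := Nat.pow_log_le_self 2 (ht_pos hn k1).ne'
        rw [g2] at h3
        have h4 : ((2 ^ k : ℕ) : ℝ) ≤ (ht x₀ : ℝ) := by exact_mod_cast h3
        rw [hH, pow_succ]
        push_cast at h4 ⊢
        linarith
      refine (h H hH1 G' ?_).trans ?_
      · intro x hx
        obtain ⟨g1, g2⟩ := hG' x hx
        obtain ⟨k1, k2, k3⟩ := hG x g1
        have hpos := ht_pos hn k1
        have hlt : ht x < H := by
          rw [hH, ← g2]
          exact Nat.lt_pow_succ_log_self (by norm_num) _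
        refine ⟨k1, fun i => (le_ht x i).trans hlt.le, ?_, ?_⟩
        · obtain ⟨i, hi⟩ := exists_ht hn x
          refine ⟨i, ?_⟩
          rw [hi, hH, pow_succ, mul_comm]
          refine Nat.mul_le_mul_left _ ?_
          rw [← g2]
          exact Nat.pow_log_le_self 2 hpos.ne'
        · rw [← RX_eq k1.cop]
          exact k3.le.trans (Real.rpow_le_rpow (Nat.cast_nonneg _) (by exact_mod_cast hlt.le) hlam)
      · calc C * (H : ℝ) ^ (ε / 2) * (H : ℝ) ^ g = C * (H : ℝ) ^ (ε / 2 + g) := by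
              rw [mul_assoc, ← Real.rpow_add hH0]
          _ ≤ C * (2 * X) ^ (ε / 2 + g) := by
              apply mul_le_mul_of_nonneg_left _ (by linarith)
              exact Real.rpow_le_rpow hH0.le hHX (by positivity)
          _ = C * 2 ^ (ε / 2 + g) * X ^ (ε / 2 + g) := by
              rw [Real.mul_rpow (by norm_num) hX0.le]; ring)
  refine hcl.trans ?_
  rw [card_range]
  push_cast
  have h1 : (Nat.log 2 ⌊X⌋₊ : ℝ) + 1 ≤ Cl * X ^ (ε / 2) := by
    refine (hl _ hfl).trans ?_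
    apply mul_le_mul_of_nonneg_left _ (by linarith)
    exact Real.rpow_le_rpow (Nat.cast_nonneg _) (Nat.floor_le hX0.le) (by positivity)
  calc ((Nat.log 2 ⌊X⌋₊ : ℝ) + 1) * (C * 2 ^ (ε / 2 + g) * X ^ (ε / 2 + g)) ≤
        (Cl * X ^ (ε / 2)) * (C * 2 ^ (ε / 2 + g) * X ^ (ε / 2 + g)) :=
        mul_le_mul_of_nonneg_right h1 (by positivity)
    _ = Cl * (C * 2 ^ (ε / 2 + g)) * (X ^ (ε / 2) * X ^ (ε / 2 + g)) := by ring
    _ = _ := by
        rw [← Real.rpow_add hX0]
        congr 2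
        ring

theorem cof_all {m : ℕ} (hm : m ≠ 0) {H : ℕ} (h : m ≤ H) : cof (range (H + 1)) m = 1 := by
  unfold cof
  rw [Finset.prod_eq_one]
  intro p hp
  exfalso
  obtain ⟨hp1, hp2⟩ := mem_filter.1 hp
  apply hp2
  rw [mem_range, Nat.lt_succ_iff]
  have h1 := Nat.factorization_lt p hm
  omega

/-- The trivial bound. -/
theorem blk_trivial {n : ℕ} (hn : 2 ≤ n) (lam : ℝ) :
    BLK2 n lam (((n : ℝ) - 1) / n * lam) := by
  classical
  intro δ hδ
  have hn0 : (0 : ℝ) < n := by exact_mod_cast (by omega : 0 < n)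
  obtain ⟨Cs, hCs, ps⟩ := SS_le (δ / n) (by positivity)
  refine ⟨n * Cs ^ n, ?_, ?_⟩
  · have h1 : (1 : ℝ) ≤ n := by exact_mod_cast (by omega : 1 ≤ n)
    exact one_le_mul_of_one_le_of_one_le h1 (one_le_pow₀ hCs)
  intro H hH G hG
  have hH0 : (0 : ℝ) < H := by exact_mod_cast hH
  have hH1 : (1 : ℝ) ≤ H := by exact_mod_cast hH
  have hSS : 0 ≤ SS H := sum_nonneg fun _ _ => by positivity
  have hne : Nonempty (Fin n) := ⟨⟨0, by omega⟩⟩
  obtain ⟨B, hB⟩ : ∃ B : ℝ, B = (H : ℝ) ^ (((n : ℝ) - 1) / n * lam) := ⟨_, rfl⟩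
  have hB0 : 0 ≤ B := by rw [hB]; positivity
  have hcl := card_classes G (univ : Finset (Fin n))
    (fun j x => ∀ i, rad (x i).natAbs ≤ rad (x j).natAbs) (by
      intro x hx
      obtain ⟨j, hj⟩ := Finite.exists_max fun i : Fin n => rad (x i).natAbs
      exact ⟨j, mem_univ _, hj⟩)
    (B := B * SS H ^ n) (by
      intro j _ G' hG'
      refine cellD (fun t => if t = j then range (H + 1) else ∅) hB0 G'
        (fun x hx => ⟨(hG x (hG' x hx).1).1.ne, (hG x (hG' x hx).1).2.1⟩) ?_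
      intro x hx
      obtain ⟨hxG, hxj⟩ := hG' x hx
      obtain ⟨x1, x2, -, x4⟩ := hG x hxG
      obtain ⟨D, hD⟩ : ∃ D : Fin n → Finset ℕ, D = fun t => if t = j then range (H + 1) else ∅ := ⟨_, rfl⟩
      rw [← hD]
      have hDj : D j = range (H + 1) := by rw [hD]; simp
      have hDt : ∀ t, t ≠ j → D t = ∅ := fun t ht => by rw [hD]; simp [ht]
      -- the fibre has one element
      have hone : ((G'.filter fun y => codeD D y = codeD D x).card : ℝ) ≤ 1 := by
        have h1 : (G'.filter fun y => codeD D y = codeD D x).card ≤ 1 := by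
          rw [card_le_one]
          intro y hy z hz
          obtain ⟨hy1, hy2⟩ := mem_filter.1 hy
          obtain ⟨hz1, hz2⟩ := mem_filter.1 hz
          have ya := (hG y (hG' y hy1).1).1
          have za := (hG z (hG' z hz1).1).1
          have hag : ∀ t, t ≠ j → y t = z t := fun t ht =>
            codeD_agree D ya.ne za.ne (hy2.trans hz2.symm) (hDt t ht)
          have hsum : ∑ t ∈ univ.erase j, y t = ∑ t ∈ univ.erase j, z t :=
            sum_congr rfl fun t ht => hag t (ne_of_mem_erase ht)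
          have e1 := ya.sum
          have e2 := za.sum
          rw [← add_sum_erase _ _ (mem_univ j)] at e1 e2
          funext t
          by_cases ht : t = j
          · rw [ht]; linarith
          · exact hag t ht
        exact_mod_cast h1
      have hPR := PR_codeD' D {j} (fun t ht => hDt t (by simpa using ht)) x1.ne
      rw [prod_singleton, hDj] at hPR
      have hrad := rad_eq (range (H + 1)) (x j).natAbs
      rw [cof_all (Int.natAbs_ne_zero.2 (x1.ne j)) (x2 j)] at hrad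
      have hr1 : rad 1 = 1 := by simp [rad]
      rw [hr1, one_mul] at hrad
      have hr : ∏ k ∈ range (H + 1), (bk k (x j).natAbs : ℝ) = (rad (x j).natAbs : ℝ) := by
        rw [hrad]; push_cast; rfl
      rw [hr] at hPR
      have hrj : (0 : ℝ) < (rad (x j).natAbs : ℝ) := by exact_mod_cast rad_pos _
      have hP0 := PR_pos x
      have hPc := PR_pos (codeD D x)
      -- the largest radical
      have hmax : PR x ≤ (rad (x j).natAbs : ℝ) ^ (n : ℝ) := by
        rw [Real.rpow_natCast]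
        unfold PR
        calc ∏ i, (rad (x i).natAbs : ℝ) ≤ ∏ _i : Fin n, (rad (x j).natAbs : ℝ) :=
              prod_le_prod (fun _ _ => Nat.cast_nonneg _) fun i _ => by exact_mod_cast hxj i
          _ = (rad (x j).natAbs : ℝ) ^ n := by simp
      have h2 : PR x ^ (1 / (n : ℝ)) ≤ rad (x j).natAbs := by
        calc PR x ^ (1 / (n : ℝ)) ≤ ((rad (x j).natAbs : ℝ) ^ (n : ℝ)) ^ (1 / (n : ℝ)) :=
              Real.rpow_le_rpow hP0.le hmax (by positivity)
          _ = (rad (x j).natAbs : ℝ) := by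
              rw [← Real.rpow_mul hrj.le, mul_one_div_cancel hn0.ne', Real.rpow_one]
      have h3 : PR (codeD D x) ≤ PR x ^ (((n : ℝ) - 1) / n) := by
        have e1 : PR x ^ (((n : ℝ) - 1) / n) * PR x ^ (1 / (n : ℝ)) = PR x := by
          rw [← Real.rpow_add hP0]
          have : ((n : ℝ) - 1) / n + 1 / n = 1 := by field_simp; ring
          rw [this, Real.rpow_one]
        have e2 : PR (codeD D x) * PR x ^ (1 / (n : ℝ)) ≤ PR x ^ (((n : ℝ) - 1) / n) * PR x ^ (1 / (n : ℝ)) := by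
          rw [e1]
          calc PR (codeD D x) * PR x ^ (1 / (n : ℝ)) ≤ PR (codeD D x) * rad (x j).natAbs :=
                mul_le_mul_of_nonneg_left h2 hPc.le
            _ = PR x := hPR.symm
        exact le_of_mul_le_mul_right e2 (by positivity)
      have hn1 : 0 ≤ ((n : ℝ) - 1) / n := by
        have : (1 : ℝ) ≤ n := by exact_mod_cast (by omega : 1 ≤ n)
        exact div_nonneg (by linarith) hn0.le
      calc ((G'.filter fun y => codeD D y = codeD D x).card : ℝ) * PR (codeD D x) ≤ 1 * PR (codeD D x) :=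
            mul_le_mul_of_nonneg_right hone hPc.le
        _ = PR (codeD D x) := one_mul _
        _ ≤ PR x ^ (((n : ℝ) - 1) / n) := h3
        _ ≤ ((H : ℝ) ^ lam) ^ (((n : ℝ) - 1) / n) := Real.rpow_le_rpow hP0.le x4 hn1
        _ = B := by rw [hB, ← Real.rpow_mul hH0.le, mul_comm])
  refine hcl.trans ?_
  rw [card_univ, Fintype.card_fin]
  have k2 : SS H ^ n ≤ Cs ^ n * (H : ℝ) ^ δ := by
    calc SS H ^ n ≤ (Cs * (H : ℝ) ^ (δ / n)) ^ n := pow_le_pow_left₀ hSS (ps H hH) n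
      _ = Cs ^ n * ((H : ℝ) ^ (δ / n)) ^ n := by rw [mul_pow]
      _ = Cs ^ n * (H : ℝ) ^ δ := by
          rw [← Real.rpow_natCast ((H : ℝ) ^ (δ / n)), ← Real.rpow_mul hH0.le, div_mul_cancel₀ _ hn0.ne']
  calc (n : ℝ) * (B * SS H ^ n) ≤ (n : ℝ) * (B * (Cs ^ n * (H : ℝ) ^ δ)) := by gcongr
    _ = n * Cs ^ n * (H : ℝ) ^ δ * (H : ℝ) ^ (((n : ℝ) - 1) / n * lam) := by rw [hB]; ring

end Pool.Agent.H42.EX
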